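import Mathlib

set_option autoImplicit false

/-!
# Montel theorem along ultrafilters and Hurwitz theorem
-/

namespace Pool.Agent.H83.Lo

open Complex Metric Set Filter Topology

/-- Bounded holomorphic functions are Lipschitz near a point. -/
lemma lip_of_bdd {U : Set ℂ} (hU : IsOpen U) {f : ℂ → ℂ} (hf : DifferentiableOn ℂ f U) {M : ℝ}
    (hM : ∀ z ∈ U, ‖f z‖ ≤ M) {x : ℂ} {r : ℝ} (hr : 0 < r) (hx : closedBall x (2 * r) ⊆ U)
    {y y' : ℂ} (hy : y ∈ closedBall x r) (hy' : y' ∈ closedBall x r) :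
    ‖f y - f y'‖ ≤ M / r * ‖y - y'‖ := by
  have hsub : ∀ z ∈ closedBall x r, closedBall z r ⊆ U := by
    intro z hz
    refine Subset.trans ?_ hx
    apply closedBall_subset_closedBall'
    rw [mem_closedBall] at hz
    linarith
  apply (convex_closedBall x r).norm_image_sub_le_of_norm_hasDerivWithin_le
    (f' := deriv f) (C := M / r) _ _ hy' hy
  · intro z hz
    exact (hf.differentiableAt (hU.mem_nhds (hsub z hz (mem_closedBall_self hr.le)))).hasDerivAt.hasDerivWithinAt
  · intro z hz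
    apply Complex.norm_deriv_le_of_forall_mem_sphere_norm_le hr
    · apply DifferentiableOn.diffContOnCl
      apply hf.mono
      rw [closure_ball _ hr.ne']
      exact hsub z hz
    · intro w hw
      exact hM w (hsub z hz (sphere_subset_closedBall hw))

/-- Montel theorem along an ultrafilter. -/
theorem montel {ι : Type*} (φ : Ultrafilter ι) {U : Set ℂ} (hU : IsOpen U) {F : ι → ℂ → ℂ}
    (hF : ∀ n, DifferentiableOn ℂ (F n) U) {M : ℝ} (hM : ∀ n, ∀ z ∈ U, ‖F n z‖ ≤ M) :
    ∃ g : ℂ → ℂ, TendstoLocallyUniformlyOn F g φ U ∧ DifferentiableOn ℂ g U ∧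
      ∀ z ∈ U, ‖g z‖ ≤ M := by
  have h1 : ∀ z : ℂ, ∃ a : ℂ, z ∈ U → (‖a‖ ≤ M ∧ Tendsto (fun n => F n z) φ (𝓝 a)) := by
    intro z
    by_cases hz : z ∈ U
    · have hK : IsCompact (closedBall (0 : ℂ) M) := isCompact_closedBall _ _
      have h2 : (φ.map (fun n => F n z) : Filter ℂ) ≤ 𝓟 (closedBall (0 : ℂ) M) := by
        rw [le_principal_iff]
        change ∀ᶠ n in (φ : Filter ι), F n z ∈ closedBall (0 : ℂ) M
        exact Eventually.of_forall (fun n => by rw [mem_closedBall_zero_iff]; exact hM n z hz)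
      obtain ⟨a, ha, ha2⟩ := hK.ultrafilter_le_nhds _ h2
      exact ⟨a, fun _ => ⟨by simpa using ha, ha2⟩⟩
    · exact ⟨0, fun h => absurd h hz⟩
  choose g hg using h1
  have h3 : TendstoLocallyUniformlyOn F g φ U := by
    rw [Metric.tendstoLocallyUniformlyOn_iff]
    intro ε hε x hx
    obtain ⟨ρ, hρ, hρU⟩ := Metric.isOpen_iff.1 hU x hx
    set r : ℝ := ρ / 4 with hr
    have hr0 : 0 < r := by positivity
    have hsub : closedBall x (2 * r) ⊆ U := by
      refine Subset.trans ?_ hρU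
      apply closedBall_subset_ball
      linarith
    have hM0 : 0 ≤ M := by
      have := (hg x hx).1
      exact le_trans (norm_nonneg _) this
    set η : ℝ := min r (ε * r / (3 * (M + 1))) with hη
    have hη0 : 0 < η := by
      apply lt_min hr0
      positivity
    have hlip : ∀ n, ∀ y ∈ ball x η, ‖F n y - F n x‖ ≤ ε / 3 := by
      intro n y hy
      have hy1 : ‖y - x‖ ≤ η := by
        rw [mem_ball, dist_eq_norm] at hy
        exact hy.le
      have h4 := lip_of_bdd hU (hF n) (hM n) hr0 hsub (y := y) (y' := x)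
        (by rw [mem_closedBall, dist_eq_norm]; exact hy1.trans (min_le_left _ _))
        (mem_closedBall_self hr0.le)
      calc ‖F n y - F n x‖ ≤ M / r * ‖y - x‖ := h4
        _ ≤ M / r * (ε * r / (3 * (M + 1))) := by
            gcongr
            exact hy1.trans (min_le_right _ _)
        _ = (M / (M + 1)) * (ε / 3) := by
            field_simp
        _ ≤ 1 * (ε / 3) := by
            gcongr
            rw [div_le_one (by linarith)]
            linarith
        _ = ε / 3 := one_mul _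
    have hlip2 : ∀ y ∈ ball x η, y ∈ U → ‖g y - g x‖ ≤ ε / 3 := by
      intro y hy hyU
      apply le_of_tendsto (((hg y hyU).2.sub (hg x hx).2).norm)
      exact Eventually.of_forall (fun n => hlip n y hy)
    refine ⟨ball x η ∩ U, inter_mem (mem_nhdsWithin_of_mem_nhds (ball_mem_nhds x hη0))
      self_mem_nhdsWithin, ?_⟩
    have h5 : ∀ᶠ n in (φ : Filter ι), dist (F n x) (g x) < ε / 3 :=
      (Metric.tendsto_nhds.1 (hg x hx).2) (ε / 3) (by positivity)
    filter_upwards [h5] with n hn y hy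
    rw [dist_eq_norm] at hn ⊢
    calc ‖g y - F n y‖ = ‖(g y - g x) - (F n y - F n x) - (F n x - g x)‖ := by congr 1; ring
      _ ≤ ‖g y - g x‖ + ‖F n y - F n x‖ + ‖F n x - g x‖ := by
          refine (norm_sub_le _ _).trans ?_
          gcongr
          exact norm_sub_le _ _
      _ < ε / 3 + ε / 3 + ε / 3 := by
          have := hlip2 y hy.1 hy.2
          have := hlip n y hy.1
          linarith
      _ = ε := by ring
  refine ⟨g, h3, h3.differentiableOn (Eventually.of_forall hF) hU, fun z hz => (hg z hz).1⟩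

/-- Local Hurwitz theorem: values of a nonconstant limit are attained. -/
theorem hurwitz_local {ι : Type*} {φ : Filter ι} [φ.NeBot] {U : Set ℂ} (hU : IsOpen U)
    {F : ι → ℂ → ℂ} {g : ℂ → ℂ} (hF : ∀ n, DifferentiableOn ℂ (F n) U)
    (hlim : TendstoLocallyUniformlyOn F g φ U) {z₀ : ℂ} (hz₀ : z₀ ∈ U)
    (hnc : ¬ ∀ᶠ z in 𝓝 z₀, g z = g z₀) {δ : ℝ} (hδ : 0 < δ) :
    ∀ᶠ n in φ, ∃ z ∈ ball z₀ δ, F n z = g z₀ := by
  have hg : DifferentiableOn ℂ g U := hlim.differentiableOn (Eventually.of_forall hF) hU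
  have han : AnalyticAt ℂ g z₀ := hg.analyticAt (hU.mem_nhds hz₀)
  have hiso : ∀ᶠ z in 𝓝[≠] z₀, g z ≠ g z₀ := by
    rcases han.eventually_eq_or_eventually_ne (analyticAt_const (v := g z₀)) with h | h
    · exact absurd h hnc
    · exact h
  rw [eventually_nhdsWithin_iff, Metric.eventually_nhds_iff] at hiso
  obtain ⟨ε₀, hε₀, hiso⟩ := hiso
  obtain ⟨ρ, hρ, hρU⟩ := Metric.isOpen_iff.1 hU z₀ hz₀
  set δ' : ℝ := min (min δ ε₀) ρ / 2 with hδ'
  have hm : 0 < min (min δ ε₀) ρ := lt_min (lt_min hδ hε₀) hρ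
  have hδ'pos : 0 < δ' := by positivity
  have hδ'1 : δ' < δ := by
    have : min (min δ ε₀) ρ ≤ δ := (min_le_left _ _).trans (min_le_left _ _)
    linarith
  have hδ'2 : δ' < ε₀ := by
    have : min (min δ ε₀) ρ ≤ ε₀ := (min_le_left _ _).trans (min_le_right _ _)
    linarith
  have hδ'3 : δ' < ρ := by
    have : min (min δ ε₀) ρ ≤ ρ := min_le_right _ _
    linarith
  have hsub1 : closedBall z₀ δ' ⊆ U := (closedBall_subset_ball hδ'3).trans hρU
  have hunif : TendstoUniformlyOn F g φ (closedBall z₀ δ') :=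
    (tendstoLocallyUniformlyOn_iff_forall_isCompact hU).1 hlim _ hsub1 (isCompact_closedBall _ _)
  have hcomp : IsCompact (sphere z₀ δ') := isCompact_sphere z₀ δ'
  have hne : (sphere z₀ δ').Nonempty := NormedSpace.sphere_nonempty.2 hδ'pos.le
  have hcont : ContinuousOn (fun z => ‖g z - g z₀‖) (sphere z₀ δ') :=
    ((hg.continuousOn.mono (sphere_subset_closedBall.trans hsub1)).sub continuousOn_const).norm
  obtain ⟨z₁, hz₁, hmin⟩ := hcomp.exists_isMinOn hne hcont
  have hpos : 0 < ‖g z₁ - g z₀‖ := by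
    rw [norm_pos_iff, sub_ne_zero]
    apply hiso
    · rw [mem_sphere.1 hz₁]; exact hδ'2
    · intro h
      have h2 : z₁ = z₀ := h
      rw [mem_sphere, h2, dist_self] at hz₁
      exact hδ'pos.ne hz₁
  set ε := ‖g z₁ - g z₀‖ / 2 with hε
  have hεpos : 0 < ε := by positivity
  have hUn := (Metric.tendstoUniformlyOn_iff.1 hunif) (ε / 2) (by positivity)
  filter_upwards [hUn] with n hn
  have hz₀' : z₀ ∈ closedBall z₀ δ' := mem_closedBall_self hδ'pos.le
  have hsph : ∀ z ∈ sphere z₀ δ', ε ≤ ‖F n z - F n z₀‖ := by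
    intro z hz
    have h1 := hn z (sphere_subset_closedBall hz)
    have h2 := hn z₀ hz₀'
    have h3 : ‖g z₁ - g z₀‖ ≤ ‖g z - g z₀‖ := hmin hz
    rw [dist_eq_norm] at h1 h2
    have h4 : ‖g z - g z₀‖ ≤ ‖g z - F n z‖ + ‖F n z - F n z₀‖ + ‖g z₀ - F n z₀‖ := by
      calc ‖g z - g z₀‖ = ‖(g z - F n z) + (F n z - F n z₀) - (g z₀ - F n z₀)‖ := by
            congr 1; ring
        _ ≤ ‖(g z - F n z) + (F n z - F n z₀)‖ + ‖g z₀ - F n z₀‖ := norm_sub_le _ _
        _ ≤ _ := by gcongr; exact norm_add_le _ _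
    have h5 : ‖g z₁ - g z₀‖ = 2 * ε := by rw [hε]; ring
    linarith
  have hd : DifferentiableOn ℂ (F n) (closedBall z₀ δ') := (hF n).mono hsub1
  have hdc : DiffContOnCl ℂ (F n) (ball z₀ δ') := by
    apply DifferentiableOn.diffContOnCl
    rwa [closure_ball _ hδ'pos.ne']
  have hfr : ∃ᶠ z in 𝓝 z₀, F n z ≠ F n z₀ := by
    intro hcon
    have hcon2 : F n =ᶠ[𝓝 z₀] fun _ => F n z₀ := by
      filter_upwards [hcon] with z hz
      by_contra h
      exact hz h
    obtain ⟨δ'', hδ''1, hδ''2⟩ : ∃ δ'', δ' < δ'' ∧ δ'' < ρ := exists_between hδ'3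
    have hb : DifferentiableOn ℂ (F n) (ball z₀ δ'') :=
      (hF n).mono ((ball_subset_ball hδ''2.le).trans hρU)
    have heq : EqOn (F n) (fun _ => F n z₀) (ball z₀ δ'') :=
      (hb.analyticOnNhd isOpen_ball).eqOn_of_preconnected_of_eventuallyEq analyticOnNhd_const
        (convex_ball _ _).isPreconnected (mem_ball_self (hδ'pos.trans hδ''1)) hcon2
    have h6 := hsph z₁ hz₁
    have h7 : F n z₁ = F n z₀ := heq (by
      rw [mem_ball, mem_sphere.1 hz₁]; exact hδ''1)
    rw [h7, sub_self, norm_zero] at h6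
    linarith
  have himg := hdc.ball_subset_image_closedBall hδ'pos hsph hfr
  have hmem : g z₀ ∈ ball (F n z₀) (ε / 2) := hn z₀ hz₀'
  obtain ⟨z, hz, hfz⟩ := himg hmem
  exact ⟨z, closedBall_subset_ball hδ'1 hz, hfz⟩

/-- Hurwitz: a nonconstant locally uniform limit of injective holomorphic functions is
injective. -/
theorem hurwitz_inj {ι : Type*} {φ : Filter ι} [φ.NeBot] {U : Set ℂ} (hU : IsOpen U)
    (hc : IsPreconnected U) {F : ι → ℂ → ℂ} {g : ℂ → ℂ} (hF : ∀ n, DifferentiableOn ℂ (F n) U)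
    (hinj : ∀ n, InjOn (F n) U) (hlim : TendstoLocallyUniformlyOn F g φ U) {z₀ : ℂ} (hz₀ : z₀ ∈ U)
    (hnc : ¬ ∀ᶠ z in 𝓝 z₀, g z = g z₀) : InjOn g U := by
  have hg : DifferentiableOn ℂ g U := hlim.differentiableOn (Eventually.of_forall hF) hU
  have hnc' : ∀ a ∈ U, ¬ ∀ᶠ z in 𝓝 a, g z = g a := by
    intro a ha h
    have heq : EqOn g (fun _ => g a) U :=
      (hg.analyticOnNhd hU).eqOn_of_preconnected_of_eventuallyEq analyticOnNhd_const hc ha h
    apply hnc
    filter_upwards [hU.mem_nhds hz₀] with z hz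
    rw [heq hz, heq hz₀]
  intro a ha b hb hab
  by_contra hne
  have hd : 0 < dist a b := dist_pos.2 hne
  obtain ⟨ρ, hρ, hρU⟩ := Metric.isOpen_iff.1 hU a ha
  set δ := min (dist a b) ρ with hδ
  have hδ0 : 0 < δ := lt_min hd hρ
  have hlim2 : TendstoLocallyUniformlyOn (fun n z => F n z - F n b) (fun z => g z - g b) φ U := by
    rw [Metric.tendstoLocallyUniformlyOn_iff] at hlim ⊢
    intro ε hε x hx
    obtain ⟨t, ht, h1⟩ := hlim (ε / 2) (by positivity) x hx
    obtain ⟨t', ht', h2⟩ := hlim (ε / 2) (by positivity) b hb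
    refine ⟨t, ht, ?_⟩
    filter_upwards [h1, h2] with n hn1 hn2 y hy
    have h3 := hn1 y hy
    have h4 := hn2 b (mem_of_mem_nhdsWithin hb ht')
    rw [dist_eq_norm] at h3 h4 ⊢
    calc ‖g y - g b - (F n y - F n b)‖ = ‖(g y - F n y) - (g b - F n b)‖ := by congr 1; ring
      _ ≤ ‖g y - F n y‖ + ‖g b - F n b‖ := norm_sub_le _ _
      _ < ε := by linarith
  have h5 := hurwitz_local (φ := φ) hU (F := fun n z => F n z - F n b) (g := fun z => g z - g b)
    (fun n => (hF n).sub_const _) hlim2 ha (fun h => hnc' a ha (by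
      filter_upwards [h] with z hz
      have : g z = g a := by linear_combination hz
      exact this)) hδ0
  obtain ⟨n, z, hz, hzn⟩ := h5.exists
  have h6 : F n z = F n b := by
    simp only [hab, sub_self] at hzn
    exact sub_eq_zero.1 hzn
  have hzU : z ∈ U := hρU (ball_subset_ball (min_le_right _ _) hz)
  have h7 : z = b := hinj n hzU hb h6
  rw [h7, mem_ball, dist_comm] at hz
  exact absurd hz (not_lt.2 (min_le_left _ _))

end Pool.Agent.H83.Lo
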