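import Pool.Agent.H83.Lo.Inj
import Pool.Agent.H83.Lo.Montel

set_option autoImplicit false

/-!
# The Riemann mapping theorem

For a connected open set which is not the whole plane and on which every zero-free holomorphic
function has a holomorphic square root.
-/

namespace Pool.Agent.H83.Lo

open Complex Metric Set Filter Topology

/-- every zero-free holomorphic function has a holomorphic square root -/
def HasSqrt (U : Set ℂ) : Prop :=
  ∀ f : ℂ → ℂ, DifferentiableOn ℂ f U → (∀ z ∈ U, f z ≠ 0) →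
    ∃ h : ℂ → ℂ, DifferentiableOn ℂ h U ∧ ∀ z ∈ U, h z ^ 2 = f z

/-- Moebius transformation of the disc -/
noncomputable def mob (w z : ℂ) : ℂ := (z - w) / (1 - (starRingEnd ℂ) w * z)

lemma mob_den_ne {w z : ℂ} (hw : ‖w‖ < 1) (hz : ‖z‖ < 1) : 1 - (starRingEnd ℂ) w * z ≠ 0 := by
  intro h
  have h1 : (starRingEnd ℂ) w * z = 1 := by linear_combination -h
  have h2 : ‖(starRingEnd ℂ) w * z‖ = 1 := by rw [h1, norm_one]
  rw [norm_mul, RCLike.norm_conj] at h2
  have h3 : ‖w‖ * ‖z‖ < 1 := by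
    calc ‖w‖ * ‖z‖ ≤ ‖w‖ * 1 := by gcongr
      _ < 1 := by linarith
  linarith

lemma mob_identity (w z : ℂ) : ‖1 - (starRingEnd ℂ) w * z‖ ^ 2 - ‖z - w‖ ^ 2 =
    (1 - ‖z‖ ^ 2) * (1 - ‖w‖ ^ 2) := by
  simp only [← Complex.normSq_eq_norm_sq, Complex.normSq_apply, Complex.sub_re, Complex.sub_im,
    Complex.mul_re, Complex.mul_im, Complex.conj_re, Complex.conj_im, Complex.one_re,
    Complex.one_im]
  ring

lemma norm_mob_lt {w z : ℂ} (hw : ‖w‖ < 1) (hz : ‖z‖ < 1) : ‖mob w z‖ < 1 := by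
  have h1 := mob_identity w z
  have h2 : 0 < ‖1 - (starRingEnd ℂ) w * z‖ := norm_pos_iff.2 (mob_den_ne hw hz)
  unfold mob
  rw [norm_div, div_lt_one h2]
  have h3 : 0 < (1 - ‖z‖ ^ 2) * (1 - ‖w‖ ^ 2) := by
    have := norm_nonneg w
    have := norm_nonneg z
    apply mul_pos <;> nlinarith
  have h4 : ‖z - w‖ ^ 2 < ‖1 - (starRingEnd ℂ) w * z‖ ^ 2 := by linarith
  exact lt_of_pow_lt_pow_left₀ 2 h2.le h4

lemma mob_inj {w z z' : ℂ} (hw : ‖w‖ < 1) (hz : ‖z‖ < 1) (hz' : ‖z'‖ < 1)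
    (h : mob w z = mob w z') : z = z' := by
  unfold mob at h
  rw [div_eq_div_iff (mob_den_ne hw hz) (mob_den_ne hw hz')] at h
  have h1 : (z - z') * (1 - (starRingEnd ℂ) w * w) = 0 := by linear_combination h
  rcases mul_eq_zero.1 h1 with h2 | h2
  · exact sub_eq_zero.1 h2
  · exact absurd h2 (mob_den_ne hw hw)

lemma hasDerivAt_mob {w z : ℂ} (hw : ‖w‖ < 1) (hz : ‖z‖ < 1) :
    HasDerivAt (mob w) ((1 - (starRingEnd ℂ) w * w) / (1 - (starRingEnd ℂ) w * z) ^ 2) z := by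
  have h1 : HasDerivAt (fun z : ℂ => z - w) 1 z := (hasDerivAt_id z).sub_const w
  have h2 : HasDerivAt (fun z : ℂ => 1 - (starRingEnd ℂ) w * z) (-((starRingEnd ℂ) w)) z := by
    have := ((hasDerivAt_id z).const_mul ((starRingEnd ℂ) w)).const_sub 1
    simpa using this
  have h3 := h1.div h2 (mob_den_ne hw hz)
  have h4 : (1 * (1 - (starRingEnd ℂ) w * z) - (z - w) * -(starRingEnd ℂ) w) /
      (1 - (starRingEnd ℂ) w * z) ^ 2 =
      (1 - (starRingEnd ℂ) w * w) / (1 - (starRingEnd ℂ) w * z) ^ 2 := by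
    congr 1
    ring
  rw [h4] at h3
  exact h3

lemma conj_mul_self_eq (w : ℂ) : (starRingEnd ℂ) w * w = ((‖w‖ ^ 2 : ℝ) : ℂ) := by
  rw [mul_comm, Complex.mul_conj, Complex.normSq_eq_norm_sq]

/-- Step 1: an injective holomorphic map into the disc, vanishing at the base point. -/
lemma exists_inj {U : Set ℂ} (hU : IsOpen U) (hsq : HasSqrt U) (hne : U ≠ univ) {z₀ : ℂ}
    (hz₀ : z₀ ∈ U) : ∃ f : ℂ → ℂ, DifferentiableOn ℂ f U ∧ InjOn f U ∧ MapsTo f U (ball 0 1) ∧
      f z₀ = 0 := by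
  obtain ⟨a, ha⟩ := (ne_univ_iff_exists_notMem U).1 hne
  have hza : ∀ z ∈ U, z - a ≠ 0 := fun z hz h => ha (by rw [← sub_eq_zero.1 h]; exact hz)
  obtain ⟨h, hh, hh2⟩ := hsq (fun z => z - a) (differentiableOn_id.sub_const a) hza
  have hh0 : ∀ z ∈ U, h z ≠ 0 := by
    intro z hz h0
    apply hza z hz
    rw [← hh2 z hz, h0]
    ring
  have hinj : InjOn h U := by
    intro z hz z' hz' heq
    have h1 := hh2 z hz
    rw [heq, hh2 z' hz'] at h1
    have : z' = z := by linear_combination h1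
    exact this.symm
  have hop := isOpen_image hU hh hinj
  obtain ⟨r, hr, hr2⟩ := Metric.isOpen_iff.1 hop (h z₀) (mem_image_of_mem h hz₀)
  have hfar : ∀ z ∈ U, r ≤ ‖h z + h z₀‖ := by
    intro z hz
    by_contra hcon
    push Not at hcon
    have h1 : -h z ∈ ball (h z₀) r := by
      rw [mem_ball, dist_eq_norm]
      calc ‖-h z - h z₀‖ = ‖-(h z + h z₀)‖ := by congr 1; ring
        _ = ‖h z + h z₀‖ := norm_neg _
        _ < r := hcon
    obtain ⟨z', hz', h2⟩ := hr2 h1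
    have h3 : z' = z := by
      have e1 := hh2 z hz
      have e2 := hh2 z' hz'
      rw [h2] at e2
      linear_combination e1 - e2
    rw [h3] at h2
    exact hh0 z hz (by linear_combination h2 / 2)
  have hne0 : ∀ z ∈ U, h z + h z₀ ≠ 0 := by
    intro z hz h0
    have := hfar z hz
    rw [h0, norm_zero] at this
    linarith
  set f : ℂ → ℂ := fun z => (r : ℂ) / (2 * (h z + h z₀)) with hf
  have hfb : ∀ z ∈ U, ‖f z‖ ≤ 1 / 2 := by
    intro z hz
    rw [hf]
    simp only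
    rw [norm_div, norm_mul, Complex.norm_real, Real.norm_eq_abs, abs_of_pos hr, Complex.norm_ofNat]
    have h1 := hfar z hz
    rw [div_le_div_iff₀ (by linarith) (by norm_num)]
    linarith
  have hfd : DifferentiableOn ℂ f U := by
    apply DifferentiableOn.div (differentiableOn_const _)
    · exact (hh.add_const _).const_mul _
    · intro z hz
      exact mul_ne_zero two_ne_zero (hne0 z hz)
  have hfi : InjOn f U := by
    intro z hz z' hz' heq
    simp only [hf] at heq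
    rw [div_eq_div_iff (mul_ne_zero two_ne_zero (hne0 z hz))
      (mul_ne_zero two_ne_zero (hne0 z' hz'))] at heq
    have hr0 : (r : ℂ) ≠ 0 := by exact_mod_cast hr.ne'
    apply hinj hz hz'
    have h5 : (2 * (r : ℂ)) * (h z - h z') = 0 := by linear_combination -heq
    rcases mul_eq_zero.1 h5 with h6 | h6
    · exact absurd h6 (mul_ne_zero two_ne_zero hr0)
    · exact sub_eq_zero.1 h6
  refine ⟨fun z => (f z - f z₀) / 2, (hfd.sub_const _).div_const _, ?_, ?_, by simp⟩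
  · intro z hz z' hz' heq
    simp only at heq
    exact hfi hz hz' (by linear_combination 2 * heq)
  · intro z hz
    simp only
    rw [mem_ball_zero_iff, norm_div, Complex.norm_ofNat]
    have := norm_sub_le (f z) (f z₀)
    have := hfb z hz
    have := hfb z₀ hz₀
    linarith

/-- The Riemann mapping theorem (existence). -/
theorem riemann_mapping {U : Set ℂ} (hU : IsOpen U) (hc : IsPreconnected U) (hsq : HasSqrt U)
    (hne : U ≠ univ) {z₀ : ℂ} (hz₀ : z₀ ∈ U) :
    ∃ f : ℂ → ℂ, DifferentiableOn ℂ f U ∧ BijOn f U (ball 0 1) ∧ f z₀ = 0 ∧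
      ∃ c : ℝ, 0 < c ∧ deriv f z₀ = c := by
  classical
  set Fam : Set (ℂ → ℂ) := {f | DifferentiableOn ℂ f U ∧ InjOn f U ∧ MapsTo f U (ball 0 1) ∧
    f z₀ = 0} with hFam
  obtain ⟨f₀, hf₀⟩ := exists_inj hU hsq hne hz₀
  obtain ⟨r, hr, hrU⟩ := Metric.isOpen_iff.1 hU z₀ hz₀
  have hbd : ∀ f ∈ Fam, ‖deriv f z₀‖ ≤ 1 / r := by
    rintro f ⟨h1, h2, h3, h4⟩
    apply Complex.norm_deriv_le_div_of_mapsTo_ball (h1.mono hrU) _ hr
    intro z hz
    rw [h4]
    exact ball_subset_closedBall (h3 (hrU hz))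
  set S : Set ℝ := (fun f => ‖deriv f z₀‖) '' Fam with hS
  have hSne : S.Nonempty := ⟨_, f₀, hf₀, rfl⟩
  have hSbd : BddAbove S := ⟨1 / r, by rintro _ ⟨f, hf, rfl⟩; exact hbd f hf⟩
  set M := sSup S with hM
  have hMpos : 0 < M := by
    have h1 : 0 < ‖deriv f₀ z₀‖ := norm_pos_iff.2 (deriv_ne_zero hU hf₀.1 hf₀.2.1 hz₀)
    exact lt_of_lt_of_le h1 (le_csSup hSbd ⟨f₀, hf₀, rfl⟩)
  have hseq : ∀ n : ℕ, ∃ f ∈ Fam, M - 1 / ((n : ℝ) + 1) < ‖deriv f z₀‖ := by
    intro n
    have h1 : M - 1 / ((n : ℝ) + 1) < M := by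
      have : (0 : ℝ) < 1 / ((n : ℝ) + 1) := by positivity
      linarith
    obtain ⟨_, ⟨f, hf, rfl⟩, h2⟩ := exists_lt_of_lt_csSup hSne h1
    exact ⟨f, hf, h2⟩
  choose F hF hFM using hseq
  obtain ⟨g, hlim, hg, hgb⟩ := montel (hyperfilter ℕ) hU (F := F) (fun n => (hF n).1) (M := 1)
    (fun n z hz => by
      have := (hF n).2.2.1 hz
      rw [mem_ball_zero_iff] at this
      exact this.le)
  have hle : ((hyperfilter ℕ : Ultrafilter ℕ) : Filter ℕ) ≤ atTop := by
    rw [← Nat.cofinite_eq_atTop]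
    exact hyperfilter_le_cofinite
  have hder : Tendsto (fun n => ‖deriv (F n) z₀‖) (hyperfilter ℕ : Ultrafilter ℕ)
      (𝓝 ‖deriv g z₀‖) :=
    ((hlim.deriv (Eventually.of_forall (fun n => (hF n).1)) hU).tendsto_at hz₀).norm
  have hgM : ‖deriv g z₀‖ = M := by
    have h1 : Tendsto (fun n => ‖deriv (F n) z₀‖) atTop (𝓝 M) := by
      apply tendsto_of_tendsto_of_tendsto_of_le_of_le (g := fun n : ℕ => M - 1 / ((n : ℝ) + 1))
        (h := fun _ => M) _ tendsto_const_nhds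
      · intro n; exact (hFM n).le
      · intro n; exact le_csSup hSbd ⟨F n, hF n, rfl⟩
      · have := (tendsto_const_nhds (x := M)).sub (tendsto_one_div_add_atTop_nhds_zero_nat (𝕜 := ℝ))
        simpa using this
    exact tendsto_nhds_unique hder (h1.mono_left hle)
  have hg0 : g z₀ = 0 := by
    have h1 := hlim.tendsto_at hz₀
    have h2 : Tendsto (fun n => F n z₀) (hyperfilter ℕ : Ultrafilter ℕ) (𝓝 0) := by
      have : (fun n => F n z₀) = fun _ => 0 := by
        funext n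
        exact (hF n).2.2.2
      rw [this]
      exact tendsto_const_nhds
    exact tendsto_nhds_unique h1 h2
  have hnc : ¬ ∀ᶠ z in 𝓝 z₀, g z = g z₀ := by
    intro h
    have h1 : deriv g z₀ = 0 := by
      have h2 : g =ᶠ[𝓝 z₀] fun _ => g z₀ := h
      rw [h2.deriv_eq]
      simp
    rw [h1, norm_zero] at hgM
    linarith
  have hginj : InjOn g U := hurwitz_inj hU hc (fun n => (hF n).1) (fun n => (hF n).2.1) hlim hz₀ hnc
  have hgmaps : MapsTo g U (ball 0 1) := by
    have h1 := isOpen_image hU hg hginj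
    have h2 : g '' U ⊆ closedBall 0 1 := by
      rintro _ ⟨z, hz, rfl⟩
      rw [mem_closedBall_zero_iff]
      exact hgb z hz
    have h3 : g '' U ⊆ interior (closedBall 0 1) := interior_maximal h2 h1
    rw [interior_closedBall _ one_ne_zero] at h3
    intro z hz
    exact h3 (mem_image_of_mem g hz)
  have hsurj : SurjOn g U (ball 0 1) := by
    intro w hw
    by_contra hwn
    rw [mem_ball_zero_iff] at hw
    have hgz : ∀ z ∈ U, ‖g z‖ < 1 := fun z hz => by simpa using hgmaps hz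
    set u : ℂ → ℂ := fun z => mob w (g z) with hu
    have hud : DifferentiableOn ℂ u U := by
      intro z hz
      exact ((hasDerivAt_mob hw (hgz z hz)).differentiableAt.comp z
        (hg.differentiableAt (hU.mem_nhds hz))).differentiableWithinAt
    have hu0 : ∀ z ∈ U, u z ≠ 0 := by
      intro z hz h0
      apply hwn
      refine ⟨z, hz, ?_⟩
      simp only [hu, mob] at h0
      rw [div_eq_zero_iff] at h0
      rcases h0 with h0 | h0
      · exact sub_eq_zero.1 h0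
      · exact absurd h0 (mob_den_ne hw (hgz z hz))
    obtain ⟨h, hhd, hh2⟩ := hsq u hud hu0
    have hhn : ∀ z ∈ U, ‖h z‖ < 1 := by
      intro z hz
      have h1 : ‖h z‖ ^ 2 < 1 := by
        rw [← norm_pow, hh2 z hz]
        exact norm_mob_lt hw (hgz z hz)
      have h2 := norm_nonneg (h z)
      nlinarith
    have hhi : InjOn h U := by
      intro z hz z' hz' heq
      have h1 : u z = u z' := by rw [← hh2 z hz, ← hh2 z' hz', heq]
      exact hginj hz hz' (mob_inj hw (hgz z hz) (hgz z' hz') h1)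
    set b := h z₀ with hb
    have hbn : ‖b‖ < 1 := hhn z₀ hz₀
    set k : ℂ → ℂ := fun z => mob b (h z) with hk
    have hkF : k ∈ Fam := by
      refine ⟨?_, ?_, ?_, ?_⟩
      · intro z hz
        exact ((hasDerivAt_mob hbn (hhn z hz)).differentiableAt.comp z
          (hhd.differentiableAt (hU.mem_nhds hz))).differentiableWithinAt
      · intro z hz z' hz' heq
        exact hhi hz hz' (mob_inj hbn (hhn z hz) (hhn z' hz') heq)
      · intro z hz
        rw [mem_ball_zero_iff]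
        exact norm_mob_lt hbn (hhn z hz)
      · simp [hk, mob, hb]
    have hle2 : ‖deriv k z₀‖ ≤ M := le_csSup hSbd ⟨k, hkF, rfl⟩
    -- computation of the derivative
    have hd1 : HasDerivAt u ((1 - (starRingEnd ℂ) w * w) * deriv g z₀) z₀ := by
      have h1 := (hasDerivAt_mob hw (hgz z₀ hz₀)).comp z₀
        (hg.differentiableAt (hU.mem_nhds hz₀)).hasDerivAt
      rw [hg0, mul_zero, sub_zero, one_pow, div_one] at h1
      exact h1
    have hd2 : HasDerivAt u (2 * b * deriv h z₀) z₀ := by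
      have h2 : HasDerivAt (fun z => h z ^ 2) (2 * b * deriv h z₀) z₀ :=
        ((hhd.differentiableAt (hU.mem_nhds hz₀)).hasDerivAt.fun_pow 2).congr_deriv (by
          simp [← hb])
      apply h2.congr_of_eventuallyEq
      filter_upwards [hU.mem_nhds hz₀] with z hz
      exact (hh2 z hz).symm
    have hd3 := hd1.unique hd2
    have hd4 : HasDerivAt k ((1 - (starRingEnd ℂ) b * b) / (1 - (starRingEnd ℂ) b * b) ^ 2 *
        deriv h z₀) z₀ :=
      (hasDerivAt_mob hbn (hhn z₀ hz₀)).comp z₀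
        (hhd.differentiableAt (hU.mem_nhds hz₀)).hasDerivAt
    have hbw : ‖b‖ ^ 2 = ‖w‖ := by
      rw [← norm_pow, hb, hh2 z₀ hz₀]
      simp [hu, mob, hg0]
    have e1 : ‖(1 : ℂ) - (starRingEnd ℂ) b * b‖ = 1 - ‖b‖ ^ 2 := by
      rw [conj_mul_self_eq, ← Complex.ofReal_one, ← Complex.ofReal_sub, Complex.norm_real,
        Real.norm_eq_abs, abs_of_pos]
      have := norm_nonneg b
      nlinarith
    have e2 : ‖(1 : ℂ) - (starRingEnd ℂ) w * w‖ = 1 - ‖w‖ ^ 2 := by
      rw [conj_mul_self_eq, ← Complex.ofReal_one, ← Complex.ofReal_sub, Complex.norm_real,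
        Real.norm_eq_abs, abs_of_pos]
      have := norm_nonneg w
      nlinarith
    have n3 : (1 - ‖w‖ ^ 2) * M = 2 * ‖b‖ * ‖deriv h z₀‖ := by
      have := congrArg norm hd3
      rw [norm_mul, norm_mul, norm_mul, e2, hgM, Complex.norm_ofNat] at this
      exact this
    have n4 : ‖deriv k z₀‖ = ‖deriv h z₀‖ / (1 - ‖b‖ ^ 2) := by
      rw [hd4.deriv, norm_mul, norm_div, norm_pow, e1]
      have : 0 < 1 - ‖b‖ ^ 2 := by
        have := norm_nonneg b
        nlinarith
      field_simp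
    have hb0 : 0 < ‖b‖ := by
      rw [norm_pos_iff]
      intro h0
      apply hu0 z₀ hz₀
      rw [← hh2 z₀ hz₀, ← hb, h0]
      ring
    have hpos2 : 0 < 1 - ‖b‖ ^ 2 := by nlinarith
    rw [n4, div_le_iff₀ hpos2] at hle2
    -- (1 - |w|^2) M = 2 |b| |h'| ≤ 2 |b| M (1 - |b|^2), with |w| = |b|^2
    rw [← hbw] at n3
    have h7 : (1 - (‖b‖ ^ 2) ^ 2) * M ≤ 2 * ‖b‖ * (M * (1 - ‖b‖ ^ 2)) := by
      rw [n3]
      gcongr
    have h8 : (1 + ‖b‖ ^ 2 - 2 * ‖b‖) * (M * (1 - ‖b‖ ^ 2)) ≤ 0 := by nlinarith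
    have h9 : 0 < (1 + ‖b‖ ^ 2 - 2 * ‖b‖) := by
      have : 1 + ‖b‖ ^ 2 - 2 * ‖b‖ = (1 - ‖b‖) ^ 2 := by ring
      rw [this]
      have : 0 < 1 - ‖b‖ := by linarith
      positivity
    have h10 : 0 < (1 + ‖b‖ ^ 2 - 2 * ‖b‖) * (M * (1 - ‖b‖ ^ 2)) := by positivity
    linarith
  -- normalise the derivative
  have hgd0 : deriv g z₀ ≠ 0 := by
    intro h0
    rw [h0, norm_zero] at hgM
    linarith
  set θ : ℂ := (starRingEnd ℂ) (deriv g z₀) / (M : ℂ) with hθ
  have hMc : (M : ℂ) ≠ 0 := by exact_mod_cast hMpos.ne'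
  have hθn : ‖θ‖ = 1 := by
    rw [hθ, norm_div, RCLike.norm_conj, hgM, Complex.norm_real, Real.norm_eq_abs,
      abs_of_pos hMpos, div_self hMpos.ne']
  have hθ0 : θ ≠ 0 := by
    rw [← norm_pos_iff, hθn]; exact one_pos
  refine ⟨fun z => θ * g z, hg.const_mul θ, ⟨?_, ?_, ?_⟩, by simp [hg0], M, hMpos, ?_⟩
  · intro z hz
    have := hgmaps hz
    rw [mem_ball_zero_iff] at this ⊢
    rwa [norm_mul, hθn, one_mul]
  · intro z hz z' hz' heq
    exact hginj hz hz' (mul_left_cancel₀ hθ0 heq)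
  · intro w hw
    have h1 : w / θ ∈ ball (0 : ℂ) 1 := by
      rw [mem_ball_zero_iff] at hw ⊢
      rwa [norm_div, hθn, div_one]
    obtain ⟨z, hz, h2⟩ := hsurj h1
    refine ⟨z, hz, ?_⟩
    simp only [h2]
    field_simp
  · have h1 := ((hg.differentiableAt (hU.mem_nhds hz₀)).hasDerivAt.const_mul θ).deriv
    rw [h1, hθ, div_mul_eq_mul_div, conj_mul_self_eq, hgM, Complex.ofReal_pow]
    field_simp

/-- Uniqueness of the normalised Riemann map. -/
theorem riemann_unique {U : Set ℂ} (hU : IsOpen U) {z₀ : ℂ} (hz₀ : z₀ ∈ U) {f₁ f₂ : ℂ → ℂ}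
    (h1 : DifferentiableOn ℂ f₁ U) (h2 : DifferentiableOn ℂ f₂ U)
    (b1 : BijOn f₁ U (ball 0 1)) (b2 : BijOn f₂ U (ball 0 1)) (e1 : f₁ z₀ = 0) (e2 : f₂ z₀ = 0)
    {c₁ c₂ : ℝ} (hc₁ : 0 < c₁) (hc₂ : 0 < c₂) (d1 : deriv f₁ z₀ = c₁) (d2 : deriv f₂ z₀ = c₂) :
    EqOn f₁ f₂ U := by
  -- transition maps
  have main : ∀ (f g : ℂ → ℂ), DifferentiableOn ℂ f U → DifferentiableOn ℂ g U →
      BijOn f U (ball 0 1) → BijOn g U (ball 0 1) → f z₀ = 0 → g z₀ = 0 → ∀ a b : ℝ, 0 < a →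
      0 < b → deriv f z₀ = a → deriv g z₀ = b →
      ∃ T : ℂ → ℂ, DifferentiableOn ℂ T (ball 0 1) ∧ MapsTo T (ball 0 1) (ball 0 1) ∧ T 0 = 0 ∧
        (∀ z ∈ U, T (f z) = g z) ∧ deriv T 0 = ((b / a : ℝ) : ℂ) := by
    intro f g hf hg bf bg ef eg a b ha hb df dg
    set i := Function.invFunOn f U with hi
    have hif : ∀ z ∈ U, i (f z) = z := fun z hz => bf.injOn.leftInvOn_invFunOn hz
    have hid : DifferentiableOn ℂ i (ball 0 1) := by
      rw [← bf.image_eq]
      exact differentiableOn_inv hU hf bf.injOn hif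
    have himaps : MapsTo i (ball 0 1) U := by
      intro w hw
      obtain ⟨z, hz, rfl⟩ := bf.surjOn hw
      rw [hif z hz]
      exact hz
    refine ⟨g ∘ i, hg.comp hid himaps, bg.mapsTo.comp himaps, ?_, ?_, ?_⟩
    · have : i 0 = z₀ := by rw [← ef]; exact hif z₀ hz₀
      simp [this, eg]
    · intro z hz
      simp [hif z hz]
    · have h0 : (0 : ℂ) ∈ ball (0 : ℂ) 1 := by simp
      have hT : DifferentiableAt ℂ (g ∘ i) (f z₀) := by
        rw [ef]
        exact (hg.comp hid himaps).differentiableAt (isOpen_ball.mem_nhds h0)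
      have hcomp : HasDerivAt ((g ∘ i) ∘ f) (deriv (g ∘ i) (f z₀) * deriv f z₀) z₀ :=
        hT.hasDerivAt.comp z₀ (hf.differentiableAt (hU.mem_nhds hz₀)).hasDerivAt
      have hcomp2 : HasDerivAt ((g ∘ i) ∘ f) (deriv g z₀) z₀ := by
        apply (hg.differentiableAt (hU.mem_nhds hz₀)).hasDerivAt.congr_of_eventuallyEq
        filter_upwards [hU.mem_nhds hz₀] with z hz
        simp [hif z hz]
      have := hcomp.unique hcomp2
      rw [df, dg, ef] at this
      have ha' : (a : ℂ) ≠ 0 := by exact_mod_cast ha.ne'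
      rw [Complex.ofReal_div]
      field_simp
      exact this
  have h0 : (0 : ℂ) ∈ ball (0 : ℂ) 1 := by simp
  have schw : ∀ T : ℂ → ℂ, DifferentiableOn ℂ T (ball 0 1) → MapsTo T (ball 0 1) (ball 0 1) →
      T 0 = 0 → ‖deriv T 0‖ ≤ 1 := by
    intro T hT hm h0'
    have := Complex.norm_deriv_le_div_of_mapsTo_ball (R₂ := 1) hT (by
      rw [h0']
      exact hm.mono_right ball_subset_closedBall) one_pos
    simpa using this
  obtain ⟨T, hT, hTm, hT0, hTf, hTd⟩ := main f₁ f₂ h1 h2 b1 b2 e1 e2 c₁ c₂ hc₁ hc₂ d1 d2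
  obtain ⟨T', hT', hTm', hT0', -, hTd'⟩ := main f₂ f₁ h2 h1 b2 b1 e2 e1 c₂ c₁ hc₂ hc₁ d2 d1
  have s1 := schw T hT hTm hT0
  have s2 := schw T' hT' hTm' hT0'
  rw [hTd, Complex.norm_real, Real.norm_eq_abs, abs_of_pos (by positivity)] at s1
  rw [hTd', Complex.norm_real, Real.norm_eq_abs, abs_of_pos (by positivity)] at s2
  have hcc : c₁ = c₂ := by
    rw [div_le_one hc₁] at s1
    rw [div_le_one hc₂] at s2
    linarith
  have hTd1 : deriv T 0 = 1 := by
    rw [hTd, hcc, div_self hc₂.ne', Complex.ofReal_one]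
  -- dslope is constant
  have hdd : DifferentiableOn ℂ (dslope T 0) (ball 0 1) :=
    (Complex.differentiableOn_dslope (isOpen_ball.mem_nhds h0)).2 hT
  have hnorm : ∀ z ∈ ball (0 : ℂ) 1, ‖dslope T 0 z‖ ≤ 1 := by
    intro z hz
    by_cases hz0 : z = 0
    · rw [hz0, dslope_same, hTd1, norm_one]
    · rw [dslope_of_ne _ hz0, slope_def_field, hT0, sub_zero, sub_zero, norm_div,
        div_le_one (norm_pos_iff.2 hz0)]
      exact Complex.norm_le_norm_of_mapsTo_ball hT (hTm.mono_right ball_subset_closedBall) hT0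
        (by simpa using hz)
  have hmax : IsMaxOn (norm ∘ dslope T 0) (ball 0 1) 0 := by
    intro z hz
    simp only [Function.comp, mem_ofPred_eq]
    rw [dslope_same, hTd1, norm_one]
    exact hnorm z hz
  have hconst := Complex.eqOn_of_isPreconnected_of_isMaxOn_norm (convex_ball (0 : ℂ) 1).isPreconnected
    isOpen_ball hdd h0 hmax
  have hTid : ∀ z ∈ ball (0 : ℂ) 1, T z = z := by
    intro z hz
    by_cases hz0 : z = 0
    · rw [hz0, hT0]
    · have h3 := hconst hz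
      simp only [Function.const] at h3
      rw [dslope_same, hTd1, dslope_of_ne _ hz0, slope_def_field, hT0, sub_zero, sub_zero,
        div_eq_one_iff_eq hz0] at h3
      exact h3
  intro z hz
  rw [← hTf z hz, hTid _ (b1.mapsTo hz)]

end Pool.Agent.H83.Lo
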