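import Pool.Agent.H83.Lo.Flat
import Pool.Agent.H83.Lo.RMT

set_option autoImplicit false

/-!
# Existence of the hydrodynamically normalised map, general case

For every connected open subset of the upper half plane which contains a neighbourhood of infinity
and on which zero-free functions have square roots.
-/

namespace Pool.Agent.H83.Lo

open Complex Metric Set Filter Topology
open scoped ComplexConjugate

/-- the Cayley transform -/
noncomputable def cay (w : ℂ) : ℂ := I * (1 + w) / (1 - w)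

lemma one_sub_ne {w : ℂ} (hw : ‖w‖ < 1) : (1 : ℂ) - w ≠ 0 := by
  intro h
  have : w = 1 := by linear_combination -h
  rw [this, norm_one] at hw
  exact lt_irrefl _ hw

lemma one_add_ne {w : ℂ} (hw : ‖w‖ < 1) : (1 : ℂ) + w ≠ 0 := by
  intro h
  have : w = -1 := by linear_combination h
  rw [this, norm_neg, norm_one] at hw
  exact lt_irrefl _ hw

lemma cay_im {w : ℂ} (_hw : (1 : ℂ) - w ≠ 0) :
    (cay w).im = (1 - ‖w‖ ^ 2) / Complex.normSq (1 - w) := by
  unfold cay
  rw [Complex.div_im, ← Complex.normSq_eq_norm_sq]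
  simp only [Complex.mul_re, Complex.mul_im, Complex.add_re, Complex.add_im, Complex.sub_re,
    Complex.sub_im, Complex.one_re, Complex.one_im, Complex.I_re, Complex.I_im,
    Complex.normSq_apply]
  ring

lemma cay_bij : BijOn cay (ball 0 1) UH := by
  refine ⟨?_, ?_, ?_⟩
  · intro w hw
    rw [mem_ball_zero_iff] at hw
    have h1 := one_sub_ne hw
    rw [mem_UH, cay_im h1]
    apply div_pos _ (Complex.normSq_pos.2 h1)
    have := norm_nonneg w
    nlinarith
  · intro w hw v hv heq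
    rw [mem_ball_zero_iff] at hw hv
    have h1 := one_sub_ne hw
    have h2 := one_sub_ne hv
    unfold cay at heq
    rw [div_eq_div_iff h1 h2] at heq
    have h3 : (2 * I) * (w - v) = 0 := by linear_combination heq
    rcases mul_eq_zero.1 h3 with h4 | h4
    · exact absurd h4 (mul_ne_zero two_ne_zero Complex.I_ne_zero)
    · exact sub_eq_zero.1 h4
  · intro z hz
    have hz' := mem_UH.1 hz
    have h1 : z + I ≠ 0 := by
      intro h
      have := congrArg Complex.im h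
      simp at this
      linarith
    refine ⟨(z - I) / (z + I), ?_, ?_⟩
    · rw [mem_ball_zero_iff, norm_div, div_lt_one (norm_pos_iff.2 h1)]
      have h2 := norm_sub_conj_sq z I
      rw [Complex.conj_I, sub_neg_eq_add, Complex.I_im, mul_one] at h2
      have h3 : ‖z - I‖ ^ 2 < ‖z + I‖ ^ 2 := by linarith
      exact lt_of_pow_lt_pow_left₀ 2 (norm_nonneg _) h3
    · unfold cay
      have h2 : (1 : ℂ) - (z - I) / (z + I) = 2 * I / (z + I) := by
        field_simp
        ring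
      have h3 : (1 : ℂ) + (z - I) / (z + I) = 2 * z / (z + I) := by
        field_simp
        ring
      rw [h2, h3]
      field_simp

lemma cay_diff : DifferentiableOn ℂ cay (ball 0 1) := by
  unfold cay
  apply DifferentiableOn.div
  · fun_prop
  · fun_prop
  · intro w hw
    rw [mem_ball_zero_iff] at hw
    exact one_sub_ne hw

/-- Logarithms on convex sets. -/
lemma exists_log_convex {S : Set ℂ} (hS : IsOpen S) (hc : Convex ℝ S) {f : ℂ → ℂ}
    (hf : DifferentiableOn ℂ f S) (hf0 : ∀ z ∈ S, f z ≠ 0) :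
    ∃ L : ℂ → ℂ, DifferentiableOn ℂ L S ∧ ∀ z ∈ S, Complex.exp (L z) = f z := by
  rcases S.eq_empty_or_nonempty with rfl | ⟨z₀, hz₀⟩
  · exact ⟨0, differentiableOn_empty, fun z hz => absurd hz (notMem_empty z)⟩
  have hfd : DifferentiableOn ℂ (fun z => deriv f z / f z) S := (hf.deriv hS).div hf hf0
  obtain ⟨L, hL'⟩ := hc.exists_forall_hasDerivWithinAt hfd
  have hL : ∀ z ∈ S, HasDerivAt L (deriv f z / f z) z :=
    fun z hz => (hL' z hz).hasDerivAt (hS.mem_nhds hz)
  have hconst : ∀ z ∈ S, Complex.exp (-L z) * f z = Complex.exp (-L z₀) * f z₀ := by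
    intro z hz
    have hd : ∀ w ∈ S, HasDerivAt (fun w => Complex.exp (-L w) * f w) 0 w := by
      intro w hw
      have h1 := ((hL w hw).neg.cexp).mul (hf.differentiableAt (hS.mem_nhds hw)).hasDerivAt
      have h2 : Complex.exp (-L w) * -(deriv f w / f w) * f w + Complex.exp (-L w) * deriv f w
          = 0 := by
        have := hf0 w hw
        field_simp
        ring
      exact h1.congr_deriv h2
    exact hS.is_const_of_deriv_eq_zero hc.isPreconnected
      (fun w hw => (hd w hw).differentiableAt.differentiableWithinAt)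
      (fun w hw => (hd w hw).deriv) hz hz₀
  set c : ℂ := Complex.exp (-L z₀) * f z₀ with hcdef
  have hc0 : c ≠ 0 := mul_ne_zero (Complex.exp_ne_zero _) (hf0 z₀ hz₀)
  refine ⟨fun z => L z + Complex.log c, ?_, ?_⟩
  · intro z hz
    exact ((hL z hz).differentiableAt.add_const _).differentiableWithinAt
  · intro z hz
    simp only
    rw [Complex.exp_add, Complex.exp_log hc0, ← hconst z hz, ← mul_assoc, ← Complex.exp_add,
      add_neg_cancel, Complex.exp_zero, one_mul]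

lemma neg_inv_mem_UH {z : ℂ} (hz : z ∈ UH) : -z⁻¹ ∈ UH := by
  have h0 : z ≠ 0 := by
    intro h
    rw [h, mem_UH] at hz
    simp at hz
  rw [mem_UH, Complex.neg_im, Complex.inv_im]
  have h1 := mem_UH.1 hz
  have h2 : 0 < Complex.normSq z := Complex.normSq_pos.2 h0
  have h3 : -(-z.im / Complex.normSq z) = z.im / Complex.normSq z := by ring
  rw [h3]
  positivity

/-- **General existence theorem.** -/
theorem exists_hyd_of_sqrt {U : Set ℂ} (hUo : IsOpen U) (hUc : IsPreconnected U)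
    (hsq : HasSqrt U) (hsub : U ⊆ UH) (hfar : ∃ R : ℝ, ∀ z : ℂ, R < ‖z‖ → z ∈ UH → z ∈ U) :
    ∃ (g : ℂ → ℂ) (c : ℝ), Hyd U g c := by
  obtain ⟨R₀, hR₀⟩ := hfar
  set R : ℝ := max R₀ 0 + 1 with hR
  have hR0 : 0 < R := by positivity
  have hfarU : ∀ z : ℂ, R ≤ ‖z‖ → z ∈ UH → z ∈ U := fun z h1 h2 => hR₀ z (by
    have := le_max_left R₀ 0
    linarith) h2
  have hz₀ : (R * I : ℂ) ∈ U := by
    apply hfarU
    · rw [norm_mul, Complex.norm_I, mul_one, Complex.norm_real, Real.norm_eq_abs, abs_of_pos hR0]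
    · rw [mem_UH]
      simpa using hR0
  have hne : U ≠ univ := by
    intro h
    have : (0 : ℂ) ∈ U := by rw [h]; exact mem_univ _
    have := mem_UH.1 (hsub this)
    simp at this
  obtain ⟨Φ, hΦd, hΦb, -, -⟩ := riemann_mapping hUo hUc hsq hne hz₀
  set T := Function.invFunOn Φ U with hT
  have hTl : ∀ z ∈ U, T (Φ z) = z := fun z hz => hΦb.injOn.leftInvOn_invFunOn hz
  have hTd : DifferentiableOn ℂ T (ball 0 1) := by
    rw [← hΦb.image_eq]
    exact differentiableOn_inv hUo hΦd hΦb.injOn hTl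
  have hTm : MapsTo T (ball 0 1) U := by
    intro w hw
    obtain ⟨z, hz, rfl⟩ := hΦb.surjOn hw
    rw [hTl z hz]
    exact hz
  -- the inverted function
  set F : ℂ → ℂ := fun ζ => Φ (-ζ⁻¹) with hF
  have hBinv : ∀ ζ : ℂ, ζ ∈ ball (0 : ℂ) (1 / R) ∩ UH → -ζ⁻¹ ∈ U := by
    rintro ζ ⟨h1, h2⟩
    apply hfarU _ _ (neg_inv_mem_UH h2)
    have h0 : ζ ≠ 0 := by
      intro h
      rw [h, mem_UH] at h2
      simp at h2
    have hn : 0 < ‖ζ‖ := norm_pos_iff.2 h0
    rw [mem_ball_zero_iff, lt_div_iff₀ hR0] at h1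
    rw [norm_neg, norm_inv, le_inv_comm₀ hR0 hn, ← one_div, le_div_iff₀ hR0]
    exact h1.le
  have hUHne : ∀ ζ ∈ UH, ζ ≠ 0 := by
    intro ζ hζ h
    rw [h, mem_UH] at hζ
    simp at hζ
  -- boundary behaviour
  have hproper : ∀ p : ℝ, (p : ℂ) ∈ ball (0 : ℂ) (1 / R) →
      Tendsto (fun ζ => ‖F ζ‖) (𝓝[UH] (p : ℂ)) (𝓝 1) := by
    intro p hp
    have hUev : ∀ᶠ ζ in 𝓝[UH] (p : ℂ), ζ ∈ ball (0 : ℂ) (1 / R) ∩ UH :=
      inter_mem (mem_nhdsWithin_of_mem_nhds (isOpen_ball.mem_nhds hp)) self_mem_nhdsWithin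
    rw [tendsto_order]
    constructor
    · intro s hs
      -- the compact set
      set K : Set ℂ := T '' (closedBall 0 s) with hK
      have hsb : closedBall (0 : ℂ) s ⊆ ball 0 1 := closedBall_subset_ball hs
      have hKc : IsCompact K := (isCompact_closedBall _ _).image_of_continuousOn
        (hTd.continuousOn.mono hsb)
      have hKU : K ⊆ U := by
        rintro _ ⟨w, hw, rfl⟩
        exact hTm (hsb hw)
      have hout : ∀ᶠ ζ in 𝓝[UH] (p : ℂ), -ζ⁻¹ ∉ K := by
        by_cases hp0 : p = 0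
        · obtain ⟨C, hC⟩ := isBounded_iff_forall_norm_le.1 hKc.isBounded
          have h1 : ∀ᶠ ζ : ℂ in 𝓝[UH] (p : ℂ), ‖ζ‖ < 1 / (max C 0 + 1) := by
            rw [hp0, Complex.ofReal_zero]
            have : ∀ᶠ ζ : ℂ in 𝓝 (0 : ℂ), ‖ζ‖ < 1 / (max C 0 + 1) := by
              have h2 := ball_mem_nhds (0 : ℂ) (show (0 : ℝ) < 1 / (max C 0 + 1) by positivity)
              filter_upwards [h2] with ζ hζ
              rwa [mem_ball_zero_iff] at hζ
            exact this.filter_mono nhdsWithin_le_nhds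
          filter_upwards [h1, self_mem_nhdsWithin] with ζ hζ hζU hcon
          have h2 := hC _ hcon
          have hn : 0 < ‖ζ‖ := norm_pos_iff.2 (hUHne ζ hζU)
          rw [norm_neg, norm_inv] at h2
          rw [lt_div_iff₀ (by positivity)] at hζ
          have h3 : 1 ≤ C * ‖ζ‖ := by
            rw [inv_le_iff_one_le_mul₀ hn] at h2
            linarith
          have h4 := le_max_left C 0
          nlinarith
        · have hp0' : (p : ℂ) ≠ 0 := by exact_mod_cast hp0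
          have h1 : -(p : ℂ)⁻¹ ∉ K := by
            intro hcon
            have h2 := mem_UH.1 (hsub (hKU hcon))
            rw [← Complex.ofReal_inv, Complex.neg_im, Complex.ofReal_im] at h2
            linarith
          have h2 : Tendsto (fun ζ : ℂ => -ζ⁻¹) (𝓝[UH] (p : ℂ)) (𝓝 (-(p : ℂ)⁻¹)) :=
            ((continuousAt_inv₀ hp0').neg).tendsto.mono_left nhdsWithin_le_nhds
          exact h2.eventually (hKc.isClosed.isOpen_compl.mem_nhds h1)
      filter_upwards [hout, hUev] with ζ hζ hζU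
      by_contra hcon
      push Not at hcon
      apply hζ
      refine ⟨Φ (-ζ⁻¹), by rw [mem_closedBall_zero_iff]; exact hcon, hTl _ (hBinv ζ hζU)⟩
    · intro s hs
      filter_upwards [hUev] with ζ hζU
      have := hΦb.mapsTo (hBinv ζ hζU)
      rw [mem_ball_zero_iff] at this
      exact this.trans hs
  -- a small half ball
  obtain ⟨ε, hε, hεR, hεF⟩ : ∃ ε > 0, ε ≤ 1 / R ∧ ∀ ζ ∈ ball (0 : ℂ) ε ∩ UH, 1 / 2 < ‖F ζ‖ := by
    have h1 := (hproper 0 (by
      rw [Complex.ofReal_zero, mem_ball_zero_iff, norm_zero]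
      positivity)).eventually (lt_mem_nhds (show (1 / 2 : ℝ) < 1 by norm_num))
    rw [Complex.ofReal_zero, eventually_nhdsWithin_iff, Metric.eventually_nhds_iff] at h1
    obtain ⟨δ, hδ, h2⟩ := h1
    refine ⟨min δ (1 / R), lt_min hδ (by positivity), min_le_right _ _, fun ζ hζ => ?_⟩
    exact h2 (lt_of_lt_of_le (mem_ball.1 hζ.1) (min_le_left _ _)) hζ.2
  set S : Set ℂ := ball (0 : ℂ) ε ∩ UH with hS
  have hSsub : S ⊆ ball (0 : ℂ) (1 / R) ∩ UH := fun z hz => ⟨ball_subset_ball hεR hz.1, hz.2⟩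
  have hSo : IsOpen S := isOpen_ball.inter isOpen_UH
  have hSc : Convex ℝ S := (convex_ball _ _).inter convex_UH
  have hFd : DifferentiableOn ℂ F S := by
    apply hΦd.comp
    · intro ζ hζ
      exact ((_root_.differentiableAt_inv (hUHne ζ hζ.2)).neg).differentiableWithinAt
    · intro ζ hζ
      exact hBinv ζ (hSsub hζ)
  have hF0 : ∀ ζ ∈ S, F ζ ≠ 0 := by
    intro ζ hζ h
    have := hεF ζ hζ
    rw [h, norm_zero] at this
    linarith
  have hF1 : ∀ ζ ∈ S, ‖F ζ‖ < 1 := by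
    intro ζ hζ
    have := hΦb.mapsTo (hBinv ζ (hSsub hζ))
    rwa [mem_ball_zero_iff] at this
  obtain ⟨L, hLd, hLe⟩ := exists_log_convex hSo hSc hFd hF0
  set h : ℂ → ℂ := fun ζ => -I * L ζ with hh
  have hhim : ∀ ζ ∈ S, (h ζ).im = -Real.log ‖F ζ‖ := by
    intro ζ hζ
    have h1 : (h ζ).im = -(L ζ).re := by
      simp [hh, Complex.mul_im]
    rw [h1, ← hLe ζ hζ, Complex.norm_exp, Real.log_exp]
  have hhd : DifferentiableOn ℂ h S := hLd.const_mul _
  have hhpos : ∀ ζ ∈ S, 0 < (h ζ).im := by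
    intro ζ hζ
    rw [hhim ζ hζ]
    have h1 := hεF ζ hζ
    have h2 := Real.log_neg (by linarith) (hF1 ζ hζ)
    linarith
  have hhz : ∀ p : ℝ, (p : ℂ) ∈ ball ((0 : ℝ) : ℂ) ε →
      Tendsto (fun ζ => (h ζ).im) (𝓝[UH] (p : ℂ)) (𝓝 0) := by
    intro p hp
    rw [Complex.ofReal_zero] at hp
    have h1 := hproper p (ball_subset_ball hεR hp)
    have h2 : Tendsto (fun ζ => -Real.log ‖F ζ‖) (𝓝[UH] (p : ℂ)) (𝓝 0) := by
      have h3 := ((Real.continuousAt_log one_ne_zero).tendsto.comp h1).neg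
      rw [Real.log_one, neg_zero] at h3
      exact h3
    apply h2.congr'
    have h3 : ∀ᶠ ζ in 𝓝[UH] (p : ℂ), ζ ∈ S :=
      inter_mem (mem_nhdsWithin_of_mem_nhds (isOpen_ball.mem_nhds hp)) self_mem_nhdsWithin
    filter_upwards [h3] with ζ hζ
    exact (hhim ζ hζ).symm
  have hflat := flat (x := 0) (ρ := ε) (h := h) (by rw [Complex.ofReal_zero]; exact hhd)
    (by rw [Complex.ofReal_zero]; exact hhpos) hhz
  rw [Complex.ofReal_zero] at hflat
  obtain ⟨hHd, hHs, hHr⟩ := hflat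
  set H : ℂ → ℂ := extMap h with hH
  have h0ε : (0 : ℂ) ∈ ball (0 : ℂ) ε := mem_ball_self hε
  obtain ⟨a, ha, hHa⟩ := deriv_pos_of_real (x := 0) (ρ := ε) (φ := H) hε
    (by rw [Complex.ofReal_zero]; exact hHd) (by rw [Complex.ofReal_zero]; exact hHs) (by
      rw [Complex.ofReal_zero]
      intro z hz hzim
      rw [hH, extMap_upper hzim]
      exact hhpos z ⟨hz, hzim⟩)
  rw [Complex.ofReal_zero] at hHa
  set θ : ℂ := H 0 with hθ
  have hθr : θ.im = 0 := hHr 0 h0ε rfl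
  have hθc : conj θ = θ := Complex.conj_eq_iff_im.2 hθr
  -- the rotated function
  set E : ℂ → ℂ := fun ζ => Complex.exp (I * (H ζ - θ)) with hE
  have hEd : DifferentiableOn ℂ E (ball 0 ε) := ((hHd.sub_const _).const_mul _).cexp
  have hE0 : E 0 = 1 := by simp [hE, hθ]
  have hEF : ∀ ζ ∈ S, E ζ = F ζ * Complex.exp (-I * θ) := by
    intro ζ hζ
    simp only [hE]
    rw [hH, extMap_upper (mem_UH.1 hζ.2), ← hLe ζ hζ, ← Complex.exp_add]
    congr 1
    simp only [hh]
    linear_combination (-(L ζ)) * Complex.I_sq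
  have hEs : ∀ ζ ∈ ball (0 : ℂ) ε, conj (E ζ) * E (conj ζ) = 1 := by
    intro ζ hζ
    simp only [hE]
    rw [← Complex.exp_conj, ← Complex.exp_add, map_mul, Complex.conj_I, map_sub, hθc, hHs ζ hζ]
    have : -I * (conj (H ζ) - θ) + I * (conj (H ζ) - θ) = 0 := by ring
    rw [this, Complex.exp_zero]
  have hE' : HasDerivAt E (I * a) 0 := by
    have h1 : HasDerivAt H (a : ℂ) 0 := by
      rw [← hHa]
      exact (hHd.differentiableAt (isOpen_ball.mem_nhds h0ε)).hasDerivAt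
    have h2 := ((h1.sub_const θ).const_mul I).cexp
    have h3 : Complex.exp (I * (H 0 - θ)) * (I * a) = I * a := by
      rw [← hθ, sub_self, mul_zero, Complex.exp_zero, one_mul]
    exact h2.congr_deriv h3
  -- shrink so that `1 + E ≠ 0`
  have hEc : ContinuousAt E 0 := hE'.continuousAt
  obtain ⟨ε₁, hε₁, hε₁ε, hE1⟩ : ∃ ε₁ > 0, ε₁ ≤ ε ∧ ∀ ζ ∈ ball (0 : ℂ) ε₁, 1 + E ζ ≠ 0 := by
    have h1 : ∀ᶠ ζ in 𝓝 (0 : ℂ), 1 + E ζ ≠ 0 := by
      have h2 : ContinuousAt (fun ζ => 1 + E ζ) 0 := continuousAt_const.add hEc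
      apply h2.eventually_ne
      rw [hE0]
      norm_num
    obtain ⟨δ, hδ, h2⟩ := Metric.eventually_nhds_iff.1 h1
    exact ⟨min δ ε, lt_min hδ hε, min_le_right _ _, fun ζ hζ =>
      h2 (lt_of_lt_of_le (mem_ball.1 hζ) (min_le_left _ _))⟩
  set k : ℂ → ℂ := fun ζ => I * (1 - E ζ) / (1 + E ζ) with hk
  have hb1 : ball (0 : ℂ) ε₁ ⊆ ball 0 ε := ball_subset_ball hε₁ε
  have h0ε₁ : (0 : ℂ) ∈ ball (0 : ℂ) ε₁ := mem_ball_self hε₁
  have hkd : DifferentiableOn ℂ k (ball 0 ε₁) := by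
    apply DifferentiableOn.div
    · exact ((hEd.mono hb1).const_sub 1).const_mul I
    · exact (hEd.mono hb1).const_add 1
    · exact hE1
  have hk0 : k 0 = 0 := by simp [hk, hE0]
  set κ : ℝ := a / 2 with hκ
  have hκ0 : 0 < κ := by positivity
  have hκc : (κ : ℂ) ≠ 0 := by exact_mod_cast hκ0.ne'
  have hk' : deriv k 0 = κ := by
    have h1 := ((hE'.const_sub 1).const_mul I).div (hE'.const_add 1)
      (by rw [hE0]; norm_num)
    have h2 : HasDerivAt k ((I * -(I * a) * (1 + E 0) - I * (1 - E 0) * (I * a)) / (1 + E 0) ^ 2)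
        0 := h1
    rw [h2.deriv, hE0, hκ]
    push_cast
    linear_combination (-(a : ℂ) / 2) * Complex.I_sq
  have hks : ∀ ζ ∈ ball (0 : ℂ) ε₁, k (conj ζ) = conj (k ζ) := by
    intro ζ hζ
    have h1 := hEs ζ (hb1 hζ)
    have h2 := hE1 ζ hζ
    have hζ' : conj ζ ∈ ball (0 : ℂ) ε₁ := by
      rw [mem_ball_zero_iff] at hζ ⊢
      rwa [RCLike.norm_conj]
    have h3 := hE1 _ hζ'
    have h4 : (1 : ℂ) + conj (E ζ) ≠ 0 := by
      intro h
      apply h2
      have := congrArg conj h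
      rw [map_add, map_one, Complex.conj_conj, map_zero] at this
      exact this
    simp only [hk]
    rw [map_div₀, map_mul, map_sub, map_add, map_one, Complex.conj_I, div_eq_div_iff h3 h4]
    linear_combination (-2 * I) * h1
  -- quotients
  set m : ℂ → ℂ := dslope k 0 with hm
  have hB₁ : ball (0 : ℂ) ε₁ ∈ 𝓝 (0 : ℂ) := isOpen_ball.mem_nhds h0ε₁
  have hmd : DifferentiableOn ℂ m (ball 0 ε₁) := (Complex.differentiableOn_dslope hB₁).2 hkd
  have hm0 : m 0 = κ := by rw [hm, dslope_same, hk']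
  obtain ⟨ε₂, hε₂, hε₂ε, hm1⟩ : ∃ ε₂ > 0, ε₂ ≤ ε₁ ∧ ∀ ζ ∈ ball (0 : ℂ) ε₂, m ζ ≠ 0 := by
    have h1 : ∀ᶠ ζ in 𝓝 (0 : ℂ), m ζ ≠ 0 := by
      have h2 : ContinuousAt m 0 := hmd.continuousOn.continuousAt hB₁
      apply h2.eventually_ne
      rw [hm0]
      exact hκc
    obtain ⟨δ, hδ, h2⟩ := Metric.eventually_nhds_iff.1 h1
    exact ⟨min δ ε₁, lt_min hδ hε₁, min_le_right _ _, fun ζ hζ =>
      h2 (lt_of_lt_of_le (mem_ball.1 hζ) (min_le_left _ _))⟩
  have hb2 : ball (0 : ℂ) ε₂ ⊆ ball 0 ε₁ := ball_subset_ball hε₂ε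
  have h0ε₂ : (0 : ℂ) ∈ ball (0 : ℂ) ε₂ := mem_ball_self hε₂
  have hB₂ : ball (0 : ℂ) ε₂ ∈ 𝓝 (0 : ℂ) := isOpen_ball.mem_nhds h0ε₂
  set χ : ℂ → ℂ := dslope (fun ζ => κ / m ζ) 0 with hχ
  have hχd : DifferentiableOn ℂ χ (ball 0 ε₂) := by
    apply (Complex.differentiableOn_dslope hB₂).2
    exact (differentiableOn_const _).div (hmd.mono hb2) hm1
  have hχ1 : ∀ ζ ∈ ball (0 : ℂ) ε₂, ζ ≠ 0 → k ζ ≠ 0 ∧ χ ζ = κ / k ζ - ζ⁻¹ := by
    intro ζ hζ h0
    have h1 : m ζ = k ζ / ζ := by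
      rw [hm, dslope_of_ne _ h0, slope_def_field, hk0, sub_zero, sub_zero]
    have h2 : k ζ ≠ 0 := by
      intro h3
      apply hm1 ζ hζ
      rw [h1, h3, zero_div]
    refine ⟨h2, ?_⟩
    rw [hχ, dslope_of_ne _ h0, slope_def_field, hm0, h1, sub_zero, div_self hκc]
    field_simp
  have hχs : ∀ ζ ∈ ball (0 : ℂ) ε₂, χ (conj ζ) = conj (χ ζ) := by
    have hmem : ∀ ζ ∈ ball (0 : ℂ) ε₂, conj ζ ∈ ball (0 : ℂ) ε₂ := by
      intro ζ hζ
      rw [mem_ball_zero_iff] at hζ ⊢
      rwa [RCLike.norm_conj]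
    have hne1 : ∀ ζ ∈ ball (0 : ℂ) ε₂, ζ ≠ 0 → χ (conj ζ) = conj (χ ζ) := by
      intro ζ hζ h0
      have h0' : conj ζ ≠ 0 := (map_ne_zero _).2 h0
      have e1 : conj ((κ : ℂ) / k ζ) = κ / conj (k ζ) := by
        rw [map_div₀, Complex.conj_ofReal]
      have e2 : conj (ζ⁻¹) = (conj ζ)⁻¹ := map_inv₀ _ _
      rw [(hχ1 _ (hmem ζ hζ) h0').2, (hχ1 ζ hζ h0).2, hks ζ (hb2 hζ), map_sub, e1, e2]
    intro ζ hζ
    by_cases h0 : ζ = 0
    · rw [h0, map_zero]
      have hc : ContinuousAt χ 0 := hχd.continuousOn.continuousAt hB₂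
      have l1 : Tendsto (fun ζ => χ (conj ζ)) (𝓝[≠] 0) (𝓝 (χ 0)) := by
        have h2 : Tendsto (fun ζ : ℂ => conj ζ) (𝓝[≠] 0) (𝓝 0) := by
          have := (Complex.continuous_conj.tendsto (0 : ℂ))
          rw [map_zero] at this
          exact this.mono_left nhdsWithin_le_nhds
        exact hc.tendsto.comp h2
      have l2 : Tendsto (fun ζ => conj (χ ζ)) (𝓝[≠] 0) (𝓝 (conj (χ 0))) :=
        ((Complex.continuous_conj.tendsto _).comp hc.tendsto).mono_left nhdsWithin_le_nhds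
      apply tendsto_nhds_unique (l1.congr' _) l2
      have h3 : ∀ᶠ ζ in 𝓝[≠] (0 : ℂ), ζ ∈ ball (0 : ℂ) ε₂ := mem_nhdsWithin_of_mem_nhds hB₂
      have h4 : ∀ᶠ ζ in 𝓝[≠] (0 : ℂ), ζ ≠ 0 := self_mem_nhdsWithin
      filter_upwards [h3, h4] with ξ hξ hξ0
      exact hne1 ξ hξ hξ0
    · exact hne1 ζ hζ h0
  have hχ0 : (χ 0).im = 0 := by
    have := hχs 0 h0ε₂
    rw [map_zero] at this
    exact Complex.conj_eq_iff_im.1 this.symm
  have hχdiff : HasDerivAt χ (deriv χ 0) 0 := (hχd.differentiableAt hB₂).hasDerivAt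
  have hχ' : (deriv χ 0).im = 0 := by
    have h1 := hχdiff.conj_conj
    rw [map_zero] at h1
    have h2 : HasDerivAt χ (conj (deriv χ 0)) 0 := by
      apply h1.congr_of_eventuallyEq
      filter_upwards [hB₂] with ζ hζ
      simp only [Function.comp]
      rw [hχs ζ hζ, Complex.conj_conj]
    exact Complex.conj_eq_iff_im.1 (h2.unique hχdiff)
  set β : ℝ := (χ 0).re with hβ
  set c : ℝ := (deriv χ 0).re with hc
  have hβχ : χ 0 = β := Complex.ext (by simp [hβ]) (by simp [hχ0])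
  have hcχ : deriv χ 0 = c := Complex.ext (by simp [hc]) (by simp [hχ'])
  -- the map
  set ω : ℂ := Complex.exp (-I * θ) with hω
  have hωn : ‖ω‖ = 1 := by
    rw [hω, Complex.norm_exp]
    have : (-I * θ).re = 0 := by
      simp [Complex.mul_re, hθr]
    rw [this, Real.exp_zero]
  have hω0 : ω ≠ 0 := Complex.exp_ne_zero _
  set g : ℂ → ℂ := fun z => κ * cay (Φ z * ω) + β with hg
  have hrot : BijOn (fun w : ℂ => w * ω) (ball 0 1) (ball 0 1) := by
    refine ⟨?_, ?_, ?_⟩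
    · intro w hw
      rw [mem_ball_zero_iff] at hw ⊢
      rwa [norm_mul, hωn, mul_one]
    · intro w _ v _ heq
      exact mul_right_cancel₀ hω0 heq
    · intro w hw
      refine ⟨w / ω, ?_, by simp only; field_simp⟩
      rw [mem_ball_zero_iff] at hw ⊢
      rwa [norm_div, hωn, div_one]
  have haff : BijOn (fun w : ℂ => κ * w + β) UH UH := by
    refine ⟨?_, ?_, ?_⟩
    · intro w hw
      rw [mem_UH] at hw ⊢
      rw [Complex.add_im, Complex.im_ofReal_mul, Complex.ofReal_im, add_zero]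
      positivity
    · intro w _ v _ heq
      simp only [add_left_inj] at heq
      exact mul_left_cancel₀ hκc heq
    · intro w hw
      refine ⟨(w - β) / κ, ?_, by simp only; field_simp; ring⟩
      rw [mem_UH] at hw ⊢
      rw [Complex.div_ofReal_im, Complex.sub_im, Complex.ofReal_im, sub_zero]
      positivity
  have hgb : BijOn g U UH := haff.comp (cay_bij.comp (hrot.comp hΦb))
  have hgd : DifferentiableOn ℂ g U := by
    apply DifferentiableOn.add_const
    apply DifferentiableOn.const_mul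
    exact cay_diff.comp (hΦd.mul_const ω) (fun z hz => hrot.mapsTo (hΦb.mapsTo hz))
  -- the value near infinity
  have hgval : ∀ᶠ z in atUH, g z = z - (χ (-z⁻¹) - χ 0) ∧ -z⁻¹ ∈ ball (0 : ℂ) ε₂ := by
    have h1 : Tendsto (fun z : ℂ => -z⁻¹) atUH (𝓝 0) := by
      have := tendsto_inv_atUH.neg
      rwa [neg_zero] at this
    filter_upwards [eventually_mem_UH, h1.eventually hB₂] with z hz hζ
    refine ⟨?_, hζ⟩
    set ζ : ℂ := -z⁻¹ with hζdef
    have hζU : ζ ∈ UH := neg_inv_mem_UH hz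
    have hζ0 := hUHne ζ hζU
    have hz0 := hUHne z hz
    have hζS : ζ ∈ S := ⟨hb1 (hb2 hζ), hζU⟩
    obtain ⟨h2, h3⟩ := hχ1 ζ hζ hζ0
    have h4 : F ζ = Φ z := by
      simp only [hF, hζdef]
      rw [inv_neg, inv_inv, neg_neg]
    have h5 : E ζ = Φ z * ω := by rw [hEF ζ hζS, h4]
    have h6 : ‖E ζ‖ < 1 := by
      rw [h5, norm_mul, hωn, mul_one, ← h4]
      exact hF1 ζ hζS
    have h7 := one_sub_ne h6
    have h8 := one_add_ne h6
    have h9 : cay (E ζ) = -(k ζ)⁻¹ := by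
      simp only [hk]
      unfold cay
      rw [inv_div]
      field_simp
      linear_combination (1 : ℂ) * Complex.I_sq
    have h10 : ζ⁻¹ = -z := by rw [hζdef, inv_neg, inv_inv]
    simp only [hg]
    rw [← h5, h9, h3, h10, hβχ]
    ring
  refine ⟨g, c, hUo, hsub, ⟨R, fun z h1 h2 => hfarU z h1.le h2⟩, hgd, hgb, ?_⟩
  have h1 : Tendsto (fun z : ℂ => -z⁻¹) atUH (𝓝[≠] 0) := by
    rw [tendsto_nhdsWithin_iff]
    constructor
    · have := tendsto_inv_atUH.neg
      rwa [neg_zero] at this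
    · filter_upwards [eventually_mem_UH] with z hz
      exact hUHne _ (neg_inv_mem_UH hz)
  have h2 := (hasDerivAt_iff_tendsto_slope.1 hχdiff).comp h1
  rw [hcχ] at h2
  apply h2.congr'
  filter_upwards [eventually_mem_UH, hgval] with z hz hgz
  have hz0 := hUHne z hz
  simp only [Function.comp]
  rw [slope_def_field, sub_zero, hgz.1]
  field_simp
  ring

end Pool.Agent.H83.Lo
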