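import Mathlib

set_option autoImplicit false

/-!
# Injective holomorphic functions

An injective holomorphic function on an open set is open, has nonvanishing derivative and a
holomorphic inverse.
-/

namespace Pool.Agent.H83.Lo

open Complex Metric Set Filter Topology

/-- An injective holomorphic function is not locally constant. -/
lemma not_eventually_const {U : Set ℂ} (hU : IsOpen U) {f : ℂ → ℂ} (hinj : InjOn f U) {z : ℂ}
    (hz : z ∈ U) (c : ℂ) : ¬ ∀ᶠ w in 𝓝 z, f w = c := by
  intro h
  obtain ⟨ε, hε, h2⟩ := Metric.eventually_nhds_iff.1 (h.and (hU.mem_nhds hz))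
  have h3 : dist (z + (ε / 2 : ℝ)) z < ε := by
    rw [dist_eq_norm, add_sub_cancel_left, Complex.norm_real, Real.norm_eq_abs,
      abs_of_pos (by positivity)]
    linarith
  have h4 := h2 h3
  have h5 := h2 (show dist z z < ε by rwa [dist_self])
  have h6 : z + (ε / 2 : ℝ) = z := hinj h4.2 h5.2 (h4.1.trans h5.1.symm)
  have h7 : ((ε / 2 : ℝ) : ℂ) = 0 := by
    simpa using h6
  rw [Complex.ofReal_eq_zero] at h7
  linarith

/-- Open mapping property. -/
lemma nhds_le_map {U : Set ℂ} (hU : IsOpen U) {f : ℂ → ℂ} (hf : DifferentiableOn ℂ f U)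
    (hinj : InjOn f U) {z : ℂ} (hz : z ∈ U) : 𝓝 (f z) ≤ map f (𝓝 z) := by
  have han : AnalyticAt ℂ f z := hf.analyticAt (hU.mem_nhds hz)
  rcases han.eventually_constant_or_nhds_le_map_nhds with h | h
  · exact absurd h (not_eventually_const hU hinj hz _)
  · exact h

lemma isOpen_image {U : Set ℂ} (hU : IsOpen U) {f : ℂ → ℂ} (hf : DifferentiableOn ℂ f U)
    (hinj : InjOn f U) : IsOpen (f '' U) := by
  rw [isOpen_iff_mem_nhds]
  rintro _ ⟨z, hz, rfl⟩
  exact nhds_le_map hU hf hinj hz (image_mem_map (hU.mem_nhds hz))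

/-- a left inverse is continuous on the image -/
lemma continuousOn_inv {U : Set ℂ} (hU : IsOpen U) {f g : ℂ → ℂ} (hf : DifferentiableOn ℂ f U)
    (hinj : InjOn f U) (hg : ∀ z ∈ U, g (f z) = z) {z : ℂ} (hz : z ∈ U) :
    ContinuousAt g (f z) := by
  rw [ContinuousAt, hg z hz]
  have h1 : Tendsto (g ∘ f) (𝓝 z) (𝓝 z) := by
    apply (tendsto_id (α := ℂ) (x := 𝓝 z)).congr'
    filter_upwards [hU.mem_nhds hz] with w hw
    exact (hg w hw).symm
  have h2 : Tendsto g (map f (𝓝 z)) (𝓝 z) := by
    rwa [tendsto_map'_iff]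
  exact h2.mono_left (nhds_le_map hU hf hinj hz)

/-- the derivative does not vanish on a punctured neighbourhood -/
lemma eventually_deriv_ne {U : Set ℂ} (hU : IsOpen U) {f : ℂ → ℂ} (hf : DifferentiableOn ℂ f U)
    (hinj : InjOn f U) {z : ℂ} (hz : z ∈ U) : ∀ᶠ w in 𝓝[≠] z, deriv f w ≠ 0 := by
  have han : AnalyticAt ℂ (deriv f) z := (hf.analyticAt (hU.mem_nhds hz)).deriv
  rcases han.eventually_eq_zero_or_eventually_ne_zero with h | h
  · exfalso
    obtain ⟨ε, hε, h2⟩ := Metric.eventually_nhds_iff.1 (h.and (hU.mem_nhds hz))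
    apply not_eventually_const hU hinj hz (f z)
    filter_upwards [Metric.ball_mem_nhds z hε] with w hw
    have hd : DifferentiableOn ℂ f (ball z ε) := hf.mono (fun y hy => (h2 hy).2)
    exact (convex_ball z ε).is_const_of_fderivWithin_eq_zero hd (fun y hy => by
      rw [fderivWithin_of_isOpen isOpen_ball hy]
      ext
      simp [(h2 hy).1]) hw (mem_ball_self hε)
  · exact h

/-- the inverse is differentiable -/
lemma differentiableAt_inv {U : Set ℂ} (hU : IsOpen U) {f g : ℂ → ℂ}
    (hf : DifferentiableOn ℂ f U) (hinj : InjOn f U) (hg : ∀ z ∈ U, g (f z) = z) {z : ℂ}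
    (hz : z ∈ U) : DifferentiableAt ℂ g (f z) := by
  have hc := continuousOn_inv hU hf hinj hg hz
  have hopen := isOpen_image hU hf hinj
  -- differentiability where the derivative does not vanish
  have key : ∀ w ∈ U, deriv f w ≠ 0 → DifferentiableAt ℂ g (f w) := by
    intro w hw hd
    have h1 : HasDerivAt f (deriv f w) w := (hf.differentiableAt (hU.mem_nhds hw)).hasDerivAt
    have h2 : HasDerivAt f (deriv f w) (g (f w)) := by rwa [hg w hw]
    refine (h2.of_local_left_inverse (continuousOn_inv hU hf hinj hg hw) hd ?_).differentiableAt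
    filter_upwards [hopen.mem_nhds (mem_image_of_mem f hw)]
    rintro _ ⟨y, hy, rfl⟩
    rw [hg y hy]
  have hev := eventually_deriv_ne hU hf hinj hz
  rw [eventually_nhdsWithin_iff] at hev
  have h3 : ∀ᶠ y in 𝓝 (f z), y ≠ f z → DifferentiableAt ℂ g y := by
    have h4 : Tendsto g (𝓝 (f z)) (𝓝 z) := by
      have := hc.tendsto
      rwa [hg z hz] at this
    filter_upwards [h4.eventually hev, hopen.mem_nhds (mem_image_of_mem f hz)] with y hy1 hy2 hy3
    obtain ⟨w, hw, rfl⟩ := hy2
    rw [hg w hw] at hy1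
    exact key w hw (hy1 (fun h => hy3 (by rw [mem_singleton_iff.1 h])))
  obtain ⟨s, hs1, hs2, hs3⟩ := _root_.mem_nhds_iff.1 h3
  have h5 : DifferentiableOn ℂ g (s \ {f z}) := by
    intro y hy
    exact (hs1 hy.1 (fun h => hy.2 h)).differentiableWithinAt
  have h6 := (differentiableOn_compl_singleton_and_continuousAt_iff (hs2.mem_nhds hs3)).1 ⟨h5, hc⟩
  exact h6.differentiableAt (hs2.mem_nhds hs3)

/-- Injective holomorphic functions have nonvanishing derivative. -/
theorem deriv_ne_zero {U : Set ℂ} (hU : IsOpen U) {f : ℂ → ℂ}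
    (hf : DifferentiableOn ℂ f U) (hinj : InjOn f U) {z : ℂ} (hz : z ∈ U) : deriv f z ≠ 0 := by
  intro h0
  have hg : ∀ w ∈ U, Function.invFunOn f U (f w) = w := fun w hw => hinj.leftInvOn_invFunOn hw
  have h1 := differentiableAt_inv hU hf hinj hg hz
  have h2 : HasDerivAt (Function.invFunOn f U ∘ f) (deriv (Function.invFunOn f U) (f z) * deriv f z)
      z := h1.hasDerivAt.comp z (hf.differentiableAt (hU.mem_nhds hz)).hasDerivAt
  have h3 : HasDerivAt (Function.invFunOn f U ∘ f) 1 z := by
    apply (hasDerivAt_id z).congr_of_eventuallyEq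
    filter_upwards [hU.mem_nhds hz] with w hw
    exact hg w hw
  have h4 := h2.unique h3
  rw [h0, mul_zero] at h4
  exact zero_ne_one h4

/-- The inverse of an injective holomorphic function is holomorphic. -/
theorem differentiableOn_inv {U : Set ℂ} (hU : IsOpen U) {f : ℂ → ℂ}
    (hf : DifferentiableOn ℂ f U) (hinj : InjOn f U) {g : ℂ → ℂ} (hg : ∀ z ∈ U, g (f z) = z) :
    DifferentiableOn ℂ g (f '' U) := by
  rintro _ ⟨z, hz, rfl⟩
  exact (differentiableAt_inv hU hf hinj hg hz).differentiableWithinAt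

end Pool.Agent.H83.Lo
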