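import Pool.Agent.H83.Lo.Small

set_option autoImplicit false

/-!
# Reflection of holomorphic functions with nonnegative imaginary part vanishing at the real points

No boundedness assumption: it follows from the maximum principle and the Schwarz-Pick lemma.
-/

namespace Pool.Agent.H83.Lo

open Complex Metric Set Filter Topology
open scoped ComplexConjugate

/-- The imaginary part is small near the real points, uniformly on compact parts. -/
lemma unif_small {x ρ r : ℝ} {h : ℂ → ℂ} (hr : r < ρ)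
    (hz : ∀ p : ℝ, (p : ℂ) ∈ ball (x : ℂ) ρ → Tendsto (fun z => (h z).im) (𝓝[UH] (p : ℂ)) (𝓝 0))
    {ε : ℝ} (hε : 0 < ε) : ∃ δ > 0, ∀ z ∈ closedBall (x : ℂ) r, 0 < z.im → z.im < δ →
      |(h z).im| < ε := by
  by_contra hcon
  push Not at hcon
  have h1 : ∀ n : ℕ, ∃ z ∈ closedBall (x : ℂ) r, 0 < z.im ∧ z.im < 1 / ((n : ℝ) + 1) ∧
      ε ≤ |(h z).im| := fun n => hcon (1 / ((n : ℝ) + 1)) (by positivity)
  choose z hzb hz0 hz1 hz2 using h1
  obtain ⟨p, hp, φ, hφ, hlim⟩ := (isCompact_closedBall (x : ℂ) r).tendsto_subseq hzb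
  have him : Tendsto (fun n => (z (φ n)).im) atTop (𝓝 p.im) :=
    (Complex.continuous_im.tendsto p).comp hlim
  have him0 : Tendsto (fun n => (z (φ n)).im) atTop (𝓝 0) := by
    apply tendsto_of_tendsto_of_tendsto_of_le_of_le (g := fun _ => (0 : ℝ))
      (h := fun n => 1 / (((φ n : ℕ) : ℝ) + 1)) tendsto_const_nhds
    · exact (tendsto_one_div_add_atTop_nhds_zero_nat (𝕜 := ℝ)).comp hφ.tendsto_atTop
    · intro n; exact (hz0 _).le
    · intro n; exact (hz1 _).le
  have hp0 : p.im = 0 := tendsto_nhds_unique him him0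
  have e : p = ((p.re : ℝ) : ℂ) := Complex.ext (by simp) (by simp [hp0])
  have hpb : ((p.re : ℝ) : ℂ) ∈ ball (x : ℂ) ρ := by
    rw [← e]
    exact closedBall_subset_ball hr hp
  have h2 := hz p.re hpb
  rw [← e] at h2
  have h3 : Tendsto (fun n => z (φ n)) atTop (𝓝[UH] p) := by
    rw [tendsto_nhdsWithin_iff]
    exact ⟨hlim, Eventually.of_forall (fun n => mem_UH.2 (hz0 _))⟩
  have h4 := (h2.comp h3).abs
  rw [abs_zero] at h4
  have h5 : ε ≤ 0 := ge_of_tendsto h4 (Eventually.of_forall (fun n => hz2 _))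
  linarith

/-- The imaginary part is bounded on compact parts. -/
lemma unif_bdd {x ρ r : ℝ} {h : ℂ → ℂ} (hr : r < ρ)
    (hd : DifferentiableOn ℂ h (ball (x : ℂ) ρ ∩ UH))
    (hz : ∀ p : ℝ, (p : ℂ) ∈ ball (x : ℂ) ρ → Tendsto (fun z => (h z).im) (𝓝[UH] (p : ℂ)) (𝓝 0)) :
    ∃ M : ℝ, 0 < M ∧ ∀ z ∈ closedBall (x : ℂ) r, 0 < z.im → |(h z).im| ≤ M := by
  obtain ⟨δ, hδ, h1⟩ := unif_small hr hz one_pos
  set K : Set ℂ := closedBall (x : ℂ) r ∩ {z | δ ≤ z.im} with hK
  have hKc : IsCompact K := (isCompact_closedBall _ _).inter_right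
    (isClosed_le continuous_const Complex.continuous_im)
  have hKs : K ⊆ ball (x : ℂ) ρ ∩ UH := by
    rintro z ⟨h2, h3⟩
    exact ⟨closedBall_subset_ball hr h2, lt_of_lt_of_le hδ h3⟩
  have hcont : ContinuousOn (fun z => |(h z).im|) K :=
    ((Complex.continuous_im.comp_continuousOn (hd.continuousOn.mono hKs))).abs
  obtain ⟨M, hM⟩ := (hKc.image_of_continuousOn hcont).bddAbove
  refine ⟨max M 1, by positivity, fun z hz1 hz2 => ?_⟩
  rcases lt_or_ge z.im δ with h3 | h3
  · exact (h1 z hz1 hz2 h3).le.trans (le_max_right _ _)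
  · exact (hM ⟨z, ⟨hz1, h3⟩, rfl⟩).trans (le_max_left _ _)

/-- Linear bound of the imaginary part. -/
theorem im_linear {x ρ r : ℝ} {h : ℂ → ℂ} (hr : r < ρ)
    (hd : DifferentiableOn ℂ h (ball (x : ℂ) ρ ∩ UH))
    (hz : ∀ p : ℝ, (p : ℂ) ∈ ball (x : ℂ) ρ → Tendsto (fun z => (h z).im) (𝓝[UH] (p : ℂ)) (𝓝 0)) :
    ∃ C : ℝ, 0 < C ∧ ∀ z ∈ ball (x : ℂ) r, 0 < z.im → (h z).im ≤ C * z.im := by
  set s : ℝ := (ρ - r) / 2 with hs
  have hs0 : 0 < s := by rw [hs]; linarith
  have hrs : r + s < ρ := by rw [hs]; linarith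
  obtain ⟨M, hM, hMb⟩ := unif_bdd hrs hd hz
  refine ⟨2 * M / s, by positivity, fun z₀ hz₀ him₀ => ?_⟩
  have hz₀' : z₀ ∈ closedBall (x : ℂ) (r + s) :=
    closedBall_subset_closedBall (by linarith) (ball_subset_closedBall hz₀)
  rcases le_or_gt s z₀.im with hcase | hcase
  · have h1 := (le_abs_self _).trans (hMb z₀ hz₀' him₀)
    refine h1.trans ?_
    rw [div_mul_eq_mul_div, le_div_iff₀ hs0]
    nlinarith
  -- the centre below `z₀`
  set p : ℝ := z₀.re with hp
  have hpx : closedBall (p : ℂ) s ⊆ closedBall (x : ℂ) (r + s) := by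
    apply closedBall_subset_closedBall'
    have h1 : dist (p : ℂ) x ≤ dist z₀ x := by
      rw [dist_eq_norm, dist_eq_norm, ← Complex.ofReal_sub, Complex.norm_real, Real.norm_eq_abs]
      have := Complex.abs_re_le_norm (z₀ - x)
      rwa [Complex.sub_re, Complex.ofReal_re] at this
    rw [mem_ball] at hz₀
    linarith
  -- comparison function
  set H : ℂ → ℂ := fun z => (M / s ^ 2 : ℝ) * (I * (z - p) ^ 2) + (2 * M / s : ℝ) * (z - p) with hH
  have hHim : ∀ z : ℂ, (H z).im = M / s ^ 2 * ((z.re - p) ^ 2 - z.im ^ 2) + 2 * M / s * z.im := by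
    intro z
    simp only [hH]
    rw [Complex.add_im, Complex.im_ofReal_mul, Complex.im_ofReal_mul]
    have e1 : (I * (z - p) ^ 2 : ℂ).im = (z.re - p) ^ 2 - z.im ^ 2 := by
      rw [sq, Complex.mul_im, Complex.mul_re, Complex.mul_im]
      simp only [Complex.I_re, Complex.I_im, Complex.sub_re, Complex.sub_im, Complex.ofReal_re,
        Complex.ofReal_im]
      ring
    rw [e1, Complex.sub_im, Complex.ofReal_im, sub_zero]
  have hkey : ∀ ε : ℝ, 0 < ε → (h z₀).im ≤ (H z₀).im + ε := by
    intro ε hε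
    obtain ⟨δ₀, hδ₀, hδ₁⟩ := unif_small hrs hz hε
    set δ : ℝ := min (δ₀ / 2) (z₀.im / 2) with hδ
    have hδpos : 0 < δ := lt_min (by positivity) (by positivity)
    have hδ1 : δ < δ₀ := lt_of_le_of_lt (min_le_left _ _) (by linarith)
    have hδ2 : δ < z₀.im := lt_of_le_of_lt (min_le_right _ _) (by linarith)
    set D : Set ℂ := ball (p : ℂ) s ∩ {z | δ < z.im} with hD
    have hDo : IsOpen D := isOpen_ball.inter (isOpen_lt continuous_const Complex.continuous_im)
    have hDcl : closure D ⊆ closedBall (p : ℂ) s ∩ {z | δ ≤ z.im} := by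
      apply closure_minimal
      · rintro z ⟨h1, h2⟩
        exact ⟨ball_subset_closedBall h1, (show δ < z.im from h2).le⟩
      · exact isClosed_closedBall.inter (isClosed_le continuous_const Complex.continuous_im)
    have hclU : closure D ⊆ ball (x : ℂ) ρ ∩ UH := by
      intro z hz1
      obtain ⟨h1, h2⟩ := hDcl hz1
      exact ⟨closedBall_subset_ball hrs (hpx h1), lt_of_lt_of_le hδpos h2⟩
    have hdc : DiffContOnCl ℂ (fun z => Complex.exp (-I * (h z - H z))) D := by
      apply DifferentiableOn.diffContOnCl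
      apply DifferentiableOn.cexp
      apply DifferentiableOn.const_mul
      apply (hd.mono hclU).sub
      intro z _
      simp only [hH]
      fun_prop
    have hnorm : ∀ z : ℂ, ‖Complex.exp (-I * (h z - H z))‖ = Real.exp ((h z).im - (H z).im) := by
      intro z
      rw [Complex.norm_exp]
      congr 1
      simp [Complex.mul_re]
    have hfr : ∀ z ∈ frontier D, ‖Complex.exp (-I * (h z - H z))‖ ≤ Real.exp ε := by
      intro z hzf
      obtain ⟨h1, h2⟩ := hDcl (frontier_subset_closure hzf)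
      have h2' : δ ≤ z.im := h2
      have hzim : 0 < z.im := lt_of_lt_of_le hδpos h2'
      rw [hnorm, Real.exp_le_exp, hHim]
      have hzD : z ∉ D := by
        intro hin
        exact hzf.2 (by rwa [hDo.interior_eq])
      have hcases : dist z p = s ∨ z.im = δ := by
        by_contra hno
        push Not at hno
        apply hzD
        refine ⟨?_, ?_⟩
        · rw [mem_ball]
          exact lt_of_le_of_ne (mem_closedBall.1 h1) hno.1
        · exact lt_of_le_of_ne h2' (fun h => hno.2 h.symm)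
      have hdist : (z.re - p) ^ 2 + z.im ^ 2 = dist z p ^ 2 := by
        rw [dist_eq_norm, ← Complex.normSq_eq_norm_sq, Complex.normSq_apply]
        simp only [Complex.sub_re, Complex.sub_im, Complex.ofReal_re, Complex.ofReal_im, sub_zero]
        ring
      have hzs : z.im ≤ s := by
        have h3 : z.im ^ 2 ≤ s ^ 2 := by
          have h4 : dist z p ^ 2 ≤ s ^ 2 := by
            have := mem_closedBall.1 h1
            have := dist_nonneg (x := z) (y := (p : ℂ))
            gcongr
          nlinarith [sq_nonneg (z.re - p)]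
        nlinarith
      have hB : z.im ^ 2 / s ^ 2 ≤ z.im / s := by
        rw [div_le_div_iff₀ (by positivity) hs0]
        nlinarith [mul_pos hzim hs0]
      rcases hcases with h3 | h3
      · have h4 := (le_abs_self _).trans (hMb z (hpx h1) hzim)
        rw [h3] at hdist
        have h5 : (z.re - p) ^ 2 - z.im ^ 2 = s ^ 2 - 2 * z.im ^ 2 := by linarith
        rw [h5]
        have h6 : M / s ^ 2 * (s ^ 2 - 2 * z.im ^ 2) + 2 * M / s * z.im =
            M + 2 * M * (z.im / s - z.im ^ 2 / s ^ 2) := by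
          field_simp
          ring
        rw [h6]
        have h7 : 0 ≤ 2 * M * (z.im / s - z.im ^ 2 / s ^ 2) := by
          apply mul_nonneg (by positivity)
          linarith
        linarith
      · have h4 := (le_abs_self _).trans (hδ₁ z (hpx h1) hzim (by rw [h3]; exact hδ1)).le
        have h6 : M / s ^ 2 * ((z.re - p) ^ 2 - z.im ^ 2) + 2 * M / s * z.im =
            M / s ^ 2 * (z.re - p) ^ 2 + M * (2 * (z.im / s) - z.im ^ 2 / s ^ 2) := by
          field_simp
          ring
        rw [h6]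
        have h7 : 0 ≤ M / s ^ 2 * (z.re - p) ^ 2 := by positivity
        have h8 : 0 ≤ M * (2 * (z.im / s) - z.im ^ 2 / s ^ 2) := by
          apply mul_nonneg hM.le
          have : 0 ≤ z.im / s := by positivity
          linarith
        linarith
    have hz₀D : z₀ ∈ D := by
      refine ⟨?_, hδ2⟩
      rw [mem_ball, dist_eq_norm]
      have : z₀ - p = z₀.im * I := by
        apply Complex.ext
        · simp [hp]
        · simp
      rw [this, norm_mul, Complex.norm_I, mul_one, Complex.norm_real, Real.norm_eq_abs,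
        abs_of_pos him₀]
      exact hcase
    have hbdd : Bornology.IsBounded D := isBounded_ball.subset inter_subset_left
    have h9 := Complex.norm_le_of_forall_mem_frontier_norm_le hbdd hdc hfr (subset_closure hz₀D)
    rw [hnorm, Real.exp_le_exp] at h9
    linarith
  have h10 : (h z₀).im ≤ (H z₀).im := le_of_forall_pos_le_add hkey
  rw [hHim] at h10
  have h11 : M / s ^ 2 * ((z₀.re - p) ^ 2 - z₀.im ^ 2) ≤ 0 := by
    rw [hp, sub_self]
    have : 0 < M / s ^ 2 := by positivity
    nlinarith [sq_nonneg z₀.im]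
  linarith

/-- Schwarz-Pick derivative estimate for maps into the upper half plane. -/
theorem pick_deriv {h : ℂ → ℂ} {z : ℂ} {R : ℝ} (hR : 0 < R) (hd : DifferentiableOn ℂ h (ball z R))
    (hm : MapsTo h (ball z R) UH) : ‖deriv h z‖ ≤ 2 * (h z).im / R := by
  have hz : z ∈ ball z R := mem_ball_self hR
  have hhz : 0 < (h z).im := hm hz
  set q : ℂ → ℂ := fun w => (h w - h z) / (h w - conj (h z)) with hq
  have hne : ∀ w ∈ ball z R, h w - conj (h z) ≠ 0 := fun w hw => sub_conj_ne (hm hw) hhz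
  have hqd : DifferentiableOn ℂ q (ball z R) := (hd.sub_const _).div (hd.sub_const _) hne
  have hqz : q z = 0 := by simp [hq]
  have hqm : MapsTo q (ball z R) (closedBall (q z) 1) := by
    intro w hw
    rw [hqz, mem_closedBall_zero_iff]
    simp only [hq]
    have h2 : 0 < (h w).im := hm hw
    have h3 : 0 < ‖h w - conj (h z)‖ := norm_pos_iff.2 (hne w hw)
    rw [norm_div, div_le_one h3]
    have h4 := norm_sub_conj_sq (h w) (h z)
    have h5 : ‖h w - h z‖ ^ 2 ≤ ‖h w - conj (h z)‖ ^ 2 := by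
      rw [h4]
      have : 0 < 4 * (h w).im * (h z).im := by positivity
      linarith
    exact le_of_sq_le_sq h5 h3.le
  have h6 := Complex.norm_deriv_le_div_of_mapsTo_ball hqd hqm hR
  have hdh : HasDerivAt h (deriv h z) z :=
    (hd.differentiableAt (isOpen_ball.mem_nhds hz)).hasDerivAt
  have h7 : HasDerivAt q ((deriv h z * (h z - conj (h z)) - (h z - h z) * deriv h z) /
      (h z - conj (h z)) ^ 2) z := (hdh.sub_const _).div (hdh.sub_const _) (hne z hz)
  rw [h7.deriv, sub_self, zero_mul, sub_zero] at h6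
  have h8 : (h z - conj (h z)) = (2 * (h z).im : ℝ) * I := by
    apply Complex.ext
    · simp
    · simp
      ring
  have h9 : ‖h z - conj (h z)‖ = 2 * (h z).im := by
    rw [h8, norm_mul, Complex.norm_I, mul_one, Complex.norm_real, Real.norm_eq_abs,
      abs_of_pos (by positivity)]
  rw [norm_div, norm_mul, norm_pow, h9] at h6
  have h10 : ‖deriv h z‖ * (2 * (h z).im) / (2 * (h z).im) ^ 2 = ‖deriv h z‖ / (2 * (h z).im) := by
    field_simp
  rw [h10, div_le_div_iff₀ (by positivity) hR] at h6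
  rw [le_div_iff₀ hR]
  linarith

/-- Reflection without boundedness assumption (on smaller balls). -/
theorem reflect_pos {x ρ r : ℝ} {h : ℂ → ℂ} (hr : r < ρ)
    (hd : DifferentiableOn ℂ h (ball (x : ℂ) ρ ∩ UH))
    (hpos : ∀ z ∈ ball (x : ℂ) ρ ∩ UH, 0 < (h z).im)
    (hz : ∀ p : ℝ, (p : ℂ) ∈ ball (x : ℂ) ρ → Tendsto (fun z => (h z).im) (𝓝[UH] (p : ℂ)) (𝓝 0)) :
    ∃ G : ℂ → ℂ, DifferentiableOn ℂ G (ball (x : ℂ) r) ∧
      (∀ z ∈ ball (x : ℂ) r, 0 < z.im → G z = h z) ∧
      (∀ z ∈ ball (x : ℂ) r, G (conj z) = conj (G z)) := by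
  rcases le_or_gt r 0 with hr0 | hr0
  · rw [ball_eq_empty.2 hr0]
    exact ⟨0, differentiableOn_empty, fun z hz => absurd hz (notMem_empty z),
      fun z hz => absurd hz (notMem_empty z)⟩
  obtain ⟨r', hr'1, hr'2⟩ := exists_between hr
  obtain ⟨C, hC, hlin⟩ := im_linear hr'2 hd hz
  set S : Set ℂ := ball (x : ℂ) r ∩ UH with hS
  have hSsub : S ⊆ ball (x : ℂ) ρ ∩ UH := fun z hz => ⟨ball_subset_ball hr.le hz.1, hz.2⟩
  have hSc : Convex ℝ S := (convex_ball _ _).inter convex_UH
  have hSo : IsOpen S := isOpen_ball.inter isOpen_UH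
  -- bounded derivative
  obtain ⟨B, hB0, hB⟩ : ∃ B : ℝ, 0 < B ∧ ∀ z ∈ S, ‖deriv h z‖ ≤ B := by
    set d : ℝ := r' - r with hd'
    have hd0 : 0 < d := by rw [hd']; linarith
    refine ⟨2 * C + 2 * C * (r + |x| + 1) / d + 2 * C * (r + |x| + 1) / d, by positivity,
      fun z hzS => ?_⟩
    have hzim : 0 < z.im := hzS.2
    have hzr' : z ∈ ball (x : ℂ) r' := ball_subset_ball hr'1.le hzS.1
    have h1 := hlin z hzr' hzim
    set R : ℝ := min z.im d with hR
    have hR0 : 0 < R := lt_min hzim hd0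
    have hsub : ball z R ⊆ ball (x : ℂ) ρ ∩ UH := by
      intro w hw
      rw [mem_ball] at hw
      constructor
      · have h2 := hzS.1
        rw [mem_ball] at h2 ⊢
        calc dist w x ≤ dist w z + dist z x := dist_triangle _ _ _
          _ < ρ := by
            have := min_le_right z.im d
            linarith
      · rw [dist_eq_norm] at hw
        have h3 := (Complex.abs_im_le_norm (w - z)).trans_lt hw
        rw [Complex.sub_im, abs_lt] at h3
        rw [mem_UH]
        have := min_le_left z.im d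
        linarith [h3.1]
    have h2 := pick_deriv hR0 (hd.mono hsub) (fun w hw => hpos w (hsub hw))
    have hzn : z.im ≤ r + |x| + 1 := by
      have h3 := hzS.1
      rw [mem_ball, dist_eq_norm] at h3
      have h4 := (le_abs_self _).trans (Complex.abs_im_le_norm (z - x))
      rw [Complex.sub_im, Complex.ofReal_im, sub_zero] at h4
      have := abs_nonneg x
      linarith
    refine h2.trans ?_
    have hpos1 : 0 ≤ 2 * C * (r + |x| + 1) / d := by positivity
    rcases min_choice z.im d with h3 | h3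
    · rw [hR, h3, div_le_iff₀ hzim]
      nlinarith
    · rw [hR, h3]
      have h4 : 2 * (h z).im / d ≤ 2 * C * (r + |x| + 1) / d := by
        apply div_le_div_of_nonneg_right _ hd0.le
        have : (h z).im ≤ C * (r + |x| + 1) := h1.trans (by gcongr)
        linarith
      linarith
  -- bounded function
  obtain ⟨M, hM⟩ : ∃ M : ℝ, ∀ z ∈ S, ‖h z‖ ≤ M := by
    have hz₁ : (x : ℂ) + (r / 2 : ℝ) * I ∈ S := by
      constructor
      · rw [mem_ball, dist_eq_norm, add_sub_cancel_left, norm_mul, Complex.norm_I, mul_one,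
          Complex.norm_real, Real.norm_eq_abs, abs_of_pos (by positivity)]
        linarith
      · rw [mem_UH]
        simp
        linarith
    refine ⟨‖h ((x : ℂ) + (r / 2 : ℝ) * I)‖ + B * (2 * r), fun z hzS => ?_⟩
    have h1 := hSc.norm_image_sub_le_of_norm_hasDerivWithin_le (f := h) (f' := deriv h) (C := B)
      (fun w hw => ((hd.mono hSsub).differentiableAt (hSo.mem_nhds hw)).hasDerivAt.hasDerivWithinAt)
      hB hz₁ hzS
    have h2 : ‖z - ((x : ℂ) + (r / 2 : ℝ) * I)‖ ≤ 2 * r := by
      have h3 := mem_ball.1 hzS.1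
      have h4 := mem_ball.1 hz₁.1
      rw [← dist_eq_norm]
      calc dist z ((x : ℂ) + (r / 2 : ℝ) * I) ≤ dist z x + dist ((x : ℂ) + (r / 2 : ℝ) * I) x :=
            dist_triangle_right _ _ _
        _ ≤ 2 * r := by linarith
    calc ‖h z‖ = ‖h ((x : ℂ) + (r / 2 : ℝ) * I) + (h z - h ((x : ℂ) + (r / 2 : ℝ) * I))‖ := by
          congr 1; ring
      _ ≤ _ := norm_add_le _ _
      _ ≤ _ := by
          gcongr
          exact h1.trans (by gcongr)
  -- scale
  set C' : ℝ := max C 1 with hC'
  have hC'0 : 0 < C' := lt_of_lt_of_le one_pos (le_max_right _ _)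
  have hC'c : (C' : ℂ) ≠ 0 := by exact_mod_cast hC'0.ne'
  obtain ⟨G, hG1, hG2, hG3⟩ := reflect_bdd (x := x) (ε := r) (M := M) (g := fun z => h z / C')
    ((hd.mono hSsub).div_const _) (by
      intro z hz
      rw [norm_div, Complex.norm_real, Real.norm_eq_abs, abs_of_pos hC'0, div_le_iff₀ hC'0]
      have h1 := hM z hz
      have h2 : 0 ≤ M := (norm_nonneg _).trans h1
      have h3 : 1 ≤ C' := le_max_right _ _
      nlinarith) (by
      intro z hz
      rw [Complex.div_ofReal_im, abs_of_pos (div_pos (hpos z (hSsub hz)) hC'0),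
        div_le_iff₀ hC'0]
      have h1 := hlin z (ball_subset_ball hr'1.le hz.1) hz.2
      have h2 : C ≤ C' := le_max_left _ _
      have h3 : 0 < z.im := hz.2
      nlinarith)
  refine ⟨fun z => C' * G z, hG1.const_mul _, ?_, ?_⟩
  · intro z hz hzim
    simp only
    rw [hG2 z hz hzim]
    field_simp
  · intro z hz
    simp only
    rw [hG3 z hz, map_mul, Complex.conj_ofReal]

/-- **Reflection**: a holomorphic function on a half ball with positive imaginary part tending to
zero at the real points extends. -/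
theorem flat {x ρ : ℝ} {h : ℂ → ℂ} (hd : DifferentiableOn ℂ h (ball (x : ℂ) ρ ∩ UH))
    (hpos : ∀ z ∈ ball (x : ℂ) ρ ∩ UH, 0 < (h z).im)
    (hz : ∀ p : ℝ, (p : ℂ) ∈ ball (x : ℂ) ρ → Tendsto (fun z => (h z).im) (𝓝[UH] (p : ℂ)) (𝓝 0)) :
    DifferentiableOn ℂ (extMap h) (ball (x : ℂ) ρ) ∧
      (∀ z ∈ ball (x : ℂ) ρ, extMap h (conj z) = conj (extMap h z)) ∧
      (∀ z ∈ ball (x : ℂ) ρ, z.im = 0 → (extMap h z).im = 0) := by
  have key : ∀ z ∈ ball (x : ℂ) ρ, ∃ r, z ∈ ball (x : ℂ) r ∧ ∃ G : ℂ → ℂ,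
      DifferentiableOn ℂ G (ball (x : ℂ) r) ∧ (∀ z ∈ ball (x : ℂ) r, 0 < z.im → G z = h z) ∧
      (∀ z ∈ ball (x : ℂ) r, G (conj z) = conj (G z)) := by
    intro z hz1
    obtain ⟨r, hr1, hr2⟩ := exists_between (mem_ball.1 hz1)
    exact ⟨r, hr1, reflect_pos hr2 hd hpos hz⟩
  have hconj : ∀ z ∈ ball (x : ℂ) ρ, extMap h (conj z) = conj (extMap h z) := by
    intro z hz1
    obtain ⟨r, hr, G, h1, h2, h3⟩ := key z hz1
    rw [extMap_eq_local h1 h2 h3 hr, extMap_eq_local h1 h2 h3 (conj_mem_ball hr), h3 z hr]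
  refine ⟨?_, hconj, ?_⟩
  · intro z hz1
    obtain ⟨r, hr, G, h1, h2, h3⟩ := key z hz1
    apply DifferentiableAt.differentiableWithinAt
    apply (h1.differentiableAt (isOpen_ball.mem_nhds hr)).congr_of_eventuallyEq
    filter_upwards [isOpen_ball.mem_nhds hr] with w hw
    exact extMap_eq_local h1 h2 h3 hw
  · intro z hz1 hz0
    have h1 := hconj z hz1
    rw [Complex.conj_eq_iff_im.2 hz0] at h1
    exact Complex.conj_eq_iff_im.1 h1.symm

/-- The derivative at the real points is positive. -/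
theorem deriv_pos_of_real {x ρ : ℝ} {φ : ℂ → ℂ} (hρ : 0 < ρ)
    (hd : DifferentiableOn ℂ φ (ball (x : ℂ) ρ))
    (hsym : ∀ z ∈ ball (x : ℂ) ρ, φ (conj z) = conj (φ z))
    (hpos : ∀ z ∈ ball (x : ℂ) ρ, 0 < z.im → 0 < (φ z).im) :
    ∃ a : ℝ, 0 < a ∧ deriv φ x = a := by
  have hx : (x : ℂ) ∈ ball (x : ℂ) ρ := mem_ball_self hρ
  have hdx : HasDerivAt φ (deriv φ x) x := (hd.differentiableAt (isOpen_ball.mem_nhds hx)).hasDerivAt
  -- the derivative is real
  have hreal : (deriv φ x).im = 0 := by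
    have h1 := hdx.conj_conj
    rw [Complex.conj_ofReal] at h1
    have h2 : HasDerivAt φ (conj (deriv φ x)) x := by
      apply h1.congr_of_eventuallyEq
      filter_upwards [isOpen_ball.mem_nhds hx] with z hz
      simp only [Function.comp]
      rw [hsym z hz, Complex.conj_conj]
    exact Complex.conj_eq_iff_im.1 (h2.unique hdx)
  have hφx : (φ x).im = 0 := by
    have := hsym x hx
    rw [Complex.conj_ofReal] at this
    exact Complex.conj_eq_iff_im.1 this.symm
  set σ : ℝ := ρ / 2 with hσ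
  have hσ0 : 0 < σ := by positivity
  have hσc : (σ : ℂ) ≠ 0 := by exact_mod_cast hσ0.ne'
  set f : ℂ → ℂ := fun s => φ (x + σ * s) - φ x with hf
  have hmem : ∀ s ∈ ball (0 : ℂ) 2, (x : ℂ) + σ * s ∈ ball (x : ℂ) ρ := by
    intro s hs
    rw [mem_ball_zero_iff] at hs
    rw [mem_ball, dist_eq_norm, add_sub_cancel_left, norm_mul, Complex.norm_real,
      Real.norm_eq_abs, abs_of_pos hσ0]
    calc σ * ‖s‖ < σ * 2 := by gcongr
      _ = ρ := by rw [hσ]; ring
  have hfd : DifferentiableOn ℂ f (ball 0 2) := by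
    apply DifferentiableOn.sub_const
    apply hd.comp _ hmem
    fun_prop
  have hf0 : f 0 = 0 := by simp [hf]
  have hm0 : (0 : ℂ) ∈ ball (0 : ℂ) 2 := by simp
  have hf' : deriv f 0 = σ * deriv φ x := by
    have h1 : HasDerivAt (fun s : ℂ => (x : ℂ) + σ * s) (σ : ℂ) 0 := by
      have := ((hasDerivAt_id (0 : ℂ)).const_mul (σ : ℂ)).const_add (x : ℂ)
      simpa using this
    have h2 : HasDerivAt φ (deriv φ x) ((fun s : ℂ => (x : ℂ) + σ * s) 0) := by
      simpa using hdx
    have h3 := (h2.comp (0 : ℂ) h1).sub_const (φ x)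
    have h4 := h3.deriv
    rw [mul_comm] at h4
    exact h4
  have hfim : ∀ s ∈ ball (0 : ℂ) 2, 0 ≤ s.im * (f s).im := by
    intro s hs
    have him : ((x : ℂ) + σ * s).im = σ * s.im := by simp
    have hfi : (f s).im = (φ (x + σ * s)).im := by simp [hf, hφx]
    rw [hfi]
    rcases lt_trichotomy s.im 0 with h1 | h1 | h1
    · have h2 := hmem s hs
      have h3 := conj_mem_ball h2
      have h4 := hpos _ h3 (by rw [Complex.conj_im, him]; nlinarith)
      rw [hsym _ h2, Complex.conj_im] at h4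
      nlinarith
    · rw [h1, zero_mul]
    · have h4 := hpos _ (hmem s hs) (by rw [him]; positivity)
      nlinarith
  set q : ℂ → ℂ := fun s => (1 - s ^ 2) * dslope f 0 s with hq
  have hds : DifferentiableOn ℂ (dslope f 0) (ball 0 2) :=
    (Complex.differentiableOn_dslope (isOpen_ball.mem_nhds hm0)).2 hfd
  have hqd : DifferentiableOn ℂ q (ball 0 2) := by
    apply DifferentiableOn.mul _ hds
    exact (differentiableOn_const _).sub (differentiableOn_id.pow 2)
  have hq0 : q 0 = σ * deriv φ x := by simp [hq, hf']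
  have hcirc : ∀ s : ℂ, ‖s‖ = 1 → 0 ≤ (q s).re := by
    intro s hs1
    have hs0 : s ≠ 0 := by
      intro h
      rw [h, norm_zero] at hs1
      exact zero_ne_one hs1
    have e1 : q s = (conj s - s) * f s := by
      simp only [hq]
      rw [dslope_of_ne _ hs0, slope_def_field, hf0, sub_zero, sub_zero]
      have h2 : s * conj s = 1 := by
        rw [Complex.mul_conj, Complex.normSq_eq_norm_sq, hs1]
        simp
      field_simp
      linear_combination (-(f s)) * h2
    have e2 : (q s).re = 2 * (s.im * (f s).im) := by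
      rw [e1, Complex.mul_re, Complex.sub_re, Complex.sub_im, Complex.conj_re, Complex.conj_im]
      ring
    rw [e2]
    have := hfim s (by rw [mem_ball_zero_iff, hs1]; norm_num)
    linarith
  have hsub : closedBall (0 : ℂ) 1 ⊆ ball 0 2 := closedBall_subset_ball (by norm_num)
  have hED : DifferentiableOn ℂ (fun s => Complex.exp (-q s)) (closedBall 0 1) :=
    ((hqd.mono hsub).neg).cexp
  have hE : DiffContOnCl ℂ (fun s => Complex.exp (-q s)) (ball 0 1) := by
    apply DifferentiableOn.diffContOnCl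
    rwa [closure_ball _ one_ne_zero]
  have hin : ∀ s ∈ ball (0 : ℂ) 1, ‖Complex.exp (-q s)‖ ≤ 1 := by
    intro s hs1
    apply Complex.norm_le_of_forall_mem_frontier_norm_le (C := 1) isBounded_ball hE _
      (subset_closure hs1)
    intro z hz
    rw [frontier_ball _ one_ne_zero, mem_sphere_zero_iff_norm] at hz
    rw [Complex.norm_exp, Complex.neg_re]
    have := hcirc z hz
    rw [Real.exp_le_one_iff]
    linarith
  have h0ball : (0 : ℂ) ∈ ball (0 : ℂ) 1 := by simp
  have hq0re : (q 0).re = σ * (deriv φ x).re := by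
    rw [hq0, Complex.re_ofReal_mul]
  have hnn : 0 ≤ (deriv φ x).re := by
    have h1 := hin 0 h0ball
    rw [Complex.norm_exp, Complex.neg_re, Real.exp_le_one_iff, hq0re] at h1
    by_contra hcon
    push Not at hcon
    nlinarith
  refine ⟨(deriv φ x).re, lt_of_le_of_ne hnn (fun h0 => ?_), Complex.ext (by simp)
    (by simp [hreal])⟩
  -- the derivative vanishes: contradiction
  have hq00 : q 0 = 0 := by
    rw [hq0]
    have : deriv φ x = 0 := Complex.ext (by simp [← h0]) (by simp [hreal])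
    rw [this, mul_zero]
  have hmax : IsMaxOn (norm ∘ fun s => Complex.exp (-q s)) (ball 0 1) 0 := by
    intro s hs
    simp only [Function.comp, mem_ofPred_eq]
    rw [hq00, neg_zero, Complex.exp_zero, norm_one]
    exact hin s hs
  have hconst := Complex.eqOn_of_isPreconnected_of_isMaxOn_norm
    (convex_ball (0 : ℂ) 1).isPreconnected isOpen_ball (hED.mono ball_subset_closedBall)
    h0ball hmax
  -- evaluate at `i / 2`
  have hs : (I / 2 : ℂ) ∈ ball (0 : ℂ) 1 := by
    rw [mem_ball_zero_iff, norm_div, Complex.norm_I]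
    norm_num
  have h1 := hconst hs
  simp only [Function.const, hq00, neg_zero, Complex.exp_zero] at h1
  have h2 : (q (I / 2)).re = 0 := by
    have h3 := congrArg norm h1
    rw [Complex.norm_exp, norm_one, Real.exp_eq_one_iff, Complex.neg_re] at h3
    linarith
  -- but the real part of `q (i/2)` is positive
  have hs0 : (I / 2 : ℂ) ≠ 0 := div_ne_zero Complex.I_ne_zero two_ne_zero
  have e1 : q (I / 2) = (5 / 4 : ℂ) * (f (I / 2) / (I / 2)) := by
    simp only [hq]
    rw [dslope_of_ne _ hs0, slope_def_field, hf0, sub_zero, sub_zero, div_pow, Complex.I_sq]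
    norm_num
  have e2 : (f (I / 2) / (I / 2)).re = 2 * (f (I / 2)).im := by
    have : f (I / 2) / (I / 2) = -(2 * I) * f (I / 2) := by
      rw [div_eq_iff hs0]
      linear_combination (f (I / 2)) * Complex.I_sq
    rw [this]
    simp [Complex.mul_re]
  have h3 : (q (I / 2)).re = 5 / 4 * (2 * (f (I / 2)).im) := by
    rw [e1, ← e2]
    have : (5 / 4 : ℂ) = ((5 / 4 : ℝ) : ℂ) := by push_cast; ring
    rw [this, Complex.re_ofReal_mul]
  have h4 : 0 < (f (I / 2)).im := by
    have h5 : I / 2 ∈ ball (0 : ℂ) 2 := ball_subset_ball (by norm_num) hs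
    have h6 : ((x : ℂ) + σ * (I / 2)).im = σ / 2 := by
      simp
      ring
    have h7 := hpos _ (hmem _ h5) (by rw [h6]; positivity)
    simp only [hf]
    rw [Complex.sub_im, hφx, sub_zero]
    exact h7
  linarith

end Pool.Agent.H83.Lo
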