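import Mathlib

set_option autoImplicit false

/-!
# Schwarz-Pick and Julia lemma for the upper half plane
-/

namespace Pool.Agent.H83.Lo

open Complex Metric Set Filter Topology
open scoped ComplexConjugate

/-- the open upper half plane -/
def UH : Set ℂ := {z | 0 < z.im}

lemma mem_UH {z : ℂ} : z ∈ UH ↔ 0 < z.im := Iff.rfl

lemma isOpen_UH : IsOpen UH := isOpen_lt continuous_const Complex.continuous_im

lemma convex_UH : Convex ℝ UH := convex_halfSpace_im_gt 0

lemma norm_sub_conj_sq (z w : ℂ) : ‖z - conj w‖ ^ 2 = ‖z - w‖ ^ 2 + 4 * z.im * w.im := by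
  simp only [← Complex.normSq_eq_norm_sq, Complex.normSq_apply, Complex.sub_re, Complex.sub_im,
    Complex.conj_re, Complex.conj_im]
  ring

lemma sub_conj_ne {z w : ℂ} (hz : 0 < z.im) (hw : 0 < w.im) : z - conj w ≠ 0 := by
  intro h
  have : (z - conj w).im = 0 := by rw [h]; rfl
  rw [Complex.sub_im, Complex.conj_im] at this
  linarith

/-- Schwarz-Pick in the upper half plane. -/
theorem pick {p : ℂ → ℂ} (hp : DifferentiableOn ℂ p UH) (hm : MapsTo p UH UH) {z w : ℂ}
    (hz : z ∈ UH) (hw : w ∈ UH) :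
    z.im * w.im * ‖p z - conj (p w)‖ ^ 2 ≤ (p z).im * (p w).im * ‖z - conj w‖ ^ 2 := by
  set φ : ℂ → ℂ := fun s => (w - conj w * s) / (1 - s) with hφ
  have h1s : ∀ s ∈ ball (0 : ℂ) 1, (1 : ℂ) - s ≠ 0 := by
    intro s hs h
    have : s = 1 := by linear_combination -h
    rw [this, mem_ball_zero_iff, norm_one] at hs
    exact lt_irrefl _ hs
  have hφim : ∀ s ∈ ball (0 : ℂ) 1, φ s ∈ UH := by
    intro s hs
    have h1 := h1s s hs
    have h2 : 0 < Complex.normSq (1 - s) := Complex.normSq_pos.2 h1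
    have h3 : (φ s).im = w.im * (1 - ‖s‖ ^ 2) / Complex.normSq (1 - s) := by
      rw [hφ]
      simp only
      rw [Complex.div_im, ← Complex.normSq_eq_norm_sq]
      simp only [Complex.sub_re, Complex.sub_im, Complex.mul_re, Complex.mul_im, Complex.conj_re,
        Complex.conj_im, Complex.one_re, Complex.one_im, Complex.normSq_apply]
      ring
    rw [mem_UH, h3]
    rw [mem_ball_zero_iff] at hs
    apply div_pos _ h2
    apply mul_pos hw
    have := norm_nonneg s
    nlinarith
  have hφd : DifferentiableOn ℂ φ (ball 0 1) := by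
    apply DifferentiableOn.div
    · exact (differentiableOn_const _).sub ((differentiableOn_id).const_mul _)
    · exact (differentiableOn_const _).sub differentiableOn_id
    · exact h1s
  set q : ℂ → ℂ := fun s => (p (φ s) - p w) / (p (φ s) - conj (p w)) with hq
  have hpw : 0 < (p w).im := hm hw
  have hqd : DifferentiableOn ℂ q (ball 0 1) := by
    have h2 : DifferentiableOn ℂ (fun s => p (φ s)) (ball 0 1) := hp.comp hφd hφim
    apply DifferentiableOn.div (h2.sub_const _) (h2.sub_const _)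
    intro s hs
    exact sub_conj_ne (hm (hφim s hs)) hpw
  have hqm : MapsTo q (ball 0 1) (closedBall 0 1) := by
    intro s hs
    have h2 : 0 < (p (φ s)).im := hm (hφim s hs)
    have h3 : 0 < ‖p (φ s) - conj (p w)‖ := norm_pos_iff.2 (sub_conj_ne h2 hpw)
    rw [mem_closedBall_zero_iff, hq]
    simp only
    rw [norm_div, div_le_one h3]
    have h4 := norm_sub_conj_sq (p (φ s)) (p w)
    have h5 : ‖p (φ s) - p w‖ ^ 2 ≤ ‖p (φ s) - conj (p w)‖ ^ 2 := by
      rw [h4]
      have : 0 < 4 * (p (φ s)).im * (p w).im := by positivity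
      linarith
    exact le_of_sq_le_sq h5 h3.le |> fun h => h
  have hφ0 : φ 0 = w := by simp [hφ]
  have hq0 : q 0 = 0 := by
    simp only [hq]
    rw [hφ0, sub_self, zero_div]
  set s : ℂ := (z - w) / (z - conj w) with hs
  have hzw : 0 < ‖z - conj w‖ := norm_pos_iff.2 (sub_conj_ne hz hw)
  have hzw0 : z - conj w ≠ 0 := sub_conj_ne hz hw
  have hsn : ‖s‖ < 1 := by
    rw [hs, norm_div, div_lt_one hzw]
    have h4 := norm_sub_conj_sq z w
    have h5 : ‖z - w‖ ^ 2 < ‖z - conj w‖ ^ 2 := by
      rw [h4]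
      have : 0 < 4 * z.im * w.im := by
        have := mem_UH.1 hz
        have := mem_UH.1 hw
        positivity
      linarith
    exact lt_of_pow_lt_pow_left₀ 2 hzw.le h5
  have hφs : φ s = z := by
    have h1 := h1s s (by simpa using hsn)
    simp only [hφ]
    rw [div_eq_iff h1, hs]
    field_simp
    ring
  have h6 := Complex.norm_le_norm_of_mapsTo_ball hqd hqm hq0 hsn
  have h7 : q s = (p z - p w) / (p z - conj (p w)) := by simp only [hq, hφs]
  have hpz : 0 < (p z).im := hm hz
  have hpp : 0 < ‖p z - conj (p w)‖ := norm_pos_iff.2 (sub_conj_ne hpz hpw)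
  rw [h7, hs, norm_div, norm_div, div_le_div_iff₀ hpp hzw] at h6
  have h8 : ‖p z - p w‖ ^ 2 * ‖z - conj w‖ ^ 2 ≤ ‖z - w‖ ^ 2 * ‖p z - conj (p w)‖ ^ 2 := by
    have := pow_le_pow_left₀ (by positivity) h6 2
    rwa [mul_pow, mul_pow] at this
  have h9 := norm_sub_conj_sq z w
  have h10 := norm_sub_conj_sq (p z) (p w)
  have h11 : ‖p z - p w‖ ^ 2 = ‖p z - conj (p w)‖ ^ 2 - 4 * (p z).im * (p w).im := by linarith
  have h12 : ‖z - w‖ ^ 2 = ‖z - conj w‖ ^ 2 - 4 * z.im * w.im := by linarith
  rw [h11, h12] at h8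
  nlinarith

/-- Julia lemma at infinity. -/
theorem julia {p : ℂ → ℂ} (hp : DifferentiableOn ℂ p UH) (hm : ∀ z ∈ UH, 0 ≤ (p z).im) {a : ℝ}
    (hlim : Tendsto (fun y : ℝ => p (y * I) / (y * I)) atTop (𝓝 (a : ℂ))) {z : ℂ} (hz : z ∈ UH) :
    a * z.im ≤ (p z).im := by
  -- strict version
  have strict : ∀ p : ℂ → ℂ, DifferentiableOn ℂ p UH → MapsTo p UH UH →
      Tendsto (fun y : ℝ => p (y * I) / (y * I)) atTop (𝓝 (a : ℂ)) → a * z.im ≤ (p z).im := by
    intro p hp hm hlim
    have hpz : 0 < (p z).im := hm hz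
    have hz' : 0 < z.im := hz
    have hmain : ∀ y : ℝ, 0 < y →
        z.im * ‖p z / y - conj (p (y * I) / y)‖ ^ 2 ≤
          (p z).im * ((p (y * I) / y).im) * ‖z / y + I‖ ^ 2 := by
      intro y hy
      have hyI : (y * I : ℂ) ∈ UH := by rw [mem_UH]; simpa using hy
      have h1 := pick hp hm hz hyI
      have hyn : ‖(y : ℂ)‖ = y := by rw [Complex.norm_real, Real.norm_eq_abs, abs_of_pos hy]
      have hy0 : (y : ℂ) ≠ 0 := by exact_mod_cast hy.ne'
      have e1 : ‖p z - conj (p (y * I))‖ = y * ‖p z / y - conj (p (y * I) / y)‖ := by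
        rw [← hyn, ← norm_mul]
        congr 1
        rw [map_div₀, Complex.conj_ofReal, hyn]
        field_simp
      have e2 : ‖z - conj (y * I)‖ = y * ‖z / y + I‖ := by
        rw [← hyn, ← norm_mul]
        congr 1
        rw [map_mul, Complex.conj_ofReal, Complex.conj_I, hyn]
        field_simp
        ring
      have e3 : (y * I : ℂ).im = y := by simp
      have e4 : (p (y * I)).im = y * ((p (y * I) / y).im) := by
        rw [Complex.div_ofReal_im]
        field_simp
      rw [e1, e2, e3, e4] at h1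
      have hy3 : 0 < y ^ 3 := by positivity
      have h2 : y ^ 3 * (z.im * ‖p z / y - conj (p (y * I) / y)‖ ^ 2) ≤
          y ^ 3 * ((p z).im * ((p (y * I) / y).im) * ‖z / y + I‖ ^ 2) := by nlinarith
      exact le_of_mul_le_mul_left h2 hy3
    have l0 : Tendsto (fun y : ℝ => (y : ℂ)⁻¹) atTop (𝓝 0) := by
      have : Tendsto (fun y : ℝ => ((y⁻¹ : ℝ) : ℂ)) atTop (𝓝 ((0 : ℝ) : ℂ)) :=
        (Complex.continuous_ofReal.tendsto 0).comp tendsto_inv_atTop_zero
      simpa using this
    have l1 : Tendsto (fun y : ℝ => p (y * I) / y) atTop (𝓝 (a * I)) := by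
      have h3 : Tendsto (fun y : ℝ => p (y * I) / (y * I) * I) atTop (𝓝 ((a : ℂ) * I)) :=
        hlim.mul_const I
      apply h3.congr'
      filter_upwards [eventually_gt_atTop 0] with y hy
      have hy0 : (y : ℂ) ≠ 0 := by exact_mod_cast hy.ne'
      field_simp
    have l2 : Tendsto (fun y : ℝ => p z / (y : ℂ)) atTop (𝓝 0) := by
      have := l0.const_mul (p z)
      simpa [div_eq_mul_inv] using this
    have l3 : Tendsto (fun y : ℝ => z / (y : ℂ)) atTop (𝓝 0) := by
      have := l0.const_mul z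
      simpa [div_eq_mul_inv] using this
    have l4 : Tendsto (fun y : ℝ => conj (p (y * I) / y)) atTop (𝓝 (conj (a * I))) :=
      (Complex.continuous_conj.tendsto _).comp l1
    have L : Tendsto (fun y : ℝ => z.im * ‖p z / y - conj (p (y * I) / y)‖ ^ 2) atTop
        (𝓝 (z.im * a ^ 2)) := by
      have h5 := (((l2.sub l4).norm.pow 2).const_mul z.im)
      have e : ‖(0 : ℂ) - conj (a * I)‖ ^ 2 = a ^ 2 := by
        rw [zero_sub, norm_neg, RCLike.norm_conj, norm_mul, Complex.norm_I, mul_one,
          Complex.norm_real, Real.norm_eq_abs, sq_abs]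
      rwa [e] at h5
    have R : Tendsto (fun y : ℝ => (p z).im * ((p (y * I) / y).im) * ‖z / y + I‖ ^ 2) atTop
        (𝓝 ((p z).im * a)) := by
      have h6 := ((Complex.continuous_im.tendsto _).comp l1).const_mul (p z).im
      have h7 := ((l3.add_const I).norm.pow 2)
      have h8 := h6.mul h7
      have e1 : (a * I : ℂ).im = a := by simp
      have e2 : ‖(0 : ℂ) + I‖ ^ 2 = 1 := by simp
      rw [e1, e2, mul_one] at h8
      exact h8
    have hle : z.im * a ^ 2 ≤ (p z).im * a := by
      apply le_of_tendsto_of_tendsto L R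
      filter_upwards [eventually_gt_atTop 0] with y hy
      exact hmain y hy
    by_cases ha : 0 < a
    · have : a * (a * z.im) ≤ a * (p z).im := by nlinarith
      exact le_of_mul_le_mul_left this ha
    · push Not at ha
      nlinarith
  apply le_of_forall_pos_le_add
  intro ε hε
  have h1 := strict (fun w => p w + ε * I) (hp.add_const _) (fun w hw => by
    rw [mem_UH, Complex.add_im]
    have := hm w hw
    have e : (ε * I : ℂ).im = ε := by simp
    rw [e]
    linarith) (by
    have l0 : Tendsto (fun y : ℝ => (ε * I : ℂ) / (y * I)) atTop (𝓝 0) := by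
      have : Tendsto (fun y : ℝ => ((ε * y⁻¹ : ℝ) : ℂ)) atTop (𝓝 ((ε * 0 : ℝ) : ℂ)) :=
        (Complex.continuous_ofReal.tendsto _).comp (tendsto_inv_atTop_zero.const_mul ε)
      rw [mul_zero, Complex.ofReal_zero] at this
      apply this.congr'
      filter_upwards [eventually_gt_atTop 0] with y hy
      have hy0 : (y : ℂ) ≠ 0 := by exact_mod_cast hy.ne'
      rw [mul_div_mul_right _ _ Complex.I_ne_zero]
      push_cast
      field_simp
    have h2 := hlim.add l0
    rw [add_zero] at h2
    apply h2.congr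
    intro y
    rw [add_div])
  rw [Complex.add_im] at h1
  have e : (ε * I : ℂ).im = ε := by simp
  rw [e] at h1
  exact h1

end Pool.Agent.H83.Lo
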