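import Pool.Agent.H83.Lo.Small

set_option autoImplicit false

/-!
# Capacity and displacement estimates
-/

namespace Pool.Agent.H83.Lo

open Complex Metric Set Filter Topology
open scoped ComplexConjugate

namespace Hyd

variable {U : Set ℂ} {g : ℂ → ℂ} {c : ℝ}

/-- the half disc of radius `r` -/
theorem halfDisc {r : ℝ} (hr : 0 < r) :
    Hyd {z : ℂ | r < ‖z‖ ∧ z ∈ UH} (fun z => z + r ^ 2 / z) (r ^ 2) := by
  have hz0 : ∀ z ∈ {z : ℂ | r < ‖z‖ ∧ z ∈ UH}, z ≠ 0 := by
    intro z hz h0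
    have := hz.1
    rw [h0, norm_zero] at this
    linarith
  have hrc : (r : ℂ) ≠ 0 := by exact_mod_cast hr.ne'
  have him : ∀ z : ℂ, (z + (r : ℂ) ^ 2 / z).im = z.im * (1 - r ^ 2 / ‖z‖ ^ 2) := by
    intro z
    rw [Complex.add_im, ← Complex.ofReal_pow, Complex.div_im, Complex.ofReal_im,
      Complex.ofReal_re, Complex.normSq_eq_norm_sq]
    ring
  refine ⟨?_, fun z hz => hz.2, ⟨r, fun z h1 h2 => ⟨h1, h2⟩⟩, ?_, ⟨?_, ?_, ?_⟩, ?_⟩
  · exact (isOpen_lt continuous_const continuous_norm).inter isOpen_UH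
  · apply differentiableOn_id.add
    exact (differentiableOn_const _).div differentiableOn_id hz0
  · rintro z ⟨h1, h2⟩
    rw [mem_UH, him]
    apply mul_pos h2
    have : 0 < ‖z‖ := by linarith
    rw [sub_pos, div_lt_one (by positivity)]
    nlinarith
  · rintro z hz w hw heq
    simp only at heq
    have e1 := hz0 z hz
    have e2 := hz0 w hw
    have h1 : (z - w) * (z * w - r ^ 2) = 0 := by
      field_simp at heq
      linear_combination heq
    rcases mul_eq_zero.1 h1 with h2 | h2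
    · exact sub_eq_zero.1 h2
    · exfalso
      have h3 : z * w = (r : ℂ) ^ 2 := by linear_combination h2
      have h4 : ‖z‖ * ‖w‖ = r ^ 2 := by
        rw [← norm_mul, h3, norm_pow, Complex.norm_real, Real.norm_eq_abs, abs_of_pos hr]
      have := hz.1
      have := hw.1
      nlinarith
  · intro w hw
    obtain ⟨d, hd⟩ := IsAlgClosed.exists_pow_nat_eq (w ^ 2 - 4 * r ^ 2) (n := 2) (by norm_num)
    set s₁ : ℂ := (w + d) / 2 with hs₁
    set s₂ : ℂ := (w - d) / 2 with hs₂
    have hprod : s₁ * s₂ = r ^ 2 := by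
      rw [hs₁, hs₂]
      linear_combination (-1 / 4) * hd
    have hsum : s₁ + s₂ = w := by rw [hs₁, hs₂]; ring
    have hr2 : (r : ℂ) ^ 2 ≠ 0 := pow_ne_zero 2 hrc
    have h1 : s₁ ≠ 0 := by
      intro h; rw [h, zero_mul] at hprod; exact hr2 hprod.symm
    have h2 : s₂ ≠ 0 := by
      intro h; rw [h, mul_zero] at hprod; exact hr2 hprod.symm
    have hn : ‖s₁‖ * ‖s₂‖ = r ^ 2 := by
      rw [← norm_mul, hprod, norm_pow, Complex.norm_real, Real.norm_eq_abs, abs_of_pos hr]
    have key : ∀ s : ℂ, s ≠ 0 → s + r ^ 2 / s = w → r ≤ ‖s‖ → ∃ z ∈ {z : ℂ | r < ‖z‖ ∧ z ∈ UH},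
        z + (r : ℂ) ^ 2 / z = w := by
      intro s hs0 hsw hsr
      have h3 := congrArg Complex.im hsw
      rw [him] at h3
      have hw' := mem_UH.1 hw
      have hsn : 0 < ‖s‖ := by linarith
      rcases hsr.lt_or_eq with h4 | h4
      · refine ⟨s, ⟨h4, ?_⟩, hsw⟩
        rw [mem_UH]
        by_contra hcon
        push Not at hcon
        have h5 : 0 ≤ 1 - r ^ 2 / ‖s‖ ^ 2 := by
          rw [sub_nonneg, div_le_one (by positivity)]
          nlinarith
        nlinarith
      · exfalso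
        have h5 : 1 - r ^ 2 / ‖s‖ ^ 2 = 0 := by
          rw [← h4]
          field_simp
          ring
        rw [h5, mul_zero] at h3
        linarith
    rcases le_total r ‖s₁‖ with h | h
    · apply key s₁ h1 _ h
      rw [← hprod, ← hsum]
      field_simp
    · apply key s₂ h2
      · rw [← hprod, ← hsum]
        field_simp
        ring
      · by_contra hcon
        push Not at hcon
        have := norm_pos_iff.2 h1
        have := norm_pos_iff.2 h2
        nlinarith
  · have h1 : Tendsto (fun _ : ℂ => ((r ^ 2 : ℝ) : ℂ)) atUH (𝓝 ((r ^ 2 : ℝ) : ℂ)) :=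
      tendsto_const_nhds
    apply h1.congr'
    rw [EventuallyEq, eventually_atUH]
    refine ⟨0, fun z hz _ => ?_⟩
    have : z ≠ 0 := norm_pos_iff.1 hz
    push_cast
    field_simp
    ring

/-- upper bound for the capacity -/
theorem cap_le (h : Hyd U g c) {x r : ℝ} (hr : 0 ≤ r)
    (hU : ∀ z : ℂ, r < ‖z - x‖ → z ∈ UH → z ∈ U) : c ≤ r ^ 2 := by
  have h1 := h.translate x
  have key : ∀ r' : ℝ, r < r' → c ≤ r' ^ 2 := by
    intro r' hr'
    apply h1.mono (halfDisc (r := r') (by linarith))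
    rintro z ⟨hz1, hz2⟩
    apply hU (z + x)
    · rw [add_sub_cancel_right]
      linarith
    · rw [mem_UH] at hz2 ⊢
      simpa using hz2
  have l : Tendsto (fun r' : ℝ => r' ^ 2) (𝓝[>] r) (𝓝 (r ^ 2)) :=
    ((continuous_pow 2).tendsto r).mono_left nhdsWithin_le_nhds
  apply ge_of_tendsto l
  filter_upwards [self_mem_nhdsWithin] with r' hr'
  exact key r' hr'

/-- Displacement bound, centred at the origin. -/
theorem displ_zero (h : Hyd U g c) {r : ℝ} (hr : 0 ≤ r)
    (hU : ∀ z : ℂ, r < ‖z‖ → z ∈ UH → z ∈ U) {z : ℂ} (hz : z ∈ U) : ‖g z - z‖ ≤ 6 * r := by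
  have hc := h.nonneg
  have key : ∀ r' : ℝ, r < r' → ‖g z - z‖ ≤ 6 * r' := by
    intro r' hr'
    have hr'0 : 0 < r' := by linarith
    have hcr : c ≤ r' ^ 2 := by
      refine h.cap_le (x := 0) hr'0.le (fun w hw hw2 => hU w ?_ hw2)
      rw [Complex.ofReal_zero, sub_zero] at hw
      linarith
    -- outside the disc of radius `2 r'`
    have hout : ∀ w : ℂ, 2 * r' ≤ ‖w‖ → w ∈ UH → w ∈ U ∧ ‖g w - w‖ ≤ 2 * r' := by
      intro w hw hwU
      have hwU' : w ∈ U := hU w (by linarith) hwU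
      refine ⟨hwU', ?_⟩
      have h1 := h.small_core (x := 0) hr hr' (fun v hv hv2 => hU v (by
        rw [Complex.ofReal_zero, sub_zero] at hv
        exact hv) hv2) (z := w) (by rw [Complex.ofReal_zero, sub_zero]; exact hw)
      rw [extMap_upper (mem_UH.1 hwU), Complex.ofReal_zero, sub_zero] at h1
      have hwn : 0 < ‖w‖ := by linarith
      have h2 : ‖g w - w‖ ≤ ‖g w - w - c / w‖ + ‖(c : ℂ) / w‖ := by
        calc ‖g w - w‖ = ‖(g w - w - c / w) + c / w‖ := by congr 1; ring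
          _ ≤ _ := norm_add_le _ _
      have h3 : ‖(c : ℂ) / w‖ ≤ r' / 2 := by
        rw [norm_div, Complex.norm_real, Real.norm_eq_abs, abs_of_nonneg hc, div_le_iff₀ hwn]
        nlinarith
      have h4 : 6 * c * r' / ‖w‖ ^ 2 ≤ 3 / 2 * r' := by
        rw [div_le_iff₀ (by positivity)]
        have h5 : (2 * r') ^ 2 ≤ ‖w‖ ^ 2 := by gcongr
        calc 6 * c * r' ≤ 6 * r' ^ 2 * r' := by gcongr
          _ = 3 / 2 * r' * (2 * r') ^ 2 := by ring
          _ ≤ 3 / 2 * r' * ‖w‖ ^ 2 := by gcongr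
      linarith
    rcases le_or_gt (2 * r') ‖z‖ with h1 | h1
    · have := (hout z h1 (h.sub hz)).2
      linarith
    · have h2 : ‖g z‖ ≤ 4 * r' := by
        by_contra hcon
        push Not at hcon
        have := h.far_inv (R := 2 * r') (δ := 2 * r') (by linarith) (by linarith) hout hz
          (by linarith)
        linarith
      calc ‖g z - z‖ ≤ ‖g z‖ + ‖z‖ := _root_.norm_sub_le _ _
        _ ≤ 6 * r' := by linarith
  have l : Tendsto (fun r' : ℝ => 6 * r') (𝓝[>] r) (𝓝 (6 * r)) :=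
    ((continuous_const.mul continuous_id).tendsto r).mono_left nhdsWithin_le_nhds
  apply ge_of_tendsto l
  filter_upwards [self_mem_nhdsWithin] with r' hr'
  exact key r' hr'

/-- Displacement bound. -/
theorem displ (h : Hyd U g c) {x r : ℝ} (hr : 0 ≤ r)
    (hU : ∀ z : ℂ, r < ‖z - x‖ → z ∈ UH → z ∈ U) {z : ℂ} (hz : z ∈ U) : ‖g z - z‖ ≤ 6 * r := by
  have h1 := (h.translate x).displ_zero hr (fun w hw hw2 => hU (w + x) (by
    rwa [add_sub_cancel_right]) (by
    rw [mem_UH] at hw2 ⊢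
    simpa using hw2)) (z := z - x) (by
    rw [mem_preimage, sub_add_cancel]
    exact hz)
  simp only [sub_add_cancel] at h1
  have e : g z - x - (z - x) = g z - z := by ring
  rwa [e] at h1

/-- Height bound: a point of the upper half plane outside the domain has height at most
`sqrt (6 c)`. -/
theorem height (h : Hyd U g c) {z₀ : ℂ} (hz₀ : z₀ ∈ UH) (hz₀U : z₀ ∉ U) : z₀.im ^ 2 ≤ 6 * c := by
  obtain ⟨T, hT⟩ := h.exists_inv
  have hc := h.nonneg
  have him : 0 < z₀.im := hz₀
  by_contra hcon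
  push Not at hcon
  set ρ : ℝ := z₀.im / 2 with hρ
  have hρ0 : 0 < ρ := by positivity
  have hball : closedBall z₀ ρ ⊆ UH := by
    intro w hw
    rw [mem_closedBall, dist_eq_norm] at hw
    have h1 := (Complex.abs_im_le_norm (w - z₀)).trans hw
    rw [Complex.sub_im, abs_le] at h1
    rw [mem_UH]
    linarith [h1.1]
  have hTne : ∀ w ∈ UH, T w - z₀ ≠ 0 := by
    intro w hw h0
    apply hz₀U
    rw [← sub_eq_zero.1 h0]
    exact hT.maps hw
  -- the displacement on the sphere
  have hdisp : ∀ w ∈ closedBall z₀ ρ, ‖T w - w‖ ≤ c / ρ := by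
    intro w hw
    have h1 := Inv.norm_sub_le h hT (hball hw)
    refine h1.trans ?_
    rw [mem_closedBall, dist_eq_norm] at hw
    have h2 := (Complex.abs_im_le_norm (w - z₀)).trans hw
    rw [Complex.sub_im, abs_le] at h2
    have h3 : ρ ≤ w.im := by linarith [h2.1]
    gcongr
  have hcρ : c / ρ < ρ := by
    rw [div_lt_iff₀ hρ0]
    nlinarith
  have hf : DiffContOnCl ℂ (fun w => (T w - z₀)⁻¹) (ball z₀ ρ) := by
    apply DifferentiableOn.diffContOnCl
    rw [closure_ball _ hρ0.ne']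
    exact ((hT.diff.mono hball).sub_const _).inv (fun w hw => hTne w (hball hw))
  have h1 := Complex.norm_le_of_forall_mem_frontier_norm_le (C := (ρ - c / ρ)⁻¹) isBounded_ball hf
    (by
      intro w hw
      rw [frontier_ball _ hρ0.ne'] at hw
      rw [norm_inv]
      have h2 := hdisp w (sphere_subset_closedBall hw)
      rw [mem_sphere, dist_eq_norm] at hw
      have h3 : ρ - c / ρ ≤ ‖T w - z₀‖ := by
        have : ‖w - z₀‖ ≤ ‖T w - z₀‖ + ‖T w - w‖ := by
          calc ‖w - z₀‖ = ‖(T w - z₀) - (T w - w)‖ := by congr 1; ring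
            _ ≤ _ := _root_.norm_sub_le _ _
        rw [hw] at this
        linarith
      exact inv_anti₀ (by linarith) h3) (subset_closure (mem_ball_self hρ0))
  rw [norm_inv] at h1
  have h4 : ‖T z₀ - z₀‖ ≤ c / z₀.im := Inv.norm_sub_le h hT hz₀
  have h5 : 0 < ‖T z₀ - z₀‖ := norm_pos_iff.2 (hTne z₀ hz₀)
  have h6 : 0 < ρ - c / ρ := by linarith
  have h7 : ρ - c / ρ ≤ ‖T z₀ - z₀‖ := by
    rwa [inv_le_inv₀ h5 h6] at h1
  have h8 : ρ ≤ c / ρ + c / z₀.im := by linarith
  have h9 : z₀.im = 2 * ρ := by rw [hρ]; ring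
  rw [h9] at h8 hcon
  have h10 : c / ρ + c / (2 * ρ) = 3 * c / (2 * ρ) := by
    field_simp
    ring
  rw [h10, le_div_iff₀ (by positivity)] at h8
  nlinarith

/-- Derivative version of the small hull estimate. -/
theorem small_deriv (h : Hyd U g c) {x r : ℝ} (hr : 0 ≤ r)
    (hU : ∀ z : ℂ, r < ‖z - x‖ → z ∈ UH → z ∈ U) {z : ℂ} (hz : 4 * r < ‖z - x‖) :
    ‖deriv (extMap g) z - 1 + c / (z - x) ^ 2‖ ≤ 48 * c * r / ‖z - x‖ ^ 3 := by
  have hc := h.nonneg
  have hzx : 0 < ‖z - x‖ := by linarith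
  have hzx0 : z - (x : ℂ) ≠ 0 := norm_pos_iff.1 hzx
  set ρ : ℝ := ‖z - x‖ / 2 with hρ
  have hρ0 : 0 < ρ := by positivity
  set F : ℂ → ℂ := fun w => extMap g w - w - c / (w - x) with hF
  have hw : ∀ w ∈ closedBall z ρ, ρ ≤ ‖w - x‖ := by
    intro w hw
    rw [mem_closedBall, dist_eq_norm] at hw
    have : ‖z - x‖ ≤ ‖w - x‖ + ‖w - z‖ := by
      calc ‖z - x‖ = ‖(w - x) - (w - z)‖ := by congr 1; ring
        _ ≤ _ := _root_.norm_sub_le _ _
    linarith
  have hwx0 : ∀ w ∈ closedBall z ρ, w - (x : ℂ) ≠ 0 := fun w h1 =>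
    norm_pos_iff.1 (lt_of_lt_of_le hρ0 (hw w h1))
  have hext : ∀ w ∈ closedBall z ρ, w ∈ ext U := fun w h1 => ext_of_ext hU (by
    have := hw w h1
    linarith)
  have hFd : ∀ w ∈ closedBall z ρ, DifferentiableAt ℂ F w := by
    intro w h1
    exact ((h.ext_differentiableAt (hext w h1)).sub differentiableAt_id).sub
      ((differentiableAt_const _).div (differentiableAt_id.sub_const _) (hwx0 w h1))
  have hb : ‖deriv F z‖ ≤ (6 * c * r / ρ ^ 2) / ρ := by
    apply Complex.norm_deriv_le_of_forall_mem_sphere_norm_le hρ0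
    · apply DifferentiableOn.diffContOnCl
      rw [closure_ball _ hρ0.ne']
      exact fun w h1 => (hFd w h1).differentiableWithinAt
    · intro w h1
      have h2 := hw w (sphere_subset_closedBall h1)
      refine (h.small hr hU (by linarith)).trans ?_
      gcongr
  have hd : HasDerivAt F (deriv (extMap g) z - 1 - (0 * (z - x) - c * 1) / (z - x) ^ 2) z := by
    have hzc : z ∈ closedBall z ρ := mem_closedBall_self hρ0.le
    exact ((h.ext_differentiableAt (hext z hzc)).hasDerivAt.sub (hasDerivAt_id z)).sub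
      ((hasDerivAt_const z (c : ℂ)).div ((hasDerivAt_id z).sub_const _) hzx0)
  rw [hd.deriv] at hb
  have e : deriv (extMap g) z - 1 - (0 * (z - x) - c * 1) / (z - x) ^ 2 =
      deriv (extMap g) z - 1 + c / (z - x) ^ 2 := by ring
  rw [e] at hb
  refine hb.trans (le_of_eq ?_)
  rw [hρ]
  field_simp
  ring

end Hyd

end Pool.Agent.H83.Lo
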