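import Pool.Agent.H83.Lo.Flat
import Pool.Agent.H83.Lo.Cap

set_option autoImplicit false

/-!
# Expansion of the inverse map at infinity and the moment inequalities (J4 of Q1_M7)
-/

namespace Pool.Agent.H83.Lo

open Complex Metric Set Filter Topology
open scoped ComplexConjugate

/-- Functions with nonnegative imaginary part which behave like `-m/w` at infinity. -/
theorem nevan {N : ℂ → ℂ} {m : ℝ} (hN : DifferentiableOn ℂ N UH) (him : ∀ w ∈ UH, 0 ≤ (N w).im)
    (hlim : Tendsto (fun w => w * N w) atUH (𝓝 (-(m : ℂ)))) :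
    0 ≤ m ∧ ∀ w ∈ UH, ‖N w‖ ≤ m / w.im := by
  have hm : 0 ≤ m := by
    have h1 := (Complex.continuous_re.tendsto _).comp (hlim.comp tendsto_iy)
    have h2 : -m ≤ 0 := by
      have e : (-(m : ℂ)).re = -m := by simp
      rw [e] at h1
      apply le_of_tendsto h1
      filter_upwards [eventually_gt_atTop 0] with y hy
      have h3 := him (y * I) (by rw [mem_UH]; simpa using hy)
      simp only [Function.comp]
      have e2 : (y * I * N (y * I) : ℂ).re = -(y * (N (y * I)).im) := by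
        simp [Complex.mul_re]
      rw [e2]
      have := mul_nonneg hy.le h3
      linarith
    linarith
  refine ⟨hm, fun w hw => ?_⟩
  have hwim := mem_UH.1 hw
  have key : ∀ δ : ℝ, 0 < δ → ‖N w - δ / w‖ ≤ (m + δ) / w.im := by
    intro δ hδ
    set N' : ℂ → ℂ := fun v => N v - δ / v with hN'
    have hv0 : ∀ v ∈ UH, v ≠ 0 := by
      intro v hv h0
      rw [h0, mem_UH] at hv
      simp at hv
    have hNd : DifferentiableOn ℂ N' UH :=
      hN.sub ((differentiableOn_const _).div differentiableOn_id hv0)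
    have hNim : ∀ v ∈ UH, 0 < (N' v).im := by
      intro v hv
      have h1 := him v hv
      have h2 : ((δ : ℂ) / v).im < 0 := by
        rw [Complex.div_im]
        simp only [Complex.ofReal_im, Complex.ofReal_re, zero_mul, zero_div, zero_sub]
        have h3 : 0 < Complex.normSq v := Complex.normSq_pos.2 (hv0 v hv)
        have h4 := mem_UH.1 hv
        have : 0 < δ * v.im / Complex.normSq v := by positivity
        linarith
      simp only [hN', Complex.sub_im]
      linarith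
    have hN0 : ∀ v ∈ UH, N' v ≠ 0 := by
      intro v hv h0
      have := hNim v hv
      rw [h0] at this
      simp at this
    have hlimN : Tendsto (fun v => v * N' v) atUH (𝓝 (-((m + δ : ℝ) : ℂ))) := by
      have h5 := hlim.sub_const (δ : ℂ)
      have e : (-((m + δ : ℝ) : ℂ)) = -(m : ℂ) - δ := by push_cast; ring
      rw [e]
      apply h5.congr'
      filter_upwards [eventually_mem_UH] with v hv
      have := hv0 v hv
      simp only [hN']
      field_simp
    set M : ℂ → ℂ := fun v => -(N' v)⁻¹ with hM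
    have hMd : DifferentiableOn ℂ M UH := (hNd.inv hN0).neg
    have hMim : ∀ v ∈ UH, (M v).im = (N' v).im / ‖N' v‖ ^ 2 := by
      intro v hv
      simp only [hM, Complex.neg_im, Complex.inv_im, ← Complex.normSq_eq_norm_sq]
      ring
    have hcδ : (m + δ : ℝ) ≠ 0 := by linarith
    have hcδ' : ((m + δ : ℝ) : ℂ) ≠ 0 := by exact_mod_cast hcδ
    have hMlim : Tendsto (fun y : ℝ => M (y * I) / (y * I)) atTop
        (𝓝 (((1 / (m + δ) : ℝ)) : ℂ)) := by
      have h6 : Tendsto (fun v => M v / v) atUH (𝓝 (((1 / (m + δ) : ℝ)) : ℂ)) := by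
        have h7 := (hlimN.inv₀ (neg_ne_zero.2 hcδ')).neg
        have e : (((1 / (m + δ) : ℝ)) : ℂ) = -(-((m + δ : ℝ) : ℂ))⁻¹ := by
          rw [Complex.ofReal_div, Complex.ofReal_one, inv_neg, neg_neg, one_div]
        rw [e]
        apply h7.congr
        intro v
        simp only [hM]
        rw [mul_inv, neg_div, div_eq_mul_inv, mul_comm]
      exact h6.comp tendsto_iy
    have h8 := julia hMd (fun v hv => by
      rw [hMim v hv]
      have := hNim v hv
      positivity) hMlim hw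
    rw [hMim w hw] at h8
    have hn : 0 < ‖N' w‖ := norm_pos_iff.2 (hN0 w hw)
    have hcd : 0 < m + δ := by linarith
    rw [le_div_iff₀ (by positivity), one_div, inv_mul_eq_div, div_mul_eq_mul_div,
      div_le_iff₀ hcd] at h8
    have h9 : (N' w).im ≤ ‖N' w‖ := (le_abs_self _).trans (Complex.abs_im_le_norm _)
    change ‖N' w‖ ≤ (m + δ) / w.im
    rw [le_div_iff₀ hwim]
    have h10 : w.im * ‖N' w‖ ^ 2 ≤ ‖N' w‖ * (m + δ) := h8.trans (by gcongr)
    have h11 : ‖N' w‖ * (‖N' w‖ * w.im) ≤ ‖N' w‖ * (m + δ) := by nlinarith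
    exact le_of_mul_le_mul_left h11 hn
  have l1 : Tendsto (fun δ : ℝ => ‖N w - δ / w‖) (𝓝[>] 0) (𝓝 ‖N w‖) := by
    have : Continuous (fun δ : ℝ => ‖N w - δ / w‖) := by fun_prop
    have h2 := this.tendsto 0
    simp only [Complex.ofReal_zero, zero_div, sub_zero] at h2
    exact h2.mono_left nhdsWithin_le_nhds
  have l2 : Tendsto (fun δ : ℝ => (m + δ) / w.im) (𝓝[>] 0) (𝓝 (m / w.im)) := by
    have : Continuous (fun δ : ℝ => (m + δ) / w.im) := by fun_prop
    have h2 := this.tendsto 0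
    simp only [add_zero] at h2
    exact h2.mono_left nhdsWithin_le_nhds
  apply le_of_tendsto_of_tendsto l1 l2
  filter_upwards [self_mem_nhdsWithin] with δ hδ
  exact key δ hδ

/-- Maximum principle in the upper half plane for the imaginary part. -/
theorem max_UH {F : ℂ → ℂ} (hF : DifferentiableOn ℂ F UH)
    (hb : ∀ ε > 0, ∀ R : ℝ, ∃ δ > 0, ∀ w : ℂ, 0 < w.im → w.im < δ → ‖w‖ ≤ R → (F w).im ≤ ε)
    (hinf : Tendsto F atUH (𝓝 0)) {w : ℂ} (hw : w ∈ UH) : (F w).im ≤ 0 := by
  apply le_of_forall_pos_le_add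
  intro ε hε
  rw [zero_add]
  obtain ⟨R, hR⟩ := eventually_atUH.1 ((tendsto_zero_iff_norm_tendsto_zero.1 hinf).eventually_lt
      (tendsto_const_nhds (x := ε)) hε)
  set R' : ℝ := max (max R ‖w‖) 0 + 1 with hR'
  have hR1 : R < R' := by
    have := le_max_left R ‖w‖
    have := le_max_left (max R ‖w‖) 0
    linarith
  have hR2 : ‖w‖ < R' := by
    have := le_max_right R ‖w‖
    have := le_max_left (max R ‖w‖) 0
    linarith
  have hR3 : 0 < R' := by positivity
  obtain ⟨δ₀, hδ₀, h1⟩ := hb ε hε R'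
  set δ : ℝ := min (δ₀ / 2) (w.im / 2) with hδ
  have hwim := mem_UH.1 hw
  have hδpos : 0 < δ := lt_min (by positivity) (by positivity)
  have hδ1 : δ < δ₀ := lt_of_le_of_lt (min_le_left _ _) (by linarith)
  have hδ2 : δ < w.im := lt_of_le_of_lt (min_le_right _ _) (by linarith)
  set D : Set ℂ := ball (0 : ℂ) R' ∩ {z | δ < z.im} with hD
  have hDo : IsOpen D := isOpen_ball.inter (isOpen_lt continuous_const Complex.continuous_im)
  have hDcl : closure D ⊆ closedBall (0 : ℂ) R' ∩ {z | δ ≤ z.im} := by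
    apply closure_minimal
    · rintro z ⟨h1, h2⟩
      exact ⟨ball_subset_closedBall h1, (show δ < z.im from h2).le⟩
    · exact isClosed_closedBall.inter (isClosed_le continuous_const Complex.continuous_im)
  have hclU : closure D ⊆ UH := by
    intro z hz1
    obtain ⟨_, h2⟩ := hDcl hz1
    exact lt_of_lt_of_le hδpos h2
  have hdc : DiffContOnCl ℂ (fun z => Complex.exp (-I * F z)) D := by
    apply DifferentiableOn.diffContOnCl
    exact ((hF.mono hclU).const_mul _).cexp
  have hnorm : ∀ z : ℂ, ‖Complex.exp (-I * F z)‖ = Real.exp (F z).im := by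
    intro z
    rw [Complex.norm_exp]
    congr 1
    simp [Complex.mul_re]
  have hfr : ∀ z ∈ frontier D, ‖Complex.exp (-I * F z)‖ ≤ Real.exp ε := by
    intro z hzf
    obtain ⟨h2, h3⟩ := hDcl (frontier_subset_closure hzf)
    have h3' : δ ≤ z.im := h3
    have hzim : 0 < z.im := lt_of_lt_of_le hδpos h3'
    rw [hnorm, Real.exp_le_exp]
    have hzD : z ∉ D := by
      intro hin
      exact hzf.2 (by rwa [hDo.interior_eq])
    rw [mem_closedBall_zero_iff] at h2
    rcases h3'.lt_or_eq with h4 | h4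
    · have h5 : ‖z‖ = R' := by
        by_contra hno
        exact hzD ⟨by rw [mem_ball_zero_iff]; exact lt_of_le_of_ne h2 hno, h4⟩
      have h6 := hR z (by rw [h5]; exact hR1) hzim
      exact ((le_abs_self _).trans (Complex.abs_im_le_norm _)).trans h6.le
    · exact h1 z hzim (by rw [← h4]; exact hδ1) h2
  have hwD : w ∈ D := ⟨by rw [mem_ball_zero_iff]; exact hR2, hδ2⟩
  have h9 := Complex.norm_le_of_forall_mem_frontier_norm_le
    (isBounded_ball.subset inter_subset_left) hdc hfr (subset_closure hwD)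
  rwa [hnorm, Real.exp_le_exp] at h9

namespace Hyd

variable {U : Set ℂ} {g T : ℂ → ℂ} {c : ℝ}

/-- displacement of the inverse map -/
lemma Inv.displ_zero (h : Hyd U g c) (hT : Inv U g T c) {r : ℝ} (hr : 0 ≤ r)
    (hU : ∀ z : ℂ, r < ‖z‖ → z ∈ UH → z ∈ U) {w : ℂ} (hw : w ∈ UH) : ‖w - T w‖ ≤ 6 * r := by
  have h1 := h.displ_zero hr hU (hT.maps hw)
  rwa [hT.right w hw] at h1

/-- the inverse map has boundary values with vanishing imaginary part outside a disc -/
lemma Inv.im_tendsto (h : Hyd U g c) (hT : Inv U g T c) {r : ℝ} (hr : 0 ≤ r)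
    (hU : ∀ z : ℂ, r < ‖z‖ → z ∈ UH → z ∈ U) {p : ℝ} (hp : 7 * r < |p|) :
    Tendsto (fun w => (T w).im) (𝓝[UH] (p : ℂ)) (𝓝 0) := by
  rw [Metric.tendsto_nhdsWithin_nhds]
  by_contra hcon
  push Not at hcon
  obtain ⟨ε, hε, hbad⟩ := hcon
  have h1 : ∀ n : ℕ, ∃ w ∈ UH, dist w (p : ℂ) < 1 / ((n : ℝ) + 1) ∧ ε ≤ dist (T w).im 0 := by
    intro n
    obtain ⟨w, hw, hw1, hw2⟩ := hbad (1 / ((n : ℝ) + 1)) (by positivity)
    exact ⟨w, hw, hw1, hw2⟩
  choose w hwU hwp hwε using h1
  have hwlim : Tendsto w atTop (𝓝 (p : ℂ)) := by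
    rw [tendsto_iff_dist_tendsto_zero]
    exact squeeze_zero (fun _ => dist_nonneg) (fun n => (hwp n).le)
      (tendsto_one_div_add_atTop_nhds_zero_nat (𝕜 := ℝ))
  -- the values are bounded
  have hTb : ∀ n, T (w n) ∈ closedBall (0 : ℂ) (|p| + 1 + 6 * r) := by
    intro n
    rw [mem_closedBall_zero_iff]
    have h2 := Inv.displ_zero h hT hr hU (hwU n)
    have h3 : ‖w n‖ ≤ |p| + 1 := by
      have h4 := hwp n
      rw [dist_eq_norm] at h4
      have h5 : (1 : ℝ) / ((n : ℝ) + 1) ≤ 1 := by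
        rw [div_le_one (by positivity)]
        have : (0 : ℝ) ≤ n := Nat.cast_nonneg n
        linarith
      calc ‖w n‖ = ‖(p : ℂ) + (w n - p)‖ := by congr 1; ring
        _ ≤ ‖(p : ℂ)‖ + ‖w n - p‖ := norm_add_le _ _
        _ ≤ |p| + 1 := by
            rw [Complex.norm_real, Real.norm_eq_abs]
            linarith
    calc ‖T (w n)‖ = ‖w n - (w n - T (w n))‖ := by congr 1; ring
      _ ≤ ‖w n‖ + ‖w n - T (w n)‖ := _root_.norm_sub_le _ _
      _ ≤ _ := by linarith
  obtain ⟨z, -, φ, hφ, hlim⟩ := (isCompact_closedBall (0 : ℂ) (|p| + 1 + 6 * r)).tendsto_subseq hTb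
  -- the limit point
  have hzim : ε ≤ z.im := by
    have h2 : Tendsto (fun n => (T (w (φ n))).im) atTop (𝓝 z.im) :=
      (Complex.continuous_im.tendsto z).comp hlim
    apply ge_of_tendsto h2
    filter_upwards with n
    have h3 := hwε (φ n)
    have h4 := mem_UH.1 (h.sub (hT.maps (hwU (φ n))))
    rw [Real.dist_eq, sub_zero, abs_of_pos h4] at h3
    exact h3
  have hzr : r < ‖z‖ := by
    have h2 : Tendsto (fun n => ‖w (φ n)‖ - ‖w (φ n) - T (w (φ n))‖) atTop
        (𝓝 (‖(p : ℂ)‖ - ‖(p : ℂ) - z‖)) :=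
      ((hwlim.comp hφ.tendsto_atTop).norm).sub (((hwlim.comp hφ.tendsto_atTop).sub hlim).norm)
    have h3 : ‖(p : ℂ)‖ - ‖(p : ℂ) - z‖ ≤ ‖z‖ := by
      have := norm_sub_norm_le (p : ℂ) ((p : ℂ) - z)
      simpa using this
    have h4 : ‖(p : ℂ) - z‖ ≤ 6 * r := by
      apply le_of_tendsto (((hwlim.comp hφ.tendsto_atTop).sub hlim).norm)
      filter_upwards with n
      exact Inv.displ_zero h hT hr hU (hwU (φ n))
    rw [Complex.norm_real, Real.norm_eq_abs] at h3
    linarith
  have hzU : z ∈ U := hU z hzr (lt_of_lt_of_le hε hzim)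
  have h5 : Tendsto (fun n => g (T (w (φ n)))) atTop (𝓝 (g z)) :=
    ((h.diff.continuousOn.continuousAt (h.isOpen.mem_nhds hzU)).tendsto).comp hlim
  have h6 : Tendsto (fun n => g (T (w (φ n)))) atTop (𝓝 (p : ℂ)) := by
    apply (hwlim.comp hφ.tendsto_atTop).congr
    intro n
    simp only [Function.comp]
    rw [hT.right _ (hwU (φ n))]
  have h7 := tendsto_nhds_unique h5 h6
  have h8 := mem_UH.1 (h.bij.mapsTo hzU)
  rw [h7] at h8
  simp at h8

/-- **Expansion at infinity of the inverse map.** -/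
theorem Inv.expansion (h : Hyd U g c) (hT : Inv U g T c) {r : ℝ} (hr : 0 < r)
    (hU : ∀ z : ℂ, r < ‖z‖ → z ∈ UH → z ∈ U) :
    ∃ Q : ℂ → ℂ, DifferentiableOn ℂ Q (ball 0 (1 / (7 * r))) ∧ Q 0 = 0 ∧ deriv Q 0 = c ∧
      (∀ η ∈ ball (0 : ℂ) (1 / (7 * r)), Q (conj η) = conj (Q η)) ∧
      (∀ η ∈ ball (0 : ℂ) (1 / (7 * r)), ‖Q η‖ ≤ 6 * r) ∧
      (∀ w ∈ UH, 7 * r < ‖w‖ → T w = w - Q w⁻¹) := by
  have h7r : 0 < 7 * r := by positivity
  -- the extension of `T` is holomorphic outside the disc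
  have hTim : ∀ w ∈ UH, 0 < (T w).im := fun w hw => mem_UH.1 (h.sub (hT.maps hw))
  have hloc : ∀ w : ℂ, 7 * r < ‖w‖ → w.im = 0 →
      DifferentiableOn ℂ (extMap T) (ball w (‖w‖ - 7 * r)) ∧
      (∀ z ∈ ball w (‖w‖ - 7 * r), extMap T (conj z) = conj (extMap T z)) := by
    intro w hw hw0
    have e : w = ((w.re : ℝ) : ℂ) := Complex.ext (by simp) (by simp [hw0])
    have hn : ‖w‖ = |w.re| := by rw [e, Complex.norm_real, Real.norm_eq_abs]; simp
    have hf := flat (x := w.re) (ρ := ‖w‖ - 7 * r) (h := T)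
      (hT.diff.mono inter_subset_right) (fun z hz => hTim z hz.2) (by
        intro p hp
        apply Inv.im_tendsto h hT hr.le hU
        rw [mem_ball, dist_eq_norm, ← Complex.ofReal_sub, Complex.norm_real, Real.norm_eq_abs,
          hn] at hp
        have := abs_sub_abs_le_abs_sub w.re p
        rw [abs_sub_comm] at this
        linarith)
    rw [← e] at hf
    exact ⟨hf.1, hf.2.1⟩
  have hTd : ∀ w : ℂ, 7 * r < ‖w‖ → DifferentiableAt ℂ (extMap T) w := by
    intro w hw
    rcases lt_trichotomy w.im 0 with h1 | h1 | h1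
    · have h2 : conj w ∈ UH := by rw [mem_UH, Complex.conj_im]; linarith
      have h3 := (hT.diff.differentiableAt (isOpen_UH.mem_nhds h2)).hasDerivAt.conj_conj
      rw [Complex.conj_conj] at h3
      refine (h3.congr_of_eventuallyEq ?_).differentiableAt
      filter_upwards [(isOpen_lt Complex.continuous_im continuous_const).mem_nhds h1] with v hv
      exact extMap_lower hv
    · have h2 : 0 < ‖w‖ - 7 * r := by linarith
      exact (hloc w hw h1).1.differentiableAt (isOpen_ball.mem_nhds (mem_ball_self h2))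
    · apply (hT.diff.differentiableAt (isOpen_UH.mem_nhds h1)).congr_of_eventuallyEq
      filter_upwards [isOpen_UH.mem_nhds h1] with v hv
      exact extMap_upper hv
  have hTc : ∀ w : ℂ, 7 * r < ‖w‖ → extMap T (conj w) = conj (extMap T w) := by
    intro w hw
    rcases lt_trichotomy w.im 0 with h1 | h1 | h1
    · have h2 : 0 < (conj w).im := by rw [Complex.conj_im]; linarith
      rw [extMap_upper h2, extMap_lower h1, Complex.conj_conj]
    · have h2 : 0 < ‖w‖ - 7 * r := by linarith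
      exact (hloc w hw h1).2 w (mem_ball_self h2)
    · have h2 : (conj w).im < 0 := by rw [Complex.conj_im]; linarith
      rw [extMap_lower h2, extMap_upper h1, Complex.conj_conj]
  have hTdisp : ∀ w : ℂ, 7 * r < ‖w‖ → ‖w - extMap T w‖ ≤ 6 * r := by
    intro w hw
    rcases lt_trichotomy w.im 0 with h1 | h1 | h1
    · have h2 : conj w ∈ UH := by rw [mem_UH, Complex.conj_im]; linarith
      rw [extMap_lower h1]
      have h3 := Inv.displ_zero h hT hr.le hU h2
      have e : w - conj (T (conj w)) = conj (conj w - T (conj w)) := by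
        rw [map_sub, Complex.conj_conj]
      rw [e, RCLike.norm_conj]
      exact h3
    · have hne := neBot_real h1
      have hc : ContinuousAt (fun w => ‖w - extMap T w‖) w :=
        (continuousAt_id.sub (hTd w hw).continuousAt).norm
      have h3 : Tendsto (fun w => ‖w - extMap T w‖) (𝓝[UH] w) (𝓝 ‖w - extMap T w‖) :=
        hc.tendsto.mono_left nhdsWithin_le_nhds
      apply le_of_tendsto h3
      filter_upwards [self_mem_nhdsWithin] with v hv
      rw [extMap_upper (mem_UH.1 hv)]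
      exact Inv.displ_zero h hT hr.le hU hv
    · rw [extMap_upper h1]
      exact Inv.displ_zero h hT hr.le hU h1
  -- the function near zero
  set Q₀ : ℂ → ℂ := fun η => η⁻¹ - extMap T η⁻¹ with hQ₀
  set B : Set ℂ := ball (0 : ℂ) (1 / (7 * r)) with hB
  have hB0 : (0 : ℂ) ∈ B := by
    rw [hB, mem_ball_zero_iff, norm_zero]
    positivity
  have hBinv : ∀ η ∈ B, η ≠ 0 → 7 * r < ‖η⁻¹‖ := by
    intro η hη h0
    have hn : 0 < ‖η‖ := norm_pos_iff.2 h0
    rw [hB, mem_ball_zero_iff, lt_div_iff₀ h7r] at hη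
    rw [norm_inv, lt_inv_comm₀ h7r hn, ← one_div, lt_div_iff₀ h7r]
    exact hη
  have hQ₀d : DifferentiableOn ℂ Q₀ (B \ {0}) := by
    rintro η ⟨hη, h0⟩
    have h0' : η ≠ 0 := h0
    have h1 : DifferentiableAt ℂ (fun η : ℂ => η⁻¹) η := _root_.differentiableAt_inv h0'
    exact (h1.sub ((hTd _ (hBinv η hη h0')).comp η h1)).differentiableWithinAt
  have hQ₀b : BddAbove (norm ∘ Q₀ '' (B \ {0})) := by
    refine ⟨6 * r, ?_⟩
    rintro _ ⟨η, ⟨hη, h0⟩, rfl⟩
    exact hTdisp _ (hBinv η hη h0)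
  have hQd := Complex.differentiableOn_update_limUnder_of_bddAbove (isOpen_ball.mem_nhds hB0)
    hQ₀d hQ₀b
  set Q : ℂ → ℂ := Function.update Q₀ 0 (limUnder (𝓝[≠] 0) Q₀) with hQ
  have hQne : ∀ η : ℂ, η ≠ 0 → Q η = η⁻¹ - extMap T η⁻¹ := by
    intro η hη
    rw [hQ, Function.update_of_ne hη]
  have hQc : ContinuousAt Q 0 := hQd.continuousOn.continuousAt (isOpen_ball.mem_nhds hB0)
  -- behaviour along the upper half plane
  have hinvUH : Tendsto (fun w : ℂ => w⁻¹) atUH (𝓝[≠] 0) := by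
    rw [tendsto_nhdsWithin_iff]
    refine ⟨tendsto_inv_atUH, ?_⟩
    filter_upwards [eventually_mem_UH] with w hw
    simp only [mem_compl_iff, mem_singleton_iff, inv_eq_zero]
    intro h0
    rw [h0, mem_UH] at hw
    simp at hw
  have hQT : ∀ w ∈ UH, Q w⁻¹ = w - T w := by
    intro w hw
    have h0 : w⁻¹ ≠ 0 := by
      intro h0
      rw [inv_eq_zero] at h0
      rw [h0, mem_UH] at hw
      simp at hw
    rw [hQne _ h0, inv_inv, extMap_upper (mem_UH.1 hw)]
  have hQ0 : Q 0 = 0 := by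
    have h1 : Tendsto (fun w : ℂ => Q w⁻¹) atUH (𝓝 (Q 0)) :=
      (hQc.tendsto.mono_left nhdsWithin_le_nhds).comp hinvUH
    have h2 : Tendsto (fun w : ℂ => Q w⁻¹) atUH (𝓝 0) := by
      have h3 := (hT.lim.mul tendsto_inv_atUH).neg
      rw [mul_zero, neg_zero] at h3
      apply h3.congr'
      filter_upwards [eventually_mem_UH] with w hw
      have hw0 : w ≠ 0 := by
        intro h0
        rw [h0, mem_UH] at hw
        simp at hw
      rw [hQT w hw]
      field_simp
      ring
    exact tendsto_nhds_unique h1 h2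
  have hQ' : deriv Q 0 = c := by
    have h1 : HasDerivAt Q (deriv Q 0) 0 :=
      (hQd.differentiableAt (isOpen_ball.mem_nhds hB0)).hasDerivAt
    have h2 := (hasDerivAt_iff_tendsto_slope.1 h1).comp hinvUH
    have h3 := hT.lim.neg
    rw [neg_neg] at h3
    apply tendsto_nhds_unique h2
    apply h3.congr'
    filter_upwards [eventually_mem_UH] with w hw
    simp only [Function.comp]
    rw [slope_def_field, hQ0, hQT w hw, sub_zero, sub_zero]
    field_simp
    ring
  have hBs : ∀ η ∈ B, conj η ∈ B := by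
    intro η hη
    rw [hB, mem_ball_zero_iff] at hη ⊢
    rwa [RCLike.norm_conj]
  refine ⟨Q, hQd, hQ0, hQ', ?_, ?_, ?_⟩
  · intro η hη
    by_cases h0 : η = 0
    · rw [h0, map_zero, hQ0, map_zero]
    · have h0' : conj η ≠ 0 := (map_ne_zero _).2 h0
      rw [hQne _ h0', hQne _ h0, map_sub, map_inv₀, ← hTc _ (hBinv η hη h0), map_inv₀]
  · intro η hη
    by_cases h0 : η = 0
    · rw [h0, hQ0, norm_zero]
      positivity
    · rw [hQne _ h0]
      exact hTdisp _ (hBinv η hη h0)
  · intro w hw _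
    rw [hQT w hw]
    ring

/-- the second and third coefficients of the expansion at infinity -/
structure Coef (T : ℂ → ℂ) (c a₂ a₃ : ℝ) : Prop where
  lim : Tendsto (fun w => w ^ 3 * (w - T w - c / w - a₂ / w ^ 2)) atUH (𝓝 (a₃ : ℂ))

theorem Inv.exists_coef (h : Hyd U g c) (hT : Inv U g T c) : ∃ a₂ a₃ : ℝ, Coef T c a₂ a₃ := by
  obtain ⟨R, hR⟩ := h.far
  set r : ℝ := max R 0 + 1 with hr
  have hr0 : 0 < r := by positivity
  obtain ⟨Q, hQd, hQ0, hQ', hQs, -, hQT⟩ := Inv.expansion h hT hr0 (fun z hz hz2 => hR z (by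
    have := le_max_left R 0
    linarith) hz2)
  set B : Set ℂ := ball (0 : ℂ) (1 / (7 * r)) with hB
  have hB0 : (0 : ℂ) ∈ B := by
    rw [hB, mem_ball_zero_iff, norm_zero]
    positivity
  have hBn : B ∈ 𝓝 (0 : ℂ) := isOpen_ball.mem_nhds hB0
  have hBs : ∀ η ∈ B, conj η ∈ B := by
    intro η hη
    rw [hB, mem_ball_zero_iff] at hη ⊢
    rwa [RCLike.norm_conj]
  -- symmetric functions have symmetric slopes
  have sym : ∀ f : ℂ → ℂ, DifferentiableOn ℂ f B → (∀ η ∈ B, f (conj η) = conj (f η)) →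
      DifferentiableOn ℂ (dslope f 0) B ∧ (∀ η ∈ B, dslope f 0 (conj η) = conj (dslope f 0 η)) ∧
      (dslope f 0 0).im = 0 := by
    intro f hf hs
    have hd : DifferentiableOn ℂ (dslope f 0) B := (Complex.differentiableOn_dslope hBn).2 hf
    have hf0 : conj (f 0) = f 0 := by
      have := hs 0 hB0
      rw [map_zero] at this
      exact this.symm
    have hne : ∀ η ∈ B, η ≠ 0 → dslope f 0 (conj η) = conj (dslope f 0 η) := by
      intro η hη h0
      have h0' : conj η ≠ 0 := (map_ne_zero _).2 h0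
      rw [dslope_of_ne _ h0, dslope_of_ne _ h0', slope_def_field, slope_def_field, hs η hη,
        sub_zero, sub_zero, map_div₀, map_sub, hf0]
    have h0 : dslope f 0 (conj 0) = conj (dslope f 0 0) := by
      rw [map_zero]
      have hc : ContinuousAt (dslope f 0) 0 := hd.continuousOn.continuousAt hBn
      have l1 : Tendsto (fun ζ => dslope f 0 (conj ζ)) (𝓝[≠] 0) (𝓝 (dslope f 0 0)) := by
        have h2 : Tendsto (fun ζ : ℂ => conj ζ) (𝓝[≠] 0) (𝓝 0) := by
          have := (Complex.continuous_conj.tendsto (0 : ℂ))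
          rw [map_zero] at this
          exact this.mono_left nhdsWithin_le_nhds
        exact hc.tendsto.comp h2
      have l2 : Tendsto (fun ζ => conj (dslope f 0 ζ)) (𝓝[≠] 0) (𝓝 (conj (dslope f 0 0))) :=
        ((Complex.continuous_conj.tendsto _).comp hc.tendsto).mono_left nhdsWithin_le_nhds
      apply tendsto_nhds_unique (l1.congr' _) l2
      have h3 : ∀ᶠ ζ in 𝓝[≠] (0 : ℂ), ζ ∈ B := mem_nhdsWithin_of_mem_nhds hBn
      have h4 : ∀ᶠ ζ in 𝓝[≠] (0 : ℂ), ζ ≠ 0 := self_mem_nhdsWithin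
      filter_upwards [h3, h4] with ξ hξ hξ0
      exact hne ξ hξ hξ0
    refine ⟨hd, fun η hη => ?_, ?_⟩
    · by_cases h : η = 0
      · rw [h]; exact h0
      · exact hne η hη h
    · rw [map_zero] at h0
      exact Complex.conj_eq_iff_im.1 h0.symm
  obtain ⟨hd1, hs1, hr1⟩ := sym Q hQd hQs
  obtain ⟨hd2, hs2, hr2⟩ := sym _ hd1 hs1
  obtain ⟨hd3, hs3, hr3⟩ := sym _ hd2 hs2
  set Q₁ := dslope Q 0 with hQ₁
  set Q₂ := dslope Q₁ 0 with hQ₂
  set Q₃ := dslope Q₂ 0 with hQ₃
  refine ⟨(Q₂ 0).re, (Q₃ 0).re, ⟨?_⟩⟩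
  have e2 : (((Q₂ 0).re : ℝ) : ℂ) = Q₂ 0 := Complex.ext (by simp) (by simp [hr2])
  have e3 : (((Q₃ 0).re : ℝ) : ℂ) = Q₃ 0 := Complex.ext (by simp) (by simp [hr3])
  have e1 : Q₁ 0 = c := by rw [hQ₁, dslope_same, hQ']
  rw [e2, e3]
  have hc3 : ContinuousAt Q₃ 0 := hd3.continuousOn.continuousAt hBn
  have h1 : Tendsto (fun w : ℂ => Q₃ w⁻¹) atUH (𝓝 (Q₃ 0)) := hc3.tendsto.comp tendsto_inv_atUH
  apply h1.congr'
  rw [EventuallyEq, eventually_atUH]
  refine ⟨7 * r, fun w hw hwU => ?_⟩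
  have hw0 : w ≠ 0 := by
    intro h0
    rw [h0, mem_UH] at hwU
    simp at hwU
  have hη0 : w⁻¹ ≠ 0 := inv_ne_zero hw0
  have f1 : Q₁ w⁻¹ = Q w⁻¹ / w⁻¹ := by
    rw [hQ₁, dslope_of_ne _ hη0, slope_def_field, hQ0, sub_zero, sub_zero]
  have f2 : Q₂ w⁻¹ = (Q₁ w⁻¹ - c) / w⁻¹ := by
    rw [hQ₂, dslope_of_ne _ hη0, slope_def_field, e1, sub_zero]
  have f3 : Q₃ w⁻¹ = (Q₂ w⁻¹ - Q₂ 0) / w⁻¹ := by
    rw [hQ₃, dslope_of_ne _ hη0, slope_def_field, sub_zero]
  have f4 : w - T w = Q w⁻¹ := by rw [hQT w hwU hw]; ring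
  rw [f4, f3, f2, f1]
  field_simp

/-- **The moment inequalities** (P0) and (P2). -/
theorem Inv.moments (h : Hyd U g c) (hT : Inv U g T c) {a₂ a₃ : ℝ} (hco : Coef T c a₂ a₃)
    (W : ℝ) :
    0 ≤ a₃ - 2 * W * a₂ + W ^ 2 * c ∧
    (a₂ - W * c) ^ 2 ≤ c * (a₃ - 2 * W * a₂ + W ^ 2 * c) ∧
    ∀ w ∈ UH, ‖w - T w - c / (w - W)‖ ≤
      (√(c * (a₃ - 2 * W * a₂ + W ^ 2 * c)) + (a₃ - 2 * W * a₂ + W ^ 2 * c) / w.im) /
        w.im ^ 2 := by
  have hc := h.nonneg
  obtain ⟨R, hR⟩ := h.far
  set r : ℝ := max R 0 + 1 with hr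
  have hr0 : 0 < r := by positivity
  have hU : ∀ z : ℂ, r < ‖z‖ → z ∈ UH → z ∈ U := fun z hz hz2 => hR z (by
    have := le_max_left R 0
    linarith) hz2
  have hw0 : ∀ w ∈ UH, w ≠ 0 := by
    intro w hw h0
    rw [h0, mem_UH] at hw
    simp at hw
  -- the main step for an arbitrary centre
  have main : ∀ V : ℝ, 0 ≤ a₃ - 2 * V * a₂ + V ^ 2 * c ∧ ∀ w ∈ UH,
      ‖(w - V) ^ 2 * (w - T w) - (w - V) * c - (a₂ - V * c : ℝ)‖ ≤
        (a₃ - 2 * V * a₂ + V ^ 2 * c) / w.im := by
    intro V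
    set P : ℂ → ℂ := fun w => (w - V) ^ 2 * (w - T w) - (w - V) * c - (a₂ - V * c : ℝ) with hP
    set m : ℝ := a₃ - 2 * V * a₂ + V ^ 2 * c with hm
    have hPd : DifferentiableOn ℂ P UH := by
      have h1 : DifferentiableOn ℂ (fun w => w - T w) UH := differentiableOn_id.sub hT.diff
      have h2 : DifferentiableOn ℂ (fun w : ℂ => (w - V) ^ 2) UH := by fun_prop
      have h3 : DifferentiableOn ℂ (fun w : ℂ => (w - V) * c) UH := by fun_prop
      exact ((h2.mul h1).sub h3).sub_const _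
    -- the limit at infinity
    have hlim : Tendsto (fun w => w * P w) atUH (𝓝 (m : ℂ)) := by
      -- `w - T w = c / w + a₂ / w ^ 2 + s / w ^ 3`, with `s → a₃`
      set s : ℂ → ℂ := fun w => w ^ 3 * (w - T w - c / w - a₂ / w ^ 2) with hs
      have hs1 : Tendsto s atUH (𝓝 (a₃ : ℂ)) := hco.lim
      have hi := tendsto_inv_atUH
      have l1 : Tendsto (fun w => s w * (1 - V * w⁻¹) ^ 2 + (V ^ 2 * c - 2 * V * a₂) +
          V ^ 2 * a₂ * w⁻¹) atUH
          (𝓝 ((a₃ : ℂ) * (1 - V * 0) ^ 2 + (V ^ 2 * c - 2 * V * a₂) + V ^ 2 * a₂ * 0)) :=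
        ((hs1.mul (((hi.const_mul (V : ℂ)).const_sub 1).pow 2)).add_const _).add
          (hi.const_mul _)
      have e : ((a₃ : ℂ) * (1 - V * 0) ^ 2 + (V ^ 2 * c - 2 * V * a₂) + V ^ 2 * a₂ * 0) =
          (m : ℂ) := by
        rw [hm]; push_cast; ring
      rw [e] at l1
      apply l1.congr'
      filter_upwards [eventually_mem_UH] with w hw
      have hw0' := hw0 w hw
      simp only [hs, hP]
      push_cast
      field_simp
      ring
    have hlim0 : Tendsto P atUH (𝓝 0) := by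
      have h1 := tendsto_inv_atUH.mul hlim
      rw [zero_mul] at h1
      apply h1.congr'
      filter_upwards [eventually_mem_UH] with w hw
      have := hw0 w hw
      field_simp
    -- the imaginary part is nonpositive
    have him : ∀ w ∈ UH, (P w).im ≤ 0 := by
      intro w hw
      apply max_UH hPd _ hlim0 hw
      intro ε hε R'
      set K : ℝ := 6 * r * (1 + 2 * (|R'| + |V|)) with hK
      have hK0 : 0 < K := by positivity
      refine ⟨min 1 (ε / K), lt_min one_pos (by positivity), fun w hw1 hw2 hw3 => ?_⟩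
      have hwU : w ∈ UH := hw1
      have hq := Inv.displ_zero h hT hr0.le hU hwU
      have hqim : (w - T w).im ≤ 0 := by
        rw [Complex.sub_im]
        have := Inv.le_im h hT hwU
        linarith
      have e1 : (P w).im = ((w.re - V) ^ 2 - w.im ^ 2) * (w - T w).im +
          2 * (w.re - V) * w.im * (w - T w).re - w.im * c := by
        simp only [hP]
        rw [Complex.sub_im, Complex.sub_im, sq, Complex.mul_im, Complex.mul_im, Complex.mul_re,
          Complex.mul_im]
        simp only [Complex.sub_re, Complex.sub_im, Complex.ofReal_re, Complex.ofReal_im, sub_zero,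
          mul_zero, zero_add]
        ring
      have hq1 : |(w - T w).im| ≤ 6 * r := (Complex.abs_im_le_norm _).trans hq
      have hq2 : |(w - T w).re| ≤ 6 * r := (Complex.abs_re_le_norm _).trans hq
      have hwre : |w.re - V| ≤ |R'| + |V| := by
        calc |w.re - V| ≤ |w.re| + |V| := abs_sub _ _
          _ ≤ |R'| + |V| := by
            have := (Complex.abs_re_le_norm w).trans (hw3.trans (le_abs_self R'))
            linarith
      have hw21 : w.im < 1 := lt_of_lt_of_le hw2 (min_le_left _ _)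
      have hw22 : w.im * K ≤ ε := by
        have := (lt_of_lt_of_le hw2 (min_le_right _ _)).le
        rwa [le_div_iff₀ hK0] at this
      have b1 : (w.re - V) ^ 2 * (w - T w).im ≤ 0 :=
        mul_nonpos_of_nonneg_of_nonpos (sq_nonneg _) hqim
      have b2 : -(w.im ^ 2 * (w - T w).im) ≤ w.im * (6 * r) := by
        rw [abs_le] at hq1
        have : w.im ^ 2 * (-(w - T w).im) ≤ w.im ^ 2 * (6 * r) := by
          gcongr
          linarith [hq1.1]
        have h3 : w.im ^ 2 * (6 * r) ≤ w.im * (6 * r) := by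
          have : w.im ^ 2 ≤ w.im := by nlinarith
          gcongr
        linarith
      have b3 : 2 * (w.re - V) * w.im * (w - T w).re ≤ w.im * (2 * (|R'| + |V|) * (6 * r)) := by
        have h3 : (w.re - V) * (w - T w).re ≤ (|R'| + |V|) * (6 * r) := by
          calc (w.re - V) * (w - T w).re ≤ |(w.re - V) * (w - T w).re| := le_abs_self _
            _ = |w.re - V| * |(w - T w).re| := abs_mul _ _
            _ ≤ _ := by gcongr
        nlinarith
      have b4 : 0 ≤ w.im * c := mul_nonneg hw1.le hc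
      rw [e1]
      have : w.im * (6 * r) + w.im * (2 * (|R'| + |V|) * (6 * r)) = w.im * K := by
        rw [hK]; ring
      nlinarith
    obtain ⟨h1, h2⟩ := nevan (N := fun w => -P w) (m := m) hPd.neg (fun w hw => by
      simp only [Complex.neg_im]
      linarith [him w hw]) (by
      have := hlim.neg
      apply this.congr
      intro w
      ring)
    refine ⟨h1, fun w hw => ?_⟩
    have := h2 w hw
    rwa [norm_neg] at this
  -- Cauchy-Schwarz
  have hCS : a₂ ^ 2 ≤ c * a₃ := by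
    by_cases hc0 : c = 0
    · have h0 : a₂ = 0 := by
        by_contra hne
        have h1 := (main ((a₃ + 1) / (2 * a₂))).1
        rw [hc0] at h1
        have : 2 * ((a₃ + 1) / (2 * a₂)) * a₂ = a₃ + 1 := by field_simp
        rw [this] at h1
        linarith
      rw [h0, hc0]
      simp
    · have hcpos : 0 < c := lt_of_le_of_ne hc (Ne.symm hc0)
      have h1 := (main (a₂ / c)).1
      have h2 : a₃ - 2 * (a₂ / c) * a₂ + (a₂ / c) ^ 2 * c = (c * a₃ - a₂ ^ 2) / c := by
        field_simp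
        ring
      rw [h2] at h1
      have h3 : 0 ≤ c * a₃ - a₂ ^ 2 := by
        by_contra hcon
        push Not at hcon
        have := div_neg_of_neg_of_pos hcon hcpos
        linarith
      linarith
  obtain ⟨hm0, hmb⟩ := main W
  set m : ℝ := a₃ - 2 * W * a₂ + W ^ 2 * c with hm
  have hm1 : (a₂ - W * c) ^ 2 ≤ c * m := by
    rw [hm]
    nlinarith
  refine ⟨hm0, hm1, fun w hw => ?_⟩
  have hwim := mem_UH.1 hw
  have hwW : w - (W : ℂ) ≠ 0 := by
    intro h0
    have := congrArg Complex.im h0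
    simp at this
    linarith
  have hwWn : w.im ≤ ‖w - W‖ := by
    have := (le_abs_self _).trans (Complex.abs_im_le_norm (w - W))
    rwa [Complex.sub_im, Complex.ofReal_im, sub_zero] at this
  have e : w - T w - c / (w - W) =
      (((w - W) ^ 2 * (w - T w) - (w - W) * c - (a₂ - W * c : ℝ)) + (a₂ - W * c : ℝ)) /
        (w - W) ^ 2 := by
    field_simp
    ring
  rw [e, norm_div, norm_pow]
  have h1 : |a₂ - W * c| ≤ √(c * m) := Real.abs_le_sqrt hm1
  have h2 : ‖((w - W) ^ 2 * (w - T w) - (w - W) * c - (a₂ - W * c : ℝ)) +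
      ((a₂ - W * c : ℝ) : ℂ)‖ ≤ √(c * m) + m / w.im := by
    refine (norm_add_le _ _).trans ?_
    rw [Complex.norm_real, Real.norm_eq_abs]
    have := hmb w hw
    linarith
  have h3 : 0 ≤ √(c * m) + m / w.im := by positivity
  gcongr

end Hyd

end Pool.Agent.H83.Lo
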