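import Pool.Agent.H83.Lo.Inj
import Pool.Agent.H83.Lo.Julia

set_option autoImplicit false

/-!
# Hydrodynamically normalised conformal maps onto the upper half plane

`Hyd U g c`: `U` is an open subset of the upper half plane containing a neighbourhood of infinity,
`g : U → UH` is a conformal bijection with `g z = z + c / z + o(1/z)`.
-/

namespace Pool.Agent.H83.Lo

open Complex Metric Set Filter Topology
open scoped ComplexConjugate

/-- neighbourhoods of infinity in the upper half plane -/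
noncomputable def atUH : Filter ℂ := Bornology.cobounded ℂ ⊓ 𝓟 UH

/-- hydrodynamically normalised conformal map -/
structure Hyd (U : Set ℂ) (g : ℂ → ℂ) (c : ℝ) : Prop where
  isOpen : IsOpen U
  sub : U ⊆ UH
  far : ∃ R : ℝ, ∀ z : ℂ, R < ‖z‖ → z ∈ UH → z ∈ U
  diff : DifferentiableOn ℂ g U
  bij : BijOn g U UH
  lim : Tendsto (fun z => z * (g z - z)) atUH (𝓝 (c : ℂ))

lemma eventually_atUH {P : ℂ → Prop} :
    (∀ᶠ z in atUH, P z) ↔ ∃ R : ℝ, ∀ z : ℂ, R < ‖z‖ → z ∈ UH → P z := by
  unfold atUH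
  rw [eventually_inf_principal]
  constructor
  · intro h
    rw [Filter.Eventually, ← Bornology.isCobounded_def] at h
    have h2 := Bornology.IsCobounded.compl h
    rw [isBounded_iff_forall_norm_le] at h2
    obtain ⟨C, hC⟩ := h2
    refine ⟨C, fun z hz hzU => ?_⟩
    by_contra hcon
    have := hC z (fun h3 => hcon (h3 hzU))
    linarith
  · rintro ⟨R, hR⟩
    have h1 : ∀ᶠ z : ℂ in Bornology.cobounded ℂ, R < ‖z‖ :=
      tendsto_norm_cobounded_atTop.eventually_gt_atTop R
    filter_upwards [h1] with z hz hzU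
    exact hR z hz hzU

lemma tendsto_iy : Tendsto (fun y : ℝ => (y * I : ℂ)) atTop atUH := by
  unfold atUH
  rw [tendsto_inf, tendsto_principal]
  constructor
  · rw [← tendsto_norm_atTop_iff_cobounded]
    have : (fun y : ℝ => ‖(y * I : ℂ)‖) = fun y : ℝ => |y| := by
      funext y
      rw [norm_mul, Complex.norm_I, mul_one, Complex.norm_real, Real.norm_eq_abs]
    rw [this]
    exact tendsto_abs_atTop_atTop
  · filter_upwards [eventually_gt_atTop 0] with y hy
    rw [mem_UH]
    simpa using hy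

instance : NeBot atUH := tendsto_iy.neBot

lemma tendsto_atUH {f : ℂ → ℂ} : Tendsto f atUH atUH ↔
    Tendsto (fun z => ‖f z‖) atUH atTop ∧ ∀ᶠ z in atUH, f z ∈ UH := by
  conv_lhs => rhs; unfold atUH
  rw [tendsto_inf, tendsto_principal, ← tendsto_norm_atTop_iff_cobounded]

lemma tendsto_norm_atUH : Tendsto (fun z : ℂ => ‖z‖) atUH atTop :=
  tendsto_norm_cobounded_atTop.mono_left inf_le_left

lemma eventually_mem_UH : ∀ᶠ z in atUH, z ∈ UH := by
  rw [eventually_atUH]
  exact ⟨0, fun z _ hz => hz⟩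

lemma tendsto_inv_atUH : Tendsto (fun z : ℂ => z⁻¹) atUH (𝓝 0) :=
  Filter.tendsto_inv₀_cobounded.mono_left inf_le_left

/-- the upper part of the exterior of a disc is connected -/
lemma isPreconnected_ext (ρ : ℝ) (hρ : 0 < ρ) : IsPreconnected {z : ℂ | ρ < ‖z‖ ∧ z ∈ UH} := by
  have h : {z : ℂ | ρ < ‖z‖ ∧ z ∈ UH} =
      Complex.exp '' (Ioi (Real.log ρ) ×ℂ Ioo 0 Real.pi) := by
    ext z
    constructor
    · rintro ⟨h1, h2⟩
      have hz0 : z ≠ 0 := by
        intro h0
        rw [h0, norm_zero] at h1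
        linarith
      refine ⟨Complex.log z, ⟨?_, ?_⟩, Complex.exp_log hz0⟩
      · rw [mem_preimage, Complex.log_re, mem_Ioi]
        exact Real.log_lt_log hρ h1
      · rw [mem_preimage, Complex.log_im]
        constructor
        · have h3 := mem_UH.1 h2
          rcases (Complex.arg_nonneg_iff.2 h3.le).lt_or_eq with h4 | h4
          · exact h4
          · have := Complex.arg_eq_zero_iff.1 h4.symm
            linarith [this.2]
        · rw [Complex.arg_lt_pi_iff]
          right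
          exact (mem_UH.1 h2).ne'
    · rintro ⟨w, ⟨h1, h2⟩, rfl⟩
      rw [mem_preimage, mem_Ioi] at h1
      rw [mem_preimage] at h2
      constructor
      · rw [Complex.norm_exp, ← Real.exp_log hρ]
        exact Real.exp_lt_exp.2 h1
      · rw [mem_UH, Complex.exp_im]
        exact mul_pos (Real.exp_pos _) (Real.sin_pos_of_pos_of_lt_pi h2.1 h2.2)
  rw [h]
  apply IsPreconnected.image
  · apply Convex.isPreconnected
    exact ((convex_Ioi _).linear_preimage Complex.reLm).inter
      ((convex_Ioo _ _).linear_preimage Complex.imLm)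
  · exact Complex.continuous_exp.continuousOn

namespace Hyd

variable {U U' : Set ℂ} {g g' : ℂ → ℂ} {c c' : ℝ}

lemma open_bij (h : Hyd U g c) : IsOpen (g '' U) ∧ InjOn g U :=
  ⟨isOpen_image h.isOpen h.diff h.bij.injOn, h.bij.injOn⟩

lemma mem_far (h : Hyd U g c) : ∀ᶠ z in atUH, z ∈ U := eventually_atUH.2 h.far

lemma tendsto_sub (h : Hyd U g c) : Tendsto (fun z => g z - z) atUH (𝓝 0) := by
  have h1 := h.lim.mul tendsto_inv_atUH
  rw [mul_zero] at h1
  apply h1.congr'
  rw [EventuallyEq, eventually_atUH]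
  refine ⟨0, fun z hz _ => ?_⟩
  have : z ≠ 0 := norm_pos_iff.1 hz
  field_simp

/-- a threshold beyond which `g` is close to the identity -/
lemma exists_near (h : Hyd U g c) : ∃ R : ℝ, 0 < R ∧
    ∀ z : ℂ, R ≤ ‖z‖ → z ∈ UH → z ∈ U ∧ ‖g z - z‖ ≤ 1 := by
  have h1 : ∀ᶠ z in atUH, z ∈ U ∧ ‖g z - z‖ < 1 := by
    filter_upwards [h.mem_far, (tendsto_zero_iff_norm_tendsto_zero.1 h.tendsto_sub).eventually_lt
      (tendsto_const_nhds (x := (1 : ℝ))) one_pos] with z h2 h3
    exact ⟨h2, h3⟩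
  obtain ⟨R, hR⟩ := eventually_atUH.1 h1
  refine ⟨max R 0 + 1, by positivity, fun z hz hzU => ?_⟩
  have h4 := hR z (by
    have := le_max_left R 0
    linarith) hzU
  exact ⟨h4.1, h4.2.le⟩

/-- The key topological fact: points far away come from points far away. -/
lemma far_inv (h : Hyd U g c) {R δ : ℝ} (hR : 0 < R) (hδ : 0 ≤ δ)
    (hn : ∀ z : ℂ, R ≤ ‖z‖ → z ∈ UH → z ∈ U ∧ ‖g z - z‖ ≤ δ) {z : ℂ} (hz : z ∈ U)
    (hgz : R + δ < ‖g z‖) : R < ‖z‖ := by
  set A : Set ℂ := {w : ℂ | R + δ < ‖w‖ ∧ w ∈ UH} with hA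
  have hAc : IsPreconnected A := isPreconnected_ext (R + δ) (by linarith)
  set E : Set ℂ := {z : ℂ | R < ‖z‖ ∧ z ∈ UH} with hE
  have hEU : E ⊆ U := fun w hw => (hn w hw.1.le hw.2).1
  have hEo : IsOpen E := (isOpen_lt continuous_const continuous_norm).inter isOpen_UH
  set B : Set ℂ := {z : ℂ | ‖z‖ < R ∧ z ∈ U} with hB
  have hBo : IsOpen B := (isOpen_lt continuous_norm continuous_const).inter h.isOpen
  have ho1 : IsOpen (g '' E) := isOpen_image hEo (h.diff.mono hEU) (h.bij.injOn.mono hEU)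
  have ho2 : IsOpen (g '' B) :=
    isOpen_image hBo (h.diff.mono (fun w hw => hw.2)) (h.bij.injOn.mono (fun w hw => hw.2))
  have hcov : A ⊆ g '' E ∪ g '' B := by
    rintro w ⟨hw1, hw2⟩
    obtain ⟨v, hv, rfl⟩ := h.bij.surjOn hw2
    rcases lt_trichotomy ‖v‖ R with h1 | h1 | h1
    · exact Or.inr ⟨v, ⟨h1, hv⟩, rfl⟩
    · exfalso
      have h2 := (hn v h1.ge (h.sub hv)).2
      have h3 : ‖g v‖ ≤ ‖v‖ + ‖g v - v‖ := by
        calc ‖g v‖ = ‖v + (g v - v)‖ := by congr 1; ring
          _ ≤ _ := norm_add_le _ _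
      rw [h1] at h3
      linarith
    · exact Or.inl ⟨v, ⟨h1, h.sub hv⟩, rfl⟩
  -- a point of `A` in `g '' E`
  have hne : (A ∩ g '' E).Nonempty := by
    set y : ℝ := R + 2 * δ + 1 with hy
    have hy0 : 0 < y := by linarith
    have hyn : ‖(y * I : ℂ)‖ = y := by
      rw [norm_mul, Complex.norm_I, mul_one, Complex.norm_real, Real.norm_eq_abs, abs_of_pos hy0]
    have hyU : (y * I : ℂ) ∈ UH := by rw [mem_UH]; simpa using hy0
    have h2 := hn (y * I) (by rw [hyn]; linarith) hyU
    refine ⟨g (y * I), ⟨?_, h.bij.mapsTo h2.1⟩, y * I, ⟨?_, hyU⟩, rfl⟩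
    · have h3 : ‖(y * I : ℂ)‖ ≤ ‖g (y * I)‖ + ‖g (y * I) - y * I‖ := by
        calc ‖(y * I : ℂ)‖ = ‖g (y * I) - (g (y * I) - y * I)‖ := by congr 1; ring
          _ ≤ _ := norm_sub_le _ _
      rw [hyn] at h3
      linarith [h2.2]
    · rw [hyn]; linarith
  by_contra hcon
  push Not at hcon
  have hgA : g z ∈ A := ⟨hgz, h.bij.mapsTo hz⟩
  have hgB : g z ∈ g '' B := by
    rcases hcov hgA with h1 | h1
    · exfalso
      obtain ⟨v, hv, hvz⟩ := h1
      have := h.bij.injOn (hEU hv) hz hvz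
      rw [← this] at hcon
      exact absurd hv.1 (not_lt.2 hcon)
    · exact h1
  obtain ⟨w, hwA, hwE, hwB⟩ := hAc _ _ ho1 ho2 hcov hne ⟨g z, hgA, hgB⟩
  obtain ⟨v, hv, rfl⟩ := hwE
  obtain ⟨v', hv', hvv⟩ := hwB
  have := h.bij.injOn hv'.2 (hEU hv) hvv
  rw [this] at hv'
  exact absurd hv.1 (not_lt.2 hv'.1.le)

/-- `g` is bounded on bounded sets -/
lemma bdd (h : Hyd U g c) : ∃ R : ℝ, 0 < R ∧ ∀ z ∈ U, ‖g z‖ ≤ max R ‖z‖ + 1 := by
  obtain ⟨R, hR, hn⟩ := h.exists_near
  refine ⟨R, hR, fun z hz => ?_⟩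
  by_contra hcon
  push Not at hcon
  have h1 : R < ‖z‖ := h.far_inv hR zero_le_one hn hz (by
    have := le_max_left R ‖z‖
    linarith)
  have h2 := (hn z h1.le (h.sub hz)).2
  have h3 : ‖g z‖ ≤ ‖z‖ + ‖g z - z‖ := by
    calc ‖g z‖ = ‖z + (g z - z)‖ := by congr 1; ring
      _ ≤ _ := norm_add_le _ _
  have := le_max_right R ‖z‖
  linarith

/-- `g` tends to infinity at infinity -/
lemma tendsto_self (h : Hyd U g c) : Tendsto g atUH atUH := by
  rw [tendsto_atUH]
  constructor
  · have h1 : Tendsto (fun z : ℂ => ‖z‖ - 1) atUH atTop :=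
      tendsto_atTop_add_const_right _ _ tendsto_norm_atUH
    apply tendsto_atTop_mono' _ _ h1
    obtain ⟨R, hR, hn⟩ := h.exists_near
    rw [EventuallyLE, eventually_atUH]
    refine ⟨R, fun z hz hzU => ?_⟩
    have h2 := (hn z hz.le hzU).2
    have h3 : ‖z‖ ≤ ‖g z‖ + ‖g z - z‖ := by
      calc ‖z‖ = ‖g z - (g z - z)‖ := by congr 1; ring
        _ ≤ _ := norm_sub_le _ _
    linarith
  · filter_upwards [h.mem_far] with z hz
    exact h.bij.mapsTo hz

lemma tendsto_div (h : Hyd U g c) : Tendsto (fun z => g z / z) atUH (𝓝 1) := by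
  have h1 := (h.tendsto_sub.mul tendsto_inv_atUH).const_add (1 : ℂ)
  rw [mul_zero, add_zero] at h1
  apply h1.congr'
  rw [EventuallyEq, eventually_atUH]
  refine ⟨0, fun z hz _ => ?_⟩
  have : z ≠ 0 := norm_pos_iff.1 hz
  field_simp
  ring

/-- properties of a left inverse -/
structure Inv (U : Set ℂ) (g T : ℂ → ℂ) (c : ℝ) : Prop where
  diff : DifferentiableOn ℂ T UH
  maps : MapsTo T UH U
  left : ∀ z ∈ U, T (g z) = z
  right : ∀ w ∈ UH, g (T w) = w
  inf : Tendsto T atUH atUH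
  lim : Tendsto (fun w => w * (T w - w)) atUH (𝓝 (-(c : ℂ)))

theorem exists_inv (h : Hyd U g c) : ∃ T : ℂ → ℂ, Inv U g T c := by
  set T := Function.invFunOn g U with hT
  have hleft : ∀ z ∈ U, T (g z) = z := fun z hz => h.bij.injOn.leftInvOn_invFunOn hz
  have hright : ∀ w ∈ UH, g (T w) = w := by
    intro w hw
    obtain ⟨z, hz, rfl⟩ := h.bij.surjOn hw
    rw [hleft z hz]
  have hmaps : MapsTo T UH U := by
    intro w hw
    obtain ⟨z, hz, rfl⟩ := h.bij.surjOn hw
    rw [hleft z hz]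
    exact hz
  have hdiff : DifferentiableOn ℂ T UH := by
    rw [← h.bij.image_eq]
    exact differentiableOn_inv h.isOpen h.diff h.bij.injOn hleft
  have hinf : Tendsto T atUH atUH := by
    rw [tendsto_atUH]
    constructor
    · obtain ⟨R, hR, hn⟩ := h.bdd
      rw [Filter.tendsto_atTop]
      intro b
      rw [eventually_atUH]
      refine ⟨max R b + 1, fun w hw hwU => ?_⟩
      by_contra hcon
      push Not at hcon
      have h1 := hn (T w) (hmaps hwU)
      rw [hright w hwU] at h1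
      have h2 : max R ‖T w‖ ≤ max R b := max_le_max le_rfl hcon.le
      linarith
    · filter_upwards [eventually_mem_UH] with w hw
      exact h.sub (hmaps hw)
  refine ⟨T, hdiff, hmaps, hleft, hright, hinf, ?_⟩
  -- `w (T w - w)` with `w = g z`, `z = T w`
  have h1 := ((h.tendsto_div.mul h.lim).neg).comp hinf
  rw [one_mul] at h1
  apply h1.congr'
  rw [EventuallyEq]
  have h2 : ∀ᶠ w in atUH, (0 : ℝ) < ‖T w‖ :=
    (tendsto_atUH.1 hinf).1.eventually_gt_atTop 0
  filter_upwards [eventually_mem_UH, h2] with w hw hw2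
  have h3 : T w ≠ 0 := norm_pos_iff.1 hw2
  simp only [Function.comp]
  rw [hright w hw]
  field_simp
  ring

lemma Inv.tendsto_div {T : ℂ → ℂ} (h : Inv U g T c) :
    Tendsto (fun w => T w / w) atUH (𝓝 1) := by
  have h1 := ((h.lim.mul tendsto_inv_atUH).mul tendsto_inv_atUH).const_add (1 : ℂ)
  rw [mul_zero, add_zero] at h1
  apply h1.congr'
  rw [EventuallyEq, eventually_atUH]
  refine ⟨0, fun z hz _ => ?_⟩
  have : z ≠ 0 := norm_pos_iff.1 hz
  field_simp
  ring

/-- the inverse increases imaginary parts -/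
lemma Inv.le_im (h : Hyd U g c) {T : ℂ → ℂ} (hT : Inv U g T c) {w : ℂ} (hw : w ∈ UH) :
    w.im ≤ (T w).im := by
  have h1 := julia (a := 1) hT.diff (fun w hw => (mem_UH.1 (h.sub (hT.maps hw))).le)
    (by
      have := hT.tendsto_div.comp tendsto_iy
      rw [Complex.ofReal_one]
      exact this) hw
  rwa [one_mul] at h1

/-- `g` decreases imaginary parts -/
theorem im_le (h : Hyd U g c) {z : ℂ} (hz : z ∈ U) : (g z).im ≤ z.im := by
  obtain ⟨T, hT⟩ := h.exists_inv
  have := Inv.le_im h hT (h.bij.mapsTo hz)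
  rwa [hT.left z hz] at this

/-- the half plane capacity is nonnegative -/
theorem nonneg (h : Hyd U g c) : 0 ≤ c := by
  have h1 := (Complex.continuous_re.tendsto _).comp (h.lim.comp tendsto_iy)
  rw [Complex.ofReal_re] at h1
  apply ge_of_tendsto h1
  have h2 : ∀ᶠ y : ℝ in atTop, (y * I : ℂ) ∈ U := tendsto_iy.eventually h.mem_far
  filter_upwards [h2, eventually_gt_atTop 0] with y hy hy0
  simp only [Function.comp]
  have h3 := h.im_le hy
  have e : (y * I : ℂ).im = y := by simp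
  rw [e] at h3
  have e2 : (y * I * (g (y * I) - y * I) : ℂ).re = y * (y - (g (y * I)).im) := by
    simp [Complex.mul_re, Complex.sub_im]
    ring
  rw [e2]
  apply mul_nonneg hy0.le
  linarith

/-- Composition. -/
theorem comp (h : Hyd U g c) (h' : Hyd U' g' c') :
    Hyd (U ∩ g ⁻¹' U') (fun z => g' (g z)) (c + c') := by
  have hmem : ∀ᶠ z in atUH, z ∈ U ∩ g ⁻¹' U' := by
    filter_upwards [h.mem_far, h.tendsto_self.eventually h'.mem_far] with z h1 h2
    exact ⟨h1, h2⟩
  refine ⟨?_, fun z hz => h.sub hz.1, eventually_atUH.1 hmem, ?_, ⟨?_, ?_, ?_⟩, ?_⟩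
  · exact h.diff.continuousOn.isOpen_inter_preimage h.isOpen h'.isOpen
  · exact h'.diff.comp (h.diff.mono inter_subset_left) (fun z hz => hz.2)
  · intro z hz
    exact h'.bij.mapsTo hz.2
  · intro z hz z' hz' heq
    exact h.bij.injOn hz.1 hz'.1 (h'.bij.injOn hz.2 hz'.2 heq)
  · intro w hw
    obtain ⟨v, hv, rfl⟩ := h'.bij.surjOn hw
    obtain ⟨z, hz, rfl⟩ := h.bij.surjOn (h'.sub hv)
    exact ⟨z, ⟨hz, hv⟩, rfl⟩
  · have h1 : Tendsto (fun z => z / g z) atUH (𝓝 1) := by
      have := h.tendsto_div.inv₀ one_ne_zero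
      rw [inv_one] at this
      apply this.congr
      intro z
      rw [inv_div]
    have h2 := (h1.mul (h'.lim.comp h.tendsto_self)).add h.lim
    rw [one_mul] at h2
    have e : ((c + c' : ℝ) : ℂ) = (c' : ℂ) + c := by push_cast; ring
    rw [e]
    apply h2.congr'
    rw [EventuallyEq]
    have h3 : ∀ᶠ z in atUH, (0 : ℝ) < ‖g z‖ :=
      (tendsto_atUH.1 h.tendsto_self).1.eventually_gt_atTop 0
    filter_upwards [h3] with z hz
    have hz0 : g z ≠ 0 := norm_pos_iff.1 hz
    simp only [Function.comp]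
    field_simp
    ring

/-- The quotient of two normalised maps. -/
theorem quot (h : Hyd U g c) (h' : Hyd U' g' c') (hsub : U' ⊆ U) {T : ℂ → ℂ}
    (hT : Inv U g T c) : Hyd (g '' U') (fun w => g' (T w)) (c' - c) := by
  have hUo : IsOpen (g '' U') :=
    isOpen_image h'.isOpen (h.diff.mono hsub) (h.bij.injOn.mono hsub)
  have hTm : MapsTo T (g '' U') U' := by
    rintro _ ⟨z, hz, rfl⟩
    rw [hT.left z (hsub hz)]
    exact hz
  have hsubUH : g '' U' ⊆ UH := by
    rintro _ ⟨z, hz, rfl⟩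
    exact h.bij.mapsTo (hsub hz)
  have hmem : ∀ᶠ w in atUH, w ∈ g '' U' := by
    filter_upwards [eventually_mem_UH, hT.inf.eventually h'.mem_far] with w hw h2
    exact ⟨T w, h2, hT.right w hw⟩
  refine ⟨hUo, hsubUH, eventually_atUH.1 hmem, ?_, ⟨?_, ?_, ?_⟩, ?_⟩
  · exact h'.diff.comp (hT.diff.mono hsubUH) hTm
  · intro w hw
    exact h'.bij.mapsTo (hTm hw)
  · rintro _ ⟨z, hz, rfl⟩ _ ⟨z', hz', rfl⟩ heq
    simp only at heq
    rw [hT.left z (hsub hz), hT.left z' (hsub hz')] at heq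
    rw [h'.bij.injOn hz hz' heq]
  · intro w hw
    obtain ⟨z, hz, rfl⟩ := h'.bij.surjOn hw
    exact ⟨g z, ⟨z, hz, rfl⟩, by simp only; rw [hT.left z (hsub hz)]⟩
  · -- limit
    have h1 : Tendsto (fun z => g z / z * (z * (g' z - z)) - g z / z * (z * (g z - z))) atUH
        (𝓝 (1 * (c' : ℂ) - 1 * c)) := (h.tendsto_div.mul h'.lim).sub (h.tendsto_div.mul h.lim)
    have h2 := h1.comp hT.inf
    have e : ((c' - c : ℝ) : ℂ) = 1 * (c' : ℂ) - 1 * c := by push_cast; ring
    rw [e]
    apply h2.congr'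
    rw [EventuallyEq]
    have h3 : ∀ᶠ w in atUH, (0 : ℝ) < ‖T w‖ :=
      (tendsto_atUH.1 hT.inf).1.eventually_gt_atTop 0
    filter_upwards [eventually_mem_UH, h3] with w hw hw2
    have hz0 : T w ≠ 0 := norm_pos_iff.1 hw2
    simp only [Function.comp]
    rw [hT.right w hw]
    field_simp
    ring

/-- Monotonicity of the capacity. -/
theorem mono (h : Hyd U g c) (h' : Hyd U' g' c') (hsub : U' ⊆ U) : c ≤ c' := by
  obtain ⟨T, hT⟩ := h.exists_inv
  have := (h.quot h' hsub hT).nonneg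
  linarith

/-- Displacement of the inverse map. -/
theorem Inv.norm_sub_le (h : Hyd U g c) {T : ℂ → ℂ} (hT : Inv U g T c) {w : ℂ} (hw : w ∈ UH) :
    ‖T w - w‖ ≤ c / w.im := by
  have hwim := mem_UH.1 hw
  have hc := h.nonneg
  -- perturbation
  have key : ∀ δ : ℝ, 0 < δ → ‖T w - w - δ / w‖ ≤ (c + δ) / w.im := by
    intro δ hδ
    set N : ℂ → ℂ := fun v => T v - v - δ / v with hN
    have hv0 : ∀ v ∈ UH, v ≠ 0 := by
      intro v hv h0
      rw [h0, mem_UH] at hv
      simp at hv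
    have hNd : DifferentiableOn ℂ N UH := by
      apply (hT.diff.sub differentiableOn_id).sub
      exact (differentiableOn_const _).div differentiableOn_id hv0
    have hNim : ∀ v ∈ UH, 0 < (N v).im := by
      intro v hv
      have h1 := Inv.le_im h hT hv
      have h2 : ((δ : ℂ) / v).im < 0 := by
        rw [Complex.div_im]
        simp only [Complex.ofReal_im, Complex.ofReal_re, zero_mul, zero_div, zero_sub]
        have h3 : 0 < Complex.normSq v := Complex.normSq_pos.2 (hv0 v hv)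
        have h4 := mem_UH.1 hv
        have : 0 < δ * v.im / Complex.normSq v := by positivity
        linarith
      simp only [hN, Complex.sub_im]
      linarith
    have hN0 : ∀ v ∈ UH, N v ≠ 0 := by
      intro v hv h0
      have := hNim v hv
      rw [h0] at this
      simp at this
    have hlimN : Tendsto (fun v => v * N v) atUH (𝓝 (-((c + δ : ℝ) : ℂ))) := by
      have h5 := hT.lim.sub_const (δ : ℂ)
      have e : (-((c + δ : ℝ) : ℂ)) = -(c : ℂ) - δ := by push_cast; ring
      rw [e]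
      apply h5.congr'
      filter_upwards [eventually_mem_UH] with v hv
      have := hv0 v hv
      simp only [hN]
      field_simp
    set M : ℂ → ℂ := fun v => -(N v)⁻¹ with hM
    have hMd : DifferentiableOn ℂ M UH := (hNd.inv hN0).neg
    have hMim : ∀ v ∈ UH, (M v).im = (N v).im / ‖N v‖ ^ 2 := by
      intro v hv
      simp only [hM, Complex.neg_im, Complex.inv_im, ← Complex.normSq_eq_norm_sq]
      ring
    have hcδ : (c + δ : ℝ) ≠ 0 := by linarith
    have hcδ' : ((c + δ : ℝ) : ℂ) ≠ 0 := by exact_mod_cast hcδ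
    have hMlim : Tendsto (fun y : ℝ => M (y * I) / (y * I)) atTop
        (𝓝 (((1 / (c + δ) : ℝ)) : ℂ)) := by
      have h6 : Tendsto (fun v => M v / v) atUH (𝓝 (((1 / (c + δ) : ℝ)) : ℂ)) := by
        have h7 := (hlimN.inv₀ (neg_ne_zero.2 hcδ')).neg
        have e : (((1 / (c + δ) : ℝ)) : ℂ) = -(-((c + δ : ℝ) : ℂ))⁻¹ := by
          rw [Complex.ofReal_div, Complex.ofReal_one, inv_neg, neg_neg, one_div]
        rw [e]
        apply h7.congr
        intro v
        simp only [hM]
        rw [mul_inv, neg_div, div_eq_mul_inv, mul_comm]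
      exact h6.comp tendsto_iy
    have h8 := julia hMd (fun v hv => by
      rw [hMim v hv]
      have := hNim v hv
      positivity) hMlim hw
    rw [hMim w hw] at h8
    have hn : 0 < ‖N w‖ := norm_pos_iff.2 (hN0 w hw)
    have hcd : 0 < c + δ := by linarith
    rw [le_div_iff₀ (by positivity), one_div, inv_mul_eq_div, div_mul_eq_mul_div,
      div_le_iff₀ hcd] at h8
    have h9 : (N w).im ≤ ‖N w‖ := (le_abs_self _).trans (Complex.abs_im_le_norm _)
    change ‖N w‖ ≤ (c + δ) / w.im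
    rw [le_div_iff₀ hwim]
    have h10 : w.im * ‖N w‖ ^ 2 ≤ ‖N w‖ * (c + δ) := h8.trans (by gcongr)
    have h11 : ‖N w‖ * (‖N w‖ * w.im) ≤ ‖N w‖ * (c + δ) := by nlinarith
    exact le_of_mul_le_mul_left h11 hn
  have l1 : Tendsto (fun δ : ℝ => ‖T w - w - δ / w‖) (𝓝[>] 0) (𝓝 ‖T w - w‖) := by
    have : Continuous (fun δ : ℝ => ‖T w - w - δ / w‖) := by fun_prop
    have h2 := this.tendsto 0
    simp only [Complex.ofReal_zero, zero_div, sub_zero] at h2
    exact h2.mono_left nhdsWithin_le_nhds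
  have l2 : Tendsto (fun δ : ℝ => (c + δ) / w.im) (𝓝[>] 0) (𝓝 (c / w.im)) := by
    have : Continuous (fun δ : ℝ => (c + δ) / w.im) := by fun_prop
    have h2 := this.tendsto 0
    simp only [add_zero] at h2
    exact h2.mono_left nhdsWithin_le_nhds
  apply le_of_tendsto_of_tendsto l1 l2
  filter_upwards [self_mem_nhdsWithin] with δ hδ
  exact key δ hδ

/-- Displacement of the map in terms of the imaginary part of the image. -/
theorem norm_sub_le (h : Hyd U g c) {z : ℂ} (hz : z ∈ U) : ‖g z - z‖ ≤ c / (g z).im := by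
  obtain ⟨T, hT⟩ := h.exists_inv
  have h1 := Inv.norm_sub_le h hT (h.bij.mapsTo hz)
  rw [hT.left z hz, norm_sub_rev] at h1
  exact h1

/-- Uniqueness. -/
theorem unique (h : Hyd U g c) (h' : Hyd U g' c') : EqOn g g' U ∧ c = c' := by
  obtain ⟨T, hT⟩ := h.exists_inv
  have h1 : c ≤ c' := h.mono h' Subset.rfl
  have h2 : c' ≤ c := h'.mono h Subset.rfl
  have hcc : c = c' := le_antisymm h1 h2
  refine ⟨?_, hcc⟩
  have hq := h.quot h' Subset.rfl hT
  intro z hz
  have h3 := hq.norm_sub_le (mem_image_of_mem g hz)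
  simp only [hcc, sub_self, zero_div] at h3
  rw [hT.left z hz] at h3
  have h4 : ‖g' z - g z‖ = 0 := le_antisymm h3 (norm_nonneg _)
  rw [norm_eq_zero, sub_eq_zero] at h4
  exact h4.symm

/-- The identity map. -/
theorem refl : Hyd UH (fun z => z) 0 := by
  refine ⟨isOpen_UH, Subset.rfl, ⟨0, fun z _ hz => hz⟩, differentiableOn_id, bijOn_id _, ?_⟩
  simp

/-- Translation invariance. -/
theorem translate (h : Hyd U g c) (x : ℝ) :
    Hyd ((fun z => z + x) ⁻¹' U) (fun z => g (z + x) - x) c := by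
  have hadd : ∀ z : ℂ, z ∈ UH ↔ z + x ∈ UH := by
    intro z
    rw [mem_UH, mem_UH, Complex.add_im, Complex.ofReal_im, add_zero]
  have hten : Tendsto (fun z : ℂ => z + x) atUH atUH := by
    rw [tendsto_atUH]
    constructor
    · have h1 : Tendsto (fun z : ℂ => ‖z‖ - ‖(x : ℂ)‖) atUH atTop :=
        tendsto_atTop_add_const_right _ _ tendsto_norm_atUH
      apply tendsto_atTop_mono _ h1
      intro z
      have : ‖z‖ ≤ ‖z + x‖ + ‖(x : ℂ)‖ := by
        calc ‖z‖ = ‖(z + x) - x‖ := by congr 1; ring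
          _ ≤ _ := _root_.norm_sub_le _ _
      linarith
    · filter_upwards [eventually_mem_UH] with z hz
      exact (hadd z).1 hz
  have hcont : Continuous (fun z : ℂ => z + x) := by fun_prop
  refine ⟨h.isOpen.preimage hcont, fun z hz => (hadd z).2 (h.sub hz),
    eventually_atUH.1 (hten.eventually h.mem_far), ?_, ⟨?_, ?_, ?_⟩, ?_⟩
  · exact (h.diff.comp (differentiableOn_id.add_const _) (fun z hz => hz)).sub_const _
  · intro z hz
    have := h.bij.mapsTo hz
    rw [mem_UH] at this ⊢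
    simpa using this
  · intro z hz z' hz' heq
    simp only [sub_left_inj] at heq
    have := h.bij.injOn hz hz' heq
    exact add_right_cancel this
  · intro w hw
    obtain ⟨v, hv, hv2⟩ := h.bij.surjOn ((hadd w).1 hw)
    exact ⟨v - x, by simpa using hv, by simp [hv2]⟩
  · have h1 : Tendsto (fun z : ℂ => z / (z + x)) atUH (𝓝 1) := by
      have h2 := ((tendsto_inv_atUH.comp hten).const_mul (x : ℂ)).const_sub (1 : ℂ)
      rw [mul_zero, sub_zero] at h2
      apply h2.congr'
      have h3 : ∀ᶠ z : ℂ in atUH, (0 : ℝ) < ‖z + x‖ :=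
        (tendsto_atUH.1 hten).1.eventually_gt_atTop 0
      filter_upwards [h3] with z hz
      have hz0 : z + x ≠ 0 := norm_pos_iff.1 hz
      simp only [Function.comp]
      field_simp
      ring
    have h4 := h1.mul (h.lim.comp hten)
    rw [one_mul] at h4
    apply h4.congr'
    have h3 : ∀ᶠ z : ℂ in atUH, (0 : ℝ) < ‖z + x‖ :=
      (tendsto_atUH.1 hten).1.eventually_gt_atTop 0
    filter_upwards [h3] with z hz
    have hz0 : z + x ≠ 0 := norm_pos_iff.1 hz
    simp only [Function.comp]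
    field_simp
    ring

end Hyd

end Pool.Agent.H83.Lo
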