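import Mathlib
import Pool.Agent.H83.Lo.Gen
import Pool.Agent.H83.Lo.Cap
import Pool.Agent.H83.Lo.Flat

set_option autoImplicit false

/-! Conformal maps of a domain `G` onto the upper half plane with a simple pole at the flat boundary
point `0`: existence, normalisation `-1/u + A(u)`, bounds, uniqueness, comparison of two domains. -/

namespace Pool.Agent.H83.Lo

open Complex Metric Set Filter Topology
open scoped ComplexConjugate

/-! ### Reflection without a sign -/

/-- **Reflection**: a holomorphic function on a half ball with imaginary part tending to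
zero at the real points extends. -/
theorem flat_gen {x ρ : ℝ} {h : ℂ → ℂ} (hd : DifferentiableOn ℂ h (ball (x : ℂ) ρ ∩ UH))
    (hz : ∀ p : ℝ, (p : ℂ) ∈ ball (x : ℂ) ρ → Tendsto (fun z => (h z).im) (𝓝[UH] (p : ℂ)) (𝓝 0)) :
    DifferentiableOn ℂ (extMap h) (ball (x : ℂ) ρ) ∧
      (∀ z ∈ ball (x : ℂ) ρ, extMap h (conj z) = conj (extMap h z)) ∧
      (∀ z ∈ ball (x : ℂ) ρ, z.im = 0 → (extMap h z).im = 0) := by
  have key : ∀ z ∈ ball (x : ℂ) ρ, ∃ r, z ∈ ball (x : ℂ) r ∧ ∃ G : ℂ → ℂ,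
      DifferentiableOn ℂ G (ball (x : ℂ) r) ∧ (∀ z ∈ ball (x : ℂ) r, 0 < z.im → G z = h z) ∧
      (∀ z ∈ ball (x : ℂ) r, G (conj z) = conj (G z)) := by
    intro z hz1
    obtain ⟨r, hr1, hr2⟩ := exists_between (mem_ball.1 hz1)
    refine ⟨r, hr1, ?_⟩
    obtain ⟨C, hC, hC2⟩ := im_linear hr2 hd.neg (fun p hp => by
      have := (hz p hp).neg
      simpa using this)
    have hsub : ball (x : ℂ) r ⊆ ball (x : ℂ) ρ := ball_subset_ball hr2.le
    set h₁ : ℂ → ℂ := fun w => h w + ((C + 1 : ℝ) : ℂ) * w with hh₁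
    have hflat := flat (x := x) (ρ := r) (h := h₁)
      ((hd.mono (inter_subset_inter_left _ hsub)).add
        ((differentiableOn_const _).mul differentiableOn_id)) (by
        intro w hw
        have h1 := hC2 w hw.1 hw.2
        have h2 : 0 < w.im := hw.2
        simp only [hh₁, Complex.add_im, Complex.im_ofReal_mul, Pi.neg_apply, Complex.neg_im] at h1 ⊢
        nlinarith) (by
        intro p hp
        have h1 := hz p (hsub hp)
        have h2 : Tendsto (fun w : ℂ => (C + 1) * w.im) (𝓝[UH] (p : ℂ)) (𝓝 0) := by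
          have h3 : Tendsto (fun w : ℂ => (C + 1) * w.im) (𝓝 (p : ℂ))
              (𝓝 ((C + 1) * (p : ℂ).im)) :=
            (continuous_const.mul Complex.continuous_im).tendsto _
          rw [Complex.ofReal_im, mul_zero] at h3
          exact h3.mono_left nhdsWithin_le_nhds
        have h4 := h1.add h2
        rw [add_zero] at h4
        apply h4.congr
        intro w
        simp only [hh₁, Complex.add_im, Complex.im_ofReal_mul])
    refine ⟨fun w => extMap h₁ w - ((C + 1 : ℝ) : ℂ) * w,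
      hflat.1.sub ((differentiableOn_const _).mul differentiableOn_id), ?_, ?_⟩
    · intro w hw hw0
      simp only
      rw [extMap_upper hw0, hh₁]
      ring
    · intro w hw
      simp only
      rw [hflat.2.1 w hw, map_sub, map_mul, Complex.conj_ofReal]
  have hconj : ∀ z ∈ ball (x : ℂ) ρ, extMap h (conj z) = conj (extMap h z) := by
    intro z hz1
    obtain ⟨r, hr, G, h1, h2, h3⟩ := key z hz1
    rw [extMap_eq_local h1 h2 h3 hr, extMap_eq_local h1 h2 h3 (conj_mem_ball hr), h3 z hr]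
  refine ⟨?_, hconj, ?_⟩
  · intro z hz1
    obtain ⟨r, hr, G, h1, h2, h3⟩ := key z hz1
    apply DifferentiableAt.differentiableWithinAt
    apply (h1.differentiableAt (isOpen_ball.mem_nhds hr)).congr_of_eventuallyEq
    filter_upwards [isOpen_ball.mem_nhds hr] with w hw
    exact extMap_eq_local h1 h2 h3 hw
  · intro z hz1 hz0
    have h1 := hconj z hz1
    rw [Complex.conj_eq_iff_im.2 hz0] at h1
    exact Complex.conj_eq_iff_im.1 h1.symm

/-! ### The Joukowski map on the upper half plane -/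

lemma jk_ne {w : ℂ} (hw : w ∈ UH) : w ≠ 0 := by
  rintro rfl
  simp [mem_UH] at hw

lemma jk_im (s : ℝ) {w : ℂ} (hw : w ≠ 0) :
    (w + s ^ 2 / w).im = w.im * (1 - s ^ 2 / ‖w‖ ^ 2) := by
  have h0 : Complex.normSq w ≠ 0 := by
    rwa [Ne, Complex.normSq_eq_zero]
  have h1 : ((s : ℂ) ^ 2 / w) = ((s ^ 2 : ℝ) : ℂ) / w := by push_cast; ring
  rw [Complex.add_im, h1, Complex.div_im, Complex.ofReal_im, Complex.ofReal_re,
    ← Complex.normSq_eq_norm_sq]
  field_simp
  ring

lemma jk_inj {s : ℝ} (hs : 0 < s) {w w' : ℂ} (hw : w ∈ UH) (hw' : w' ∈ UH)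
    (h : w + s ^ 2 / w = w' + s ^ 2 / w') : w = w' := by
  by_contra hne
  have h0 := jk_ne hw
  have h0' := jk_ne hw'
  have h1 : w * w' = s ^ 2 := by
    have h2 : (w - w') * (w * w' - s ^ 2) = 0 := by
      field_simp at h
      linear_combination h
    rcases mul_eq_zero.1 h2 with h3 | h3
    · exact absurd (sub_eq_zero.1 h3) hne
    · exact sub_eq_zero.1 h3
  have h2 : w' = ((s ^ 2 : ℝ) : ℂ) / w := by
    rw [eq_div_iff h0]
    push_cast
    rw [← h1]; ring
  have h3 : w'.im = -(s ^ 2 * w.im / Complex.normSq w) := by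
    rw [h2, Complex.div_im, Complex.ofReal_im, Complex.ofReal_re]
    ring
  have h4 : 0 < w'.im := hw'
  have h5 : 0 < w.im := hw
  have h6 : 0 < Complex.normSq w := Complex.normSq_pos.2 h0
  have h7 : 0 < s ^ 2 * w.im / Complex.normSq w := by positivity
  linarith

lemma jk_surj {s : ℝ} (hs : 0 < s) {v : ℂ} (hv : ¬ (v.im = 0 ∧ 2 * s ≤ |v.re|)) :
    ∃ w ∈ UH, w + s ^ 2 / w = v := by
  obtain ⟨d, hd⟩ := IsAlgClosed.exists_pow_nat_eq (v ^ 2 - 4 * (s : ℂ) ^ 2) two_pos
  set w := (v + d) / 2 with hw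
  set w' := (v - d) / 2 with hw'
  have h1 : w * w' = s ^ 2 := by
    rw [hw, hw']
    linear_combination (-1 / 4 : ℂ) * hd
  have h2 : w + w' = v := by rw [hw, hw']; ring
  have hs0 : (s : ℂ) ^ 2 ≠ 0 := by
    apply pow_ne_zero
    exact_mod_cast hs.ne'
  have hw0 : w ≠ 0 := by
    intro h
    rw [h, zero_mul] at h1
    exact hs0 h1.symm
  have hw0' : w' ≠ 0 := by
    intro h
    rw [h, mul_zero] at h1
    exact hs0 h1.symm
  have e1 : (s : ℂ) ^ 2 / w = w' := by rw [div_eq_iff hw0, ← h1]; ring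
  have e2 : (s : ℂ) ^ 2 / w' = w := by rw [div_eq_iff hw0', ← h1]
  have e3 : w'.im = -(s ^ 2 * w.im / Complex.normSq w) := by
    have h3 : w' = ((s ^ 2 : ℝ) : ℂ) / w := by
      rw [← e1]; push_cast; ring
    rw [h3, Complex.div_im, Complex.ofReal_im, Complex.ofReal_re]
    ring
  have hn : 0 < Complex.normSq w := Complex.normSq_pos.2 hw0
  rcases lt_trichotomy w.im 0 with h | h | h
  · refine ⟨w', ?_, ?_⟩
    · rw [mem_UH, e3]
      have : s ^ 2 * w.im / Complex.normSq w < 0 :=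
        div_neg_of_neg_of_pos (mul_neg_of_pos_of_neg (by positivity) h) hn
      linarith
    · rw [e2, ← h2]; ring
  · exfalso
    apply hv
    have hi' : w'.im = 0 := by rw [e3, h]; simp
    constructor
    · rw [← h2, Complex.add_im, h, hi', add_zero]
    · have hr : w.re * w'.re = s ^ 2 := by
        have := congrArg Complex.re h1
        rw [Complex.mul_re, h, hi'] at this
        have h4 : (((s : ℂ)) ^ 2).re = s ^ 2 := by
          rw [← Complex.ofReal_pow, Complex.ofReal_re]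
        rw [h4] at this
        linarith
      rw [← h2, Complex.add_re]
      apply le_abs.2
      by_contra hcon
      push Not at hcon
      nlinarith [sq_nonneg (w.re - w'.re), sq_nonneg (w.re + w'.re)]
  · exact ⟨w, h, by rw [e1, h2]⟩

/-! ### The structure -/

/-- `ψ` maps `G` conformally onto the upper half plane, with a simple pole `-1/u + A(u)` at the
flat boundary point `0` of `G`. -/
structure Psi (G : Set ℂ) (ρ : ℝ) (ψ A : ℂ → ℂ) : Prop where
  pos : 0 < ρ
  isOpen : IsOpen G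
  box : ∀ u ∈ ball (0 : ℂ) ρ, (u ∈ G ↔ u ∈ UH)
  diff : DifferentiableOn ℂ ψ G
  bij : BijOn ψ G UH
  anal : DifferentiableOn ℂ A (ball 0 ρ)
  symm : ∀ u ∈ ball (0 : ℂ) ρ, A (conj u) = conj (A u)
  zero : A 0 = 0
  eq : ∀ u ∈ ball (0 : ℂ) ρ, u ∈ UH → ψ u = -u⁻¹ + A u
  bound : ∀ u ∈ ball (0 : ℂ) ρ, ‖A u‖ ≤ 10 / ρ
  far : ∀ u ∈ G, ‖ψ u‖ ≤ ‖u‖⁻¹ + 10 / ρ

lemma box_real {G : Set ℂ} {ρ : ℝ} (hρ : 0 < ρ) (hGo : IsOpen G)
    (hbox : ∀ u ∈ ball (0 : ℂ) ρ, (u ∈ G ↔ u ∈ UH)) {u : ℂ} (hu : u ∈ G) (hu0 : u.im = 0) :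
    ρ < ‖u‖ := by
  by_contra hcon
  push Not at hcon
  obtain ⟨δ, hδ, hδG⟩ := Metric.isOpen_iff.1 hGo u hu
  set δ' := min δ ρ with hδ'
  have hδ'0 : 0 < δ' := lt_min hδ hρ
  set t : ℝ := δ' / (2 * ρ) with ht
  have ht0 : 0 < t := by positivity
  have ht1 : t ≤ 1 / 2 := by
    rw [ht, div_le_iff₀ (by positivity)]
    have : δ' ≤ ρ := min_le_right _ _
    linarith
  set p : ℂ := ((1 - t : ℝ) : ℂ) * u - ((t * ρ / 2 : ℝ) : ℂ) * I with hp
  have hpim : p.im = -(t * ρ / 2) := by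
    rw [hp, Complex.sub_im, Complex.im_ofReal_mul, hu0, Complex.im_ofReal_mul, Complex.I_im]
    ring
  have hpb : p ∈ ball (0 : ℂ) ρ := by
    rw [mem_ball_zero_iff]
    calc ‖p‖ ≤ ‖((1 - t : ℝ) : ℂ) * u‖ + ‖((t * ρ / 2 : ℝ) : ℂ) * I‖ := norm_sub_le _ _
      _ = (1 - t) * ‖u‖ + t * ρ / 2 := by
          rw [norm_mul, norm_mul, Complex.norm_real, Complex.norm_real, Complex.norm_I,
            Real.norm_eq_abs, Real.norm_eq_abs, abs_of_nonneg (by linarith),
            abs_of_nonneg (by positivity), mul_one]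
      _ ≤ (1 - t) * ρ + t * ρ / 2 := by
          have : (1 - t) * ‖u‖ ≤ (1 - t) * ρ := mul_le_mul_of_nonneg_left hcon (by linarith)
          linarith
      _ < ρ := by nlinarith
  have hpG : p ∈ G := by
    apply hδG
    rw [mem_ball, dist_eq_norm]
    have e1 : p - u = -(((t : ℝ) : ℂ) * u + ((t * ρ / 2 : ℝ) : ℂ) * I) := by
      rw [hp]; push_cast; ring
    rw [e1, norm_neg]
    calc ‖((t : ℝ) : ℂ) * u + ((t * ρ / 2 : ℝ) : ℂ) * I‖
        ≤ ‖((t : ℝ) : ℂ) * u‖ + ‖((t * ρ / 2 : ℝ) : ℂ) * I‖ := norm_add_le _ _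
      _ = t * ‖u‖ + t * ρ / 2 := by
          rw [norm_mul, norm_mul, Complex.norm_real, Complex.norm_real, Complex.norm_I,
            Real.norm_eq_abs, Real.norm_eq_abs, abs_of_nonneg (by linarith),
            abs_of_nonneg (by positivity), mul_one]
      _ ≤ t * ρ + t * ρ / 2 := by
          have : t * ‖u‖ ≤ t * ρ := mul_le_mul_of_nonneg_left hcon (by linarith)
          linarith
      _ = δ' * (3 / 4) := by rw [ht]; field_simp; ring
      _ < δ := by
          have : δ' ≤ δ := min_le_left _ _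
          linarith
  have h1 := (hbox p hpb).1 hpG
  rw [mem_UH, hpim] at h1
  have : 0 < t * ρ / 2 := by positivity
  linarith

theorem exists_psi {G : Set ℂ} {ρ : ℝ} (hρ : 0 < ρ) (hGo : IsOpen G) (hGc : IsPreconnected G)
    (hsq : HasSqrt G) (hbox : ∀ u ∈ ball (0 : ℂ) ρ, (u ∈ G ↔ u ∈ UH)) :
    ∃ ψ A : ℂ → ℂ, Psi G ρ ψ A := by
  set s : ℝ := 1 / (2 * ρ) with hs
  have hs0 : 0 < s := by positivity
  have hsρ : 2 * s = ρ⁻¹ := by rw [hs]; field_simp
  have h0G : (0 : ℂ) ∉ G := by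
    intro h
    have := (hbox 0 (mem_ball_self hρ)).1 h
    simp [mem_UH] at this
  set J : ℂ → ℂ := fun w => w + s ^ 2 / w with hJ
  set τ : ℂ → ℂ := fun w => -(J w)⁻¹ with hτ
  set O : Set ℂ := UH ∩ {w | J w ≠ 0} with hO
  have hJd : DifferentiableOn ℂ J UH := by
    apply differentiableOn_id.add
    exact (differentiableOn_const _).div differentiableOn_id (fun w hw => jk_ne hw)
  have hOo : IsOpen O := hJd.continuousOn.isOpen_inter_preimage isOpen_UH isOpen_ne
  have hτd : DifferentiableOn ℂ τ O := by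
    apply DifferentiableOn.neg
    exact (hJd.mono inter_subset_left).inv (fun w hw => hw.2)
  set U : Set ℂ := O ∩ τ ⁻¹' G with hU
  have hUo : IsOpen U := hτd.continuousOn.isOpen_inter_preimage hOo hGo
  have hUsub : U ⊆ UH := fun w hw => hw.1.1
  have hτU : DifferentiableOn ℂ τ U := hτd.mono inter_subset_left
  have hbij : BijOn τ U G := by
    refine ⟨fun w hw => hw.2, ?_, ?_⟩
    · intro w hw w' hw' h
      apply jk_inj hs0 (hUsub hw) (hUsub hw')
      have h1 : (J w)⁻¹ = (J w')⁻¹ := neg_injective h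
      exact inv_injective h1
    · intro u hu
      have hu0 : u ≠ 0 := fun h => h0G (h ▸ hu)
      have hv : ¬ ((-u⁻¹).im = 0 ∧ 2 * s ≤ |(-u⁻¹).re|) := by
        rintro ⟨h1, h2⟩
        have hui : u.im = 0 := by
          rw [Complex.neg_im, Complex.inv_im, neg_div, neg_neg, div_eq_zero_iff] at h1
          rcases h1 with h1 | h1
          · exact h1
          · exact absurd (Complex.normSq_eq_zero.1 h1) hu0
        have h3 := box_real hρ hGo hbox hu hui
        have h4 : |(-u⁻¹).re| ≤ ‖u‖⁻¹ := by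
          rw [← norm_inv, ← norm_neg]
          exact Complex.abs_re_le_norm _
        have h5 : ‖u‖⁻¹ < ρ⁻¹ := by
          rw [inv_lt_inv₀ (norm_pos_iff.2 hu0) hρ]
          exact h3
        rw [hsρ] at h2
        linarith
      obtain ⟨w, hw, hwv⟩ := jk_surj hs0 hv
      have hJw : J w = -u⁻¹ := hwv
      have hJ0 : J w ≠ 0 := by
        rw [hJw]
        exact neg_ne_zero.2 (inv_ne_zero hu0)
      have hτw : τ w = u := by
        simp only [hτ, hJw]
        rw [inv_neg, inv_inv, neg_neg]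
      exact ⟨w, ⟨⟨hw, hJ0⟩, by rw [mem_preimage, hτw]; exact hu⟩, hτw⟩
  set σ := Function.invFunOn τ U with hσ
  have hleft : ∀ w ∈ U, σ (τ w) = w := fun w hw => hbij.injOn.leftInvOn_invFunOn hw
  have hσU : ∀ u ∈ G, σ u ∈ U ∧ τ (σ u) = u := by
    intro u hu
    obtain ⟨w, hw, rfl⟩ := hbij.surjOn hu
    rw [hleft w hw]
    exact ⟨hw, rfl⟩
  have hσd : DifferentiableOn ℂ σ G := by
    have := differentiableOn_inv hUo hτU hbij.injOn hleft
    rwa [hbij.image_eq] at this
  have hσimg : σ '' G = U := by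
    apply Subset.antisymm
    · rintro _ ⟨u, hu, rfl⟩
      exact (hσU u hu).1
    · intro w hw
      exact ⟨τ w, hw.2, hleft w hw⟩
  have hUc : IsPreconnected U := by
    rw [← hσimg]
    exact hGc.image σ hσd.continuousOn
  have hsqU : HasSqrt U := by
    intro f hf hf0
    obtain ⟨h, hh, hh2⟩ := hsq (fun u => f (σ u)) (hf.comp hσd (fun u hu => (hσU u hu).1))
      (fun u hu => hf0 _ (hσU u hu).1)
    refine ⟨fun w => h (τ w), hh.comp hτU (fun w hw => hw.2), ?_⟩
    intro w hw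
    simp only
    rw [hh2 _ hw.2, hleft w hw]
  -- far points
  have hfarU : ∀ w : ℂ, 3 * s < ‖w‖ → w ∈ UH → w ∈ U := by
    intro w hw hwU
    have hw0 : w ≠ 0 := jk_ne hwU
    have hwn : 0 < ‖w‖ := norm_pos_iff.2 hw0
    have h1 : s ^ 2 / ‖w‖ ^ 2 < 1 := by
      rw [div_lt_one (by positivity)]
      nlinarith
    have h2 : 0 < (J w).im := by
      simp only [hJ]
      rw [jk_im s hw0]
      exact mul_pos hwU (by linarith)
    have h3 : J w ≠ 0 := jk_ne h2
    have h4 : 2 * s < ‖J w‖ := by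
      have h5 : ‖w‖ ≤ ‖J w‖ + s ^ 2 / ‖w‖ := by
        have e : w = J w - s ^ 2 / w := by simp only [hJ]; ring
        calc ‖w‖ = ‖J w - s ^ 2 / w‖ := by rw [← e]
          _ ≤ ‖J w‖ + ‖(s : ℂ) ^ 2 / w‖ := norm_sub_le _ _
          _ = ‖J w‖ + s ^ 2 / ‖w‖ := by
              rw [norm_div, norm_pow, Complex.norm_real, Real.norm_eq_abs, abs_of_pos hs0]
      have h6 : s ^ 2 / ‖w‖ ≤ s / 3 := by
        rw [div_le_iff₀ hwn]
        nlinarith
      linarith
    have h5 : τ w ∈ UH := neg_inv_mem_UH h2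
    have h6 : τ w ∈ ball (0 : ℂ) ρ := by
      rw [mem_ball_zero_iff]
      simp only [hτ]
      rw [norm_neg, norm_inv]
      rw [hsρ] at h4
      exact inv_lt_of_inv_lt₀ hρ h4
    exact ⟨⟨hwU, h3⟩, (hbox _ h6).2 h5⟩
  obtain ⟨g, c, hg⟩ := exists_hyd_of_sqrt hUo hUc hsqU hUsub ⟨3 * s, hfarU⟩
  have hgd : ∀ w ∈ U, ‖g w - w‖ ≤ 18 * s := by
    intro w hw
    have := hg.displ_zero (r := 3 * s) (by positivity) hfarU hw
    linarith
  set ψ : ℂ → ℂ := fun u => g (σ u) with hψ
  have hψd : DifferentiableOn ℂ ψ G := hg.diff.comp hσd (fun u hu => (hσU u hu).1)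
  have hσb : BijOn σ G U := by
    refine ⟨fun u hu => (hσU u hu).1, ?_, ?_⟩
    · intro u hu u' hu' h
      rw [← (hσU u hu).2, ← (hσU u' hu').2, h]
    · rw [SurjOn, hσimg]
  have hψb : BijOn ψ G UH := hg.bij.comp hσb
  -- the relation between `u` and `w`
  have hJσ : ∀ u ∈ G, J (σ u) = -u⁻¹ := by
    intro u hu
    have h1 := (hσU u hu).2
    simp only [hτ] at h1
    have h2 := congrArg (fun v : ℂ => -v⁻¹) h1
    simp only [inv_neg, inv_inv, neg_neg] at h2
    exact h2
  have hsw : ∀ w : ℂ, ‖(s : ℂ) ^ 2 / w‖ = s ^ 2 / ‖w‖ := by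
    intro w
    rw [norm_div, norm_pow, Complex.norm_real, Real.norm_eq_abs, abs_of_pos hs0]
  have hσn : ∀ u ∈ G, ‖σ u‖ ≤ ‖u‖⁻¹ + s := by
    intro u hu
    have h1 := hJσ u hu
    have hw0 : σ u ≠ 0 := jk_ne (hUsub (hσU u hu).1)
    by_cases hc : ‖σ u‖ ≤ s
    · have : 0 ≤ ‖u‖⁻¹ := by positivity
      linarith
    · push Not at hc
      have e : σ u = -u⁻¹ - s ^ 2 / σ u := by
        rw [← h1]; simp only [hJ]; ring
      calc ‖σ u‖ = ‖-u⁻¹ - s ^ 2 / σ u‖ := by rw [← e]
        _ ≤ ‖-u⁻¹‖ + ‖(s : ℂ) ^ 2 / σ u‖ := norm_sub_le _ _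
        _ = ‖u‖⁻¹ + s ^ 2 / ‖σ u‖ := by rw [norm_neg, norm_inv, hsw]
        _ ≤ ‖u‖⁻¹ + s := by
            have : s ^ 2 / ‖σ u‖ ≤ s := by
              rw [div_le_iff₀ (hs0.trans hc)]
              nlinarith
            linarith
  have hbig : ∀ u ∈ G, u ∈ UH → s < ‖σ u‖ := by
    intro u hu huU
    have hw := (hσU u hu).1
    have hw0 : σ u ≠ 0 := jk_ne (hUsub hw)
    have h1 : 0 < (J (σ u)).im := by
      rw [hJσ u hu]
      exact neg_inv_mem_UH huU
    simp only [hJ] at h1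
    rw [jk_im s hw0] at h1
    have h2 : 0 < 1 - s ^ 2 / ‖σ u‖ ^ 2 := (mul_pos_iff_of_pos_left (hUsub hw)).1 h1
    have hwn : 0 < ‖σ u‖ := norm_pos_iff.2 hw0
    rw [sub_pos, div_lt_one (by positivity)] at h2
    exact lt_of_pow_lt_pow_left₀ 2 hwn.le h2
  have hbig2 : ∀ u ∈ G, u ∈ UH → ‖u‖⁻¹ - s ≤ ‖σ u‖ := by
    intro u hu huU
    have h1 := hbig u hu huU
    have h2 : ‖u‖⁻¹ ≤ ‖σ u‖ + s ^ 2 / ‖σ u‖ := by
      rw [← norm_inv, ← norm_neg, ← hJσ u hu, ← hsw]
      exact norm_add_le _ _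
    have h3 : s ^ 2 / ‖σ u‖ ≤ s := by
      rw [div_le_iff₀ (hs0.trans h1)]
      nlinarith
    linarith
  set D : ℂ → ℂ := fun u => ψ u + u⁻¹ with hD
  have hDG : ∀ u ∈ G, D u = (g (σ u) - σ u) - s ^ 2 / σ u := by
    intro u hu
    have h1 := hJσ u hu
    simp only [hJ] at h1
    simp only [hD, hψ]
    linear_combination (1 : ℂ) * h1
  have hDb : ∀ u ∈ G, u ∈ UH → ‖D u‖ ≤ 19 * s := by
    intro u hu huU
    have h1 := hbig u hu huU
    rw [hDG u hu]
    calc ‖(g (σ u) - σ u) - s ^ 2 / σ u‖ ≤ ‖g (σ u) - σ u‖ + ‖(s : ℂ) ^ 2 / σ u‖ := norm_sub_le _ _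
      _ ≤ 18 * s + s := by
          have h2 := hgd _ (hσU u hu).1
          have h3 : s ^ 2 / ‖σ u‖ ≤ s := by
            rw [div_le_iff₀ (hs0.trans h1)]
            nlinarith
          rw [hsw]
          linarith
      _ = 19 * s := by ring
  have hρs : 19 * s ≤ 10 / ρ := by
    rw [hs, mul_one_div, div_le_div_iff₀ (by positivity) hρ]
    nlinarith
  have hballG : ball (0 : ℂ) ρ ∩ UH ⊆ G := fun u hu => (hbox u hu.1).2 hu.2
  have hDd : DifferentiableOn ℂ D (ball (0 : ℂ) ρ ∩ UH) := by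
    apply (hψd.mono hballG).add
    exact differentiableOn_id.inv (fun u hu => jk_ne hu.2)
  -- the limit at zero
  have hev : ∀ p : ℂ, p ∈ ball (0 : ℂ) ρ → ∀ᶠ u in 𝓝[UH] p, u ∈ ball (0 : ℂ) ρ ∩ UH := by
    intro p hp
    filter_upwards [mem_nhdsWithin_of_mem_nhds (isOpen_ball.mem_nhds hp),
      self_mem_nhdsWithin] with u h1 h2
    exact ⟨h1, h2⟩
  have hlim0 : Tendsto D (𝓝[UH] 0) (𝓝 0) := by
    have h1 : Tendsto (fun u : ℂ => ‖u‖⁻¹) (𝓝[UH] 0) atTop := by
      have h2 : Tendsto (fun u : ℂ => ‖u‖) (𝓝[UH] 0) (𝓝[>] 0) := by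
        rw [tendsto_nhdsWithin_iff]
        constructor
        · have := (continuous_norm (E := ℂ)).tendsto 0
          rw [norm_zero] at this
          exact this.mono_left nhdsWithin_le_nhds
        · filter_upwards [self_mem_nhdsWithin] with u hu
          exact norm_pos_iff.2 (jk_ne hu)
      exact tendsto_inv_nhdsGT_zero.comp h2
    have h2 : Tendsto (fun u => ‖σ u‖) (𝓝[UH] 0) atTop := by
      have h3 : Tendsto (fun u : ℂ => ‖u‖⁻¹ - s) (𝓝[UH] 0) atTop := by
        have := tendsto_atTop_add_const_right (𝓝[UH] (0 : ℂ)) (-s) h1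
        simpa [sub_eq_add_neg] using this
      apply tendsto_atTop_mono' _ _ h3
      filter_upwards [hev 0 (mem_ball_self hρ)] with u hu
      exact hbig2 u (hballG hu) hu.2
    have h3 : Tendsto σ (𝓝[UH] 0) atUH := by
      unfold atUH
      rw [tendsto_inf]
      constructor
      · rw [← tendsto_norm_atTop_iff_cobounded]
        exact h2
      · rw [tendsto_principal]
        filter_upwards [hev 0 (mem_ball_self hρ)] with u hu
        exact hUsub (hσU u (hballG hu)).1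
    have h4 : Tendsto (fun u => g (σ u) - σ u) (𝓝[UH] 0) (𝓝 0) := hg.tendsto_sub.comp h3
    have h5 : Tendsto (fun u => (s : ℂ) ^ 2 / σ u) (𝓝[UH] 0) (𝓝 0) := by
      have h6 := (tendsto_inv_atUH.comp h3).const_mul ((s : ℂ) ^ 2)
      rw [mul_zero] at h6
      exact h6
    have h6 := h4.sub h5
    rw [sub_zero] at h6
    apply h6.congr'
    filter_upwards [hev 0 (mem_ball_self hρ)] with u hu
    rw [hDG u (hballG hu)]
  have hlim : ∀ p : ℝ, (p : ℂ) ∈ ball (((0 : ℝ) : ℂ)) ρ →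
      Tendsto (fun z => (D z).im) (𝓝[UH] (p : ℂ)) (𝓝 0) := by
    intro p hp
    rw [Complex.ofReal_zero] at hp
    by_cases hp0 : p = 0
    · rw [hp0, Complex.ofReal_zero]
      have := (Complex.continuous_im.tendsto 0).comp hlim0
      rw [Complex.zero_im] at this
      exact this
    · have hp1 : 0 < |p| := abs_pos.2 hp0
      have hp2 : |p| < ρ := by
        rw [mem_ball_zero_iff, Complex.norm_real, Real.norm_eq_abs] at hp
        exact hp
      obtain ⟨r, hr1, hr2⟩ := exists_between hp2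
      have hr0 : 0 < r := hp1.trans hr1
      set δ : ℝ := r⁻¹ - 2 * s with hδ
      have hδ0 : 0 < δ := by
        rw [hδ, hsρ, sub_pos, inv_lt_inv₀ hρ hr0]
        exact hr2
      set K : ℝ := 1 / (1 - s ^ 2 / (s + δ) ^ 2) with hK
      have hK1 : 0 < 1 - s ^ 2 / (s + δ) ^ 2 := by
        rw [sub_pos, div_lt_one (by positivity)]
        nlinarith
      have hK0 : 0 < K := by positivity
      have hb : ∀ᶠ u in 𝓝[UH] (p : ℂ), |(D u).im| ≤ (K + 1) * (u.im / (|p| / 2) ^ 2) := by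
        have h1 : ∀ᶠ u in 𝓝[UH] (p : ℂ), |p| / 2 < ‖u‖ ∧ ‖u‖ < r := by
          have h2 : Tendsto (fun u : ℂ => ‖u‖) (𝓝[UH] (p : ℂ)) (𝓝 |p|) := by
            have := (continuous_norm (E := ℂ)).tendsto (p : ℂ)
            rw [Complex.norm_real, Real.norm_eq_abs] at this
            exact this.mono_left nhdsWithin_le_nhds
          exact (h2.eventually (lt_mem_nhds (by linarith))).and (h2.eventually (gt_mem_nhds hr1))
        filter_upwards [h1, hev p hp] with u hu hu2
        have huG := hballG hu2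
        have huU := hu2.2
        have hun : 0 < ‖u‖ := norm_pos_iff.2 (jk_ne huU)
        have hw := (hσU u huG).1
        have hw0 : σ u ≠ 0 := jk_ne (hUsub hw)
        have hwn : 0 < ‖σ u‖ := norm_pos_iff.2 hw0
        have h3 : s + δ ≤ ‖σ u‖ := by
          have h4 := hbig2 u huG huU
          have h5 : r⁻¹ ≤ ‖u‖⁻¹ := inv_anti₀ hun hu.2.le
          rw [hδ]
          linarith
        have h4 : (J (σ u)).im = u.im / ‖u‖ ^ 2 := by
          rw [hJσ u huG, Complex.neg_im, Complex.inv_im, neg_div, neg_neg,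
            Complex.normSq_eq_norm_sq]
        have h5 : (σ u).im * (1 - s ^ 2 / ‖σ u‖ ^ 2) = u.im / ‖u‖ ^ 2 := by
          rw [← h4]
          simp only [hJ]
          rw [jk_im s hw0]
        have h6 : 1 - s ^ 2 / (s + δ) ^ 2 ≤ 1 - s ^ 2 / ‖σ u‖ ^ 2 := by
          have : s ^ 2 / ‖σ u‖ ^ 2 ≤ s ^ 2 / (s + δ) ^ 2 := by
            gcongr
          linarith
        have hwi : 0 < (σ u).im := hUsub hw
        have hui : 0 < u.im := huU
        have h7 : (σ u).im ≤ K * (u.im / ‖u‖ ^ 2) := by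
          rw [hK, one_div, ← div_eq_inv_mul, le_div_iff₀ hK1, ← h5]
          exact mul_le_mul_of_nonneg_left h6 hwi.le
        have h8 : (g (σ u)).im ≤ (σ u).im := hg.im_le hw
        have h9 : 0 < (g (σ u)).im := hg.bij.mapsTo hw
        have h10 : (D u).im = (g (σ u)).im - u.im / ‖u‖ ^ 2 := by
          simp only [hD, hψ]
          rw [Complex.add_im, Complex.inv_im, Complex.normSq_eq_norm_sq]
          ring
        have h11 : 0 < u.im / ‖u‖ ^ 2 := by positivity
        have h12 : u.im / ‖u‖ ^ 2 ≤ u.im / (|p| / 2) ^ 2 := by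
          apply div_le_div_of_nonneg_left hui.le (by positivity)
          have := hu.1
          gcongr
        calc |(D u).im| ≤ (K + 1) * (u.im / ‖u‖ ^ 2) := by
              rw [h10, abs_le]
              constructor <;> nlinarith
          _ ≤ (K + 1) * (u.im / (|p| / 2) ^ 2) := by gcongr
      have h0 : Tendsto (fun u : ℂ => (K + 1) * (u.im / (|p| / 2) ^ 2)) (𝓝[UH] (p : ℂ)) (𝓝 0) := by
        have h3 : Tendsto (fun w : ℂ => (K + 1) * (w.im / (|p| / 2) ^ 2)) (𝓝 (p : ℂ))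
            (𝓝 ((K + 1) * ((p : ℂ).im / (|p| / 2) ^ 2))) :=
          (continuous_const.mul (Complex.continuous_im.div_const _)).tendsto _
        rw [Complex.ofReal_im, zero_div, mul_zero] at h3
        exact h3.mono_left nhdsWithin_le_nhds
      exact squeeze_zero_norm' (by simpa only [Real.norm_eq_abs] using hb) h0
  have hDd' : DifferentiableOn ℂ D (ball (((0 : ℝ) : ℂ)) ρ ∩ UH) := by
    rw [Complex.ofReal_zero]; exact hDd
  obtain ⟨hA1, hA2, hA3⟩ := flat_gen hDd' hlim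
  rw [Complex.ofReal_zero] at hA1 hA2 hA3
  have hA0 : extMap D 0 = 0 := by
    have h1 : Tendsto (extMap D) (𝓝[UH] 0) (𝓝 (extMap D 0)) :=
      ((hA1.continuousOn.continuousAt (isOpen_ball.mem_nhds (mem_ball_self hρ))).tendsto).mono_left
        nhdsWithin_le_nhds
    have := neBot_real (z := 0) Complex.zero_im
    apply tendsto_nhds_unique (h1.congr' _) hlim0
    filter_upwards [self_mem_nhdsWithin] with u hu
    exact extMap_upper hu
  have hAup : ∀ u ∈ ball (0 : ℂ) ρ, u ∈ UH → ‖extMap D u‖ ≤ 10 / ρ := by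
    intro u hu huU
    rw [extMap_upper huU]
    exact (hDb u (hballG ⟨hu, huU⟩) huU).trans hρs
  refine ⟨ψ, extMap D, hρ, hGo, hbox, hψd, hψb, hA1, hA2, hA0, ?_, ?_, ?_⟩
  · intro u hu huU
    rw [extMap_upper huU]
    simp only [hD]
    ring
  · intro u hu
    rcases lt_trichotomy u.im 0 with h | h | h
    · have h1 : conj u ∈ ball (0 : ℂ) ρ := by
        rw [mem_ball_zero_iff, RCLike.norm_conj, ← mem_ball_zero_iff]
        exact hu
      have h2 : conj u ∈ UH := by rw [mem_UH, Complex.conj_im]; linarith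
      have h3 := hAup _ h1 h2
      rw [hA2 u hu, RCLike.norm_conj] at h3
      exact h3
    · have := neBot_real h
      have h1 : Tendsto (fun w => ‖extMap D w‖) (𝓝[UH] u) (𝓝 ‖extMap D u‖) :=
        (((hA1.continuousOn.continuousAt (isOpen_ball.mem_nhds hu)).tendsto).mono_left
          nhdsWithin_le_nhds).norm
      apply le_of_tendsto h1
      filter_upwards [hev u hu] with w hw
      exact hAup w hw.1 hw.2
    · exact hAup u hu h
  · intro u hu
    have h1 := hσn u hu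
    have h2 := hgd _ (hσU u hu).1
    calc ‖ψ u‖ = ‖(g (σ u) - σ u) + σ u‖ := by simp only [hψ]; congr 1; ring
      _ ≤ ‖g (σ u) - σ u‖ + ‖σ u‖ := norm_add_le _ _
      _ ≤ 18 * s + (‖u‖⁻¹ + s) := by linarith
      _ ≤ ‖u‖⁻¹ + 10 / ρ := by linarith

end Pool.Agent.H83.Lo
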