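import Mathlib
import Pool.Agent.H83.Lo.Psi

set_option autoImplicit false

/-! Conformal maps with a pole at a flat boundary point: inverse map, uniqueness, two domains,
boundary behaviour. -/

namespace Pool.Agent.H83.Lo

open Complex Metric Set Filter Topology
open scoped ComplexConjugate

namespace Psi

variable {G G' : Set ℂ} {ρ ρ' : ℝ} {ψ A ψ' A' : ℂ → ℂ}

/-- inverse map -/
structure PInv (G : Set ℂ) (ψ T : ℂ → ℂ) : Prop where
  diff : DifferentiableOn ℂ T UH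
  maps : MapsTo T UH G
  left : ∀ u ∈ G, T (ψ u) = u
  right : ∀ w ∈ UH, ψ (T w) = w

theorem exists_inv (h : Psi G ρ ψ A) : ∃ T : ℂ → ℂ, PInv G ψ T := by
  set T := Function.invFunOn ψ G with hT
  have hleft : ∀ u ∈ G, T (ψ u) = u := fun u hu => h.bij.injOn.leftInvOn_invFunOn hu
  have hr : ∀ w ∈ UH, T w ∈ G ∧ ψ (T w) = w := by
    intro w hw
    obtain ⟨u, hu, rfl⟩ := h.bij.surjOn hw
    rw [hleft u hu]
    exact ⟨hu, rfl⟩
  refine ⟨T, ?_, fun w hw => (hr w hw).1, hleft, fun w hw => (hr w hw).2⟩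
  have := differentiableOn_inv h.isOpen h.diff h.bij.injOn hleft
  rwa [h.bij.image_eq] at this

lemma ball_sub (h : Psi G ρ ψ A) : ball (0 : ℂ) ρ ∩ UH ⊆ G := fun u hu => (h.box u hu.1).2 hu.2

lemma zero_notMem (h : Psi G ρ ψ A) : (0 : ℂ) ∉ G := by
  intro h0
  have := (h.box 0 (mem_ball_self h.pos)).1 h0
  simp [mem_UH] at this

lemma ne_zero (h : Psi G ρ ψ A) {u : ℂ} (hu : u ∈ G) : u ≠ 0 := fun h0 => h.zero_notMem (h0 ▸ hu)

lemma eventually_ball {r : ℝ} (hr : 0 < r) : ∀ᶠ u in 𝓝[UH] (0 : ℂ), u ∈ ball (0 : ℂ) r ∩ UH := by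
  filter_upwards [mem_nhdsWithin_of_mem_nhds (isOpen_ball.mem_nhds (mem_ball_self hr)),
    self_mem_nhdsWithin] with u h1 h2
  exact ⟨h1, h2⟩

lemma continuousAt_A (h : Psi G ρ ψ A) : ContinuousAt A 0 :=
  h.anal.continuousOn.continuousAt (isOpen_ball.mem_nhds (mem_ball_self h.pos))

/-- `u ψ(u) → -1` at the pole. -/
lemma tendsto_mul (h : Psi G ρ ψ A) : Tendsto (fun u => u * ψ u) (𝓝[UH] 0) (𝓝 (-1)) := by
  have h1 : Tendsto (fun u => -1 + u * A u) (𝓝[UH] 0) (𝓝 (-1 + 0 * A 0)) :=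
    ((tendsto_const_nhds).add (continuousAt_id.mul h.continuousAt_A).tendsto).mono_left
      nhdsWithin_le_nhds
  rw [zero_mul, add_zero] at h1
  apply h1.congr'
  filter_upwards [eventually_ball h.pos] with u hu
  rw [h.eq u hu.1 hu.2]
  have := jk_ne hu.2
  field_simp

lemma tendsto_sub_zero (h : Psi G ρ ψ A) : Tendsto (fun u => ψ u + u⁻¹) (𝓝[UH] 0) (𝓝 0) := by
  have h1 : Tendsto A (𝓝[UH] 0) (𝓝 (A 0)) := h.continuousAt_A.tendsto.mono_left nhdsWithin_le_nhds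
  rw [h.zero] at h1
  apply h1.congr'
  filter_upwards [eventually_ball h.pos] with u hu
  rw [h.eq u hu.1 hu.2]
  ring

/-- The inverse map near infinity. -/
lemma inv_norm_le (h : Psi G ρ ψ A) {T : ℂ → ℂ} (hT : PInv G ψ T) {w : ℂ} (hw : w ∈ UH)
    (hw2 : 10 / ρ < ‖w‖) : ‖T w‖ ≤ (‖w‖ - 10 / ρ)⁻¹ := by
  have h1 := h.far _ (hT.maps hw)
  rw [hT.right w hw] at h1
  have h2 : 0 < ‖w‖ - 10 / ρ := by linarith
  have h3 : 0 < ‖T w‖ := norm_pos_iff.2 (h.ne_zero (hT.maps hw))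
  rw [le_inv_comm₀ h3 h2]
  linarith

lemma inv_far (h : Psi G ρ ψ A) {T : ℂ → ℂ} (hT : PInv G ψ T) {r : ℝ} (hr : 0 < r) {w : ℂ}
    (hw : w ∈ UH) (hw2 : 10 / ρ + r⁻¹ < ‖w‖) : ‖T w‖ < r := by
  have h0 : 0 < r⁻¹ := by positivity
  have h1 := h.inv_norm_le hT hw (by linarith)
  have h2 : r⁻¹ < ‖w‖ - 10 / ρ := by linarith
  calc ‖T w‖ ≤ (‖w‖ - 10 / ρ)⁻¹ := h1
    _ < (r⁻¹)⁻¹ := by
        rw [inv_lt_inv₀ (h0.trans h2) h0]
        exact h2
    _ = r := inv_inv r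

lemma inv_tendsto (h : Psi G ρ ψ A) {T : ℂ → ℂ} (hT : PInv G ψ T) :
    Tendsto T atUH (𝓝[UH] 0) := by
  rw [tendsto_nhdsWithin_iff]
  constructor
  · rw [Metric.tendsto_nhds]
    intro ε hε
    rw [eventually_atUH]
    refine ⟨10 / ρ + ε⁻¹, fun w hw hwU => ?_⟩
    rw [dist_zero_right]
    exact h.inv_far hT hε hwU hw
  · rw [eventually_atUH]
    refine ⟨10 / ρ + ρ⁻¹, fun w hw hwU => ?_⟩
    have h1 := h.inv_far hT h.pos hwU hw
    exact (h.box _ (mem_ball_zero_iff.2 h1)).1 (hT.maps hwU)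

lemma deriv_tendsto (h : Psi G ρ ψ A) : Tendsto (fun u => A u / u) (𝓝[UH] 0) (𝓝 (deriv A 0)) := by
  have h1 := hasDerivAt_iff_tendsto_slope.1
    (h.anal.differentiableAt (isOpen_ball.mem_nhds (mem_ball_self h.pos))).hasDerivAt
  have h2 : 𝓝[UH] (0 : ℂ) ≤ 𝓝[≠] 0 := by
    apply nhdsWithin_mono
    intro u hu
    exact jk_ne hu
  apply (h1.mono_left h2).congr
  intro u
  rw [slope_def_field, h.zero, sub_zero, sub_zero]

/-- Symmetric functions have symmetric derivatives. -/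
lemma symm_deriv {r : ℝ} {B : ℂ → ℂ} (hs : ∀ u ∈ ball (0 : ℂ) r, B (conj u) = conj (B u)) :
    ∀ u ∈ ball (0 : ℂ) r, deriv B (conj u) = conj (deriv B u) := by
  intro u hu
  have hmem : conj u ∈ ball (0 : ℂ) r := by
    rw [mem_ball_zero_iff, RCLike.norm_conj, ← mem_ball_zero_iff]
    exact hu
  have h1 : deriv B (conj u) = deriv (fun v => conj (B (conj v))) (conj u) := by
    apply Filter.EventuallyEq.deriv_eq
    filter_upwards [isOpen_ball.mem_nhds hmem] with v hv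
    rw [hs v hv, Complex.conj_conj]
  have h2 := congrFun (deriv_conj_conj (𝕜 := ℂ) (f := B)) (conj u)
  simp only [Function.comp, Complex.conj_conj] at h2
  rw [h1]
  exact h2

lemma deriv_real (h : Psi G ρ ψ A) : ((deriv A 0).re : ℂ) = deriv A 0 := by
  have h1 := symm_deriv h.symm 0 (mem_ball_self h.pos)
  rw [map_zero] at h1
  exact (Complex.conj_eq_iff_re.1 h1.symm)

/-- **Two domains.** -/
theorem quot (h : Psi G ρ ψ A) (h' : Psi G' ρ' ψ' A') (hsub : G' ⊆ G) {T : ℂ → ℂ}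
    (hT : PInv G ψ T) :
    Hyd (ψ '' G') (fun w => ψ' (T w)) ((deriv A 0).re - (deriv A' 0).re) := by
  have hTG' : MapsTo T (ψ '' G') G' := by
    rintro _ ⟨u, hu, rfl⟩
    rw [hT.left u (hsub hu)]
    exact hu
  have hsubU : ψ '' G' ⊆ UH := by
    rintro _ ⟨u, hu, rfl⟩
    exact h.bij.mapsTo (hsub hu)
  refine ⟨isOpen_image h'.isOpen (h.diff.mono hsub) (h.bij.injOn.mono hsub), hsubU,
    ⟨10 / ρ + (min ρ ρ')⁻¹, ?_⟩, h'.diff.comp (hT.diff.mono hsubU) hTG', ?_, ?_⟩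
  · intro w hw hwU
    have h1 := h.inv_far hT (lt_min h.pos h'.pos) hwU hw
    have h2 : T w ∈ UH := (h.box _ (mem_ball_zero_iff.2 (h1.trans_le (min_le_left _ _)))).1
      (hT.maps hwU)
    have h3 : T w ∈ G' := (h'.box _ (mem_ball_zero_iff.2 (h1.trans_le (min_le_right _ _)))).2 h2
    exact ⟨T w, h3, hT.right w hwU⟩
  · refine ⟨fun w hw => h'.bij.mapsTo (hTG' hw), ?_, ?_⟩
    · intro w hw v hv heq
      have h1 := h'.bij.injOn (hTG' hw) (hTG' hv) heq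
      rw [← hT.right w (hsubU hw), ← hT.right v (hsubU hv), h1]
    · intro w hw
      obtain ⟨u, hu, rfl⟩ := h'.bij.surjOn hw
      refine ⟨ψ u, ⟨u, hu, rfl⟩, ?_⟩
      simp only
      rw [hT.left u (hsub hu)]
  · have h1 := h.inv_tendsto hT
    have h2 : Tendsto (fun u => (u * ψ u) * (A' u / u - A u / u)) (𝓝[UH] 0)
        (𝓝 (-1 * (deriv A' 0 - deriv A 0))) :=
      h.tendsto_mul.mul (h'.deriv_tendsto.sub h.deriv_tendsto)
    have h3 : -1 * (deriv A' 0 - deriv A 0) = ((((deriv A 0).re - (deriv A' 0).re : ℝ)) : ℂ) := by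
      rw [Complex.ofReal_sub, h.deriv_real, h'.deriv_real]
      ring
    rw [h3] at h2
    apply (h2.comp h1).congr'
    have h4 := h1.eventually ((eventually_ball h.pos).and (eventually_ball h'.pos))
    filter_upwards [h4, eventually_mem_UH] with w hw hwU
    have hne : T w ≠ 0 := jk_ne hw.1.2
    simp only [Function.comp]
    have e1 : ψ' (T w) = -(T w)⁻¹ + A' (T w) := h'.eq _ hw.2.1 hw.2.2
    have e2 : w = -(T w)⁻¹ + A (T w) := by
      rw [← h.eq _ hw.1.1 hw.1.2, hT.right w hwU]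
    rw [hT.right w hwU, e1]
    have e3 : -(T w)⁻¹ + A' (T w) - w = A' (T w) - A (T w) := by
      linear_combination (-1 : ℂ) * e2
    rw [e3]
    field_simp

/-- monotonicity of the coefficient -/
theorem coef_mono (h : Psi G ρ ψ A) (h' : Psi G' ρ' ψ' A') (hsub : G' ⊆ G) :
    (deriv A' 0).re ≤ (deriv A 0).re := by
  obtain ⟨T, hT⟩ := h.exists_inv
  have := (h.quot h' hsub hT).nonneg
  linarith

theorem unique (h : Psi G ρ ψ A) (h' : Psi G ρ' ψ' A') : EqOn ψ ψ' G := by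
  obtain ⟨T, hT⟩ := h.exists_inv
  have h1 := h.quot h' subset_rfl hT
  rw [h.bij.image_eq] at h1
  intro u hu
  have h2 := (h1.unique Hyd.refl).1 (h.bij.mapsTo hu)
  simp only at h2
  rw [hT.left u hu] at h2
  exact h2.symm

end Psi

end Pool.Agent.H83.Lo
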