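import Mathlib
import Pool.Agent.H83.Lo.Psi2

set_option autoImplicit false

/-! Conformal maps with a pole at a flat boundary point: boundary behaviour along charts. -/

namespace Pool.Agent.H83.Lo

open Complex Metric Set Filter Topology
open scoped ComplexConjugate

variable {G : Set ℂ} {ρ : ℝ} {ψ A : ℂ → ℂ}

theorem Psi.im_tendsto (h : Psi G ρ ψ A) {p : ℂ} (hp : p ∉ G) (hp0 : p ≠ 0) :
    Tendsto (fun u => (ψ u).im) (𝓝[G] p) (𝓝 0) := by
  obtain ⟨T, hT⟩ := h.exists_inv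
  rw [Metric.tendsto_nhds]
  intro ε hε
  set M : ℝ := (‖p‖ / 2)⁻¹ + 10 / ρ with hM
  set K : Set ℂ := closedBall 0 M ∩ {w | ε ≤ w.im} with hK
  have hKc : IsCompact K :=
    (isCompact_closedBall 0 M).inter_right (isClosed_le continuous_const Complex.continuous_im)
  have hKU : K ⊆ UH := fun w hw => hε.trans_le hw.2
  have hTK : IsCompact (T '' K) := hKc.image_of_continuousOn (hT.diff.continuousOn.mono hKU)
  have hpT : p ∉ T '' K := by
    rintro ⟨w, hw, rfl⟩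
    exact hp (hT.maps (hKU hw))
  have h1 : ∀ᶠ u in 𝓝 p, u ∉ T '' K := hTK.isClosed.isOpen_compl.mem_nhds hpT
  have hpn : 0 < ‖p‖ := norm_pos_iff.2 hp0
  have h2 : ∀ᶠ u in 𝓝 p, ‖p‖ / 2 < ‖u‖ :=
    (continuous_norm.tendsto p).eventually (lt_mem_nhds (by linarith))
  filter_upwards [mem_nhdsWithin_of_mem_nhds h1, mem_nhdsWithin_of_mem_nhds h2,
    self_mem_nhdsWithin] with u hu1 hu2 huG
  have h3 : 0 < (ψ u).im := h.bij.mapsTo huG
  rw [dist_zero_right, Real.norm_eq_abs, abs_of_pos h3]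
  by_contra hcon
  push Not at hcon
  apply hu1
  refine ⟨ψ u, ⟨?_, hcon⟩, hT.left u huG⟩
  rw [mem_closedBall_zero_iff]
  have h4 := h.far u huG
  have h5 : ‖u‖⁻¹ ≤ (‖p‖ / 2)⁻¹ := inv_anti₀ (by positivity) hu2.le
  linarith

/-- A boundary chart. -/
structure Chart (G : Set ℂ) (κ : ℂ → ℂ) (r : ℝ) : Prop where
  diff : DifferentiableOn ℂ κ (ball 0 r ∩ UH)
  maps : MapsTo κ (ball 0 r ∩ UH) G
  lim : ∀ x : ℝ, |x| < r → Tendsto κ (𝓝[UH] (x : ℂ)) (𝓝 (κ x))
  bdry : ∀ x : ℝ, |x| < r → κ x ∉ G ∧ κ x ≠ 0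
  onto : ∀ x : ℝ, |x| < r → 𝓝[G] (κ x) ≤ map κ (𝓝[UH] (x : ℂ))

lemma mem_ball_real {r x : ℝ} : (x : ℂ) ∈ ball (0 : ℂ) r ↔ |x| < r := by
  rw [mem_ball_zero_iff, Complex.norm_real, Real.norm_eq_abs]

theorem Psi.chart (h : Psi G ρ ψ A) {κ : ℂ → ℂ} {r : ℝ} (hκ : Chart G κ r) :
    DifferentiableOn ℂ (extMap (fun ζ => ψ (κ ζ))) (ball 0 r) ∧
      (∀ ζ ∈ ball (0 : ℂ) r, extMap (fun ζ => ψ (κ ζ)) (conj ζ) =
        conj (extMap (fun ζ => ψ (κ ζ)) ζ)) ∧
      (∀ ζ ∈ ball (0 : ℂ) r, ζ.im = 0 → (extMap (fun ζ => ψ (κ ζ)) ζ).im = 0) := by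
  have h1 := flat (x := 0) (ρ := r) (h := fun ζ => ψ (κ ζ)) (by
    rw [Complex.ofReal_zero]
    exact h.diff.comp hκ.diff hκ.maps) (by
    rw [Complex.ofReal_zero]
    intro ζ hζ
    exact h.bij.mapsTo (hκ.maps hζ)) (by
    intro p hp
    rw [Complex.ofReal_zero, mem_ball_real] at hp
    have h2 := h.im_tendsto (hκ.bdry p hp).1 (hκ.bdry p hp).2
    apply h2.comp
    rw [tendsto_nhdsWithin_iff]
    refine ⟨hκ.lim p hp, ?_⟩
    filter_upwards [mem_nhdsWithin_of_mem_nhds (isOpen_ball.mem_nhds (mem_ball_real.2 hp)),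
      self_mem_nhdsWithin] with ζ h3 h4
    exact hκ.maps ⟨h3, h4⟩)
  rw [Complex.ofReal_zero] at h1
  exact h1

/-- The boundary function of a chart. -/
noncomputable def bf (ψ κ : ℂ → ℂ) (x : ℝ) : ℝ := (extMap (fun ζ => ψ (κ ζ)) x).re

lemma Psi.bf_eq (h : Psi G ρ ψ A) {κ : ℂ → ℂ} {r : ℝ} (hκ : Chart G κ r) {x : ℝ} (hx : |x| < r) :
    ((bf ψ κ x : ℝ) : ℂ) = extMap (fun ζ => ψ (κ ζ)) x := by
  have h1 := (h.chart hκ).2.2 x (mem_ball_real.2 hx) (Complex.ofReal_im x)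
  apply Complex.ext
  · rw [Complex.ofReal_re, bf]
  · rw [Complex.ofReal_im, h1]

theorem Psi.bf_deriv (h : Psi G ρ ψ A) {κ : ℂ → ℂ} {r : ℝ} (hκ : Chart G κ r) {x : ℝ}
    (hx : |x| < r) : ∃ a : ℝ, 0 < a ∧ deriv (extMap (fun ζ => ψ (κ ζ))) x = a ∧
      HasDerivAt (bf ψ κ) a x := by
  obtain ⟨h1, h2, h3⟩ := h.chart hκ
  have hsub : ball (x : ℂ) (r - |x|) ⊆ ball 0 r := by
    apply ball_subset_ball'
    rw [dist_zero_right, Complex.norm_real, Real.norm_eq_abs]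
    linarith
  obtain ⟨a, ha, ha2⟩ := deriv_pos_of_real (x := x) (ρ := r - |x|)
    (φ := extMap (fun ζ => ψ (κ ζ))) (by linarith) (h1.mono hsub) (fun z hz => h2 z (hsub hz))
    (fun z hz hz0 => by
      rw [extMap_upper hz0]
      exact h.bij.mapsTo (hκ.maps ⟨hsub hz, hz0⟩))
  refine ⟨a, ha, ha2, ?_⟩
  have h4 := (h1.differentiableAt (isOpen_ball.mem_nhds (mem_ball_real.2 hx))).hasDerivAt
  rw [ha2] at h4
  have h5 := h4.real_of_complex
  rwa [Complex.ofReal_re] at h5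

theorem Psi.bf_strictMono (h : Psi G ρ ψ A) {κ : ℂ → ℂ} {r : ℝ} (hκ : Chart G κ r) :
    StrictMonoOn (bf ψ κ) (Ioo (-r) r) := by
  apply strictMonoOn_of_deriv_pos (convex_Ioo _ _)
  · intro x hx
    obtain ⟨a, -, -, h2⟩ := h.bf_deriv hκ (abs_lt.2 hx)
    exact h2.continuousAt.continuousWithinAt
  · intro x hx
    rw [interior_Ioo] at hx
    obtain ⟨a, h1, -, h2⟩ := h.bf_deriv hκ (abs_lt.2 hx)
    rw [h2.deriv]
    exact h1

theorem Psi.bf_continuousOn (h : Psi G ρ ψ A) {κ : ℂ → ℂ} {r : ℝ} (hκ : Chart G κ r) :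
    ContinuousOn (bf ψ κ) (Ioo (-r) r) := by
  intro x hx
  obtain ⟨a, -, -, h2⟩ := h.bf_deriv hκ (abs_lt.2 hx)
  exact h2.continuousAt.continuousWithinAt

theorem Psi.bf_tendsto (h : Psi G ρ ψ A) {κ : ℂ → ℂ} {r : ℝ} (hκ : Chart G κ r) {x : ℝ}
    (hx : |x| < r) : Tendsto ψ (𝓝[G] (κ x)) (𝓝 (bf ψ κ x : ℂ)) := by
  have h1 := (h.chart hκ).1
  have h2 : Tendsto (extMap (fun ζ => ψ (κ ζ))) (𝓝[UH] (x : ℂ))
      (𝓝 (extMap (fun ζ => ψ (κ ζ)) x)) :=
    (h1.continuousOn.continuousAt (isOpen_ball.mem_nhds (mem_ball_real.2 hx))).tendsto.mono_left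
      nhdsWithin_le_nhds
  rw [← h.bf_eq hκ hx] at h2
  have h3 : Tendsto ψ (map κ (𝓝[UH] (x : ℂ))) (𝓝 (bf ψ κ x : ℂ)) := by
    rw [tendsto_map'_iff]
    apply h2.congr'
    filter_upwards [self_mem_nhdsWithin] with ζ hζ
    exact extMap_upper hζ
  exact h3.mono_left (hκ.onto x hx)

/-! ### From local to global along a boundary curve -/

theorem strictMonoOn_of_local {L : ℝ → ℝ} {a b : ℝ}
    (hL : ∀ s ∈ Ioo a b, ∃ δ > 0, StrictMonoOn L (Ioo (s - δ) (s + δ))) :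
    StrictMonoOn L (Ioo a b) := by
  intro s hs t ht hst
  choose! δ hδ hδ2 using hL
  have hcov : Icc s t ⊆ ⋃ i : Ioo a b, Ioo ((i : ℝ) - δ i) (i + δ i) := by
    intro x hx
    have hxI : x ∈ Ioo a b := ⟨hs.1.trans_le hx.1, hx.2.trans_lt ht.2⟩
    rw [mem_iUnion]
    refine ⟨⟨x, hxI⟩, ?_⟩
    have := hδ x hxI
    constructor <;> simp only <;> linarith
  obtain ⟨η, hη, hη2⟩ := lebesgue_number_lemma_of_metric isCompact_Icc
    (fun i : Ioo a b => isOpen_Ioo) hcov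
  obtain ⟨n, hn⟩ := exists_nat_gt ((t - s) / η)
  have hn0 : 0 < n := by
    rcases Nat.eq_zero_or_pos n with h | h
    · rw [h, Nat.cast_zero] at hn
      have : 0 < (t - s) / η := div_pos (by linarith) hη
      linarith
    · exact h
  have hn0' : (0 : ℝ) < n := Nat.cast_pos.2 hn0
  have hstep : (t - s) / n < η := by
    rw [div_lt_iff₀ hη] at hn
    rw [div_lt_iff₀ hn0']
    linarith
  have hstep0 : 0 < (t - s) / n := div_pos (by linarith) hn0'
  set u : ℕ → ℝ := fun k => s + k * ((t - s) / n) with hu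
  have hun : u n = t := by
    simp only [hu]
    field_simp
    ring
  have hu0 : u 0 = s := by simp [hu]
  have hlt : ∀ k < n, L (u k) < L (u (k + 1)) := by
    intro k hk
    have hk1 : ((k : ℝ) + 1) ≤ n := by exact_mod_cast hk
    have h0 : (0 : ℝ) ≤ k := Nat.cast_nonneg k
    have h1 : u (k + 1) = u k + (t - s) / n := by
      simp only [hu]; push_cast; ring
    have h2 : u k ∈ Icc s t := by
      constructor
      · have : 0 ≤ (k : ℝ) * ((t - s) / n) := by positivity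
        simp only [hu]; linarith
      · rw [← hun]
        simp only [hu]
        have : (k : ℝ) * ((t - s) / n) ≤ n * ((t - s) / n) := by
          apply mul_le_mul_of_nonneg_right _ hstep0.le
          linarith
        linarith
    obtain ⟨i, hi⟩ := hη2 (u k) h2
    apply hδ2 i i.2
    · apply hi
      exact mem_ball_self hη
    · apply hi
      rw [mem_ball, Real.dist_eq, h1, add_sub_cancel_left, abs_of_pos hstep0]
      exact hstep
    · linarith
  have hall : ∀ k, k < n → L (u 0) < L (u (k + 1)) := by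
    intro k
    induction k with
    | zero => intro h; exact hlt 0 h
    | succ k ih => intro h; exact (ih (by omega)).trans (hlt (k + 1) h)
  have := hall (n - 1) (by omega)
  rwa [Nat.sub_add_cancel hn0, hu0, hun] at this

/-- A local chart along a boundary curve. -/
structure LocChart (G : Set ℂ) (B : ℝ → ℂ) (s₀ δ : ℝ) (κ : ℂ → ℂ) (r : ℝ) (θ : ℝ → ℝ) : Prop where
  pos : 0 < δ
  chart : Chart G κ r
  mono : StrictMonoOn θ (Ioo (s₀ - δ) (s₀ + δ))
  cont : ContinuousOn θ (Ioo (s₀ - δ) (s₀ + δ))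
  maps : ∀ s ∈ Ioo (s₀ - δ) (s₀ + δ), |θ s| < r
  eq : ∀ s ∈ Ioo (s₀ - δ) (s₀ + δ), κ (θ s) = B s
  front : ∀ s ∈ Ioo (s₀ - δ) (s₀ + δ), (𝓝[G] (B s)).NeBot

theorem Psi.boundary (h : Psi G ρ ψ A) {B : ℝ → ℂ} {a b : ℝ}
    (hB : ∀ s ∈ Ioo a b, ∃ δ κ r θ, LocChart G B s δ κ r θ) :
    ∃ L : ℝ → ℝ, StrictMonoOn L (Ioo a b) ∧ ContinuousOn L (Ioo a b) ∧
      ∀ s ∈ Ioo a b, Tendsto ψ (𝓝[G] (B s)) (𝓝 (L s : ℂ)) := by
  set L : ℝ → ℝ := fun s => (limUnder (𝓝[G] (B s)) ψ).re with hL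
  have key : ∀ s₀ δ κ r θ, LocChart G B s₀ δ κ r θ → ∀ s ∈ Ioo (s₀ - δ) (s₀ + δ),
      L s = bf ψ κ (θ s) := by
    intro s₀ δ κ r θ hc s hs
    have h1 := h.bf_tendsto hc.chart (hc.maps s hs)
    rw [hc.eq s hs] at h1
    have := hc.front s hs
    simp only [hL]
    rw [h1.limUnder_eq, Complex.ofReal_re]
  refine ⟨L, ?_, ?_, ?_⟩
  · apply strictMonoOn_of_local
    intro s hs
    obtain ⟨δ, κ, r, θ, hc⟩ := hB s hs
    refine ⟨δ, hc.pos, ?_⟩
    intro u hu v hv huv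
    rw [key _ _ _ _ _ hc u hu, key _ _ _ _ _ hc v hv]
    exact h.bf_strictMono hc.chart (abs_lt.1 (hc.maps u hu)) (abs_lt.1 (hc.maps v hv))
      (hc.mono hu hv huv)
  · intro s hs
    obtain ⟨δ, κ, r, θ, hc⟩ := hB s hs
    apply ContinuousAt.continuousWithinAt
    have hmem : s ∈ Ioo (s - δ) (s + δ) := by
      have := hc.pos
      constructor <;> linarith
    have h1 : ContinuousAt (fun v => bf ψ κ (θ v)) s := by
      have h2 := (h.bf_continuousOn hc.chart).comp hc.cont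
        (fun v hv => abs_lt.1 (hc.maps v hv))
      exact h2.continuousAt (isOpen_Ioo.mem_nhds hmem)
    apply h1.congr
    filter_upwards [isOpen_Ioo.mem_nhds hmem] with v hv
    exact (key _ _ _ _ _ hc v hv).symm
  · intro s hs
    obtain ⟨δ, κ, r, θ, hc⟩ := hB s hs
    have hmem : s ∈ Ioo (s - δ) (s + δ) := by
      have := hc.pos
      constructor <;> linarith
    have h1 := h.bf_tendsto hc.chart (hc.maps s hmem)
    rw [hc.eq s hmem] at h1
    rw [key _ _ _ _ _ hc s hmem]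
    exact h1

/-- The flat chart. -/
theorem flat_chart {G : Set ℂ} {p e : ℂ} {r : ℝ} (he : e ≠ 0)
    (hG : ∀ ζ ∈ ball (0 : ℂ) r, (p + e * ζ ∈ G ↔ ζ ∈ UH))
    (h0 : ∀ x : ℝ, |x| < r → p + e * x ≠ 0) : Chart G (fun ζ => p + e * ζ) r := by
  refine ⟨by fun_prop, fun ζ hζ => (hG ζ hζ.1).2 hζ.2, ?_, ?_, ?_⟩
  · intro x hx
    have : Continuous (fun ζ : ℂ => p + e * ζ) := by fun_prop
    exact (this.tendsto _).mono_left nhdsWithin_le_nhds
  · intro x hx
    refine ⟨?_, h0 x hx⟩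
    intro h
    have := (hG x (mem_ball_real.2 hx)).1 h
    simp [mem_UH] at this
  · intro x hx
    have hc : Continuous (fun z : ℂ => (z - p) / e) := by fun_prop
    have h1 : Tendsto (fun z : ℂ => (z - p) / e) (𝓝[G] (p + e * x)) (𝓝[UH] (x : ℂ)) := by
      have e1 : (p + e * x - p) / e = x := by field_simp; ring
      rw [tendsto_nhdsWithin_iff]
      have h2 : Tendsto (fun z : ℂ => (z - p) / e) (𝓝 (p + e * x)) (𝓝 (x : ℂ)) := by
        have := hc.tendsto (p + e * x)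
        rwa [e1] at this
      refine ⟨h2.mono_left nhdsWithin_le_nhds, ?_⟩
      have h3 := (h2.mono_left (nhdsWithin_le_nhds (s := G))).eventually
        (isOpen_ball.mem_nhds (mem_ball_real.2 hx))
      filter_upwards [h3, self_mem_nhdsWithin] with z hz hzG
      apply (hG _ hz).1
      rwa [mul_div_cancel₀ _ he, add_sub_cancel]
    intro S hS
    have h4 := h1 hS
    rw [mem_map] at h4
    filter_upwards [h4] with z hz
    rw [mem_preimage, mem_preimage] at hz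
    rwa [mul_div_cancel₀ _ he, add_sub_cancel] at hz

end Pool.Agent.H83.Lo
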