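import Mathlib
import Pool.Agent.H83.Lo.Bdry

set_option autoImplicit false

/-! The chart at a corner: the power map from the upper half plane to a sector. -/

namespace Pool.Agent.H83.Lo

open Complex Metric Set Filter Topology
open scoped ComplexConjugate Real

/-- power map from the closed upper half plane to the sector of opening `β π` -/
noncomputable def pw (β : ℝ) (ζ : ℂ) : ℂ :=
  if ζ = 0 then 0 else Complex.exp (β * (Complex.log (-I * ζ) + I * (π / 2)))

/-- inverse of the power map -/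
noncomputable def qw (β : ℝ) (v : ℂ) : ℂ :=
  if v = 0 then 0 else
    Complex.exp (β⁻¹ * (Complex.log (Complex.exp (-(I * (β * π / 2))) * v) + I * (β * π / 2)))

lemma exp_polar (s φ : ℝ) : ((s : ℂ) * Complex.exp (φ * I) = 0) ↔ s = 0 := by
  rw [mul_eq_zero]
  constructor
  · rintro (h | h)
    · exact_mod_cast h
    · exact absurd h (Complex.exp_ne_zero _)
  · intro h
    left
    exact_mod_cast h

lemma log_polar {s φ : ℝ} (hs : 0 < s) (h1 : -π < φ) (h2 : φ ≤ π) :
    Complex.log (s * Complex.exp (φ * I)) = Real.log s + φ * I := by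
  have h3 : Complex.log (Complex.exp (φ * I)) = φ * I := by
    rw [Complex.log_exp]
    · simpa using h1
    · simpa using h2
  rw [Complex.log_ofReal_mul hs (Complex.exp_ne_zero _), h3]

lemma pw_polar {β s φ : ℝ} (hs : 0 < s) (h1 : 0 ≤ φ) (h2 : φ ≤ π) :
    pw β (s * Complex.exp (φ * I)) = (s ^ β : ℝ) * Complex.exp ((β * φ : ℝ) * I) := by
  have h0 : (s : ℂ) * Complex.exp (φ * I) ≠ 0 := by
    rw [Ne, exp_polar]; exact hs.ne'
  have hpi := Real.pi_pos
  rw [pw, if_neg h0]
  have e1 : -I * ((s : ℂ) * Complex.exp (φ * I)) = s * Complex.exp ((φ - π / 2 : ℝ) * I) := by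
    have : Complex.exp ((φ - π / 2 : ℝ) * I) = Complex.exp (φ * I) * (-I) := by
      rw [← Complex.exp_neg_pi_div_two_mul_I, ← Complex.exp_add]
      congr 1
      push_cast
      ring
    rw [this]
    ring
  rw [e1, log_polar hs (by linarith) (by linarith), Real.rpow_def_of_pos hs, Complex.ofReal_exp,
    ← Complex.exp_add]
  congr 1
  push_cast
  ring

lemma qw_polar {β s φ : ℝ} (_hβ : 0 < β) (hβ2 : β < 2) (hs : 0 < s) (h1 : 0 ≤ φ) (h2 : φ ≤ β * π) :
    qw β (s * Complex.exp (φ * I)) = (s ^ β⁻¹ : ℝ) * Complex.exp ((β⁻¹ * φ : ℝ) * I) := by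
  have h0 : (s : ℂ) * Complex.exp (φ * I) ≠ 0 := by
    rw [Ne, exp_polar]; exact hs.ne'
  have hpi := Real.pi_pos
  have hβπ : β * π < 2 * π := by nlinarith
  rw [qw, if_neg h0]
  have e1 : Complex.exp (-(I * (β * π / 2))) * ((s : ℂ) * Complex.exp (φ * I)) =
      s * Complex.exp ((φ - β * π / 2 : ℝ) * I) := by
    have : Complex.exp ((φ - β * π / 2 : ℝ) * I) =
        Complex.exp (-(I * (β * π / 2))) * Complex.exp (φ * I) := by
      rw [← Complex.exp_add]
      congr 1
      push_cast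
      ring
    rw [this]
    ring
  rw [e1, log_polar hs (by linarith) (by linarith), Real.rpow_def_of_pos hs, Complex.ofReal_exp,
    ← Complex.exp_add]
  congr 1
  push_cast
  ring

lemma exists_polar {ζ : ℂ} (hζ : 0 ≤ ζ.im) (_h0 : ζ ≠ 0) : ∃ φ : ℝ, 0 ≤ φ ∧ φ ≤ π ∧
    (ζ ∈ UH → 0 < φ ∧ φ < π) ∧ ζ = ‖ζ‖ * Complex.exp (φ * I) := by
  refine ⟨Complex.arg ζ, Complex.arg_nonneg_iff.2 hζ, Complex.arg_le_pi ζ, ?_,
    (Complex.norm_mul_exp_arg_mul_I ζ).symm⟩
  intro h
  have h1 : 0 < ζ.im := h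
  constructor
  · apply lt_of_le_of_ne (Complex.arg_nonneg_iff.2 hζ)
    intro h2
    rw [eq_comm, Complex.arg_eq_zero_iff] at h2
    linarith [h2.2]
  · apply lt_of_le_of_ne (Complex.arg_le_pi ζ)
    intro h2
    rw [Complex.arg_eq_pi_iff] at h2
    linarith [h2.2]

lemma polar_im_pos {s φ : ℝ} (hs : 0 < s) (h1 : 0 < φ) (h2 : φ < π) :
    (s : ℂ) * Complex.exp (φ * I) ∈ UH := by
  rw [mem_UH, Complex.im_ofReal_mul, Complex.exp_ofReal_mul_I_im]
  exact mul_pos hs (Real.sin_pos_of_pos_of_lt_pi h1 h2)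

lemma norm_polar {s φ : ℝ} (hs : 0 ≤ s) : ‖(s : ℂ) * Complex.exp (φ * I)‖ = s := by
  rw [norm_mul, Complex.norm_exp_ofReal_mul_I, mul_one, Complex.norm_real, Real.norm_eq_abs,
    abs_of_nonneg hs]

lemma norm_pw {β : ℝ} (hβ : 0 < β) {ζ : ℂ} (hζ : 0 ≤ ζ.im) : ‖pw β ζ‖ = ‖ζ‖ ^ β := by
  by_cases h0 : ζ = 0
  · rw [h0, pw, if_pos rfl, norm_zero, Real.zero_rpow hβ.ne']
  · obtain ⟨φ, h1, h2, -, h3⟩ := exists_polar hζ h0
    have hn : 0 < ‖ζ‖ := norm_pos_iff.2 h0
    rw [h3, pw_polar hn h1 h2, norm_polar (by positivity), ← h3]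

lemma pw_real_pos {β x : ℝ} (hx : 0 < x) : pw β (x : ℂ) = (x ^ β : ℝ) := by
  have h1 := pw_polar (β := β) hx le_rfl Real.pi_pos.le
  simpa using h1

lemma pw_real_neg {β x : ℝ} (hx : x < 0) :
    pw β (x : ℂ) = ((-x) ^ β : ℝ) * Complex.exp ((β * π : ℝ) * I) := by
  have h1 := pw_polar (β := β) (s := -x) (φ := π) (by linarith) Real.pi_pos.le le_rfl
  rw [Complex.exp_pi_mul_I] at h1
  rw [← h1]
  congr 1
  push_cast
  ring

lemma pw_zero (β : ℝ) : pw β 0 = 0 := by rw [pw, if_pos rfl]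

lemma negI_slit {ζ : ℂ} (hζ : 0 ≤ ζ.im) (h0 : ζ ≠ 0) : -I * ζ ∈ Complex.slitPlane := by
  rw [Complex.mem_slitPlane_iff]
  have e1 : (-I * ζ).re = ζ.im := by simp
  have e2 : (-I * ζ).im = -ζ.re := by simp
  rw [e1, e2]
  rcases hζ.lt_or_eq with h | h
  · exact Or.inl h
  · right
    intro h2
    apply h0
    apply Complex.ext
    · simpa using h2
    · simpa using h.symm

lemma pw_differentiableAt (β : ℝ) {ζ : ℂ} (hζ : 0 ≤ ζ.im) (h0 : ζ ≠ 0) :
    DifferentiableAt ℂ (pw β) ζ := by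
  have h1 : (fun z : ℂ => Complex.exp (β * (Complex.log (-I * z) + I * (π / 2)))) =ᶠ[𝓝 ζ] pw β := by
    filter_upwards [isOpen_ne.mem_nhds h0] with z hz
    rw [pw, if_neg hz]
  apply DifferentiableAt.congr_of_eventuallyEq _ h1.symm
  apply DifferentiableAt.cexp
  apply DifferentiableAt.const_mul
  apply DifferentiableAt.add_const
  exact DifferentiableAt.clog (differentiableAt_id.const_mul _) (negI_slit hζ h0)

lemma pw_tendsto {β : ℝ} (hβ : 0 < β) (x : ℝ) :
    Tendsto (pw β) (𝓝[UH] (x : ℂ)) (𝓝 (pw β x)) := by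
  by_cases hx : x = 0
  · rw [hx, Complex.ofReal_zero, pw_zero, tendsto_zero_iff_norm_tendsto_zero]
    have h1 : Tendsto (fun ζ : ℂ => ‖ζ‖ ^ β) (𝓝[UH] 0) (𝓝 0) := by
      have h2 : ContinuousAt (fun ζ : ℂ => ‖ζ‖ ^ β) 0 :=
        continuous_norm.continuousAt.rpow_const (Or.inr hβ.le)
      have h3 := h2.tendsto
      simp only [norm_zero, Real.zero_rpow hβ.ne'] at h3
      exact h3.mono_left nhdsWithin_le_nhds
    apply h1.congr'
    filter_upwards [self_mem_nhdsWithin] with ζ hζ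
    rw [norm_pw hβ (le_of_lt hζ)]
  · have h1 := (pw_differentiableAt β (ζ := (x : ℂ)) (by simp) (by exact_mod_cast hx)).continuousAt
    exact h1.tendsto.mono_left nhdsWithin_le_nhds

/-- A sector of opening `β π` at the boundary point `p`, in the direction `e`. -/
structure SectorAt (G : Set ℂ) (p e : ℂ) (β r : ℝ) : Prop where
  ne : e ≠ 0
  pos : 0 < β
  lt : β < 2
  mem : ∀ s φ : ℝ, 0 < s → s < r → 0 < φ → φ < β * π → p + e * (s * Complex.exp (φ * I)) ∈ G
  out : ∀ z ∈ G, ‖(z - p) / e‖ < r → ∃ φ : ℝ, 0 < φ ∧ φ < β * π ∧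
    (z - p) / e = ‖(z - p) / e‖ * Complex.exp (φ * I)
  bd0 : ∀ s : ℝ, 0 ≤ s → s < r → p + e * s ∉ G ∧ p + e * s ≠ 0
  bd1 : ∀ s : ℝ, 0 ≤ s → s < r → p + e * (s * Complex.exp ((β * π : ℝ) * I)) ∉ G ∧
    p + e * (s * Complex.exp ((β * π : ℝ) * I)) ≠ 0

lemma qw_norm {β : ℝ} (hβ : 0 < β) (hβ2 : β < 2) {s φ : ℝ} (hs : 0 ≤ s) (h1 : 0 ≤ φ)
    (h2 : φ ≤ β * π) : ‖qw β (s * Complex.exp (φ * I))‖ = s ^ β⁻¹ := by
  rcases hs.eq_or_lt with h | h
  · rw [← h, Complex.ofReal_zero, zero_mul, qw, if_pos rfl, norm_zero,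
      Real.zero_rpow (inv_ne_zero hβ.ne')]
  · rw [qw_polar hβ hβ2 h h1 h2, norm_polar (by positivity)]

lemma qw_continuousAt {β : ℝ} {v : ℂ} (hv : v ≠ 0)
    (hv2 : Complex.exp (-(I * (β * π / 2))) * v ∈ Complex.slitPlane) : ContinuousAt (qw β) v := by
  have h1 : (fun v : ℂ => Complex.exp (β⁻¹ * (Complex.log
      (Complex.exp (-(I * (β * π / 2))) * v) + I * (β * π / 2)))) =ᶠ[𝓝 v] qw β := by
    filter_upwards [isOpen_ne.mem_nhds hv] with z hz
    rw [qw, if_neg hz]
  apply ContinuousAt.congr _ h1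
  apply ContinuousAt.cexp
  apply ContinuousAt.mul continuousAt_const
  apply ContinuousAt.add _ continuousAt_const
  exact ContinuousAt.clog (continuousAt_const.mul continuousAt_id) hv2

lemma slit_of_polar {s θ : ℝ} (hs : 0 < s) (h1 : -π < θ) (h2 : θ < π) :
    (s : ℂ) * Complex.exp (θ * I) ∈ Complex.slitPlane := by
  rw [Complex.mem_slitPlane_iff_arg]
  constructor
  · rw [Complex.exp_mul_I, Complex.arg_mul_cos_add_sin_mul_I hs ⟨h1, h2.le⟩]
    exact h2.ne
  · rw [Ne, exp_polar]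
    exact hs.ne'

/-- The chart at a sector. -/
theorem sector_chart {G : Set ℂ} {p e : ℂ} {β r : ℝ} (hr : 0 < r) (h : SectorAt G p e β r) :
    Chart G (fun ζ => p + e * pw β ζ) (r ^ β⁻¹) := by
  have hβ := h.pos
  have hβ2 := h.lt
  have he := h.ne
  have hpi := Real.pi_pos
  have hrβ : ∀ s : ℝ, 0 ≤ s → s < r ^ β⁻¹ → s ^ β < r := by
    intro s hs hs2
    calc s ^ β < (r ^ β⁻¹) ^ β := Real.rpow_lt_rpow hs hs2 hβ
      _ = r := by rw [← Real.rpow_mul hr.le, inv_mul_cancel₀ hβ.ne', Real.rpow_one]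
  have hinv : ∀ s : ℝ, 0 ≤ s → (s ^ β) ^ β⁻¹ = s := by
    intro s hs
    rw [← Real.rpow_mul hs, mul_inv_cancel₀ hβ.ne', Real.rpow_one]
  have hinv' : ∀ s : ℝ, 0 ≤ s → (s ^ β⁻¹) ^ β = s := by
    intro s hs
    rw [← Real.rpow_mul hs, inv_mul_cancel₀ hβ.ne', Real.rpow_one]
  refine ⟨?_, ?_, ?_, ?_, ?_⟩
  · intro ζ hζ
    apply DifferentiableAt.differentiableWithinAt
    apply DifferentiableAt.const_add
    apply DifferentiableAt.const_mul
    exact pw_differentiableAt β (le_of_lt hζ.2) (jk_ne hζ.2)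
  · intro ζ hζ
    obtain ⟨φ, h1, h2, h3, h4⟩ := exists_polar (le_of_lt hζ.2) (jk_ne hζ.2)
    obtain ⟨h5, h6⟩ := h3 hζ.2
    have hn : 0 < ‖ζ‖ := norm_pos_iff.2 (jk_ne hζ.2)
    have h7 : pw β ζ = (‖ζ‖ ^ β : ℝ) * Complex.exp ((β * φ : ℝ) * I) := by
      conv_lhs => rw [h4]
      exact pw_polar hn h1 h2
    simp only
    rw [h7]
    apply h.mem _ _ (by positivity) (hrβ _ hn.le (mem_ball_zero_iff.1 hζ.1)) (by positivity)
    gcongr
  · intro x hx
    exact ((pw_tendsto hβ x).const_mul e).const_add p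
  · intro x hx
    rcases lt_trichotomy x 0 with h0 | h0 | h0
    · rw [pw_real_neg h0]
      rw [abs_of_neg h0] at hx
      exact h.bd1 _ (Real.rpow_nonneg (by linarith) _) (hrβ _ (by linarith) hx)
    · rw [h0, Complex.ofReal_zero, pw_zero]
      have := h.bd0 0 le_rfl hr
      simpa using this
    · rw [pw_real_pos h0]
      rw [abs_of_pos h0] at hx
      exact h.bd0 _ (by positivity) (hrβ _ h0.le hx)
  · intro x hx
    -- the boundary value of the inverse
    set v₀ : ℂ := pw β x with hv₀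
    have hv₀r : ‖v₀‖ < r := by
      rw [hv₀, norm_pw hβ (by simp), Complex.norm_real, Real.norm_eq_abs]
      exact hrβ _ (abs_nonneg x) hx
    set S : Set ℂ := {v | ∃ s φ : ℝ, 0 < s ∧ 0 < φ ∧ φ < β * π ∧
      v = s * Complex.exp (φ * I)} with hS
    have hqlim : Tendsto (qw β) (𝓝[S] v₀) (𝓝 (x : ℂ)) := by
      rcases lt_trichotomy x 0 with h0 | h0 | h0
      · have hpos : 0 < (-x) ^ β := Real.rpow_pos_of_pos (by linarith) _
        have hv : v₀ = ((-x) ^ β : ℝ) * Complex.exp ((β * π : ℝ) * I) := pw_real_neg h0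
        have hv0 : v₀ ≠ 0 := by
          rw [hv, Ne, exp_polar]
          exact hpos.ne'
        have e1 : Complex.exp (-(I * (β * π / 2))) * v₀ =
            ((-x) ^ β : ℝ) * Complex.exp ((β * π / 2 : ℝ) * I) := by
          have : Complex.exp ((β * π / 2 : ℝ) * I) =
              Complex.exp (-(I * (β * π / 2))) * Complex.exp ((β * π : ℝ) * I) := by
            rw [← Complex.exp_add]
            congr 1
            push_cast
            ring
          rw [this, hv]
          ring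
        have hc : ContinuousAt (qw β) v₀ := by
          apply qw_continuousAt hv0
          rw [e1]
          apply slit_of_polar hpos
          · have : 0 < β * π := by positivity
            linarith
          · nlinarith
        have hval : qw β v₀ = x := by
          rw [hv, qw_polar hβ hβ2 hpos (by positivity) le_rfl, hinv _ (by linarith),
            inv_mul_cancel_left₀ hβ.ne', Complex.exp_pi_mul_I]
          push_cast
          ring
        have := hc.tendsto
        rw [hval] at this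
        exact this.mono_left nhdsWithin_le_nhds
      · have hv : v₀ = 0 := by rw [hv₀, h0, Complex.ofReal_zero, pw_zero]
        rw [hv, h0, Complex.ofReal_zero, tendsto_zero_iff_norm_tendsto_zero]
        have h1 : Tendsto (fun v : ℂ => ‖v‖ ^ β⁻¹) (𝓝[S] 0) (𝓝 0) := by
          have h2 : ContinuousAt (fun v : ℂ => ‖v‖ ^ β⁻¹) 0 :=
            continuous_norm.continuousAt.rpow_const (Or.inr (inv_nonneg.2 hβ.le))
          have h3 := h2.tendsto
          simp only [norm_zero, Real.zero_rpow (inv_ne_zero hβ.ne')] at h3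
          exact h3.mono_left nhdsWithin_le_nhds
        apply h1.congr'
        filter_upwards [self_mem_nhdsWithin] with v hvS
        obtain ⟨s, φ, hs, h4, h5, rfl⟩ := hvS
        rw [qw_norm hβ hβ2 hs.le h4.le h5.le, norm_polar hs.le]
      · have hpos : 0 < x ^ β := Real.rpow_pos_of_pos h0 _
        have hv : v₀ = (x ^ β : ℝ) := pw_real_pos h0
        have hv' : v₀ = ((x ^ β : ℝ) : ℂ) * Complex.exp ((0 : ℝ) * I) := by
          rw [hv]; simp
        have hv0 : v₀ ≠ 0 := by
          rw [hv]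
          exact_mod_cast hpos.ne'
        have e1 : Complex.exp (-(I * (β * π / 2))) * v₀ =
            (x ^ β : ℝ) * Complex.exp ((-(β * π / 2) : ℝ) * I) := by
          have : Complex.exp ((-(β * π / 2) : ℝ) * I) =
              Complex.exp (-(I * (β * π / 2))) := by
            congr 1
            push_cast
            ring
          rw [this, hv]
          ring
        have hc : ContinuousAt (qw β) v₀ := by
          apply qw_continuousAt hv0
          rw [e1]
          apply slit_of_polar hpos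
          · nlinarith
          · have : 0 < β * π := by positivity
            linarith
        have hval : qw β v₀ = x := by
          rw [hv', qw_polar hβ hβ2 hpos le_rfl (by positivity), hinv _ h0.le]
          simp
        have := hc.tendsto
        rw [hval] at this
        exact this.mono_left nhdsWithin_le_nhds
    -- the local inverse
    have hco : Tendsto (fun z : ℂ => (z - p) / e) (𝓝[G] (p + e * v₀)) (𝓝[S] v₀) := by
      have hc : Continuous (fun z : ℂ => (z - p) / e) := by fun_prop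
      have h2 : Tendsto (fun z : ℂ => (z - p) / e) (𝓝 (p + e * v₀)) (𝓝 v₀) := by
        have h3 := hc.tendsto (p + e * v₀)
        have e1 : (p + e * v₀ - p) / e = v₀ := by field_simp; ring
        rwa [e1] at h3
      rw [tendsto_nhdsWithin_iff]
      refine ⟨h2.mono_left nhdsWithin_le_nhds, ?_⟩
      have h4 : ∀ᶠ z in 𝓝[G] (p + e * v₀), ‖(z - p) / e‖ < r :=
        (h2.norm.mono_left nhdsWithin_le_nhds).eventually (gt_mem_nhds hv₀r)
      filter_upwards [h4, self_mem_nhdsWithin] with z hz hzG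
      obtain ⟨φ, h5, h6, h7⟩ := h.out z hzG hz
      refine ⟨‖(z - p) / e‖, φ, ?_, h5, h6, h7⟩
      rw [norm_pos_iff]
      intro h8
      have h9 : z = p + e * ((0 : ℝ) : ℂ) := by
        rw [div_eq_zero_iff] at h8
        rcases h8 with h8 | h8
        · rw [Complex.ofReal_zero, mul_zero, add_zero]
          exact sub_eq_zero.1 h8
        · exact absurd h8 he
      exact (h.bd0 0 le_rfl hr).1 (h9 ▸ hzG)
    have hqS : ∀ v ∈ S, qw β v ∈ UH ∧ pw β (qw β v) = v := by
      rintro _ ⟨s, φ, hs, h4, h5, rfl⟩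
      have h6 : 0 < s ^ β⁻¹ := Real.rpow_pos_of_pos hs _
      have h7 : β⁻¹ * φ < π := by
        rw [inv_mul_lt_iff₀ hβ]
        exact h5
      have h8 : 0 < β⁻¹ * φ := by positivity
      rw [qw_polar hβ hβ2 hs h4.le h5.le]
      refine ⟨polar_im_pos h6 h8 h7, ?_⟩
      rw [pw_polar h6 h8.le h7.le, hinv' _ hs.le, mul_inv_cancel_left₀ hβ.ne']
    have hqS' : Tendsto (qw β) (𝓝[S] v₀) (𝓝[UH] (x : ℂ)) := by
      rw [tendsto_nhdsWithin_iff]
      refine ⟨hqlim, ?_⟩
      filter_upwards [self_mem_nhdsWithin] with v hv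
      exact (hqS v hv).1
    have hall := hqS'.comp hco
    intro V hV
    have h4 := hall hV
    rw [mem_map] at h4
    have h5 : ∀ᶠ z in 𝓝[G] (p + e * v₀), (z - p) / e ∈ S := by
      have := hco.eventually self_mem_nhdsWithin
      exact this
    filter_upwards [h4, h5] with z hz hzS
    rw [mem_preimage, mem_preimage] at hz
    simp only [Function.comp] at hz
    rw [(hqS _ hzS).2, mul_div_cancel₀ _ he, add_sub_cancel] at hz
    exact hz

end Pool.Agent.H83.Lo
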