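import Mathlib
import Pool.Agent.H83.Lo.Sector
import Pool.Agent.Q1.M4.Geo7
import Pool.Agent.Q1.M4.Prim

set_option autoImplicit false

/-! The conformal map of a good polygon `Om P.Q x y` onto the upper half plane with a pole at the
flat vertex `0`: existence and boundary behaviour. -/

namespace Pool.Agent.H83.Lo

open Complex Metric Set Filter Topology
open scoped ComplexConjugate Real
open Pool.Agent.Q1.M4

variable (P : PType) (x y : ℤ → ℝ)

/-- the base point: vertex `0` -/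
noncomputable def bpt : ℂ := pt x y (P.vert 0)

/-- the direction of the side `0` -/
noncomputable def bdir : ℂ := udir (P.side 0).2

/-- the polygon in normalised coordinates -/
def nG : Set ℂ := (fun u => bpt P x y + bdir P * u) ⁻¹' Om P.Q x y

/-- the normalised coordinate -/
noncomputable def nco (z : ℂ) : ℂ := (z - bpt P x y) / bdir P

/-- the boundary curve in normalised coordinates -/
noncomputable def bcur (s : ℝ) : ℂ := nco P x y (P.sidePt x y ⌊s⌋₊ (s - ⌊s⌋₊))

variable {P : PType} {x y : ℤ → ℝ}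

lemma bdir_ne : bdir P ≠ 0 := udir_ne _

lemma nco_inv (z : ℂ) : bpt P x y + bdir P * nco P x y z = z := by
  unfold nco
  rw [mul_div_cancel₀ _ bdir_ne, add_sub_cancel]

lemma nco_inv' (u : ℂ) : nco P x y (bpt P x y + bdir P * u) = u := by
  unfold nco
  rw [add_sub_cancel_left, mul_div_cancel_left₀ _ bdir_ne]

lemma mem_nG {u : ℂ} : u ∈ nG P x y ↔ bpt P x y + bdir P * u ∈ Om P.Q x y := Iff.rfl

lemma nco_mem {z : ℂ} : nco P x y z ∈ nG P x y ↔ z ∈ Om P.Q x y := by
  rw [mem_nG, nco_inv]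

lemma continuous_nco : Continuous (nco P x y) := by
  unfold nco
  fun_prop

lemma nco_add (p e v : ℂ) : nco P x y (p + e * v) = nco P x y p + e / bdir P * v := by
  unfold nco
  field_simp
  ring

lemma isOpen_nG : IsOpen (nG P x y) := by
  apply (isOpen_Om P.Q x y).preimage
  fun_prop

lemma nG_eq : nG P x y = nco P x y '' Om P.Q x y := by
  ext u
  constructor
  · intro hu
    exact ⟨_, hu, nco_inv' u⟩
  · rintro ⟨z, hz, rfl⟩
    exact nco_mem.2 hz

lemma isPreconnected_nG (hx : StrictMono x) (hy : StrictMono y) : IsPreconnected (nG P x y) := by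
  rw [nG_eq]
  exact (isPreconnected_Om hx hy P.good.conn).image _ continuous_nco.continuousOn

lemma hasSqrt_of_primitive {U : Set ℂ} (hU : IsOpen U) (hc : IsPreconnected U)
    (hp : ∀ f : ℂ → ℂ, DifferentiableOn ℂ f U → ∃ Φ : ℂ → ℂ, ∀ z ∈ U, HasDerivAt Φ (f z) z) :
    HasSqrt U := by
  intro f hf hf0
  by_cases hne : U.Nonempty
  · obtain ⟨z₀, hz₀⟩ := hne
    have hfd : DifferentiableOn ℂ (deriv f) U := hf.deriv hU
    obtain ⟨Φ, hΦ⟩ := hp (fun z => deriv f z / f z) (hfd.div hf hf0)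
    have hk : ∀ z ∈ U, HasDerivAt (fun w => f w * Complex.exp (-Φ w)) 0 z := by
      intro z hz
      have h1 := (hf.differentiableAt (hU.mem_nhds hz)).hasDerivAt
      have h2 := h1.mul ((hΦ z hz).neg.cexp)
      have h3 : deriv f z * Complex.exp (-Φ z) + f z * (Complex.exp (-Φ z) *
          -(deriv f z / f z)) = 0 := by
        have h4 : f z * (deriv f z / f z) = deriv f z := mul_div_cancel₀ _ (hf0 z hz)
        linear_combination (-Complex.exp (-Φ z)) * h4
      exact h3 ▸ h2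
    obtain ⟨c, hc2⟩ := hU.exists_is_const_of_deriv_eq_zero hc
      (fun z hz => (hk z hz).differentiableAt.differentiableWithinAt)
      (fun z hz => (hk z hz).deriv)
    have hc0 : c ≠ 0 := by
      rw [← hc2 z₀ hz₀]
      exact mul_ne_zero (hf0 z₀ hz₀) (Complex.exp_ne_zero _)
    obtain ⟨d, hd⟩ := IsAlgClosed.exists_pow_nat_eq c two_pos
    refine ⟨fun z => d * Complex.exp (Φ z / 2), ?_, ?_⟩
    · intro z hz
      exact (((hΦ z hz).differentiableAt.div_const 2).cexp.const_mul d).differentiableWithinAt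
    · intro z hz
      simp only
      rw [mul_pow, hd, ← Complex.exp_nat_mul, ← hc2 z hz, mul_assoc, ← Complex.exp_add]
      have : -Φ z + ((2 : ℕ) : ℂ) * (Φ z / 2) = 0 := by push_cast; ring
      rw [this, Complex.exp_zero, mul_one]
  · exact ⟨0, fun z hz => absurd ⟨z, hz⟩ hne, fun z hz => absurd ⟨z, hz⟩ hne⟩

lemma hasSqrt_Om (hx : StrictMono x) (hy : StrictMono y) : HasSqrt (Om P.Q x y) :=
  hasSqrt_of_primitive (isOpen_Om _ _ _) (isPreconnected_Om hx hy P.good.conn)
    (fun _ hf => P.good.exists_primitive hx hy hf)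

lemma hasSqrt_nG (hx : StrictMono x) (hy : StrictMono y) : HasSqrt (nG P x y) := by
  intro f hf hf0
  have hco : DifferentiableOn ℂ (nco P x y) (Om P.Q x y) := by
    unfold nco
    fun_prop
  obtain ⟨h, hh, hh2⟩ := hasSqrt_Om hx hy (fun z => f (nco P x y z))
    (hf.comp hco (fun z hz => nco_mem.2 hz)) (fun z hz => hf0 _ (nco_mem.2 hz))
  refine ⟨fun u => h (bpt P x y + bdir P * u), ?_, ?_⟩
  · apply hh.comp (by fun_prop)
    intro u hu
    exact hu
  · intro u hu
    simp only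
    rw [hh2 _ hu, nco_inv']

/-- **Existence of the conformal map of a good polygon with pole at the vertex `0`.** -/
theorem exists_psi_nG (hx : StrictMono x) (hy : StrictMono y) {ρ : ℝ} (hρ : 0 < ρ)
    (hbox : ∀ u ∈ ball (0 : ℂ) ρ, (u ∈ nG P x y ↔ u ∈ UH)) :
    ∃ ψ A : ℂ → ℂ, Psi (nG P x y) ρ ψ A :=
  exists_psi hρ isOpen_nG (isPreconnected_nG hx hy) (hasSqrt_nG hx hy) hbox

/-! ### Flat points -/

/-- flat vertices -/
theorem flat_vertex (hx : StrictMono x) (hy : StrictMono y) {n : ℕ}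
    (hn : (P.side (n + 1)).2 = (P.side n).2) :
    ∃ r > 0, ∀ ζ ∈ ball (0 : ℂ) r,
      (pt x y (P.vert (n + 1)) + udir (P.side (n + 1)).2 * ζ ∈ Om P.Q x y ↔ ζ ∈ UH) := by
  obtain ⟨r, hr, h1, h2⟩ := P.sector hx hy n
  refine ⟨r, hr, fun ζ hζ => ?_⟩
  rw [mem_ball_zero_iff] at hζ
  set α : ℝ := (P.side (n + 1)).2 * (π / 2) with hα
  have hα1 : ((P.side n).2 : ℝ) * (π / 2) + π = α + π := by rw [hα, hn]
  have hu : udir (P.side (n + 1)).2 = Complex.exp (α * I) := udir_eq_exp _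
  rw [hα1] at h2
  constructor
  · intro hz
    have hd : dist (pt x y (P.vert (n + 1)) + udir (P.side (n + 1)).2 * ζ)
        (pt x y (P.vert (n + 1))) = ‖ζ‖ := by
      rw [dist_eq_norm, add_sub_cancel_left, norm_mul, norm_udir, one_mul]
    obtain ⟨φ, hφ, h3⟩ := h2 _ hz (by rw [hd]; exact hζ)
    rw [hd, add_right_inj, hu] at h3
    have h4 : ζ = ‖ζ‖ * Complex.exp ((φ - α : ℝ) * I) := by
      have h5 : Complex.exp ((φ - α : ℝ) * I) = Complex.exp (φ * I) / Complex.exp (α * I) := by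
        rw [← Complex.exp_sub]
        congr 1
        push_cast
        ring
      rw [h5, mul_div_assoc', eq_div_iff (Complex.exp_ne_zero _)]
      rw [← h3]
      ring
    have hζ0 : ζ ≠ 0 := by
      rintro rfl
      have hf := P.sidePt_mem_frontier hx hy (n + 1) (t := 0) (by simp)
      rw [P.sidePt_zero, (isOpen_Om _ _ _).frontier_eq] at hf
      apply hf.2
      rw [mul_zero, add_zero] at hz
      exact hz
    rw [h4]
    exact polar_im_pos (norm_pos_iff.2 hζ0) (by linarith [hφ.1]) (by linarith [hφ.2])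
  · intro hz
    obtain ⟨φ, -, -, h5, h6⟩ := exists_polar (le_of_lt hz) (jk_ne hz)
    obtain ⟨h7, h8⟩ := h5 hz
    have h9 := (h1 ‖ζ‖ ⟨norm_pos_iff.2 (jk_ne hz), hζ⟩).1 (α + φ) ⟨by linarith, by
      rw [hα1]; linarith⟩
    have h10 : udir (P.side (n + 1)).2 * ζ = ‖ζ‖ * Complex.exp ((α + φ : ℝ) * I) := by
      rw [hu]
      conv_lhs => rw [h6]
      have : Complex.exp ((α + φ : ℝ) * I) = Complex.exp (α * I) * Complex.exp (φ * I) := by
        rw [← Complex.exp_add]
        congr 1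
        push_cast
        ring
      rw [this]
      ring
    rw [h10]
    exact h9

/-- interior points of the sides -/
theorem flat_side (hx : StrictMono x) (hy : StrictMono y) (n : ℕ) {t : ℝ} (ht0 : 0 < t)
    (ht1 : t < 1) : ∃ r > 0, ∀ ζ ∈ ball (0 : ℂ) r,
      (P.sidePt x y n t + udir (P.side n).2 * ζ ∈ Om P.Q x y ↔ ζ ∈ UH) := by
  obtain ⟨r, hr, h⟩ := P.half_disc hx hy n ht0 ht1
  refine ⟨r, hr, fun ζ hζ => ?_⟩
  have h1 := (h (P.sidePt x y n t + udir (P.side n).2 * ζ) (by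
    rw [mem_ball, dist_eq_norm, add_sub_cancel_left, norm_mul, norm_udir, one_mul]
    exact mem_ball_zero_iff.1 hζ)).1
  rw [h1, add_sub_cancel_left, mul_div_cancel_left₀ _ (udir_ne _)]
  exact Iff.rfl

lemma side_N (P : PType) : (P.side P.N).2 = (P.side 0).2 + 4 := by
  have : P.side P.N = (P.s0.1, P.s0.2 + 4) := P.period
  rw [this]
  rfl

/-- The box at a flat vertex `0`. -/
theorem exists_box (hx : StrictMono x) (hy : StrictMono y)
    (hflat : (P.side 0).2 % 4 = (P.side (P.N - 1)).2 % 4) :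
    ∃ ρ > 0, ∀ u ∈ ball (0 : ℂ) ρ, (u ∈ nG P x y ↔ u ∈ UH) := by
  have hN : 0 < P.N := P.hm0.trans P.hmN
  have hN1 : P.N - 1 + 1 = P.N := Nat.sub_add_cancel hN
  have h0 := side_N P
  have ht := P.turn (P.N - 1)
  rw [hN1] at ht
  have h1 : (P.side (P.N - 1 + 1)).2 = (P.side (P.N - 1)).2 := by
    rw [hN1]
    omega
  obtain ⟨r, hr, h2⟩ := flat_vertex hx hy h1
  refine ⟨r, hr, fun u hu => ?_⟩
  rw [← h2 u hu, hN1, P.vert_N, h0, udir_add_four]
  rfl

/-! ### The boundary curve avoids the base point -/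

lemma sidePt_ne_base (hx : StrictMono x) (hy : StrictMono y) {n : ℕ} (hn : n < P.N) {t : ℝ}
    (ht : t ∈ Icc (0 : ℝ) 1) (h0 : n = 0 → 0 < t) (h1 : n + 1 = P.N → t < 1) :
    P.sidePt x y n t ≠ bpt P x y := by
  have hN : 0 < P.N := P.hm0.trans P.hmN
  unfold bpt
  rcases eq_or_ne t 0 with rfl | ht0
  · rw [P.sidePt_zero]
    apply P.pt_vert_ne hx hy hn hN
    intro h
    exact lt_irrefl _ (h0 h)
  · rcases eq_or_ne t 1 with rfl | ht1
    · rw [P.sidePt_one]
      have : n + 1 ≠ P.N := fun h => lt_irrefl _ (h1 h)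
      exact P.pt_vert_ne hx hy (by omega) hN (by omega)
    · rw [P.sidePt_eq]
      exact open_side_ne hx hy _ ⟨lt_of_le_of_ne ht.1 (Ne.symm ht0), lt_of_le_of_ne ht.2 ht1⟩ _

lemma sidePt_notMem (hx : StrictMono x) (hy : StrictMono y) (n : ℕ) {t : ℝ}
    (ht : t ∈ Icc (0 : ℝ) 1) : P.sidePt x y n t ∉ Om P.Q x y := by
  have hf := P.sidePt_mem_frontier hx hy n ht
  rw [(isOpen_Om _ _ _).frontier_eq] at hf
  exact hf.2

lemma neBot_nco (hx : StrictMono x) (hy : StrictMono y) (n : ℕ) {t : ℝ}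
    (ht : t ∈ Icc (0 : ℝ) 1) : (𝓝[nG P x y] (nco P x y (P.sidePt x y n t))).NeBot := by
  rw [← mem_closure_iff_nhdsWithin_neBot, nG_eq]
  have hf := frontier_subset_closure (P.sidePt_mem_frontier hx hy n ht)
  exact image_closure_subset_closure_image continuous_nco ⟨_, hf, rfl⟩

lemma nco_ne_zero (hx : StrictMono x) (hy : StrictMono y) {n : ℕ} (hn : n < P.N) {t : ℝ}
    (ht : t ∈ Icc (0 : ℝ) 1) (h0 : n = 0 → 0 < t) (h1 : n + 1 = P.N → t < 1) :
    nco P x y (P.sidePt x y n t) ≠ 0 := by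
  unfold nco
  exact div_ne_zero (sub_ne_zero.2 (sidePt_ne_base hx hy hn ht h0 h1)) bdir_ne

end Pool.Agent.H83.Lo
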