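import Mathlib
import Pool.Agent.H83.Lo.PsiP

set_option autoImplicit false

/-! The conformal map of a good polygon `Om P.Q x y` onto the upper half plane with a pole at the
flat vertex `0`: boundary behaviour. -/

namespace Pool.Agent.H83.Lo

open Complex Metric Set Filter Topology
open scoped ComplexConjugate Real
open Pool.Agent.Q1.M4

variable {P : PType} {x y : ℤ → ℝ}

lemma floor_eq_of_mem {n : ℕ} {s : ℝ} (h1 : (n : ℝ) ≤ s) (h2 : s < n + 1) : ⌊s⌋₊ = n := by
  rw [Nat.floor_eq_iff ((Nat.cast_nonneg n).trans h1)]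
  exact ⟨h1, h2⟩

lemma bcur_eq {n : ℕ} {s : ℝ} (h1 : (n : ℝ) ≤ s) (h2 : s < n + 1) :
    bcur P x y s = nco P x y (P.sidePt x y n (s - n)) := by
  unfold bcur
  rw [floor_eq_of_mem h1 h2]

lemma bcur_add {n : ℕ} {t : ℝ} (ht : t ∈ Icc (0 : ℝ) 1) :
    bcur P x y (n + t) = nco P x y (P.sidePt x y n t) := by
  rcases ht.2.eq_or_lt with h | h
  · rw [h, bcur_eq (n := n + 1) (by push_cast; linarith) (by push_cast; linarith)]
    have e1 : (n : ℝ) + 1 - ((n + 1 : ℕ) : ℝ) = 0 := by push_cast; ring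
    rw [e1, P.sidePt_zero, P.sidePt_one]
  · rw [bcur_eq (n := n) (by linarith [ht.1]) (by linarith)]
    congr 2
    ring

/-- The chart at an interior point of a side. -/
theorem locChart_side (hx : StrictMono x) (hy : StrictMono y) {n : ℕ} (hn : n < P.N) {t : ℝ}
    (ht0 : 0 < t) (ht1 : t < 1) : ∃ δ κ r θ, LocChart (nG P x y) (bcur P x y) (n + t) δ κ r θ := by
  obtain ⟨r₀, hr₀, h⟩ := flat_side (P := P) hx hy n ht0 ht1
  set l := len x y (P.side n) with hl
  have hl0 : 0 < l := side_len_pos hx hy _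
  set r : ℝ := min r₀ (min (t * l) ((1 - t) * l)) with hr
  have hr0 : 0 < r := lt_min hr₀ (lt_min (by positivity) (mul_pos (by linarith) hl0))
  have hr1 : r ≤ r₀ := min_le_left _ _
  have hr2 : r ≤ t * l := (min_le_right _ _).trans (min_le_left _ _)
  have hr3 : r ≤ (1 - t) * l := (min_le_right _ _).trans (min_le_right _ _)
  set e : ℂ := udir (P.side n).2 with he
  have hside : ∀ v : ℝ, P.sidePt x y n t + e * v = P.sidePt x y n (t + v / l) := by
    intro v
    rw [P.sidePt_eq, P.sidePt_eq, ← hl, ← he]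
    have : (t + v / l) * l = t * l + v := by field_simp
    rw [this]
    push_cast
    ring
  have hin : ∀ v : ℝ, |v| < r → 0 < t + v / l ∧ t + v / l < 1 := by
    intro v hv
    obtain ⟨h1, h2⟩ := abs_lt.1 hv
    constructor
    · have : -t < v / l := by
        rw [lt_div_iff₀ hl0]
        linarith
      linarith
    · have : v / l < 1 - t := by
        rw [div_lt_iff₀ hl0]
        linarith
      linarith
  have hchart : Chart (nG P x y) (fun ζ => nco P x y (P.sidePt x y n t) + e / bdir P * ζ) r := by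
    apply flat_chart (div_ne_zero (udir_ne _) bdir_ne)
    · intro ζ hζ
      rw [← nco_add, nco_mem]
      exact h ζ (ball_subset_ball hr1 hζ)
    · intro v hv
      rw [← nco_add, hside]
      obtain ⟨h1, h2⟩ := hin v hv
      exact nco_ne_zero hx hy hn ⟨h1.le, h2.le⟩ (fun _ => h1) (fun _ => h2)
  have hθ : ∀ s ∈ Ioo ((n : ℝ) + t - r / l) (n + t + r / l), |(s - (n + t)) * l| < r := by
    intro s hs
    rw [abs_mul, abs_of_pos hl0, ← lt_div_iff₀ hl0, abs_lt]
    constructor
    · linarith [hs.1]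
    · linarith [hs.2]
  have hval : ∀ s ∈ Ioo ((n : ℝ) + t - r / l) (n + t + r / l), 0 < s - n ∧ s - n < 1 := by
    intro s hs
    have h1 := hin _ (hθ s hs)
    have e1 : t + (s - (n + t)) * l / l = s - n := by field_simp; ring
    rwa [e1] at h1
  refine ⟨r / l, _, r, fun s => (s - (n + t)) * l, by positivity, hchart, ?_, ?_, hθ, ?_, ?_⟩
  · intro s _ s' _ hss
    simp only
    have : s - (n + t) < s' - (n + t) := by linarith
    exact mul_lt_mul_of_pos_right this hl0
  · fun_prop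
  · intro s hs
    obtain ⟨h1, h2⟩ := hval s hs
    rw [← nco_add, hside, bcur_eq (n := n) (by linarith) (by linarith)]
    congr 2
    field_simp
    ring
  · intro s hs
    obtain ⟨h1, h2⟩ := hval s hs
    rw [bcur_eq (n := n) (by linarith) (by linarith)]
    exact neBot_nco hx hy n ⟨h1.le, h2.le⟩

/-- The sector at a vertex. -/
theorem sectorAt_vertex (hx : StrictMono x) (hy : StrictMono y) {n : ℕ} (hn : n + 1 < P.N) :
    ∃ β r : ℝ, 0 < r ∧ SectorAt (nG P x y) (nco P x y (pt x y (P.vert (n + 1))))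
      (udir (P.side (n + 1)).2 / bdir P) β r ∧
      (∀ s : ℝ, 0 ≤ s → s < r → s / len x y (P.side (n + 1)) < 1 ∧
        nco P x y (pt x y (P.vert (n + 1))) + udir (P.side (n + 1)).2 / bdir P * s =
          nco P x y (P.sidePt x y (n + 1) (s / len x y (P.side (n + 1))))) ∧
      (∀ s : ℝ, 0 ≤ s → s < r → s / len x y (P.side n) < 1 ∧
        nco P x y (pt x y (P.vert (n + 1))) + udir (P.side (n + 1)).2 / bdir P *
          (s * Complex.exp ((β * π : ℝ) * I)) =
          nco P x y (P.sidePt x y n (1 - s / len x y (P.side n)))) := by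
  obtain ⟨r, hr, h1, h2⟩ := P.sector hx hy n
  have hL0 : 0 < len x y (P.side n) := side_len_pos hx hy _
  have hL1 : 0 < len x y (P.side (n + 1)) := side_len_pos hx hy _
  have hpi := Real.pi_pos
  set α : ℝ := (P.side (n + 1)).2 * (π / 2) with hα
  set β : ℝ := 1 + ((P.side n).2 - (P.side (n + 1)).2 : ℝ) / 2 with hβ
  have hα1 : ((P.side n).2 : ℝ) * (π / 2) + π = α + β * π := by rw [hα, hβ]; ring
  have hβ12 : 0 < β ∧ β < 2 := by
    rcases P.turn n with h | h | h
    · rw [hβ, h]; push_cast; constructor <;> linarith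
    · rw [hβ, h]; constructor <;> linarith
    · rw [hβ, h]; push_cast; constructor <;> linarith
  set e : ℂ := udir (P.side (n + 1)).2 with he
  have hu : e = Complex.exp (α * I) := udir_eq_exp _
  set p : ℂ := pt x y (P.vert (n + 1)) with hp
  rw [hα1] at h1 h2
  have hexp : ∀ φ : ℝ, e * Complex.exp (φ * I) = Complex.exp ((α + φ : ℝ) * I) := by
    intro φ
    rw [hu, ← Complex.exp_add]
    congr 1
    push_cast
    ring
  have hpt : ∀ s φ : ℝ, nco P x y p + e / bdir P * (s * Complex.exp (φ * I)) =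
      nco P x y (p + s * Complex.exp ((α + φ : ℝ) * I)) := by
    intro s φ
    rw [← nco_add, ← hexp]
    congr 2
    ring
  have hA : ∀ s : ℝ, 0 ≤ s → s < r → s / len x y (P.side (n + 1)) < 1 ∧
        nco P x y p + e / bdir P * s =
          nco P x y (P.sidePt x y (n + 1) (s / len x y (P.side (n + 1)))) := by
    intro s hs0 hs1
    rcases hs0.eq_or_lt with h | h
    · rw [← h, zero_div, P.sidePt_zero, Complex.ofReal_zero, mul_zero, add_zero]
      exact ⟨one_pos, rfl⟩
    · obtain ⟨-, h3, h4, -, -⟩ := h1 s ⟨h, hs1⟩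
      refine ⟨h4, ?_⟩
      rw [← h3]
      have h5 := hpt s 0
      rw [add_zero] at h5
      rw [← h5]
      simp
  have hB : ∀ s : ℝ, 0 ≤ s → s < r → s / len x y (P.side n) < 1 ∧
        nco P x y p + e / bdir P * (s * Complex.exp ((β * π : ℝ) * I)) =
          nco P x y (P.sidePt x y n (1 - s / len x y (P.side n))) := by
    intro s hs0 hs1
    rcases hs0.eq_or_lt with h | h
    · rw [← h, zero_div, sub_zero, P.sidePt_one, Complex.ofReal_zero, zero_mul, mul_zero, add_zero]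
      exact ⟨one_pos, rfl⟩
    · obtain ⟨-, -, -, h3, h4⟩ := h1 s ⟨h, hs1⟩
      refine ⟨h4, ?_⟩
      rw [← h3, hpt]
  refine ⟨β, r, hr, ⟨div_ne_zero (udir_ne _) bdir_ne, hβ12.1, hβ12.2, ?_, ?_, ?_, ?_⟩, hA, hB⟩
  · intro s φ hs hsr hφ hφ2
    rw [hpt, nco_mem]
    exact (h1 s ⟨hs, hsr⟩).1 _ ⟨by linarith, by linarith⟩
  · intro u hu2 hur
    have hz : bpt P x y + bdir P * u ∈ Om P.Q x y := hu2
    set z : ℂ := bpt P x y + bdir P * u with hzdef
    have hu' : u = nco P x y z := by rw [hzdef, nco_inv']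
    have e1 : (u - nco P x y p) / (e / bdir P) = (z - p) / e := by
      have hb := bdir_ne (P := P)
      have he0 : e ≠ 0 := udir_ne _
      rw [hu']
      unfold nco
      field_simp
      ring
    have e2 : ‖(z - p) / e‖ = dist z p := by
      rw [norm_div, he, norm_udir, div_one, dist_eq_norm]
    rw [e1] at hur ⊢
    rw [e2] at hur ⊢
    obtain ⟨φ, hφ, h3⟩ := h2 z hz hur
    refine ⟨φ - α, by linarith [hφ.1], by linarith [hφ.2], ?_⟩
    have h4 : z - p = dist z p * Complex.exp (φ * I) := by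
      nth_rewrite 1 [h3]
      ring
    have h5 := hexp (φ - α)
    rw [add_sub_cancel] at h5
    rw [h4, ← h5]
    have he0 : e ≠ 0 := udir_ne _
    field_simp
  · intro s hs hsr
    obtain ⟨h3, h4⟩ := hA s hs hsr
    rw [h4, nco_mem]
    have h5 : s / len x y (P.side (n + 1)) ∈ Icc (0 : ℝ) 1 := ⟨by positivity, h3.le⟩
    exact ⟨sidePt_notMem hx hy _ h5, nco_ne_zero hx hy hn h5 (fun h => absurd h (by omega))
      (fun _ => h3)⟩
  · intro s hs hsr
    obtain ⟨h3, h4⟩ := hB s hs hsr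
    rw [h4, nco_mem]
    have h6 : 0 ≤ s / len x y (P.side n) := by positivity
    have h5 : 1 - s / len x y (P.side n) ∈ Icc (0 : ℝ) 1 := ⟨by linarith, by linarith⟩
    exact ⟨sidePt_notMem hx hy _ h5, nco_ne_zero hx hy (by omega) h5 (fun _ => by linarith)
      (fun h => absurd h (by omega))⟩

lemma pw_rpow {β σ : ℝ} (hβ : 0 < β) (hσ : 0 ≤ σ) : pw β ((σ ^ β⁻¹ : ℝ) : ℂ) = σ := by
  rcases hσ.eq_or_lt with h | h
  · rw [← h, Real.zero_rpow (inv_ne_zero hβ.ne'), Complex.ofReal_zero, pw_zero]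
  · rw [pw_real_pos (Real.rpow_pos_of_pos h _), ← Real.rpow_mul hσ, inv_mul_cancel₀ hβ.ne',
      Real.rpow_one]

lemma pw_rpow_neg {β σ : ℝ} (hβ : 0 < β) (hσ : 0 ≤ σ) :
    pw β ((-(σ ^ β⁻¹) : ℝ) : ℂ) = σ * Complex.exp ((β * π : ℝ) * I) := by
  rcases hσ.eq_or_lt with h | h
  · rw [← h, Real.zero_rpow (inv_ne_zero hβ.ne'), neg_zero, Complex.ofReal_zero, pw_zero, zero_mul]
  · rw [pw_real_neg (neg_neg_of_pos (Real.rpow_pos_of_pos h _)), neg_neg, ← Real.rpow_mul hσ,
      inv_mul_cancel₀ hβ.ne', Real.rpow_one]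

/-- The chart at a vertex. -/
theorem locChart_vertex (hx : StrictMono x) (hy : StrictMono y) {n : ℕ} (hn : n + 1 < P.N) :
    ∃ δ κ r θ, LocChart (nG P x y) (bcur P x y) ((n + 1 : ℕ) : ℝ) δ κ r θ := by
  obtain ⟨β, r, hr, hsec, hA, hB⟩ := sectorAt_vertex (P := P) (x := x) (y := y) hx hy hn
  have hβ := hsec.pos
  have hβi : 0 < β⁻¹ := inv_pos.2 hβ
  set l₀ := len x y (P.side n) with hl₀
  set l₁ := len x y (P.side (n + 1)) with hl₁
  have h0 : 0 < l₀ := side_len_pos hx hy _
  have h1 : 0 < l₁ := side_len_pos hx hy _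
  set δ : ℝ := min (r / l₁) (r / l₀) with hδ
  have hδ0 : 0 < δ := lt_min (by positivity) (by positivity)
  have hδ1 : δ * l₁ ≤ r := by
    rw [← le_div_iff₀ h1]; exact min_le_left _ _
  have hδ2 : δ * l₀ ≤ r := by
    rw [← le_div_iff₀ h0]; exact min_le_right _ _
  set θ : ℝ → ℝ := fun s => (max (s - (n + 1)) 0 * l₁) ^ β⁻¹ -
    (max (n + 1 - s) 0 * l₀) ^ β⁻¹ with hθ
  have hn1 : (((n + 1 : ℕ)) : ℝ) = n + 1 := by push_cast; rfl
  rw [hn1]
  have hup : ∀ s : ℝ, (n : ℝ) + 1 ≤ s → θ s = ((s - (n + 1)) * l₁) ^ β⁻¹ := by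
    intro s hs
    simp only [hθ]
    rw [max_eq_left (by linarith), max_eq_right (by linarith), zero_mul,
      Real.zero_rpow hβi.ne', sub_zero]
  have hdn : ∀ s : ℝ, s ≤ (n : ℝ) + 1 → θ s = -((n + 1 - s) * l₀) ^ β⁻¹ := by
    intro s hs
    simp only [hθ]
    rw [max_eq_right (by linarith), max_eq_left (by linarith), zero_mul,
      Real.zero_rpow hβi.ne', zero_sub]
  have hup2 : ∀ s ∈ Ioo ((n : ℝ) + 1 - δ) (n + 1 + δ), (n : ℝ) + 1 ≤ s →
      0 ≤ (s - (n + 1)) * l₁ ∧ (s - (n + 1)) * l₁ < r := by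
    intro s hs hs2
    refine ⟨mul_nonneg (by linarith) h1.le, lt_of_lt_of_le ?_ hδ1⟩
    exact mul_lt_mul_of_pos_right (by linarith [hs.2]) h1
  have hdn2 : ∀ s ∈ Ioo ((n : ℝ) + 1 - δ) (n + 1 + δ), s ≤ (n : ℝ) + 1 →
      0 ≤ (n + 1 - s) * l₀ ∧ (n + 1 - s) * l₀ < r := by
    intro s hs hs2
    refine ⟨mul_nonneg (by linarith) h0.le, lt_of_lt_of_le ?_ hδ2⟩
    exact mul_lt_mul_of_pos_right (by linarith [hs.1]) h0
  have hcur : ∀ s ∈ Ioo ((n : ℝ) + 1 - δ) (n + 1 + δ), ∃ m : ℕ, ∃ t ∈ Icc (0 : ℝ) 1,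
      bcur P x y s = nco P x y (P.sidePt x y m t) ∧
      nco P x y (pt x y (P.vert (n + 1))) + udir (P.side (n + 1)).2 / bdir P * pw β (θ s) =
        bcur P x y s := by
    intro s hs
    rcases le_total ((n : ℝ) + 1) s with h | h
    · obtain ⟨a1, a2⟩ := hup2 s hs h
      obtain ⟨a3, a4⟩ := hA _ a1 a2
      have e1 : (s - (n + 1)) * l₁ / l₁ = s - (n + 1) := by field_simp
      rw [e1] at a3 a4
      have e2 : bcur P x y s = nco P x y (P.sidePt x y (n + 1) (s - (n + 1))) := by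
        have e3 : s = ((n + 1 : ℕ) : ℝ) + (s - (n + 1)) := by push_cast; ring
        conv_lhs => rw [e3]
        exact bcur_add ⟨by linarith, a3.le⟩
      refine ⟨n + 1, s - (n + 1), ⟨by linarith, a3.le⟩, e2, ?_⟩
      rw [hup s h, pw_rpow hβ a1, e2]
      exact a4
    · obtain ⟨a1, a2⟩ := hdn2 s hs h
      obtain ⟨a3, a4⟩ := hB _ a1 a2
      have e1 : (n + 1 - s) * l₀ / l₀ = n + 1 - s := by field_simp
      rw [e1] at a3 a4
      have e2 : bcur P x y s = nco P x y (P.sidePt x y n (1 - (n + 1 - s))) := by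
        have e3 : s = (n : ℝ) + (1 - (n + 1 - s)) := by ring
        conv_lhs => rw [e3]
        exact bcur_add ⟨by linarith, by linarith⟩
      refine ⟨n, 1 - (n + 1 - s), ⟨by linarith, by linarith⟩, e2, ?_⟩
      rw [hdn s h, pw_rpow_neg hβ a1, e2]
      exact a4
  refine ⟨δ, _, r ^ β⁻¹, θ, hδ0, sector_chart hr hsec, ?_, ?_, ?_, ?_, ?_⟩
  · intro s hs s' hs' hss
    rcases le_total s' ((n : ℝ) + 1) with h | h
    · rw [hdn s (by linarith), hdn s' h, neg_lt_neg_iff]
      apply Real.rpow_lt_rpow (hdn2 s' hs' h).1 _ hβi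
      exact mul_lt_mul_of_pos_right (by linarith) h0
    · rcases le_total s ((n : ℝ) + 1) with h' | h'
      · rw [hdn s h', hup s' h]
        have a1 : 0 ≤ ((n + 1 - s) * l₀) ^ β⁻¹ := Real.rpow_nonneg (hdn2 s hs h').1 _
        have a2 : 0 ≤ ((s' - (n + 1)) * l₁) ^ β⁻¹ := Real.rpow_nonneg (hup2 s' hs' h).1 _
        rcases h'.eq_or_lt with h2 | h2
        · have : 0 < ((s' - (n + 1)) * l₁) ^ β⁻¹ :=
            Real.rpow_pos_of_pos (mul_pos (by linarith) h1) _
          linarith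
        · have : 0 < ((n + 1 - s) * l₀) ^ β⁻¹ :=
            Real.rpow_pos_of_pos (mul_pos (by linarith) h0) _
          linarith
      · rw [hup s h', hup s' h]
        apply Real.rpow_lt_rpow (hup2 s hs h').1 _ hβi
        exact mul_lt_mul_of_pos_right (by linarith) h1
  · apply Continuous.continuousOn
    simp only [hθ]
    apply Continuous.sub
    · apply Continuous.rpow_const (by fun_prop)
      intro s
      exact Or.inr hβi.le
    · apply Continuous.rpow_const (by fun_prop)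
      intro s
      exact Or.inr hβi.le
  · intro s hs
    rcases le_total ((n : ℝ) + 1) s with h | h
    · obtain ⟨a1, a2⟩ := hup2 s hs h
      rw [hup s h, abs_of_nonneg (Real.rpow_nonneg a1 _)]
      exact Real.rpow_lt_rpow a1 a2 hβi
    · obtain ⟨a1, a2⟩ := hdn2 s hs h
      rw [hdn s h, abs_neg, abs_of_nonneg (Real.rpow_nonneg a1 _)]
      exact Real.rpow_lt_rpow a1 a2 hβi
  · intro s hs
    obtain ⟨m, t, ht, h2, h3⟩ := hcur s hs
    exact h3
  · intro s hs
    obtain ⟨m, t, ht, h2, h3⟩ := hcur s hs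
    rw [h2]
    exact neBot_nco hx hy m ht

lemma nco_tendsto (p : ℂ) :
    Tendsto (nco P x y) (𝓝[Om P.Q x y] p) (𝓝[nG P x y] (nco P x y p)) := by
  rw [tendsto_nhdsWithin_iff]
  refine ⟨(continuous_nco.tendsto p).mono_left nhdsWithin_le_nhds, ?_⟩
  filter_upwards [self_mem_nhdsWithin] with z hz
  exact nco_mem.2 hz

/-- **Boundary behaviour**: the conformal map extends continuously to the boundary (except the
vertex `0`), with real values, strictly increasing along the boundary curve. -/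
theorem psi_boundary (hx : StrictMono x) (hy : StrictMono y) {ρ : ℝ} {ψ A : ℂ → ℂ}
    (h : Psi (nG P x y) ρ ψ A) :
    ∃ L : ℝ → ℝ, StrictMonoOn L (Ioo 0 (P.N : ℝ)) ∧ ContinuousOn L (Ioo 0 (P.N : ℝ)) ∧
      ∀ n < P.N, ∀ t ∈ Icc (0 : ℝ) 1, (n = 0 → 0 < t) → (n + 1 = P.N → t < 1) →
        Tendsto (fun z => ψ (nco P x y z)) (𝓝[Om P.Q x y] (P.sidePt x y n t))
          (𝓝 (L (n + t) : ℂ)) := by
  obtain ⟨L, h1, h2, h3⟩ := h.boundary (B := bcur P x y) (a := 0) (b := P.N) (by
    intro s hs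
    set n := ⌊s⌋₊ with hn
    have a1 : (n : ℝ) ≤ s := Nat.floor_le hs.1.le
    have a2 : s < n + 1 := Nat.lt_floor_add_one s
    have a3 : n < P.N := by
      have : (n : ℝ) < P.N := a1.trans_lt hs.2
      exact_mod_cast this
    rcases a1.eq_or_lt with h0 | h0
    · have hn0 : 0 < n := by
        rcases Nat.eq_zero_or_pos n with h' | h'
        · rw [h'] at h0
          exfalso
          have := hs.1
          rw [← h0] at this
          simp at this
        · exact h'
      have e1 : n - 1 + 1 = n := Nat.sub_add_cancel hn0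
      have := locChart_vertex (P := P) (x := x) (y := y) hx hy (n := n - 1) (by omega)
      rw [e1, h0] at this
      exact this
    · have := locChart_side (P := P) (x := x) (y := y) hx hy a3 (t := s - n) (by linarith)
        (by linarith)
      rw [add_sub_cancel] at this
      exact this)
  refine ⟨L, h1, h2, ?_⟩
  intro n hn t ht h0 hN
  have hs : (n : ℝ) + t ∈ Ioo 0 (P.N : ℝ) := by
    constructor
    · rcases Nat.eq_zero_or_pos n with h' | h'
      · rw [h', Nat.cast_zero, zero_add]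
        exact h0 h'
      · have : (0 : ℝ) < n := Nat.cast_pos.2 h'
        linarith [ht.1]
    · rcases (Nat.succ_le_of_lt hn).eq_or_lt with h' | h'
      · have h4 := hN h'
        have : ((n : ℝ)) + 1 = P.N := by rw [← h']; push_cast; rfl
        linarith
      · have : ((n : ℝ)) + 1 < P.N := by exact_mod_cast h'
        linarith [ht.2]
  have h4 := h3 _ hs
  rw [bcur_add ht] at h4
  exact h4.comp (nco_tendsto _)

/-- The pole. -/
theorem psi_pole {ρ : ℝ} {ψ A : ℂ → ℂ} (h : Psi (nG P x y) ρ ψ A) :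
    Tendsto (fun z => ‖ψ (nco P x y z)‖) (𝓝[Om P.Q x y] (bpt P x y)) atTop := by
  have h1 := nco_tendsto (P := P) (x := x) (y := y) (bpt P x y)
  have e1 : nco P x y (bpt P x y) = 0 := by unfold nco; rw [sub_self, zero_div]
  rw [e1] at h1
  have h2 : Tendsto (fun u => ‖ψ u‖) (𝓝[nG P x y] 0) atTop := by
    have h3 : Tendsto (fun u : ℂ => ‖u‖⁻¹ - 10 / ρ) (𝓝[≠] 0) atTop := by
      have h4 : Tendsto (fun u : ℂ => ‖u‖⁻¹) (𝓝[≠] 0) atTop :=
        tendsto_inv_nhdsGT_zero.comp tendsto_norm_nhdsNE_zero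
      have := tendsto_atTop_add_const_right (𝓝[≠] (0 : ℂ)) (-(10 / ρ)) h4
      simpa [sub_eq_add_neg] using this
    have h5 : 𝓝[nG P x y] (0 : ℂ) ≤ 𝓝[≠] 0 := by
      apply nhdsWithin_mono
      intro u hu
      exact h.ne_zero hu
    apply tendsto_atTop_mono' _ _ (h3.mono_left h5)
    filter_upwards [mem_nhdsWithin_of_mem_nhds (isOpen_ball.mem_nhds (mem_ball_self h.pos)),
      self_mem_nhdsWithin] with u hu huG
    have huU := (h.box u hu).1 huG
    rw [h.eq u hu huU]
    have h6 := h.bound u hu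
    have h7 : ‖u‖⁻¹ ≤ ‖-u⁻¹ + A u‖ + ‖A u‖ := by
      calc ‖u‖⁻¹ = ‖(-u⁻¹ + A u) - A u‖ := by
            rw [add_sub_cancel_right, norm_neg, norm_inv]
        _ ≤ _ := norm_sub_le _ _
    linarith
  exact h2.comp h1

end Pool.Agent.H83.Lo
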