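import Mathlib
import Pool.Agent.H83.Lo.PsiB
import Pool.Agent.H29.M7.Chart

set_option autoImplicit false

/-! The conformal map of a good polygon with a pole at the flat vertex `0`: the structure `Chart`
of `H29/M7`, the derivative at flat boundary points. -/

namespace Pool.Agent.H83.Lo

open Complex Metric Set Filter Topology
open scoped ComplexConjugate Real
open Pool.Agent.Q1.M4

variable {P : PType} {x y : ℤ → ℝ}

/-- Analytic extension across a flat boundary point, with positive derivative. -/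
theorem psi_flat {ρ : ℝ} {ψ A : ℂ → ℂ} (h : Psi (nG P x y) ρ ψ A) {p e : ℂ} (he : e ≠ 0)
    (hp : p ≠ bpt P x y) {r : ℝ} (hr : 0 < r)
    (hbox : ∀ ζ ∈ ball (0 : ℂ) r, (p + e * ζ ∈ Om P.Q x y ↔ ζ ∈ UH)) :
    ∃ (F : ℂ → ℂ) (l D r' : ℝ), 0 < D ∧ 0 < r' ∧ DifferentiableOn ℂ F (ball 0 r') ∧
      (∀ ζ ∈ ball (0 : ℂ) r', F (conj ζ) = conj (F ζ)) ∧
      (∀ ζ ∈ ball (0 : ℂ) r', ζ ∈ UH → F ζ = ψ (nco P x y (p + e * ζ))) ∧
      F 0 = l ∧ deriv F 0 = D ∧
      Tendsto (fun z => ψ (nco P x y z)) (𝓝[Om P.Q x y] p) (𝓝 (l : ℂ)) ∧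
      Tendsto (fun z => (ψ (nco P x y z) - l) / (z - p)) (𝓝[Om P.Q x y] p) (𝓝 (D / e)) := by
  have hd : 0 < dist p (bpt P x y) := dist_pos.2 hp
  have hen : 0 < ‖e‖ := norm_pos_iff.2 he
  set r' : ℝ := min r (dist p (bpt P x y) / ‖e‖) with hr'
  have hr'0 : 0 < r' := lt_min hr (by positivity)
  set κ : ℂ → ℂ := fun ζ => nco P x y p + e / bdir P * ζ with hκ
  have hκ2 : ∀ ζ, κ ζ = nco P x y (p + e * ζ) := fun ζ => (nco_add p e ζ).symm
  have hch : Lo.Chart (nG P x y) κ r' := by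
    apply flat_chart (div_ne_zero he bdir_ne)
    · intro ζ hζ
      rw [← nco_add, nco_mem]
      exact hbox ζ (ball_subset_ball (min_le_left _ _) hζ)
    · intro v hv
      rw [← nco_add]
      unfold nco
      apply div_ne_zero _ bdir_ne
      intro h0
      have h1 : p - bpt P x y = -(e * v) := by linear_combination h0
      have h2 : dist p (bpt P x y) = ‖e‖ * |v| := by
        rw [dist_eq_norm, h1, norm_neg, norm_mul, Complex.norm_real, Real.norm_eq_abs]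
      have h3 : |v| < dist p (bpt P x y) / ‖e‖ := hv.trans_le (min_le_right _ _)
      rw [lt_div_iff₀ hen] at h3
      linarith
  obtain ⟨a1, a2, a3⟩ := h.chart hch
  have h0r : |(0 : ℝ)| < r' := by rw [abs_zero]; exact hr'0
  obtain ⟨D, hD, hD2, -⟩ := h.bf_deriv hch h0r
  have hl := h.bf_eq hch h0r
  rw [Complex.ofReal_zero] at hl hD2
  have hlim := h.bf_tendsto hch h0r
  rw [Complex.ofReal_zero] at hlim
  have hκ0 : κ 0 = nco P x y p := by rw [hκ2, mul_zero, add_zero]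
  rw [hκ0] at hlim
  have hlim2 : Tendsto (fun z => ψ (nco P x y z)) (𝓝[Om P.Q x y] p) (𝓝 (bf ψ κ 0 : ℂ)) :=
    hlim.comp (nco_tendsto p)
  refine ⟨extMap (fun ζ => ψ (κ ζ)), bf ψ κ 0, D, r', hD, hr'0, a1, a2, ?_, hl.symm, hD2, hlim2, ?_⟩
  · intro ζ _ hζU
    rw [extMap_upper hζU, hκ2]
  · -- the difference quotient
    have h1 := hasDerivAt_iff_tendsto_slope.1
      (a1.differentiableAt (isOpen_ball.mem_nhds (mem_ball_self hr'0))).hasDerivAt
    rw [hD2] at h1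
    have hco : Tendsto (fun z : ℂ => (z - p) / e) (𝓝[Om P.Q x y] p) (𝓝[≠] 0 ⊓ 𝓟 UH) := by
      have hc : Continuous (fun z : ℂ => (z - p) / e) := by fun_prop
      have h2 : Tendsto (fun z : ℂ => (z - p) / e) (𝓝[Om P.Q x y] p) (𝓝 0) := by
        have := hc.tendsto p
        rw [sub_self, zero_div] at this
        exact this.mono_left nhdsWithin_le_nhds
      have h3 : ∀ᶠ z in 𝓝[Om P.Q x y] p, (z - p) / e ∈ UH := by
        have h4 := h2.eventually (isOpen_ball.mem_nhds (mem_ball_self hr))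
        filter_upwards [h4, self_mem_nhdsWithin] with z hz hzO
        apply (hbox _ hz).1
        rwa [mul_div_cancel₀ _ he, add_sub_cancel]
      rw [tendsto_inf]
      constructor
      · rw [tendsto_nhdsWithin_iff]
        refine ⟨h2, ?_⟩
        filter_upwards [h3] with z hz
        exact jk_ne hz
      · exact tendsto_principal.2 h3
    have h5 : Tendsto (fun ζ => (ψ (κ ζ) - bf ψ κ 0) / ζ) (𝓝[≠] 0 ⊓ 𝓟 UH) (𝓝 (D : ℂ)) := by
      apply (h1.mono_left inf_le_left).congr'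
      have h6 : ∀ᶠ ζ in 𝓝[≠] (0 : ℂ) ⊓ 𝓟 UH, ζ ∈ UH := mem_inf_of_right (mem_principal_self _)
      filter_upwards [h6] with ζ hζ
      rw [slope_def_field, sub_zero, extMap_upper hζ, hl]
    have h6 := (h5.comp hco).div_const e
    apply h6.congr
    intro z
    simp only [Function.comp]
    rw [hκ2, mul_div_cancel₀ _ he, add_sub_cancel, div_div_eq_mul_div, div_div,
      div_eq_div_iff_comm]
    by_cases hz : z = p
    · rw [hz]; simp
    · have : z - p ≠ 0 := sub_ne_zero.2 hz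
      field_simp

/-- Boundary data of the conformal map: the boundary function `L` on `(0, N)`. -/
structure BData (P : PType) (x y : ℤ → ℝ) (ψ : ℂ → ℂ) (L : ℝ → ℝ) : Prop where
  mono : StrictMonoOn L (Ioo 0 (P.N : ℝ))
  cont : ContinuousOn L (Ioo 0 (P.N : ℝ))
  lim : ∀ n < P.N, ∀ t ∈ Icc (0 : ℝ) 1, (n = 0 → 0 < t) → (n + 1 = P.N → t < 1) →
    Tendsto (fun z => ψ (nco P x y z)) (𝓝[Om P.Q x y] (P.sidePt x y n t)) (𝓝 (L (n + t) : ℂ))

theorem exists_bdata (hx : StrictMono x) (hy : StrictMono y) {ρ : ℝ} {ψ A : ℂ → ℂ}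
    (h : Psi (nG P x y) ρ ψ A) : ∃ L, BData P x y ψ L := by
  obtain ⟨L, h1, h2, h3⟩ := psi_boundary hx hy h
  exact ⟨L, h1, h2, h3⟩

/-- the position of the mark `a` -/
theorem BData.mark {ψ : ℂ → ℂ} {L : ℝ → ℝ} (hL : BData P x y ψ L) :
    Tendsto (fun z => ψ (nco P x y z)) (𝓝[Om P.Q x y] (pt x y (P.vert P.m)))
      (𝓝 (L P.m : ℂ)) := by
  have h1 := hL.lim P.m P.hmN 0 (by simp) (fun h => absurd h P.hm0.ne') (fun _ => one_pos)
  rw [P.sidePt_zero, add_zero] at h1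
  exact h1

lemma mem_Ioo_N {n : ℕ} {t : ℝ} (hn : n < P.N) (ht : t ∈ Icc (0 : ℝ) 1) (h0 : n = 0 → 0 < t)
    (h1 : n + 1 = P.N → t < 1) : (n : ℝ) + t ∈ Ioo (0 : ℝ) P.N := by
  constructor
  · rcases Nat.eq_zero_or_pos n with h' | h'
    · rw [h', Nat.cast_zero, zero_add]
      exact h0 h'
    · have : (0 : ℝ) < n := Nat.cast_pos.2 h'
      linarith [ht.1]
  · rcases (Nat.succ_le_of_lt hn).eq_or_lt with h' | h'
    · have h4 := h1 h'
      have : ((n : ℝ)) + 1 = P.N := by rw [← h']; push_cast; rfl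
      linarith
    · have : ((n : ℝ)) + 1 < P.N := by exact_mod_cast h'
      linarith [ht.2]

/-- **The chart** (form of `H29/M7/Chart`), with `W = L m` the image of the mark `a`. -/
theorem psi_chart {ρ : ℝ} {ψ A : ℂ → ℂ} (h : Psi (nG P x y) ρ ψ A) {L : ℝ → ℝ}
    (hL : BData P x y ψ L) :
    Pool.Agent.H29.M7.Chart P x y (fun z => ψ (nco P x y z)) (L P.m) := by
  have hN : 0 < P.N := P.hm0.trans P.hmN
  have hm0 : (0 : ℝ) < P.m := Nat.cast_pos.2 P.hm0
  have hmN : (P.m : ℝ) < P.N := Nat.cast_lt.2 P.hmN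
  have hmI : (P.m : ℝ) ∈ Ioo (0 : ℝ) P.N := ⟨hm0, hmN⟩
  have hmarks : ∀ n t, P.sidePt x y n t ∉ P.marks x y →
      (n = 0 → t ≠ 0) ∧ (n + 1 = P.N → t ≠ 1) ∧ (n = P.m → t ≠ 0) ∧ (n + 1 = P.m → t ≠ 1) := by
    intro n t hnm
    unfold PType.marks at hnm
    rw [Finset.mem_insert, Finset.mem_singleton, not_or] at hnm
    refine ⟨?_, ?_, ?_, ?_⟩
    · rintro rfl rfl
      exact hnm.1 (P.sidePt_zero 0)
    · rintro h1 rfl
      apply hnm.1
      rw [P.sidePt_one, h1, P.vert_N]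
    · rintro rfl rfl
      exact hnm.2 (P.sidePt_zero P.m)
    · rintro h1 rfl
      apply hnm.2
      rw [P.sidePt_one, h1]
  refine ⟨?_, ?_, ?_, ?_, psi_pole h⟩
  · apply h.diff.comp
    · unfold nco
      fun_prop
    · intro z hz
      exact nco_mem.2 hz
  · intro z hz
    exact h.bij.mapsTo (nco_mem.2 hz)
  · intro n hn t ht hnm
    obtain ⟨k1, k2, k3, k4⟩ := hmarks n t hnm
    have hnN : n < P.N := hn.trans P.hmN
    have c0 : n = 0 → 0 < t := fun h' => lt_of_le_of_ne ht.1 (Ne.symm (k1 h'))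
    have c1 : n + 1 = P.N → t < 1 := fun h' => lt_of_le_of_ne ht.2 (k2 h')
    refine ⟨L (n + t), ?_, hL.lim n hnN t ht c0 c1⟩
    apply hL.mono (mem_Ioo_N hnN ht c0 c1) hmI
    rcases (Nat.succ_le_of_lt hn).eq_or_lt with h' | h'
    · have h4 : t < 1 := lt_of_le_of_ne ht.2 (k4 h')
      have : ((n : ℝ)) + 1 = P.m := by rw [← h']; push_cast; rfl
      linarith
    · have : ((n : ℝ)) + 1 < P.m := by exact_mod_cast h'
      linarith [ht.2]
  · intro n hmn hnN t ht hnm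
    obtain ⟨k1, k2, k3, k4⟩ := hmarks n t hnm
    have c0 : n = 0 → 0 < t := fun h' => lt_of_le_of_ne ht.1 (Ne.symm (k1 h'))
    have c1 : n + 1 = P.N → t < 1 := fun h' => lt_of_le_of_ne ht.2 (k2 h')
    refine ⟨L (n + t), ?_, hL.lim n hnN t ht c0 c1⟩
    apply hL.mono hmI (mem_Ioo_N hnN ht c0 c1)
    rcases hmn.eq_or_lt with h' | h'
    · have h4 : 0 < t := lt_of_le_of_ne ht.1 (Ne.symm (k3 h'.symm))
      rw [h']
      linarith
    · have : (P.m : ℝ) < n := by exact_mod_cast h'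
      linarith [ht.1]

/-- The value at a boundary point is determined by the limit. -/
lemma BData.eq_of_tendsto (hx : StrictMono x) (hy : StrictMono y) {ψ : ℂ → ℂ} {L : ℝ → ℝ}
    (hL : BData P x y ψ L) {n : ℕ} (hn : n < P.N) {t : ℝ} (ht : t ∈ Icc (0 : ℝ) 1)
    (h0 : n = 0 → 0 < t) (h1 : n + 1 = P.N → t < 1) {l : ℝ}
    (hl : Tendsto (fun z => ψ (nco P x y z)) (𝓝[Om P.Q x y] (P.sidePt x y n t)) (𝓝 (l : ℂ))) :
    l = L (n + t) := by
  have h2 := hL.lim n hn t ht h0 h1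
  have hne : (𝓝[Om P.Q x y] (P.sidePt x y n t)).NeBot := by
    rw [← mem_closure_iff_nhdsWithin_neBot]
    exact frontier_subset_closure (P.sidePt_mem_frontier hx hy n ht)
  exact_mod_cast tendsto_nhds_unique hl h2

/-- Derivative at a flat vertex. -/
theorem psi_flat_vertex (hx : StrictMono x) (hy : StrictMono y) {ρ : ℝ} {ψ A : ℂ → ℂ}
    (h : Psi (nG P x y) ρ ψ A) {L : ℝ → ℝ} (hL : BData P x y ψ L) {n : ℕ} (hn : n + 1 < P.N)
    (hflat : (P.side (n + 1)).2 = (P.side n).2) :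
    ∃ D : ℝ, 0 < D ∧ Tendsto (fun z => (ψ (nco P x y z) - L (n + 1 : ℕ)) /
      (z - pt x y (P.vert (n + 1)))) (𝓝[Om P.Q x y] (pt x y (P.vert (n + 1))))
      (𝓝 (D / udir (P.side (n + 1)).2)) := by
  obtain ⟨r, hr, hbox⟩ := flat_vertex hx hy hflat
  have hne : pt x y (P.vert (n + 1)) ≠ bpt P x y := by
    have := sidePt_ne_base (P := P) hx hy hn (t := 0) (by simp) (fun h' => absurd h' (by omega))
      (fun _ => one_pos)
    rwa [P.sidePt_zero] at this
  obtain ⟨F, l, D, r', hD, -, -, -, -, -, -, h1, h2⟩ := psi_flat h (udir_ne _) hne hr hbox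
  have h3 := hL.eq_of_tendsto hx hy hn (t := 0) (by simp) (fun h' => absurd h' (by omega))
    (fun _ => one_pos) (l := l) (by rw [P.sidePt_zero]; exact h1)
  rw [add_zero] at h3
  rw [h3] at h2
  exact ⟨D, hD, h2⟩

/-- Derivative at an interior point of a side. -/
theorem psi_flat_side (hx : StrictMono x) (hy : StrictMono y) {ρ : ℝ} {ψ A : ℂ → ℂ}
    (h : Psi (nG P x y) ρ ψ A) {L : ℝ → ℝ} (hL : BData P x y ψ L) {n : ℕ} (hn : n < P.N) {t : ℝ}
    (ht0 : 0 < t) (ht1 : t < 1) :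
    ∃ D : ℝ, 0 < D ∧ Tendsto (fun z => (ψ (nco P x y z) - L (n + t)) /
      (z - P.sidePt x y n t)) (𝓝[Om P.Q x y] (P.sidePt x y n t))
      (𝓝 (D / udir (P.side n).2)) := by
  obtain ⟨r, hr, hbox⟩ := flat_side hx hy n ht0 ht1
  have hne := sidePt_ne_base (P := P) hx hy hn (t := t) ⟨ht0.le, ht1.le⟩ (fun _ => ht0)
      (fun _ => ht1)
  obtain ⟨F, l, D, r', hD, -, -, -, -, -, -, h1, h2⟩ := psi_flat h (udir_ne _) hne hr hbox
  have h3 := hL.eq_of_tendsto hx hy hn ⟨ht0.le, ht1.le⟩ (fun _ => ht0) (fun _ => ht1) h1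
  rw [h3] at h2
  exact ⟨D, hD, h2⟩

end Pool.Agent.H83.Lo
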