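import Pool.Agent.H33.Q1.Prim
import Pool.Agent.Q1.M4.Exact
import Pool.Agent.H83.Lo.RMT

set_option autoImplicit false

/-!
# Primitives and square roots on domains whose complement has no islands

Uses the discrete exactness theorem (`Q1.exact_of_closed`, helper68) and the primitives on
polyominoes (`H33.Q1.exists_primitive`, helper33).
-/

namespace Pool.Agent.H83.Lo

open Complex Metric Set Filter Topology

/-- `C` has no nonempty compact part which is relatively clopen. -/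
def NoIsland (C : Set ℂ) : Prop := ∀ D ⊆ C, IsCompact D → IsClosed (C \ D) → D = ∅

/-- dyadic grid coordinates -/
noncomputable def gx (N : ℕ) (i : ℤ) : ℝ := (i : ℝ) / 2 ^ N

lemma gx_strictMono (N : ℕ) : StrictMono (gx N) := by
  intro i j hij
  unfold gx
  have : (i : ℝ) < j := by exact_mod_cast hij
  gcongr

/-- closed dyadic squares -/
noncomputable def gcell (N : ℕ) (s : ℤ × ℤ) : Set ℂ := H33.Q1.cell (gx N) (gx N) s

lemma mem_gcell {N : ℕ} {s : ℤ × ℤ} {z : ℂ} : z ∈ gcell N s ↔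
    (gx N s.1 ≤ z.re ∧ z.re ≤ gx N (s.1 + 1)) ∧ (gx N s.2 ≤ z.im ∧ z.im ≤ gx N (s.2 + 1)) :=
  Iff.rfl

/-- the box of cells -/
noncomputable def box (M : ℤ) : Finset (ℤ × ℤ) := Finset.Ico (-M) M ×ˢ Finset.Ico (-M) M

lemma mem_box {M : ℤ} {s : ℤ × ℤ} :
    s ∈ box M ↔ (-M ≤ s.1 ∧ s.1 < M) ∧ (-M ≤ s.2 ∧ s.2 < M) := by
  simp [box]

/-- restricted adjacency -/
def Rel4 (S : Set (ℤ × ℤ)) (a b : ℤ × ℤ) : Prop := Q1.Adj4 a b ∧ a ∈ S ∧ b ∈ S

lemma rel4_symm {S : Set (ℤ × ℤ)} {a b : ℤ × ℤ} (h : Rel4 S a b) : Rel4 S b a := by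
  refine ⟨?_, h.2.2, h.2.1⟩
  rcases h.1 with h | h | h | h
  · exact Or.inr (Or.inl h)
  · exact Or.inl h
  · exact Or.inr (Or.inr (Or.inr h))
  · exact Or.inr (Or.inr (Or.inl h))

lemma rtg_symm {S : Set (ℤ × ℤ)} {a b : ℤ × ℤ} (h : Relation.ReflTransGen (Rel4 S) a b) :
    Relation.ReflTransGen (Rel4 S) b a := by
  induction h with
  | refl => exact Relation.ReflTransGen.refl
  | tail _ hbc ih => exact Relation.ReflTransGen.head (rel4_symm hbc) ih

lemma hor_path {S : Set (ℤ × ℤ)} {k a b : ℤ} (hab : a ≤ b)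
    (h : ∀ i, a ≤ i → i ≤ b → (i, k) ∈ S) : Relation.ReflTransGen (Rel4 S) (a, k) (b, k) := by
  induction b, hab using Int.leInduction with
  | base => exact Relation.ReflTransGen.refl
  | succ n hn ih =>
    refine (ih (fun i h1 h2 => h i h1 (by omega))).tail ⟨Or.inl rfl, h n hn (by omega), ?_⟩
    exact h (n + 1) (by omega) le_rfl

lemma ver_path {S : Set (ℤ × ℤ)} {k a b : ℤ} (hab : a ≤ b)
    (h : ∀ i, a ≤ i → i ≤ b → (k, i) ∈ S) : Relation.ReflTransGen (Rel4 S) (k, a) (k, b) := by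
  induction b, hab using Int.leInduction with
  | base => exact Relation.ReflTransGen.refl
  | succ n hn ih =>
    refine (ih (fun i h1 h2 => h i h1 (by omega))).tail ⟨Or.inr (Or.inr (Or.inl rfl)),
      h n hn (by omega), ?_⟩
    exact h (n + 1) (by omega) le_rfl

lemma hor_path' {S : Set (ℤ × ℤ)} {k a b : ℤ} 
    (h : ∀ i, min a b ≤ i → i ≤ max a b → (i, k) ∈ S) :
    Relation.ReflTransGen (Rel4 S) (a, k) (b, k) := by
  rcases le_total a b with hab | hab
  · exact hor_path hab (fun i h1 h2 => h i (by omega) (by omega))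
  · exact rtg_symm (hor_path hab (fun i h1 h2 => h i (by omega) (by omega)))

lemma ver_path' {S : Set (ℤ × ℤ)} {k a b : ℤ} 
    (h : ∀ i, min a b ≤ i → i ≤ max a b → (k, i) ∈ S) :
    Relation.ReflTransGen (Rel4 S) (k, a) (k, b) := by
  rcases le_total a b with hab | hab
  · exact ver_path hab (fun i h1 h2 => h i (by omega) (by omega))
  · exact rtg_symm (ver_path hab (fun i h1 h2 => h i (by omega) (by omega)))

/-- the exterior of a box is connected -/
lemma outside_conn {M : ℤ} {S : Set (ℤ × ℤ)} (hS : ∀ p, p ∉ box M → p ∈ S) {p : ℤ × ℤ}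
    (hp : p ∉ box M) : Relation.ReflTransGen (Rel4 S) p (M, M) := by
  obtain ⟨i, k⟩ := p
  have hout : ∀ a b : ℤ, (a < -M ∨ M ≤ a ∨ b < -M ∨ M ≤ b) → (a, b) ∈ S := by
    intro a b h
    apply hS
    rw [mem_box]
    rintro ⟨⟨h1, h2⟩, h3, h4⟩
    simp only at h1 h2 h3 h4
    omega
  have hp' : i < -M ∨ M ≤ i ∨ k < -M ∨ M ≤ k := by
    by_contra hcon
    push Not at hcon
    exact hp (mem_box.2 ⟨⟨hcon.1, hcon.2.1⟩, hcon.2.2.1, hcon.2.2.2⟩)
  rcases hp' with h | h | h | h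
  · -- vertical to height M, then horizontal
    refine (ver_path' (b := M) (fun j h1 h2 => hout _ _ (Or.inl h))).trans
      (hor_path' (fun j h1 h2 => hout _ _ (Or.inr (Or.inr (Or.inr le_rfl)))))
  · refine (ver_path' (b := M) (fun j h1 h2 => hout _ _ (Or.inr (Or.inl h)))).trans
      (hor_path' (fun j h1 h2 => hout _ _ (Or.inr (Or.inr (Or.inr le_rfl)))))
  · refine (hor_path' (b := M) (fun j h1 h2 => hout _ _ (Or.inr (Or.inr (Or.inl h))))).trans
      (ver_path' (fun j h1 h2 => hout _ _ (Or.inr (Or.inl le_rfl))))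
  · refine (hor_path' (b := M) (fun j h1 h2 => hout _ _ (Or.inr (Or.inr (Or.inr h))))).trans
      (ver_path' (fun j h1 h2 => hout _ _ (Or.inr (Or.inl le_rfl))))

/-- Near a point only the grid intervals containing it matter (helper33). -/
lemma line_near {x : ℤ → ℝ} (hx : StrictMono x) {i : ℤ} {s : ℝ} (h1 : x i ≤ s)
    (h2 : s ≤ x (i + 1)) : ∃ r > 0, ∀ s', |s' - s| < r →
      ∃ j, (x j ≤ s ∧ s ≤ x (j + 1)) ∧ (x j ≤ s' ∧ s' ≤ x (j + 1)) := by
  have hi0 : x (i - 1) < x i := hx (by omega)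
  have hi1 : x i < x (i + 1) := hx (by omega)
  have hi2 : x (i + 1) < x (i + 1 + 1) := hx (by omega)
  rcases eq_or_lt_of_le h1 with e1 | e1
  · refine ⟨min (x i - x (i - 1)) (x (i + 1) - x i), lt_min (by linarith) (by linarith), ?_⟩
    intro s' hs'
    rw [lt_min_iff, abs_lt, abs_lt] at hs'
    rcases le_total s s' with h | h
    · exact ⟨i, ⟨h1, h2⟩, by linarith, by linarith [hs'.2.2]⟩
    · refine ⟨i - 1, ⟨by linarith, ?_⟩, by linarith [hs'.1.1], ?_⟩
      · rw [sub_add_cancel]; linarith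
      · rw [sub_add_cancel]; linarith
  · rcases eq_or_lt_of_le h2 with e2 | e2
    · refine ⟨min (s - x i) (x (i + 1 + 1) - x (i + 1)), lt_min (by linarith) (by linarith), ?_⟩
      intro s' hs'
      rw [lt_min_iff, abs_lt, abs_lt] at hs'
      rcases le_total s' s with h | h
      · exact ⟨i, ⟨h1, h2⟩, by linarith [hs'.1.1], by linarith⟩
      · exact ⟨i + 1, ⟨by linarith, by linarith⟩, by linarith, by linarith [hs'.2.2]⟩
    · refine ⟨min (s - x i) (x (i + 1) - s), lt_min (by linarith) (by linarith), ?_⟩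
      intro s' hs'
      rw [lt_min_iff, abs_lt, abs_lt] at hs'
      exact ⟨i, ⟨h1, h2⟩, by linarith [hs'.1.1], by linarith [hs'.2.2]⟩

lemma exists_cell (N : ℕ) (t : ℝ) : ∃ i : ℤ, gx N i ≤ t ∧ t < gx N (i + 1) := by
  refine ⟨⌊t * 2 ^ N⌋, ?_, ?_⟩
  · unfold gx
    rw [div_le_iff₀ (by positivity)]
    exact Int.floor_le _
  · unfold gx
    rw [lt_div_iff₀ (by positivity)]
    push_cast
    exact Int.lt_floor_add_one _

lemma isCompact_gcell (N : ℕ) (s : ℤ × ℤ) : IsCompact (gcell N s) :=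
  (isCompact_Icc).reProdIm isCompact_Icc

/-- the index sets of cells containing a point are adjacent -/
lemma cells_adj {x : ℤ → ℝ} (hx : StrictMono x) {i j : ℤ} {s : ℝ} (h1 : x i ≤ s)
    (h2 : s ≤ x (i + 1)) (h3 : x j ≤ s) (h4 : s ≤ x (j + 1)) : j = i ∨ j = i + 1 ∨ i = j + 1 := by
  have a1 : i ≤ j + 1 := hx.le_iff_le.1 (h1.trans h4)
  have a2 : j ≤ i + 1 := hx.le_iff_le.1 (h3.trans h2)
  omega

lemma cells_rtg {N : ℕ} {S : Set (ℤ × ℤ)} {z : ℂ} (hS : ∀ p, z ∈ gcell N p → p ∈ S)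
    {p q : ℤ × ℤ} (hp : z ∈ gcell N p) (hq : z ∈ gcell N q) :
    Relation.ReflTransGen (Rel4 S) p q := by
  obtain ⟨i, k⟩ := p
  obtain ⟨j, l⟩ := q
  have hm : z ∈ gcell N (j, k) := ⟨hq.1, hp.2⟩
  have s1 : Relation.ReflTransGen (Rel4 S) (i, k) (j, k) := by
    rcases cells_adj (gx_strictMono N) hp.1.1 hp.1.2 hq.1.1 hq.1.2 with h | h | h
    · simp only at h
      rw [h]
    · exact Relation.ReflTransGen.single ⟨Or.inl (by simp only at h; rw [h]), hS _ hp, hS _ hm⟩
    · exact Relation.ReflTransGen.single ⟨Or.inr (Or.inl (by simp only at h; rw [h])), hS _ hp,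
        hS _ hm⟩
  have s2 : Relation.ReflTransGen (Rel4 S) (j, k) (j, l) := by
    rcases cells_adj (gx_strictMono N) hp.2.1 hp.2.2 hq.2.1 hq.2.2 with h | h | h
    · simp only at h
      rw [h]
    · exact Relation.ReflTransGen.single ⟨Or.inr (Or.inr (Or.inl (by simp only at h; rw [h]))),
        hS _ hm, hS _ hq⟩
    · exact Relation.ReflTransGen.single ⟨Or.inr (Or.inr (Or.inr (by simp only at h; rw [h]))),
        hS _ hm, hS _ hq⟩
  exact s1.trans s2

/-- The complement of the inner cells is 4-connected. -/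
theorem conn_of_noIsland {C : Set ℂ} (hC : IsClosed C) (hI : NoIsland C) (N : ℕ) (M : ℤ)
    {Q : Finset (ℤ × ℤ)} (hQ : ∀ s, s ∈ Q ↔ s ∈ box M ∧ gcell N s ⊆ Cᶜ) :
    Q1.CellConn ((Q : Set (ℤ × ℤ))ᶜ) := by
  classical
  set S : Set (ℤ × ℤ) := (Q : Set (ℤ × ℤ))ᶜ with hS
  have hout : ∀ p, p ∉ box M → p ∈ S := by
    intro p hp h
    exact hp ((hQ p).1 h).1
  have hmeet : ∀ p, ∀ z ∈ C, z ∈ gcell N p → p ∈ S := by
    intro p z hz hzp h
    exact ((hQ p).1 h).2 hzp hz
  have key : ∀ p ∈ S, Relation.ReflTransGen (Rel4 S) p (M, M) := by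
    intro p hp
    by_cases hpb : p ∈ box M
    swap
    · exact outside_conn hout hpb
    by_contra hcon
    set T : Set (ℤ × ℤ) := {q | Relation.ReflTransGen (Rel4 S) p q} with hT
    have hTbox : ∀ q ∈ T, q ∈ box M := by
      intro q hq
      by_contra hqb
      exact hcon (hq.trans (outside_conn hout hqb))
    have hTfin : T.Finite := (box M).finite_toSet.subset hTbox
    set D : Set ℂ := C ∩ ⋃ q ∈ T, gcell N q with hD
    have hDc : IsCompact D := (hTfin.isCompact_biUnion (fun q _ => isCompact_gcell N q)).inter_left hC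
    have hDcl : IsClosed (C \ D) := by
      rw [← closure_subset_iff_isClosed]
      intro z hz
      have hzC : z ∈ C := closure_minimal sdiff_subset hC hz
      refine ⟨hzC, ?_⟩
      rintro ⟨-, hzD⟩
      simp only [mem_iUnion, exists_prop] at hzD
      obtain ⟨q, hq, hzq⟩ := hzD
      obtain ⟨r1, hr1, h1⟩ := line_near (gx_strictMono N) hzq.1.1 hzq.1.2
      obtain ⟨r2, hr2, h2⟩ := line_near (gx_strictMono N) hzq.2.1 hzq.2.2
      obtain ⟨w, hw, hzw⟩ := Metric.mem_closure_iff.1 hz (min r1 r2) (lt_min hr1 hr2)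
      rw [dist_comm, dist_eq_norm] at hzw
      have e1 : |w.re - z.re| < r1 := by
        rw [← Complex.sub_re]
        exact (Complex.abs_re_le_norm _).trans_lt (hzw.trans_le (min_le_left _ _))
      have e2 : |w.im - z.im| < r2 := by
        rw [← Complex.sub_im]
        exact (Complex.abs_im_le_norm _).trans_lt (hzw.trans_le (min_le_right _ _))
      obtain ⟨j, hj1, hj2⟩ := h1 _ e1
      obtain ⟨l, hl1, hl2⟩ := h2 _ e2
      have hzj : z ∈ gcell N (j, l) := ⟨hj1, hl1⟩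
      have hwj : w ∈ gcell N (j, l) := ⟨hj2, hl2⟩
      have hjT : (j, l) ∈ T := hq.trans (cells_rtg (fun p' hp' => hmeet p' z hzC hp') hzq hzj)
      apply hw.2
      refine ⟨hw.1, ?_⟩
      simp only [mem_iUnion, exists_prop]
      exact ⟨(j, l), hjT, hwj⟩
    have hDe := hI D inter_subset_left hDc hDcl
    -- but the cell `p` meets `C`
    have hpC : ∃ z ∈ C, z ∈ gcell N p := by
      by_contra hno
      push Not at hno
      apply hp
      rw [Finset.mem_coe, hQ]
      exact ⟨hpb, fun z hz hzC => hno z hzC hz⟩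
    obtain ⟨z, hzC, hzp⟩ := hpC
    have : z ∈ D := by
      refine ⟨hzC, ?_⟩
      simp only [mem_iUnion, exists_prop]
      exact ⟨p, Relation.ReflTransGen.refl, hzp⟩
    rw [hDe] at this
    exact this
  intro p hp q hq
  exact (key p hp).trans (rtg_symm (key q hq))

open Classical in
/-- the cells of level `N` inside `V` -/
noncomputable def QN (V : Set ℂ) (N : ℕ) : Finset (ℤ × ℤ) :=
  (box (N * 2 ^ N)).filter (fun s => gcell N s ⊆ V)

lemma mem_QN {V : Set ℂ} {N : ℕ} {s : ℤ × ℤ} :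
    s ∈ QN V N ↔ s ∈ box (N * 2 ^ N) ∧ gcell N s ⊆ V := by
  classical
  simp [QN]

/-- the polyomino of level `N` -/
noncomputable def ON (V : Set ℂ) (N : ℕ) : Set ℂ := H33.Q1.Omega (QN V N) (gx N) (gx N)

lemma ON_open (V : Set ℂ) (N : ℕ) : IsOpen (ON V N) := isOpen_interior

lemma ON_subset (V : Set ℂ) (N : ℕ) : ON V N ⊆ V := by
  intro z hz
  have := interior_subset hz
  simp only [mem_iUnion, exists_prop] at this
  obtain ⟨s, hs, hzs⟩ := this
  exact (mem_QN.1 hs).2 hzs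

lemma gx_succ (N : ℕ) (i : ℤ) : gx (N + 1) (2 * i) = gx N i := by
  unfold gx
  rw [pow_succ]
  push_cast
  field_simp

lemma refine_idx {N : ℕ} {i : ℤ} {t : ℝ} (h1 : gx N i ≤ t) (h2 : t ≤ gx N (i + 1)) :
    ∃ j : ℤ, (j = 2 * i ∨ j = 2 * i + 1) ∧ gx (N + 1) j ≤ t ∧ t ≤ gx (N + 1) (j + 1) := by
  rcases le_total t (gx (N + 1) (2 * i + 1)) with h | h
  · exact ⟨2 * i, Or.inl rfl, by rw [gx_succ]; exact h1, h⟩
  · refine ⟨2 * i + 1, Or.inr rfl, h, ?_⟩
    have : (2 * i + 1 + 1) = 2 * (i + 1) := by ring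
    rw [this, gx_succ]
    exact h2

lemma ON_mono_succ (V : Set ℂ) (N : ℕ) : ON V N ⊆ ON V (N + 1) := by
  apply interior_mono
  intro z hz
  simp only [mem_iUnion, exists_prop] at hz ⊢
  obtain ⟨s, hs, hzs⟩ := hz
  obtain ⟨hb, hV⟩ := mem_QN.1 hs
  obtain ⟨j, hj, hj1, hj2⟩ := refine_idx hzs.1.1 hzs.1.2
  obtain ⟨l, hl, hl1, hl2⟩ := refine_idx hzs.2.1 hzs.2.2
  refine ⟨(j, l), mem_QN.2 ⟨?_, ?_⟩, ⟨hj1, hj2⟩, ⟨hl1, hl2⟩⟩
  · rw [mem_box] at hb ⊢
    have hp : (0 : ℤ) < 2 ^ N := by positivity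
    have e : ((N + 1 : ℕ) : ℤ) * 2 ^ (N + 1) = 2 * (N * 2 ^ N) + 2 * 2 ^ N := by
      push_cast
      ring
    rw [e]
    simp only
    omega
  · intro w hw
    apply hV
    have a1 : gx N s.1 ≤ gx (N + 1) j := by
      rw [← gx_succ N s.1]
      exact (gx_strictMono _).monotone (by omega)
    have a2 : gx (N + 1) (j + 1) ≤ gx N (s.1 + 1) := by
      rw [← gx_succ N (s.1 + 1)]
      exact (gx_strictMono _).monotone (by omega)
    have a3 : gx N s.2 ≤ gx (N + 1) l := by
      rw [← gx_succ N s.2]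
      exact (gx_strictMono _).monotone (by omega)
    have a4 : gx (N + 1) (l + 1) ≤ gx N (s.2 + 1) := by
      rw [← gx_succ N (s.2 + 1)]
      exact (gx_strictMono _).monotone (by omega)
    exact ⟨⟨a1.trans hw.1.1, hw.1.2.trans a2⟩, ⟨a3.trans hw.2.1, hw.2.2.trans a4⟩⟩

lemma ON_mono (V : Set ℂ) : Monotone (ON V) := monotone_nat_of_le_succ (ON_mono_succ V)

lemma gx_diff (N : ℕ) (i : ℤ) : gx N (i + 1) = gx N i + 1 / 2 ^ N := by
  unfold gx
  push_cast
  ring

lemma exists_ON {V : Set ℂ} (hV : IsOpen V) {z : ℂ} (hz : z ∈ V) : ∃ N, z ∈ ON V N := by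
  obtain ⟨r, hr, hrV⟩ := Metric.isOpen_iff.1 hV z hz
  obtain ⟨N₁, hN₁⟩ := exists_pow_lt_of_lt_one (show (0 : ℝ) < r / 4 by positivity)
    (show (1 / 2 : ℝ) < 1 by norm_num)
  obtain ⟨N₂, hN₂⟩ := exists_nat_gt (‖z‖ + 2)
  set N := max N₁ N₂ with hN
  have h1 : (1 / 2 : ℝ) ^ N < r / 4 :=
    lt_of_le_of_lt (pow_le_pow_of_le_one (by norm_num) (by norm_num) (le_max_left _ _)) hN₁
  have h2 : ‖z‖ + 2 < N := lt_of_lt_of_le hN₂ (by exact_mod_cast le_max_right _ _)
  have hpow : (1 / 2 : ℝ) ^ N = 1 / 2 ^ N := by rw [div_pow, one_pow]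
  rw [hpow] at h1
  set ε : ℝ := 1 / 2 ^ N with hε
  have hε0 : 0 < ε := by positivity
  have hε1 : ε ≤ 1 := by
    rw [hε, div_le_one (by positivity)]
    exact one_le_pow₀ (by norm_num)
  refine ⟨N, ?_⟩
  rw [ON, H33.Q1.Omega, mem_interior_iff_mem_nhds, Metric.mem_nhds_iff]
  refine ⟨ε, hε0, ?_⟩
  intro w hw
  rw [mem_ball, dist_eq_norm] at hw
  obtain ⟨i, hi1, hi2⟩ := exists_cell N w.re
  obtain ⟨k, hk1, hk2⟩ := exists_cell N w.im
  simp only [mem_iUnion, exists_prop]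
  have hwn : ‖w‖ ≤ ‖z‖ + 1 := by
    calc ‖w‖ = ‖z + (w - z)‖ := by congr 1; ring
      _ ≤ ‖z‖ + ‖w - z‖ := norm_add_le _ _
      _ ≤ ‖z‖ + 1 := by linarith
  have hidx : ∀ (t : ℝ) (i : ℤ), |t| ≤ ‖z‖ + 1 → gx N i ≤ t → t < gx N (i + 1) →
      -((N : ℤ) * 2 ^ N) ≤ i ∧ i < (N : ℤ) * 2 ^ N := by
    intro t i ht h3 h4
    rw [abs_le] at ht
    have e1 : (i : ℝ) ≤ t * 2 ^ N := by
      unfold gx at h3
      rwa [div_le_iff₀ (by positivity)] at h3
    have e2 : t * 2 ^ N < i + 1 := by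
      unfold gx at h4
      rw [lt_div_iff₀ (by positivity)] at h4
      push_cast at h4
      exact h4
    have hp : (0 : ℝ) < 2 ^ N := by positivity
    have hp1 : (1 : ℝ) ≤ 2 ^ N := one_le_pow₀ (by norm_num)
    constructor
    · have : (-((N : ℝ) * 2 ^ N)) < i + 1 := by nlinarith
      have h5 : (-((N : ℤ) * 2 ^ N)) < i + 1 := by exact_mod_cast this
      omega
    · have : (i : ℝ) < (N : ℝ) * 2 ^ N := by nlinarith
      exact_mod_cast this
  refine ⟨(i, k), mem_QN.2 ⟨mem_box.2 ⟨?_, ?_⟩, ?_⟩, ⟨hi1, hi2.le⟩, ⟨hk1, hk2.le⟩⟩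
  · exact hidx _ _ ((Complex.abs_re_le_norm _).trans hwn) hi1 hi2
  · exact hidx _ _ ((Complex.abs_im_le_norm _).trans hwn) hk1 hk2
  · intro u hu
    apply hrV
    rw [mem_ball, dist_eq_norm]
    obtain ⟨⟨u1, u2⟩, u3, u4⟩ := mem_gcell.1 hu
    simp only at u1 u2 u3 u4
    rw [gx_diff, ← hε] at u2 u4 hi2 hk2
    have b1 : |(u - w).re| ≤ ε := by
      rw [Complex.sub_re, abs_le]
      constructor <;> linarith
    have b2 : |(u - w).im| ≤ ε := by
      rw [Complex.sub_im, abs_le]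
      constructor <;> linarith
    calc ‖u - z‖ = ‖(u - w) + (w - z)‖ := by congr 1; ring
      _ ≤ ‖u - w‖ + ‖w - z‖ := norm_add_le _ _
      _ ≤ (|(u - w).re| + |(u - w).im|) + ‖w - z‖ := by
          gcongr
          exact Complex.norm_le_abs_re_add_abs_im _
      _ < r := by linarith

/-- Existence of primitives on connected open sets whose complement has no islands. -/
theorem exists_primitive {V : Set ℂ} (hV : IsOpen V) (hc : IsPreconnected V)
    (hI : NoIsland Vᶜ) {f : ℂ → ℂ} (hf : DifferentiableOn ℂ f V) :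
    ∃ Φ : ℂ → ℂ, ∀ z ∈ V, HasDerivAt Φ (f z) z := by
  classical
  rcases V.eq_empty_or_nonempty with rfl | ⟨z₀, hz₀⟩
  · exact ⟨0, fun z hz => absurd hz (notMem_empty z)⟩
  obtain ⟨N₀, hN₀⟩ := exists_ON hV hz₀
  have hprim : ∀ N, ∃ Φ : ℂ → ℂ, Φ z₀ = 0 ∧ ∀ z ∈ ON V N, HasDerivAt Φ (f z) z := by
    intro N
    have hconn := conn_of_noIsland hV.isClosed_compl hI N (N * 2 ^ N) (Q := QN V N) (by
      intro s
      rw [mem_QN, compl_compl])
    have hde : H33.Q1.DiscreteExact (QN V N) := by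
      intro α β hcl
      obtain ⟨φ, h1, h2⟩ := _root_.Q1.exact_of_closed (QN V N) hconn
        (fun p => α p.1 p.2) (fun p => β p.1 p.2) hcl
      exact ⟨fun i k => φ (i, k), h1, h2⟩
    obtain ⟨Φ, hΦ⟩ := H33.Q1.exists_primitive (gx_strictMono N) (gx_strictMono N) hde
      (hf.mono (ON_subset V N))
    exact ⟨fun z => Φ z - Φ z₀, sub_self _, fun z hz => (hΦ z hz).sub_const _⟩
  choose Φ hΦ0 hΦ using hprim
  set W : ℕ → Set ℂ := fun N => connectedComponentIn (ON V N) z₀ with hW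
  have hWopen : ∀ N, IsOpen (W N) := fun N => (ON_open V N).connectedComponentIn
  have hWsub : ∀ N, W N ⊆ ON V N := fun N => connectedComponentIn_subset _ _
  have hz₀ON : ∀ N, N₀ ≤ N → z₀ ∈ ON V N := fun N hN => ON_mono V hN hN₀
  have hz₀W : ∀ N, N₀ ≤ N → z₀ ∈ W N := fun N hN => mem_connectedComponentIn (hz₀ON N hN)
  have hWconn : ∀ N, IsPreconnected (W N) := fun N => isPreconnected_connectedComponentIn
  have hWmono : ∀ N N', N ≤ N' → W N ⊆ W N' := by
    intro N N' hNN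
    by_cases hN : z₀ ∈ ON V N
    · exact (hWconn N).subset_connectedComponentIn (mem_connectedComponentIn hN)
        ((hWsub N).trans (ON_mono V hNN))
    · simp only [hW]
      rw [connectedComponentIn_eq_empty hN]
      exact empty_subset _
  -- agreement
  have hagree : ∀ N N', N ≤ N' → EqOn (Φ N) (Φ N') (W N) := by
    intro N N' hNN
    by_cases hN : z₀ ∈ ON V N
    · have hz0 : z₀ ∈ W N := mem_connectedComponentIn hN
      have hd : ∀ z ∈ W N, HasDerivAt (fun z => Φ N z - Φ N' z) 0 z := by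
        intro z hz
        have h1 := (hΦ N z (hWsub N hz)).sub (hΦ N' z (ON_mono V hNN (hWsub N hz)))
        rw [sub_self] at h1
        exact h1
      intro z hz
      have h2 : (fun z => Φ N z - Φ N' z) z = (fun z => Φ N z - Φ N' z) z₀ := by
        apply (hWopen N).is_const_of_deriv_eq_zero (hWconn N)
          (fun w hw => (hd w hw).differentiableAt.differentiableWithinAt)
          (fun w hw => (hd w hw).deriv) hz hz0
      simp only [hΦ0, sub_self] at h2
      exact sub_eq_zero.1 h2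
    · intro z hz
      simp only [hW] at hz
      rw [connectedComponentIn_eq_empty hN] at hz
      exact absurd hz (notMem_empty z)
  -- exhaustion
  have hcover : V ⊆ ⋃ N, W N := by
    have hWo : IsOpen (⋃ N, W N) := isOpen_iUnion hWopen
    have hne : (V ∩ ⋃ N, W N).Nonempty := ⟨z₀, hz₀, mem_iUnion.2 ⟨N₀, hz₀W N₀ le_rfl⟩⟩
    by_contra hcon
    obtain ⟨z₁, hz₁V, hz₁W⟩ := not_subset.1 hcon
    set Z : Set ℂ := (⋃ N, W N)ᶜ ∩ V with hZ
    -- `Z` is open
    have hZo : IsOpen Z := by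
      rw [isOpen_iff_mem_nhds]
      rintro z ⟨hzW, hzV⟩
      obtain ⟨N, hN⟩ := exists_ON hV hzV
      obtain ⟨r, hr, hrN⟩ := Metric.isOpen_iff.1 (ON_open V N) z hN
      refine mem_of_superset (ball_mem_nhds z hr) ?_
      intro w hw
      refine ⟨?_, ON_subset V N (hrN hw)⟩
      intro hwW
      obtain ⟨N', hN'⟩ := mem_iUnion.1 hwW
      apply hzW
      have hM1 : W N' ⊆ W (max N N') := hWmono _ _ (le_max_right _ _)
      have hM2 : ball z r ⊆ ON V (max N N') := hrN.trans (ON_mono V (le_max_left _ _))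
      have hpc : IsPreconnected (W (max N N') ∪ ball z r) :=
        (hWconn _).union w (hM1 hN') hw (convex_ball z r).isPreconnected
      have hz0' : z₀ ∈ W (max N N') := by
        have : z₀ ∈ ON V (max N N') := by
          by_contra hno
          have h1 := hM1 hN'
          simp only [hW] at h1
          rw [connectedComponentIn_eq_empty hno] at h1
          exact absurd h1 (notMem_empty w)
        exact mem_connectedComponentIn this
      have hsub := hpc.subset_connectedComponentIn (F := ON V (max N N')) (x := z₀)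
        (Or.inl hz0') (union_subset (hWsub _) hM2)
      exact mem_iUnion.2 ⟨max N N', hsub (Or.inr (mem_ball_self hr))⟩
    obtain ⟨u, huV, huW, huZ⟩ := hc (⋃ N, W N) Z hWo hZo (fun z hz => by
      by_cases h : z ∈ ⋃ N, W N
      · exact Or.inl h
      · exact Or.inr ⟨h, hz⟩) hne ⟨z₁, hz₁V, hz₁W, hz₁V⟩
    exact huZ.1 huW
  -- glue
  set n : ℂ → ℕ := fun z => if h : ∃ N, z ∈ W N then Nat.find h else 0 with hn
  have hn1 : ∀ z N, z ∈ W N → z ∈ W (n z) ∧ n z ≤ N := by
    intro z N hz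
    have h : ∃ N, z ∈ W N := ⟨N, hz⟩
    simp only [hn, dif_pos h]
    exact ⟨Nat.find_spec h, Nat.find_min' h hz⟩
  refine ⟨fun z => Φ (n z) z, fun z hz => ?_⟩
  obtain ⟨N, hN⟩ := mem_iUnion.1 (hcover hz)
  have h1 : (fun z => Φ (n z) z) =ᶠ[𝓝 z] Φ N := by
    filter_upwards [(hWopen N).mem_nhds hN] with w hw
    obtain ⟨h2, h3⟩ := hn1 w N hw
    exact hagree _ _ h3 h2
  exact (hΦ N z (hWsub N hN)).congr_of_eventuallyEq h1

/-- Square roots. -/
theorem hasSqrt_of_noIsland {V : Set ℂ} (hV : IsOpen V) (hc : IsPreconnected V)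
    (hI : NoIsland Vᶜ) : HasSqrt V := by
  intro f hf hf0
  rcases V.eq_empty_or_nonempty with rfl | ⟨z₀, hz₀⟩
  · exact ⟨0, differentiableOn_empty, fun z hz => absurd hz (notMem_empty z)⟩
  have hfd : DifferentiableOn ℂ (fun z => deriv f z / f z) V := (hf.deriv hV).div hf hf0
  obtain ⟨L, hL⟩ := exists_primitive hV hc hI hfd
  have hconst : ∀ z ∈ V, Complex.exp (-L z) * f z = Complex.exp (-L z₀) * f z₀ := by
    intro z hz
    have hd : ∀ w ∈ V, HasDerivAt (fun w => Complex.exp (-L w) * f w) 0 w := by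
      intro w hw
      have h1 := ((hL w hw).neg.cexp).mul (hf.differentiableAt (hV.mem_nhds hw)).hasDerivAt
      have h2 : Complex.exp (-L w) * -(deriv f w / f w) * f w + Complex.exp (-L w) * deriv f w
          = 0 := by
        have := hf0 w hw
        field_simp
        ring
      have h3 := h1.congr_deriv h2
      exact h3
    exact hV.is_const_of_deriv_eq_zero hc
      (fun w hw => (hd w hw).differentiableAt.differentiableWithinAt)
      (fun w hw => (hd w hw).deriv) hz hz₀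
  set c : ℂ := Complex.exp (-L z₀) * f z₀ with hcdef
  obtain ⟨s, hs⟩ := IsAlgClosed.exists_pow_nat_eq c (n := 2) (by norm_num)
  refine ⟨fun z => s * Complex.exp (L z / 2), ?_, ?_⟩
  · intro z hz
    exact ((hL z hz).differentiableAt.div_const 2).cexp.const_mul s |>.differentiableWithinAt
  · intro z hz
    have h1 := hconst z hz
    simp only
    rw [mul_pow, hs, ← h1, ← Complex.exp_nat_mul]
    have h2 : ((2 : ℕ) : ℂ) * (L z / 2) = L z := by push_cast; ring
    rw [h2, mul_comm (Complex.exp (-L z)), mul_assoc, ← Complex.exp_add, neg_add_cancel,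
      Complex.exp_zero, mul_one]

end Pool.Agent.H83.Lo
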