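import Pool.Agent.H83.Lo.Hyd
import Pool.Agent.H83.Lo.SC

set_option autoImplicit false

/-!
# Existence of the normalised map from a symmetric domain

`V` symmetric, connected, containing a neighbourhood of infinity, with connected complement (in
the form: no compact relatively clopen part of the complement avoids `x₀`), `U = V ∩ UH`.
-/

namespace Pool.Agent.H83.Lo

open Complex Metric Set Filter Topology
open scoped ComplexConjugate

/-- the Joukowski map is injective on the punctured disc -/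
lemma jouk_inj {s t : ℂ} (hs : ‖s‖ < 1) (ht : ‖t‖ < 1) (hs0 : s ≠ 0) (ht0 : t ≠ 0)
    (h : s + s⁻¹ = t + t⁻¹) : s = t := by
  have h1 : (s - t) * (s * t - 1) = 0 := by
    field_simp at h
    linear_combination h
  rcases mul_eq_zero.1 h1 with h2 | h2
  · exact sub_eq_zero.1 h2
  · exfalso
    have h3 : s * t = 1 := by linear_combination h2
    have h4 : ‖s‖ * ‖t‖ = 1 := by rw [← norm_mul, h3, norm_one]
    have h5 : ‖s‖ * ‖t‖ < 1 := by
      have := norm_nonneg s
      have := norm_nonneg t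
      nlinarith
    linarith

lemma jouk_im {s : ℂ} : (s + s⁻¹).im = -(s.im * (1 / ‖s‖ ^ 2 - 1)) := by
  rw [Complex.add_im, Complex.inv_im, Complex.normSq_eq_norm_sq]
  ring

lemma jouk_surj {a : ℂ} (ha : a.im ≠ 0) : ∃ s : ℂ, s ≠ 0 ∧ ‖s‖ < 1 ∧ s + s⁻¹ = a := by
  obtain ⟨d, hd⟩ := IsAlgClosed.exists_pow_nat_eq (a ^ 2 - 4) (n := 2) (by norm_num)
  set s₁ : ℂ := (a + d) / 2 with hs₁
  set s₂ : ℂ := (a - d) / 2 with hs₂
  have hprod : s₁ * s₂ = 1 := by
    rw [hs₁, hs₂]
    linear_combination (-1 / 4) * hd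
  have hsum : s₁ + s₂ = a := by rw [hs₁, hs₂]; ring
  have h1 : s₁ ≠ 0 := left_ne_zero_of_mul_eq_one hprod
  have h2 : s₂ ≠ 0 := right_ne_zero_of_mul_eq_one hprod
  have i1 : s₁⁻¹ = s₂ := inv_eq_of_mul_eq_one_right hprod
  have i2 : s₂⁻¹ = s₁ := inv_eq_of_mul_eq_one_left hprod
  have hn : ‖s₁‖ * ‖s₂‖ = 1 := by rw [← norm_mul, hprod, norm_one]
  have hne : ‖s₁‖ ≠ 1 := by
    intro h
    apply ha
    rw [← hsum, ← i1, jouk_im, h]
    norm_num
  have hn1 : 0 < ‖s₁‖ := norm_pos_iff.2 h1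
  rcases lt_or_gt_of_ne hne with h | h
  · exact ⟨s₁, h1, h, by rw [i1, hsum]⟩
  · refine ⟨s₂, h2, ?_, by rw [i2, add_comm, hsum]⟩
    by_contra hcon
    push Not at hcon
    nlinarith

/-- Existence of the normalised map from the symmetric domain. -/
theorem exists_of_sym {U V : Set ℂ} {x₀ : ℝ} (hUo : IsOpen U) (hUc : IsPreconnected U)
    (hUsub : U ⊆ UH) (hVo : IsOpen V) (hVc : IsPreconnected V)
    (hVU : ∀ z ∈ V, 0 < z.im → z ∈ U) (hUV : U ⊆ V) (hVs : ∀ z ∈ V, conj z ∈ V)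
    (hx₀ : (x₀ : ℂ) ∉ V) (hfar : ∃ R : ℝ, ∀ z : ℂ, R < ‖z‖ → z ∈ V)
    (hne : ∃ k, k ∉ V ∧ k ≠ (x₀ : ℂ))
    (hisl : ∀ D ⊆ Vᶜ, IsCompact D → IsClosed (Vᶜ \ D) → (x₀ : ℂ) ∉ D → D = ∅) :
    ∃ (g : ℂ → ℂ) (c : ℝ), Hyd U g c := by
  obtain ⟨R, hR⟩ := hfar
  -- the inverted domain
  set W : Set ℂ := {ζ | ζ = 0 ∨ (x₀ : ℂ) + ζ⁻¹ ∈ V} with hW
  have hW0 : (0 : ℂ) ∈ W := Or.inl rfl
  have hWmem : ∀ ζ : ℂ, ζ ≠ 0 → (ζ ∈ W ↔ (x₀ : ℂ) + ζ⁻¹ ∈ V) := by
    intro ζ hζ
    simp [hW, hζ]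
  have hfarW : ∃ ρ > 0, ball (0 : ℂ) ρ ⊆ W := by
    refine ⟨1 / (max R 0 + |x₀| + 1), by positivity, fun ζ hζ => ?_⟩
    by_cases h0 : ζ = 0
    · exact Or.inl h0
    · right
      apply hR
      have hn : 0 < ‖ζ‖ := norm_pos_iff.2 h0
      rw [mem_ball_zero_iff, lt_div_iff₀ (by positivity)] at hζ
      have h1 : max R 0 + |x₀| + 1 < ‖ζ⁻¹‖ := by
        rw [norm_inv, lt_inv_comm₀ (by positivity) hn, ← one_div, lt_div_iff₀ (by positivity)]
        exact hζ
      have h2 : ‖ζ⁻¹‖ ≤ ‖(x₀ : ℂ) + ζ⁻¹‖ + ‖(x₀ : ℂ)‖ := by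
        calc ‖ζ⁻¹‖ = ‖((x₀ : ℂ) + ζ⁻¹) - x₀‖ := by congr 1; ring
          _ ≤ _ := norm_sub_le _ _
      rw [Complex.norm_real, Real.norm_eq_abs] at h2
      have := le_max_left R 0
      linarith
  have hinvc : ∀ ζ : ℂ, ζ ≠ 0 → ContinuousAt (fun ζ : ℂ => (x₀ : ℂ) + ζ⁻¹) ζ := fun ζ hζ =>
    continuousAt_const.add (continuousAt_inv₀ hζ)
  have hWo : IsOpen W := by
    rw [isOpen_iff_mem_nhds]
    intro ζ hζ
    by_cases h0 : ζ = 0
    · obtain ⟨ρ, hρ, hρW⟩ := hfarW
      rw [h0]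
      exact mem_of_superset (ball_mem_nhds _ hρ) hρW
    · have h1 := (hWmem ζ h0).1 hζ
      filter_upwards [(hinvc ζ h0).tendsto.eventually (hVo.mem_nhds h1)] with ξ hξ
      exact Or.inr hξ
  have hx₀V : ∀ z ∈ V, z - x₀ ≠ 0 := by
    intro z hz h
    apply hx₀
    have : z = x₀ := by linear_combination h
    rwa [← this]
  have hWpunct : W \ {0} = (fun z : ℂ => (z - x₀)⁻¹) '' V := by
    ext ζ
    constructor
    · rintro ⟨h1, h2⟩
      have h0 : ζ ≠ 0 := h2
      refine ⟨(x₀ : ℂ) + ζ⁻¹, (hWmem ζ h0).1 h1, ?_⟩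
      simp
    · rintro ⟨z, hz, rfl⟩
      have h0 := hx₀V z hz
      refine ⟨Or.inr ?_, inv_ne_zero h0⟩
      simpa using hz
  have hWc : IsPreconnected W := by
    have h1 : IsPreconnected (W \ {0}) := by
      rw [hWpunct]
      apply hVc.image
      intro z hz
      exact ((continuousAt_id.sub continuousAt_const).inv₀ (hx₀V z hz)).continuousWithinAt
    apply h1.subset_closure sdiff_subset
    intro ζ hζ
    by_cases h0 : ζ = 0
    · rw [h0, Metric.mem_closure_iff]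
      intro ε hε
      obtain ⟨ρ, hρ, hρW⟩ := hfarW
      have hm : 0 < min ε ρ / 2 := by
        have := lt_min hε hρ
        positivity
      have hmn : ‖((min ε ρ / 2 : ℝ) : ℂ)‖ = min ε ρ / 2 := by
        rw [Complex.norm_real, Real.norm_eq_abs, abs_of_pos hm]
      refine ⟨((min ε ρ / 2 : ℝ) : ℂ), ⟨hρW ?_, ?_⟩, ?_⟩
      · rw [mem_ball_zero_iff, hmn]
        have := min_le_right ε ρ
        linarith
      · simp only [mem_singleton_iff]
        exact_mod_cast hm.ne'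
      · rw [dist_comm, dist_zero_right, hmn]
        have := min_le_left ε ρ
        linarith
    · exact subset_closure ⟨hζ, h0⟩
  have hWne : W ≠ univ := by
    obtain ⟨k, hk, hk0⟩ := hne
    intro h
    have h1 : k - x₀ ≠ 0 := sub_ne_zero.2 hk0
    have h2 : (k - x₀)⁻¹ ∈ W := by rw [h]; exact mem_univ _
    rw [hWmem _ (inv_ne_zero h1), inv_inv] at h2
    apply hk
    simpa using h2
  have hWisl : NoIsland Wᶜ := by
    intro D hD hDc hDcl
    have hD0 : ∀ ζ ∈ D, ζ ≠ 0 := fun ζ hζ h0 => hD hζ (by rw [h0]; exact hW0)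
    set D₁ : Set ℂ := (fun ζ : ℂ => (x₀ : ℂ) + ζ⁻¹) '' D with hD₁
    have h1 : D₁ = ∅ := by
      apply hisl
      · rintro _ ⟨ζ, hζ, rfl⟩ hV
        exact hD hζ ((hWmem ζ (hD0 ζ hζ)).2 hV)
      · apply hDc.image_of_continuousOn
        intro ζ hζ
        exact (hinvc ζ (hD0 ζ hζ)).continuousWithinAt
      · rw [← closure_subset_iff_isClosed]
        intro k hk
        have hkV : k ∈ Vᶜ := closure_minimal sdiff_subset hVo.isClosed_compl hk
        refine ⟨hkV, ?_⟩
        rintro ⟨ζ, hζ, hζk⟩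
        have hζ0 := hD0 ζ hζ
        simp only at hζk
        have hk0 : k - x₀ ≠ 0 := by
          rw [← hζk, add_sub_cancel_left]
          exact inv_ne_zero hζ0
        have hζ2 : ζ = (k - x₀)⁻¹ := by rw [← hζk, add_sub_cancel_left, inv_inv]
        -- `ζ` is in the closure of `Wᶜ \ D`
        have h2 : ζ ∈ closure (Wᶜ \ D) := by
          rw [hζ2]
          have hcont : ContinuousWithinAt (fun z : ℂ => (z - x₀)⁻¹) (Vᶜ \ D₁) k :=
            ((continuousAt_id.sub continuousAt_const).inv₀ hk0).continuousWithinAt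
          have h3 := hcont.mem_closure_image hk
          -- remove the point `x₀`
          have hk' : k ∈ closure ((Vᶜ \ D₁) ∩ {(x₀ : ℂ)}ᶜ) := by
            rw [mem_closure_iff_nhdsWithin_neBot] at hk ⊢
            have h4 : {(x₀ : ℂ)}ᶜ ∈ 𝓝 k := isOpen_compl_singleton.mem_nhds (fun h => hk0 (by
              rw [mem_singleton_iff.1 h, sub_self]))
            have h5 : 𝓝[(Vᶜ \ D₁) ∩ {(x₀ : ℂ)}ᶜ] k = 𝓝[Vᶜ \ D₁] k := nhdsWithin_inter_of_mem'
              (mem_nhdsWithin_of_mem_nhds h4)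
            rwa [h5]
          have hcont2 : ContinuousWithinAt (fun z : ℂ => (z - x₀)⁻¹)
              ((Vᶜ \ D₁) ∩ {(x₀ : ℂ)}ᶜ) k :=
            ((continuousAt_id.sub continuousAt_const).inv₀ hk0).continuousWithinAt
          apply closure_mono _ (hcont2.mem_closure_image hk')
          rintro _ ⟨z, ⟨⟨hz1, hz2⟩, hz3⟩, rfl⟩
          have hz0 : z - x₀ ≠ 0 := sub_ne_zero.2 hz3
          simp only
          constructor
          · intro hcon
            rw [hWmem _ (inv_ne_zero hz0), inv_inv] at hcon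
            apply hz1
            simpa using hcon
          · intro hcon
            apply hz2
            exact ⟨_, hcon, by simp⟩
        exact (hDcl.closure_subset h2).2 hζ
      · rintro ⟨ζ, hζ, h2⟩
        simp only [add_eq_left] at h2
        exact inv_ne_zero (hD0 ζ hζ) h2
    exact image_eq_empty.1 h1
  -- the Riemann map
  obtain ⟨Φ, hΦd, hΦb, hΦ0, κ, hκ, hΦ'⟩ := riemann_mapping hWo hWc
    (hasSqrt_of_noIsland hWo hWc hWisl) hWne hW0
  -- symmetry
  have hWs : ∀ ζ ∈ W, conj ζ ∈ W := by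
    intro ζ hζ
    by_cases h0 : ζ = 0
    · rw [h0, map_zero]; exact hW0
    · have h1 := hVs _ ((hWmem ζ h0).1 hζ)
      rw [hWmem _ ((map_ne_zero _).2 h0)]
      rw [map_add, Complex.conj_ofReal, map_inv₀] at h1
      exact h1
  have hsym : ∀ ζ ∈ W, Φ (conj ζ) = conj (Φ ζ) := by
    have h1 : EqOn Φ (fun ζ => conj (Φ (conj ζ))) W := by
      apply riemann_unique hWo hW0 hΦd _ hΦb _ hΦ0 (by simp [hΦ0]) hκ hκ hΦ'
      · have h2 : HasDerivAt Φ (κ : ℂ) 0 := by
          rw [← hΦ']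
          exact (hΦd.differentiableAt (hWo.mem_nhds hW0)).hasDerivAt
        have h3 := h2.conj_conj
        rw [map_zero, Complex.conj_ofReal] at h3
        exact h3.deriv
      · intro ζ hζ
        have h2 := ((hΦd.differentiableAt (hWo.mem_nhds (hWs ζ hζ))).hasDerivAt.conj_conj)
        rw [Complex.conj_conj] at h2
        exact h2.differentiableAt.differentiableWithinAt
      · refine ⟨?_, ?_, ?_⟩
        · intro ζ hζ
          have := hΦb.mapsTo (hWs ζ hζ)
          rw [mem_ball_zero_iff] at this ⊢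
          rwa [RCLike.norm_conj]
        · intro ζ hζ ξ hξ heq
          have h2 := hΦb.injOn (hWs ζ hζ) (hWs ξ hξ) ((starRingEnd ℂ).injective heq)
          exact (starRingEnd ℂ).injective h2
        · intro w hw
          have hw' : conj w ∈ ball (0 : ℂ) 1 := by
            rw [mem_ball_zero_iff] at hw ⊢
            rwa [RCLike.norm_conj]
          obtain ⟨ζ, hζ, h2⟩ := hΦb.surjOn hw'
          exact ⟨conj ζ, hWs ζ hζ, by simp only [Complex.conj_conj]; rw [h2, Complex.conj_conj]⟩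
    intro ζ hζ
    have h2 := h1 (hWs ζ hζ)
    simp only [Complex.conj_conj] at h2
    exact h2
  -- real values only at real points
  have hreal : ∀ ζ ∈ W, (Φ ζ).im = 0 → ζ.im = 0 := by
    intro ζ hζ h
    have h1 : Φ (conj ζ) = Φ ζ := by
      rw [hsym ζ hζ]
      exact Complex.conj_eq_iff_im.2 h
    have h2 := hΦb.injOn (hWs ζ hζ) hζ h1
    exact Complex.conj_eq_iff_im.1 h2
  have hΦne : ∀ ζ ∈ W, ζ ≠ 0 → Φ ζ ≠ 0 := by
    intro ζ hζ h0 h
    exact h0 (hΦb.injOn hζ hW0 (h.trans hΦ0.symm))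
  have hκc : (κ : ℂ) ≠ 0 := by exact_mod_cast hκ.ne'
  -- the quotient
  set ψ : ℂ → ℂ := dslope Φ 0 with hψ
  have hψd : DifferentiableOn ℂ ψ W :=
    (Complex.differentiableOn_dslope (hWo.mem_nhds hW0)).2 hΦd
  have hψ0 : ψ 0 = κ := by rw [hψ, dslope_same, hΦ']
  have hψ1 : ∀ ζ : ℂ, ζ ≠ 0 → ψ ζ = Φ ζ / ζ := by
    intro ζ hζ
    rw [hψ, dslope_of_ne _ hζ, slope_def_field, hΦ0, sub_zero, sub_zero]
  have hψne : ∀ ζ ∈ W, ψ ζ ≠ 0 := by
    intro ζ hζ
    by_cases h0 : ζ = 0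
    · rw [h0, hψ0]; exact hκc
    · rw [hψ1 ζ h0]
      exact div_ne_zero (hΦne ζ hζ h0) h0
  set χ : ℂ → ℂ := dslope (fun ζ => (ψ ζ)⁻¹) 0 with hχ
  have hχd : DifferentiableOn ℂ χ W :=
    (Complex.differentiableOn_dslope (hWo.mem_nhds hW0)).2 (hψd.inv hψne)
  have hχ1 : ∀ ζ : ℂ, ζ ≠ 0 → χ ζ = (Φ ζ)⁻¹ - (κ * ζ)⁻¹ := by
    intro ζ hζ
    rw [hχ, dslope_of_ne _ hζ, slope_def_field, hψ0, hψ1 ζ hζ, sub_zero, inv_div, sub_div,
      mul_inv]
    congr 1
    · field_simp
  set A : ℂ → ℂ := fun ζ => κ * (Φ ζ + χ ζ) with hA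
  have hAd : DifferentiableOn ℂ A W := (hΦd.add hχd).const_mul _
  have hA1 : ∀ ζ : ℂ, ζ ≠ 0 → κ * (Φ ζ + (Φ ζ)⁻¹) = ζ⁻¹ + A ζ := by
    intro ζ hζ
    simp only [hA]
    rw [hχ1 ζ hζ]
    have e : (κ : ℂ) * (κ * ζ)⁻¹ = ζ⁻¹ := by field_simp
    linear_combination e
  -- symmetry of `A`
  have hAs : ∀ ζ ∈ W, A (conj ζ) = conj (A ζ) := by
    have h1 : ∀ ζ ∈ W, ζ ≠ 0 → A (conj ζ) = conj (A ζ) := by
      intro ζ hζ h0
      have h0' : conj ζ ≠ 0 := (map_ne_zero _).2 h0
      have e1 := hA1 ζ h0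
      have e2 := hA1 (conj ζ) h0'
      rw [hsym ζ hζ] at e2
      have e3 := congrArg conj e1
      rw [map_mul, map_add, map_inv₀, map_add, map_inv₀, Complex.conj_ofReal] at e3
      have : (conj ζ)⁻¹ + A (conj ζ) = (conj ζ)⁻¹ + conj (A ζ) := by rw [← e2, ← e3]
      exact add_left_cancel this
    intro ζ hζ
    by_cases h0 : ζ = 0
    · -- by continuity
      rw [h0, map_zero]
      have hc : ContinuousAt A 0 := (hAd.continuousOn.continuousAt (hWo.mem_nhds hW0))
      have l1 : Tendsto (fun ζ => A (conj ζ)) (𝓝[≠] 0) (𝓝 (A 0)) := by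
        have h2 : Tendsto (fun ζ : ℂ => conj ζ) (𝓝[≠] 0) (𝓝 0) := by
          have := (Complex.continuous_conj.tendsto (0 : ℂ))
          rw [map_zero] at this
          exact this.mono_left nhdsWithin_le_nhds
        exact hc.tendsto.comp h2
      have l2 : Tendsto (fun ζ => conj (A ζ)) (𝓝[≠] 0) (𝓝 (conj (A 0))) :=
        ((Complex.continuous_conj.tendsto _).comp hc.tendsto).mono_left nhdsWithin_le_nhds
      apply tendsto_nhds_unique (l1.congr' _) l2
      have h3 : ∀ᶠ ζ in 𝓝[≠] (0 : ℂ), ζ ∈ W :=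
        mem_nhdsWithin_of_mem_nhds (hWo.mem_nhds hW0)
      have h4 : ∀ᶠ ζ in 𝓝[≠] (0 : ℂ), ζ ≠ 0 := self_mem_nhdsWithin
      filter_upwards [h3, h4] with ξ hξ hξ0
      exact h1 ξ hξ hξ0
    · exact h1 ζ hζ h0
  have hA0 : (A 0).im = 0 := by
    have := hAs 0 hW0
    rw [map_zero] at this
    exact Complex.conj_eq_iff_im.1 this.symm
  have hAdiff : HasDerivAt A (deriv A 0) 0 :=
    (hAd.differentiableAt (hWo.mem_nhds hW0)).hasDerivAt
  have hA' : (deriv A 0).im = 0 := by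
    have h1 := hAdiff.conj_conj
    rw [map_zero] at h1
    have h2 : HasDerivAt A (conj (deriv A 0)) 0 := by
      apply h1.congr_of_eventuallyEq
      filter_upwards [hWo.mem_nhds hW0] with ζ hζ
      simp only [Function.comp]
      rw [hAs ζ hζ, Complex.conj_conj]
    exact Complex.conj_eq_iff_im.1 (h2.unique hAdiff)
  set b : ℝ := (A 0).re with hb
  set c : ℝ := (deriv A 0).re with hc
  have hbA : A 0 = b := Complex.ext (by simp [hb]) (by simp [hA0])
  have hcA : deriv A 0 = c := Complex.ext (by simp [hc]) (by simp [hA'])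
  -- the inversion
  set ι : ℂ → ℂ := fun z => (z - x₀)⁻¹ with hι
  have hιW : ∀ z ∈ V, ι z ∈ W ∧ ι z ≠ 0 := by
    intro z hz
    have h0 := hx₀V z hz
    refine ⟨Or.inr ?_, inv_ne_zero h0⟩
    simpa [hι] using hz
  have hιinv : ∀ z : ℂ, (ι z)⁻¹ = z - x₀ := fun z => inv_inv _
  set g : ℂ → ℂ := fun z => κ * (Φ (ι z) + (Φ (ι z))⁻¹) + x₀ - b with hg
  have hg1 : ∀ z ∈ V, g z = z + (A (ι z) - A 0) := by
    intro z hz
    simp only [hg]
    rw [hA1 _ (hιW z hz).2, hιinv, hbA]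
    ring
  have hgim : ∀ z : ℂ, (g z).im = κ * (Φ (ι z) + (Φ (ι z))⁻¹).im := by
    intro z
    simp only [hg]
    rw [Complex.sub_im, Complex.add_im, Complex.ofReal_im, Complex.ofReal_im,
      Complex.im_ofReal_mul]
    ring
  have hιd : ∀ z ∈ V, DifferentiableAt ℂ ι z := fun z hz =>
    (differentiableAt_id.sub_const _).inv (hx₀V z hz)
  have hΦι : ∀ z ∈ V, DifferentiableAt ℂ (fun z => Φ (ι z)) z := by
    intro z hz
    exact (hΦd.differentiableAt (hWo.mem_nhds (hιW z hz).1)).comp z (hιd z hz)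
  have hΦιn : ∀ z ∈ V, Φ (ι z) ≠ 0 ∧ ‖Φ (ι z)‖ < 1 := by
    intro z hz
    refine ⟨hΦne _ (hιW z hz).1 (hιW z hz).2, ?_⟩
    have := hΦb.mapsTo (hιW z hz).1
    rwa [mem_ball_zero_iff] at this
  have hιreal : ∀ z : ℂ, (ι z).im = 0 → z.im = 0 := by
    intro z h
    have h1 : conj (ι z) = ι z := Complex.conj_eq_iff_im.2 h
    have h2 : conj z = z := by
      simp only [hι] at h1
      rw [map_inv₀, map_sub, Complex.conj_ofReal] at h1
      have h3 := inv_injective h1
      linear_combination h3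
    exact Complex.conj_eq_iff_im.1 h2
  -- the filters
  have hshift : Tendsto (fun z : ℂ => z - x₀) atUH (Bornology.cobounded ℂ) := by
    rw [← tendsto_norm_atTop_iff_cobounded]
    have h1 : Tendsto (fun z : ℂ => ‖z‖ - ‖(x₀ : ℂ)‖) atUH atTop :=
      tendsto_atTop_add_const_right _ _ tendsto_norm_atUH
    exact tendsto_atTop_mono (fun z => norm_sub_norm_le _ _) h1
  have hιlim : Tendsto ι atUH (𝓝 0) := Filter.tendsto_inv₀_cobounded.comp hshift
  have hVev : ∀ᶠ z in atUH, z ∈ V := eventually_atUH.2 ⟨R, fun z hz _ => hR z hz⟩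
  -- sign on `U`
  have hneg : ∀ z ∈ U, (Φ (ι z)).im < 0 := by
    -- a point with negative value
    obtain ⟨z₂, hz₂, hz₂n⟩ : ∃ z₂ ∈ U, (Φ (ι z₂)).im < 0 := by
      have h1 : Tendsto (fun z => (ψ (ι z)).re) atUH (𝓝 κ) := by
        have h2 : ContinuousAt ψ 0 := hψd.continuousOn.continuousAt (hWo.mem_nhds hW0)
        have h3 := (Complex.continuous_re.tendsto _).comp (h2.tendsto.comp hιlim)
        rw [hψ0, Complex.ofReal_re] at h3
        exact h3
      have h4 : ∀ᶠ z in atUH, 0 < (ψ (ι z)).re := h1.eventually (lt_mem_nhds hκ)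
      have h5 : Tendsto (fun y : ℝ => (x₀ : ℂ) + y * I) atTop atUH := by
        rw [show atUH = Bornology.cobounded ℂ ⊓ 𝓟 UH from rfl, tendsto_inf, tendsto_principal,
          ← tendsto_norm_atTop_iff_cobounded]
        constructor
        · apply tendsto_atTop_mono' _ _ tendsto_id
          filter_upwards [eventually_gt_atTop 0] with y hy
          have := Complex.abs_im_le_norm ((x₀ : ℂ) + y * I)
          simp only [Complex.add_im, Complex.ofReal_im, Complex.mul_im, Complex.ofReal_re,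
            Complex.I_im, mul_one, Complex.I_re, mul_zero, add_zero, zero_add] at this
          exact (le_abs_self y).trans this
        · filter_upwards [eventually_gt_atTop 0] with y hy
          rw [mem_UH]
          simpa using hy
      obtain ⟨y, ⟨h6, h7⟩, h8⟩ := ((h5.eventually (h4.and hVev)).and
        (eventually_gt_atTop (0 : ℝ))).exists
      set z₂ : ℂ := (x₀ : ℂ) + y * I with hz₂
      have hz2im : 0 < z₂.im := by simpa [hz₂] using h8
      refine ⟨z₂, hVU _ h7 hz2im, ?_⟩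
      have hy0 : (y : ℂ) ≠ 0 := by exact_mod_cast h8.ne'
      have e1 : ι z₂ = -((y⁻¹ : ℝ) : ℂ) * I := by
        simp only [hι, hz₂]
        rw [add_sub_cancel_left, mul_inv, Complex.inv_I]
        push_cast
        ring
      have e2 : Φ (ι z₂) = ι z₂ * ψ (ι z₂) := by
        rw [hψ1 _ (hιW z₂ h7).2]
        have := (hιW z₂ h7).2
        field_simp
      have e3 : (Φ (ι z₂)).im = -(y⁻¹ * (ψ (ι z₂)).re) := by
        rw [e2, Complex.mul_im]
        have f1 : (ι z₂).re = 0 := by rw [e1]; simp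
        have f2 : (ι z₂).im = -y⁻¹ := by rw [e1]; simp
        rw [f1, f2]
        ring
      rw [e3]
      have : 0 < y⁻¹ := by positivity
      have := mul_pos this h6
      linarith
    intro z hz
    by_contra hcon
    push Not at hcon
    have hcont : ContinuousOn (fun z => (Φ (ι z)).im) U := by
      intro w hw
      exact (Complex.continuous_im.continuousAt.comp (hΦι w (hUV hw)).continuousAt).continuousWithinAt
    obtain ⟨w, hw, hw0⟩ := hUc.intermediate_value hz₂ hz hcont ⟨hz₂n.le, hcon⟩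
    have h1 := hreal _ (hιW w (hUV hw)).1 hw0
    have h2 := hιreal w h1
    have h3 := mem_UH.1 (hUsub hw)
    linarith
  refine ⟨g, c, hUo, hUsub, ⟨R, fun z hz hzU => hVU z (hR z hz) hzU⟩, ?_, ⟨?_, ?_, ?_⟩, ?_⟩
  · intro z hz
    have h1 := hΦι z (hUV hz)
    have h2 := hΦιn z (hUV hz)
    exact ((((h1.add (h1.inv h2.1)).const_mul _).add_const _).sub_const _).differentiableWithinAt
  · intro z hz
    rw [mem_UH, hgim, jouk_im]
    have h1 := hneg z hz
    obtain ⟨h2, h3⟩ := hΦιn z (hUV hz)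
    have h4 : 0 < ‖Φ (ι z)‖ := norm_pos_iff.2 h2
    have h5 : 1 < 1 / ‖Φ (ι z)‖ ^ 2 := by
      rw [lt_div_iff₀ (by positivity), one_mul]
      nlinarith
    apply mul_pos hκ
    nlinarith
  · intro z hz z' hz' heq
    obtain ⟨h2, h3⟩ := hΦιn z (hUV hz)
    obtain ⟨h2', h3'⟩ := hΦιn z' (hUV hz')
    simp only [hg] at heq
    have h4 : Φ (ι z) + (Φ (ι z))⁻¹ = Φ (ι z') + (Φ (ι z'))⁻¹ := by
      apply mul_left_cancel₀ hκc
      linear_combination heq
    have h5 := jouk_inj h3 h3' h2 h2' h4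
    have h6 := hΦb.injOn (hιW z (hUV hz)).1 (hιW z' (hUV hz')).1 h5
    simp only [hι] at h6
    have h7 := inv_injective h6
    linear_combination h7
  · intro w hw
    set a : ℂ := (w - x₀ + b) / κ with ha
    have haim : a.im = w.im / κ := by
      rw [ha, Complex.div_ofReal_im]
      simp
    have haim0 : 0 < a.im := by
      rw [haim]
      exact div_pos hw hκ
    obtain ⟨s, hs0, hs1, hsa⟩ := jouk_surj haim0.ne'
    have hsb : s ∈ ball (0 : ℂ) 1 := by rwa [mem_ball_zero_iff]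
    obtain ⟨ζ, hζ, rfl⟩ := hΦb.surjOn hsb
    have hζ0 : ζ ≠ 0 := by
      intro h
      rw [h, hΦ0] at hs0
      exact hs0 rfl
    have hzV : (x₀ : ℂ) + ζ⁻¹ ∈ V := (hWmem ζ hζ0).1 hζ
    have hιz : ι ((x₀ : ℂ) + ζ⁻¹) = ζ := by simp [hι]
    have hgz : g ((x₀ : ℂ) + ζ⁻¹) = w := by
      simp only [hg]
      rw [hιz, hsa, ha]
      field_simp
      ring
    have hJ : 0 < (Φ ζ + (Φ ζ)⁻¹).im := by rw [hsa]; exact haim0
    rw [jouk_im] at hJ
    have hn : 0 < ‖Φ ζ‖ := norm_pos_iff.2 hs0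
    have h5 : 0 < 1 / ‖Φ ζ‖ ^ 2 - 1 := by
      rw [sub_pos, lt_div_iff₀ (by positivity), one_mul]
      nlinarith
    have him : (Φ ζ).im < 0 := by
      by_contra hcon
      push Not at hcon
      nlinarith
    have hzpos : 0 < ((x₀ : ℂ) + ζ⁻¹).im := by
      by_contra hcon
      push Not at hcon
      rcases hcon.lt_or_eq with h6 | h6
      · have h7 : conj ((x₀ : ℂ) + ζ⁻¹) ∈ U :=
          hVU _ (hVs _ hzV) (by rw [Complex.conj_im]; linarith)
        have h8 := hneg _ h7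
        have h9 : ι (conj ((x₀ : ℂ) + ζ⁻¹)) = conj ζ := by
          simp [hι]
        rw [h9, hsym ζ hζ, Complex.conj_im] at h8
        linarith
      · have h7 : conj ((x₀ : ℂ) + ζ⁻¹) = (x₀ : ℂ) + ζ⁻¹ := Complex.conj_eq_iff_im.2 h6
        have h8 : conj ζ = ζ := by
          rw [map_add, map_inv₀, Complex.conj_ofReal] at h7
          exact inv_injective (add_left_cancel h7)
        have h9 := hsym ζ hζ
        rw [h8] at h9
        have h10 := Complex.conj_eq_iff_im.1 h9.symm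
        linarith
    exact ⟨_, hVU _ hzV hzpos, hgz⟩
  · -- the limit
    have h1 := hasDerivAt_iff_tendsto_slope.1 hAdiff
    have h2 : Tendsto ι atUH (𝓝[≠] 0) := by
      rw [tendsto_nhdsWithin_iff]
      refine ⟨hιlim, ?_⟩
      filter_upwards [hVev] with z hz
      exact (hιW z hz).2
    have h3 := h1.comp h2
    have h4 : Tendsto (fun z => z * ι z) atUH (𝓝 1) := by
      have h5 := (hιlim.const_mul (x₀ : ℂ)).const_add (1 : ℂ)
      rw [mul_zero, add_zero] at h5
      apply h5.congr'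
      filter_upwards [hVev] with z hz
      have := hx₀V z hz
      simp only [hι]
      field_simp
      ring
    have h6 := h4.mul h3
    rw [one_mul, hcA] at h6
    apply h6.congr'
    filter_upwards [hVev] with z hz
    have h7 := (hιW z hz).2
    simp only [Function.comp]
    rw [slope_def_field, sub_zero, hg1 z hz]
    field_simp
    ring

end Pool.Agent.H83.Lo
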