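import Pool.Agent.H83.Lo.Small
import Pool.Agent.H83.Lo.Sym

set_option autoImplicit false

/-!
# Existence of the normalised map of a compact connected set attached to the real line
-/

namespace Pool.Agent.H83.Lo

open Complex Metric Set Filter Topology
open scoped ComplexConjugate

/-- the unbounded part of the complement of `K` in the upper half plane -/
def hullDom (K : Set ℂ) : Set ℂ :=
  {z | z ∈ UH \ K ∧ ¬ Bornology.IsBounded (connectedComponentIn (UH \ K) z)}

lemma hullDom_subset (K : Set ℂ) : hullDom K ⊆ UH \ K := fun _ hz => hz.1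

/-- `hullDom` absorbs connected sets which meet it. -/
lemma absorb {K S : Set ℂ} (hS : IsPreconnected S) (hSK : S ⊆ UH \ K) {z : ℂ} (hz : z ∈ S)
    (hzd : z ∈ hullDom K) : S ⊆ hullDom K := by
  intro w hw
  refine ⟨hSK hw, ?_⟩
  have h1 : w ∈ connectedComponentIn (UH \ K) z :=
    hS.subset_connectedComponentIn hz hSK hw
  rw [← connectedComponentIn_eq h1]
  exact hzd.2

lemma isOpen_hullDom {K : Set ℂ} (hK : IsClosed K) : IsOpen (hullDom K) := by
  have hW : IsOpen (UH \ K) := isOpen_UH.sdiff hK
  rw [Metric.isOpen_iff]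
  intro z hz
  obtain ⟨ε, hε, hεW⟩ := Metric.isOpen_iff.1 hW z hz.1
  exact ⟨ε, hε, absorb (convex_ball z ε).isPreconnected hεW (mem_ball_self hε) hz⟩

lemma far_mem_hullDom {K : Set ℂ} {R : ℝ} (hR : 0 < R) (hK : ∀ z ∈ K, ‖z‖ ≤ R) {z : ℂ}
    (hz : R < ‖z‖) (hzU : z ∈ UH) : z ∈ hullDom K := by
  set E : Set ℂ := {z : ℂ | R < ‖z‖ ∧ z ∈ UH} with hE
  have hEK : E ⊆ UH \ K := fun w hw => ⟨hw.2, fun h => absurd hw.1 (not_lt.2 (hK w h))⟩
  have hEc : IsPreconnected E := isPreconnected_ext R hR
  refine ⟨hEK ⟨hz, hzU⟩, fun hb => ?_⟩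
  have h1 : E ⊆ connectedComponentIn (UH \ K) z := hEc.subset_connectedComponentIn ⟨hz, hzU⟩ hEK
  have h2 := hb.subset h1
  rw [isBounded_iff_forall_norm_le] at h2
  obtain ⟨C, hC⟩ := h2
  have hy : 0 < |C| + R + 1 := by positivity
  have hn : ‖(((|C| + R + 1 : ℝ) : ℂ) * I)‖ = |C| + R + 1 := by
    rw [norm_mul, Complex.norm_I, mul_one, Complex.norm_real, Real.norm_eq_abs, abs_of_pos hy]
  have h3 := hC (((|C| + R + 1 : ℝ) : ℂ) * I) ⟨by
    rw [hn]
    have := abs_nonneg C
    linarith, by
    rw [mem_UH]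
    simpa using hy⟩
  rw [hn] at h3
  have := le_abs_self C
  linarith

lemma isPreconnected_hullDom {K : Set ℂ} (hK : Bornology.IsBounded K) :
    IsPreconnected (hullDom K) := by
  obtain ⟨C, hC⟩ := isBounded_iff_forall_norm_le.1 hK
  set R : ℝ := max C 0 + 1 with hR
  have hR0 : 0 < R := by positivity
  have hKR : ∀ z ∈ K, ‖z‖ ≤ R := fun z hz => (hC z hz).trans (by
    have := le_max_left C 0
    linarith)
  set p : ℂ := ((R + 1 : ℝ) : ℂ) * I with hp
  have hpn : ‖p‖ = R + 1 := by
    rw [hp, norm_mul, Complex.norm_I, mul_one, Complex.norm_real, Real.norm_eq_abs,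
      abs_of_pos (by linarith)]
  have hpU : p ∈ UH := by
    rw [mem_UH, hp]
    simp
    linarith
  have hpd : p ∈ hullDom K := far_mem_hullDom hR0 hKR (by rw [hpn]; linarith) hpU
  have heq : hullDom K = connectedComponentIn (UH \ K) p := by
    apply Subset.antisymm
    · intro z hz
      -- the component of `z` is unbounded, hence meets the exterior
      have h1 : ∃ w ∈ connectedComponentIn (UH \ K) z, R < ‖w‖ := by
        by_contra hcon
        push Not at hcon
        apply hz.2
        rw [isBounded_iff_forall_norm_le]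
        exact ⟨R, hcon⟩
      obtain ⟨w, hw, hwR⟩ := h1
      have hwW := connectedComponentIn_subset _ _ hw
      have hE : {z : ℂ | R < ‖z‖ ∧ z ∈ UH} ⊆ UH \ K :=
        fun v hv => ⟨hv.2, fun h => absurd hv.1 (not_lt.2 (hKR v h))⟩
      have h2 : w ∈ connectedComponentIn (UH \ K) p :=
        (isPreconnected_ext R hR0).subset_connectedComponentIn
          (⟨by rw [hpn]; linarith, hpU⟩ : p ∈ {z : ℂ | R < ‖z‖ ∧ z ∈ UH}) hE ⟨hwR, hwW.1⟩
      rw [connectedComponentIn_eq h2, ← connectedComponentIn_eq hw]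
      exact mem_connectedComponentIn hz.1
    · exact absorb isPreconnected_connectedComponentIn (connectedComponentIn_subset _ _)
        (mem_connectedComponentIn hpd.1) hpd
  rw [heq]
  exact isPreconnected_connectedComponentIn

/-- **Existence** of the normalised map for a compact connected set attached to the real line. -/
theorem exists_hyd {K : Set ℂ} (hK : IsCompact K) (hKc : IsPreconnected K)
    (hKu : ∀ z ∈ K, 0 ≤ z.im) {x₀ : ℝ} (hx₀ : (x₀ : ℂ) ∈ K) :
    ∃ (g : ℂ → ℂ) (c : ℝ), Hyd (hullDom K) g c := by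
  set U := hullDom K with hU
  by_cases hall : U = UH
  · rw [hall]
    exact ⟨_, _, Hyd.refl⟩
  have hUo : IsOpen U := isOpen_hullDom hK.isClosed
  have hUc : IsPreconnected U := isPreconnected_hullDom hK.isBounded
  have hUsub : U ⊆ UH := fun z hz => hz.1.1
  obtain ⟨C, hC⟩ := isBounded_iff_forall_norm_le.1 hK.isBounded
  set R : ℝ := max C 0 + 1 with hR
  have hR0 : 0 < R := by positivity
  have hKR : ∀ z ∈ K, ‖z‖ ≤ R := fun z hz => (hC z hz).trans (by
    have := le_max_left C 0
    linarith)
  have hfarU : ∀ z : ℂ, R < ‖z‖ → z ∈ UH → z ∈ U := fun z h1 h2 => far_mem_hullDom hR0 hKR h1 h2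
  set V : Set ℂ := ext U \ K with hV
  have hextsym : ∀ z ∈ ext U, conj z ∈ ext U := fun z hz => Hyd.ext_symm hz
  have hUV : U ⊆ V := fun z hz => ⟨Or.inl hz, hz.1.2⟩
  have hVU : ∀ z ∈ V, 0 < z.im → z ∈ U := by
    rintro z ⟨h1 | h1 | ⟨h1, _⟩, _⟩ h2
    · exact h1
    · have := mem_UH.1 (hUsub h1)
      rw [Complex.conj_im] at this
      linarith
    · linarith
  have hVL : ∀ z ∈ V, z.im < 0 → conj z ∈ U := by
    rintro z ⟨h1 | h1 | ⟨h1, _⟩, _⟩ h2
    · have := mem_UH.1 (hUsub h1)
      linarith
    · exact h1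
    · linarith
  have hLV : ∀ z, conj z ∈ U → z ∈ V := by
    intro z hz
    refine ⟨Or.inr (Or.inl hz), fun h => ?_⟩
    have h1 := mem_UH.1 (hUsub hz)
    have h2 := hKu z h
    rw [Complex.conj_im] at h1
    linarith
  have hVs : ∀ z ∈ V, conj z ∈ V := by
    intro z hz
    rcases lt_trichotomy z.im 0 with h | h | h
    · exact hUV (hVL z hz h)
    · rwa [Complex.conj_eq_iff_im.2 h]
    · exact hLV _ (by rw [Complex.conj_conj]; exact hVU z hz h)
  have hextopen : IsOpen (ext U) := by
    rw [isOpen_iff_mem_nhds]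
    rintro z (hz | hz | ⟨hz, ε, hε, hz2⟩)
    · filter_upwards [hUo.mem_nhds hz] with w hw
      exact Or.inl hw
    · have h1 : ∀ᶠ w in 𝓝 z, conj w ∈ U :=
        (Complex.continuous_conj.tendsto z).eventually (hUo.mem_nhds hz)
      filter_upwards [h1] with w hw
      exact Or.inr (Or.inl hw)
    · have e : z = ((z.re : ℝ) : ℂ) := Complex.ext (by simp) (by simp [hz])
      filter_upwards [isOpen_ball.mem_nhds (mem_ball_self (x := z) hε)] with w hw
      rcases lt_trichotomy w.im 0 with h1 | h1 | h1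
      · refine Or.inr (Or.inl (hz2 ⟨?_, by rw [mem_UH, Complex.conj_im]; linarith⟩))
        rw [e] at hw ⊢
        exact conj_mem_ball hw
      · refine Or.inr (Or.inr ⟨h1, ε - dist w z, by rw [mem_ball] at hw; linarith, ?_⟩)
        intro v hv
        apply hz2
        refine ⟨?_, hv.2⟩
        have := hv.1
        rw [mem_ball] at this ⊢
        calc dist v z ≤ dist v w + dist w z := dist_triangle _ _ _
          _ < ε := by linarith
      · exact Or.inl (hz2 ⟨hw, h1⟩)
  have hVo : IsOpen V := hextopen.sdiff hK.isClosed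
  have hfarV : ∀ z : ℂ, R < ‖z‖ → z ∈ V := by
    intro z hz
    refine ⟨?_, fun h => absurd hz (not_lt.2 (hKR z h))⟩
    apply Hyd.ext_of_ext (x := 0) (r := R)
    · intro w hw hw2
      rw [Complex.ofReal_zero, sub_zero] at hw
      exact hfarU w hw hw2
    · rwa [Complex.ofReal_zero, sub_zero]
  -- real points of `V` are in the closure of `U`
  have hVcl : ∀ z ∈ V, z.im = 0 → z ∈ closure U := by
    intro z hz hz0
    rcases hz.1 with h | h | ⟨_, ε, hε, h⟩
    · exact subset_closure h
    · have := mem_UH.1 (hUsub h)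
      rw [Complex.conj_im] at this
      linarith
    · have := neBot_real hz0
      rw [mem_closure_iff_nhdsWithin_neBot]
      have h1 : 𝓝[UH] z ≤ 𝓝[U] z := by
        rw [nhdsWithin_le_iff]
        filter_upwards [mem_nhdsWithin_of_mem_nhds (ball_mem_nhds z hε), self_mem_nhdsWithin]
          with w hw1 hw2
        exact h ⟨hw1, hw2⟩
      exact this.mono h1
  have hVc : IsPreconnected V := by
    set P : Set ℂ := {z | z ∈ V ∧ 0 ≤ z.im} with hP
    have hPc : IsPreconnected P := by
      apply hUc.subset_closure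
      · intro z hz
        exact ⟨hUV hz, (mem_UH.1 (hUsub hz)).le⟩
      · rintro z ⟨hz, hz0⟩
        rcases hz0.lt_or_eq with h | h
        · exact subset_closure (hVU z hz h)
        · exact hVcl z hz h.symm
    have hPc' : IsPreconnected ((fun z => conj z) '' P) :=
      hPc.image _ Complex.continuous_conj.continuousOn
    have hun : V = P ∪ (fun z => conj z) '' P := by
      ext z
      constructor
      · intro hz
        rcases le_or_gt 0 z.im with h | h
        · exact Or.inl ⟨hz, h⟩
        · exact Or.inr ⟨conj z, ⟨hVs z hz, by rw [Complex.conj_im]; linarith⟩,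
            Complex.conj_conj z⟩
      · rintro (hz | ⟨w, hw, rfl⟩)
        · exact hz.1
        · exact hVs w hw.1
    rw [hun]
    have hx : ((R + 1 : ℝ) : ℂ) ∈ P := by
      refine ⟨hfarV _ ?_, by simp⟩
      rw [Complex.norm_real, Real.norm_eq_abs, abs_of_pos (by linarith)]
      linarith
    exact hPc.union _ hx ⟨_, hx, Complex.conj_ofReal _⟩ hPc'
  apply exists_of_sym hUo hUc hUsub hVo hVc hVU hUV hVs (x₀ := x₀) (fun h => h.2 hx₀)
    ⟨R, hfarV⟩
  · -- another point outside `V`
    obtain ⟨k, hk, hkU⟩ : ∃ k ∈ UH, k ∉ U := by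
      by_contra hcon
      push Not at hcon
      exact hall (Subset.antisymm hUsub hcon)
    refine ⟨k, fun h => hkU (hVU k h hk), fun h => ?_⟩
    rw [h, mem_UH] at hk
    simp at hk
  · -- no islands
    intro D hD hDc hDcl hxD
    set A : Set ℂ := K ∪ (fun z => conj z) '' K with hA
    have hAc : IsPreconnected A := by
      have h1 : IsPreconnected ((fun z => conj z) '' K) :=
        hKc.image _ Complex.continuous_conj.continuousOn
      exact hKc.union _ hx₀ ⟨_, hx₀, Complex.conj_ofReal _⟩ h1
    have hAV : A ⊆ Vᶜ := by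
      rintro z (hz | ⟨w, hw, rfl⟩) hzV
      · exact hzV.2 hz
      · have := hVs _ hzV
        simp only [Complex.conj_conj] at this
        exact this.2 hw
    have hAD : ∀ z ∈ A, z ∉ D := by
      intro z hz hzD
      obtain ⟨w, _, hw1, hw2⟩ := isPreconnected_closed_iff.1 hAc D (Vᶜ \ D) hDc.isClosed hDcl
        (fun w hw => by
          by_cases h : w ∈ D
          · exact Or.inl h
          · exact Or.inr ⟨hAV hw, h⟩) ⟨z, hz, hzD⟩
        ⟨(x₀ : ℂ), Or.inl hx₀, hAV (Or.inl hx₀), hxD⟩
      exact hw2.2 hw1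
    by_contra hne
    obtain ⟨p, hp, hmax⟩ := hDc.exists_isMaxOn (nonempty_iff_ne_empty.2 hne)
      Complex.continuous_re.continuousOn
    have hAcl : IsClosed A := (hK.union (hK.image Complex.continuous_conj)).isClosed
    have hpo : IsOpen ((Vᶜ \ D)ᶜ ∩ Aᶜ) := hDcl.isOpen_compl.inter hAcl.isOpen_compl
    obtain ⟨ε, hε, hball⟩ := Metric.isOpen_iff.1 hpo p ⟨fun h => h.2 hp, fun h => hAD p h hp⟩
    set q : ℂ := p + (ε / 2 : ℝ) with hq
    have hqb : q ∈ ball p ε := by
      rw [mem_ball, dist_eq_norm, hq, add_sub_cancel_left, Complex.norm_real, Real.norm_eq_abs,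
        abs_of_pos (by positivity)]
      linarith
    have hqD : q ∉ D := by
      intro h
      have h1 := hmax h
      simp only [mem_ofPred_eq] at h1
      rw [hq, Complex.add_re, Complex.ofReal_re] at h1
      linarith
    have hqV : q ∈ V := by
      by_contra h
      exact (hball hqb).1 ⟨h, hqD⟩
    have hqim : q.im = p.im := by simp [hq]
    have hpV : p ∉ V := hD hp
    -- the upper part of a ball
    have hupper : ∀ a : ℂ, ball a ε ∩ K = ∅ → ∀ b ∈ ball a ε, b ∈ U → ball a ε ∩ UH ⊆ U := by
      intro a ha b hb hbU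
      apply absorb ((convex_ball a ε).inter convex_UH).isPreconnected _ ⟨hb, hUsub hbU⟩ hbU
      rintro w ⟨hw1, hw2⟩
      refine ⟨hw2, fun h => ?_⟩
      have : w ∈ ball a ε ∩ K := ⟨hw1, h⟩
      rw [ha] at this
      exact this
    have hbK : ball p ε ∩ K = ∅ := by
      ext w
      simp only [mem_inter_iff, mem_empty_iff_false, iff_false, not_and]
      intro hw hwK
      exact (hball hw).2 (Or.inl hwK)
    rcases lt_trichotomy p.im 0 with h | h | h
    · have hbK' : ball (conj p) ε ∩ K = ∅ := by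
        ext w
        simp only [mem_inter_iff, mem_empty_iff_false, iff_false, not_and]
        intro hw hwK
        have hw' : conj w ∈ ball p ε := by
          rw [mem_ball, dist_eq_norm] at hw ⊢
          have : conj w - p = conj (w - conj p) := by rw [map_sub, Complex.conj_conj]
          rwa [this, RCLike.norm_conj]
        exact (hball hw').2 (Or.inr ⟨w, hwK, rfl⟩)
      have h1 : conj q ∈ U := hVL q hqV (by rw [hqim]; exact h)
      have h2 : conj q ∈ ball (conj p) ε := by
        rw [mem_ball, dist_eq_norm] at hqb ⊢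
        rwa [← map_sub, RCLike.norm_conj]
      have h3 := hupper _ hbK' _ h2 h1 ⟨mem_ball_self hε, by
        rw [mem_UH, Complex.conj_im]; linarith⟩
      exact hpV (hLV p h3)
    · -- real point
      apply hpV
      have hq0 : q.im = 0 := by rw [hqim, h]
      have h1 := hVcl q hqV hq0
      obtain ⟨b, hbU, hbq⟩ := Metric.mem_closure_iff.1 h1 (ε / 2) (by positivity)
      have hbp : b ∈ ball p ε := by
        rw [mem_ball]
        have h2 : dist q p = ε / 2 := by
          rw [dist_eq_norm, hq, add_sub_cancel_left, Complex.norm_real, Real.norm_eq_abs,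
            abs_of_pos (by positivity)]
        calc dist b p ≤ dist b q + dist q p := dist_triangle _ _ _
          _ < ε := by rw [dist_comm b q, h2]; linarith
      refine ⟨Or.inr (Or.inr ⟨h, ε, hε, hupper _ hbK b hbp hbU⟩), fun hpK => hAD p (Or.inl hpK) hp⟩
    · have h1 : q ∈ U := hVU q hqV (by rw [hqim]; exact h)
      exact hpV (hUV (hupper _ hbK _ hqb h1 ⟨mem_ball_self hε, h⟩))

end Pool.Agent.H83.Lo
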