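import Pool.Agent.H33.Q1.Refl
import Pool.Agent.H83.Lo.Hyd

set_option autoImplicit false

/-!
# Reflection across the real line for bounded functions with small imaginary part

Uses helper33's `H33.Q1.reflect_core`, applied to a primitive.
-/

namespace Pool.Agent.H83.Lo

open Complex Metric Set Filter Topology
open scoped ComplexConjugate NNReal

lemma conj_mem_ball {x : ℝ} {ε : ℝ} {z : ℂ} (hz : z ∈ ball (x : ℂ) ε) :
    conj z ∈ ball (x : ℂ) ε := by
  rw [mem_ball, dist_eq_norm] at hz ⊢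
  have : conj z - x = conj (z - x) := by rw [map_sub, Complex.conj_ofReal]
  rw [this, RCLike.norm_conj]
  exact hz

/-- Reflection principle for bounded holomorphic functions with `|Im g z| ≤ Im z`. -/
theorem reflect_bdd {x : ℝ} {ε M : ℝ} {g : ℂ → ℂ}
    (hg : DifferentiableOn ℂ g (ball (x : ℂ) ε ∩ UH)) (hM : ∀ z ∈ ball (x : ℂ) ε ∩ UH, ‖g z‖ ≤ M)
    (him : ∀ z ∈ ball (x : ℂ) ε ∩ UH, |(g z).im| ≤ z.im) :
    ∃ G : ℂ → ℂ, DifferentiableOn ℂ G (ball (x : ℂ) ε) ∧
      (∀ z ∈ ball (x : ℂ) ε, 0 < z.im → G z = g z) ∧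
      (∀ z ∈ ball (x : ℂ) ε, G (conj z) = conj (G z)) := by
  rcases le_or_gt ε 0 with hε | hε
  · rw [ball_eq_empty.2 hε]
    exact ⟨0, differentiableOn_empty, fun z hz => absurd hz (notMem_empty z),
      fun z hz => absurd hz (notMem_empty z)⟩
  set S : Set ℂ := ball (x : ℂ) ε ∩ UH with hS
  have hSo : IsOpen S := isOpen_ball.inter isOpen_UH
  have hSc : Convex ℝ S := (convex_ball _ _).inter convex_UH
  obtain ⟨P, hP⟩ := hSc.exists_forall_hasDerivWithinAt hg
  have hPd : ∀ z ∈ S, HasDerivAt P (g z) z := fun z hz => (hP z hz).hasDerivAt (hSo.mem_nhds hz)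
  have hlip : LipschitzOnWith M.toNNReal P S := by
    apply hSc.lipschitzOnWith_of_nnnorm_hasDerivWithin_le hP
    intro z hz
    rw [← NNReal.coe_le_coe, coe_nnnorm, Real.coe_toNNReal']
    exact (hM z hz).trans (le_max_left _ _)
  obtain ⟨Q, hQl, hQe⟩ := hlip.extend_finite_dimension
  have hQc : Continuous Q := hQl.continuous
  -- the imaginary part is constant on the real points
  have hconst : ∀ x₁ x₂ : ℝ, (x₁ : ℂ) ∈ ball (x : ℂ) ε → (x₂ : ℂ) ∈ ball (x : ℂ) ε →
      (Q x₁).im = (Q x₂).im := by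
    intro x₁ x₂ h1 h2
    have hI : ∀ y : ℝ, Tendsto (fun δ : ℝ => (y : ℂ) + δ * I) (𝓝[>] 0) (𝓝 (y : ℂ)) := by
      intro y
      have hc : Continuous (fun δ : ℝ => (y : ℂ) + δ * I) := by fun_prop
      have h3 := hc.tendsto 0
      simp only [Complex.ofReal_zero, zero_mul, add_zero] at h3
      exact h3.mono_left nhdsWithin_le_nhds
    have hmem : ∀ y : ℝ, (y : ℂ) ∈ ball (x : ℂ) ε → ∀ᶠ δ : ℝ in 𝓝[>] 0, (y : ℂ) + δ * I ∈ S := by
      intro y hy
      filter_upwards [(hI y).eventually (isOpen_ball.mem_nhds hy), self_mem_nhdsWithin] with δ h3 h4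
      refine ⟨h3, ?_⟩
      rw [mem_UH]
      simpa using h4
    have hbound : ∀ᶠ δ : ℝ in 𝓝[>] 0,
        |(Q ((x₂ : ℂ) + δ * I)).im - (Q ((x₁ : ℂ) + δ * I)).im| ≤ δ * |x₂ - x₁| := by
      filter_upwards [hmem x₁ h1, hmem x₂ h2, self_mem_nhdsWithin] with δ h3 h4 h5
      have hδ : 0 < δ := h5
      have hseg : ∀ t ∈ Icc (0 : ℝ) 1, ((x₁ : ℂ) + δ * I) + t * ((x₂ : ℂ) - x₁) ∈ S := by
        intro t ht
        have := hSc.add_smul_sub_mem h3 h4 ht
        have e : ((x₁ : ℂ) + δ * I) + t * ((x₂ : ℂ) - x₁) =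
            ((x₁ : ℂ) + δ * I) + t • (((x₂ : ℂ) + δ * I) - ((x₁ : ℂ) + δ * I)) := by
          rw [Complex.real_smul]
          ring
        rw [e]
        exact this
      have hd : ∀ t ∈ Icc (0 : ℝ) 1, HasDerivAt
          (fun t : ℝ => (P (((x₁ : ℂ) + δ * I) + t * ((x₂ : ℂ) - x₁))).im)
          ((g (((x₁ : ℂ) + δ * I) + t * ((x₂ : ℂ) - x₁)) * ((x₂ : ℂ) - x₁)).im) t := by
        intro t ht
        have h6 : HasDerivAt (fun t : ℝ => ((x₁ : ℂ) + δ * I) + t * ((x₂ : ℂ) - x₁))
            ((x₂ : ℂ) - x₁) t := by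
          have := ((Complex.ofRealCLM.hasDerivAt (x := t)).mul_const
            ((x₂ : ℂ) - x₁)).const_add ((x₁ : ℂ) + δ * I)
          simpa using this
        have h7 := (hPd _ (hseg t ht)).comp t h6
        exact (Complex.imCLM.hasFDerivAt.comp_hasDerivAt t h7)
      have h8 := norm_image_sub_le_of_norm_deriv_le_segment_01'
        (f := fun t : ℝ => (P (((x₁ : ℂ) + δ * I) + t * ((x₂ : ℂ) - x₁))).im)
        (C := δ * |x₂ - x₁|) (fun t ht => (hd t ht).hasDerivWithinAt) (by
          intro t ht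
          have ht' : t ∈ Icc (0 : ℝ) 1 := ⟨ht.1, ht.2.le⟩
          have h9 := him _ (hseg t ht')
          have e : (((x₁ : ℂ) + δ * I) + t * ((x₂ : ℂ) - x₁)).im = δ := by simp
          rw [e] at h9
          have e2 : ((x₂ : ℂ) - x₁) = ((x₂ - x₁ : ℝ) : ℂ) := by push_cast; ring
          rw [e2, Complex.mul_im, Complex.ofReal_re, Complex.ofReal_im, mul_zero, zero_add,
            Real.norm_eq_abs, abs_mul, ← e2]
          gcongr)
      have e0 : ((x₁ : ℂ) + δ * I) + ((0 : ℝ) : ℂ) * ((x₂ : ℂ) - x₁) = (x₁ : ℂ) + δ * I := by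
        simp
      have e1 : ((x₁ : ℂ) + δ * I) + ((1 : ℝ) : ℂ) * ((x₂ : ℂ) - x₁) = (x₂ : ℂ) + δ * I := by
        push_cast; ring
      simp only [e0, e1] at h8
      rw [← hQe h3, ← hQe h4]
      exact h8
    have hl : Tendsto (fun δ : ℝ => |(Q ((x₂ : ℂ) + δ * I)).im - (Q ((x₁ : ℂ) + δ * I)).im|)
        (𝓝[>] 0) (𝓝 |(Q x₂).im - (Q x₁).im|) := by
      have h3 : ∀ y : ℝ, Tendsto (fun δ : ℝ => (Q ((y : ℂ) + δ * I)).im) (𝓝[>] 0)
          (𝓝 (Q y).im) := fun y =>
        ((Complex.continuous_im.comp hQc).tendsto _).comp (hI y)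
      exact ((h3 x₂).sub (h3 x₁)).abs
    have hr : Tendsto (fun δ : ℝ => δ * |x₂ - x₁|) (𝓝[>] 0) (𝓝 0) := by
      have hc : Continuous (fun δ : ℝ => δ * |x₂ - x₁|) := by fun_prop
      have h3 := hc.tendsto 0
      rw [zero_mul] at h3
      exact h3.mono_left nhdsWithin_le_nhds
    have h9 : |(Q x₂).im - (Q x₁).im| ≤ 0 := le_of_tendsto_of_tendsto hl hr hbound
    have h10 : (Q x₂).im - (Q x₁).im = 0 := abs_eq_zero.1 (le_antisymm h9 (abs_nonneg _))
    linarith
  -- the normalised primitive around `0`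
  set κ : ℝ := (Q x).im with hκ
  set h : ℂ → ℂ := fun z => Q (z + x) - κ * I with hh
  have hball : ∀ z : ℂ, z ∈ ball (0 : ℂ) ε ↔ z + x ∈ ball (x : ℂ) ε := by
    intro z
    rw [mem_ball_zero_iff, mem_ball, dist_eq_norm, add_sub_cancel_right]
  have hhd : ∀ z ∈ ball (0 : ℂ) ε, 0 < z.im → HasDerivAt h (g (z + x)) z := by
    intro z hz hzim
    have hzS : z + x ∈ S := ⟨(hball z).1 hz, by rw [mem_UH]; simpa using hzim⟩
    have h1 : HasDerivAt Q (g (z + x)) (z + x) := by
      apply (hPd _ hzS).congr_of_eventuallyEq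
      filter_upwards [hSo.mem_nhds hzS] with w hw
      exact (hQe hw).symm
    exact (h1.comp_add_const z (x : ℂ)).sub_const _
  obtain ⟨G, hG1, hG2, hG3⟩ := H33.Q1.reflect_core (r := ε) (h := h)
    (by
      apply Continuous.continuousOn
      exact (hQc.comp (by fun_prop)).sub continuous_const)
    (fun z hz hzim => (hhd z hz hzim).differentiableAt) (by
      intro z hz hzim
      have e : z = ((z.re : ℝ) : ℂ) := Complex.ext (by simp) (by simp [hzim])
      have e2 : z + x = ((z.re + x : ℝ) : ℂ) := by rw [Complex.ofReal_add, ← e]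
      have h1 := hconst (z.re + x) x (by
        have := (hball z).1 hz
        rwa [e2] at this) (mem_ball_self hε)
      simp only [hh]
      rw [e2, Complex.sub_im, h1, ← hκ]
      simp)
  refine ⟨fun z => deriv G (z - x), ?_, ?_, ?_⟩
  · have h1 : DifferentiableOn ℂ (deriv G) (ball 0 ε) := hG1.deriv isOpen_ball
    apply h1.comp (differentiableOn_id.sub_const _)
    intro z hz
    rw [hball]
    simpa using hz
  · intro z hz hzim
    simp only
    have hz' : z - x ∈ ball (0 : ℂ) ε := by rw [hball]; simpa using hz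
    have hzim' : 0 < (z - x).im := by simpa using hzim
    have h1 := hhd (z - x) hz' hzim'
    have h2 : HasDerivAt G (g (z - x + x)) (z - x) := by
      apply h1.congr_of_eventuallyEq
      filter_upwards [isOpen_ball.mem_nhds hz', isOpen_UH.mem_nhds (mem_UH.2 hzim')] with w hw hw2
      exact hG2 w hw (mem_UH.1 hw2).le
    rw [h2.deriv, sub_add_cancel]
  · intro z hz
    simp only
    have hz' : z - x ∈ ball (0 : ℂ) ε := by rw [hball]; simpa using hz
    have h1 : HasDerivAt G (deriv G (z - x)) (z - x) :=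
      (hG1.differentiableAt (isOpen_ball.mem_nhds hz')).hasDerivAt
    have h2 := h1.conj_conj
    have hz'' : conj (z - x) ∈ ball (0 : ℂ) ε := by
      rw [mem_ball_zero_iff] at hz' ⊢
      rwa [RCLike.norm_conj]
    have h3 : HasDerivAt G (conj (deriv G (z - x))) (conj (z - x)) := by
      apply h2.congr_of_eventuallyEq
      filter_upwards [isOpen_ball.mem_nhds hz''] with w hw
      simp only [Function.comp]
      rw [hG3 w hw, Complex.conj_conj]
    have e : conj z - (x : ℂ) = conj (z - x) := by rw [map_sub, Complex.conj_ofReal]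
    rw [e, h3.deriv]

/-- The domain of the extension by reflection. -/
def ext (U : Set ℂ) : Set ℂ :=
  {z | z ∈ U ∨ conj z ∈ U ∨ (z.im = 0 ∧ ∃ ε > 0, ball z ε ∩ UH ⊆ U)}

open Classical in
/-- The extension by reflection. -/
noncomputable def extMap (g : ℂ → ℂ) (z : ℂ) : ℂ :=
  if 0 < z.im then g z else if z.im < 0 then conj (g (conj z)) else limUnder (𝓝[UH] z) g

lemma extMap_upper {g : ℂ → ℂ} {z : ℂ} (hz : 0 < z.im) : extMap g z = g z := by
  simp [extMap, hz]

lemma extMap_lower {g : ℂ → ℂ} {z : ℂ} (hz : z.im < 0) : extMap g z = conj (g (conj z)) := by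
  simp [extMap, hz, not_lt.2 hz.le]

lemma neBot_real {z : ℂ} (hz : z.im = 0) : (𝓝[UH] z).NeBot := by
  rw [← mem_closure_iff_nhdsWithin_neBot]
  have : z = ((z.re : ℝ) : ℂ) := Complex.ext (by simp) (by simp [hz])
  rw [Metric.mem_closure_iff]
  intro ε hε
  refine ⟨z + (ε / 2 : ℝ) * I, ?_, ?_⟩
  · rw [mem_UH]
    simp [hz]
    linarith
  · rw [dist_eq_norm, sub_add_cancel_left, norm_neg, norm_mul, Complex.norm_I, mul_one,
      Complex.norm_real, Real.norm_eq_abs, abs_of_pos (by positivity)]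
    linarith

/-- local form of the extension at a real point -/
lemma extMap_eq_local {g G : ℂ → ℂ} {x : ℝ} {ε : ℝ} (hG : DifferentiableOn ℂ G (ball (x : ℂ) ε))
    (h1 : ∀ z ∈ ball (x : ℂ) ε, 0 < z.im → G z = g z)
    (h2 : ∀ z ∈ ball (x : ℂ) ε, G (conj z) = conj (G z)) {z : ℂ} (hz : z ∈ ball (x : ℂ) ε) :
    extMap g z = G z := by
  rcases lt_trichotomy z.im 0 with h | h | h
  · rw [extMap_lower h]
    have hc : conj z ∈ ball (x : ℂ) ε := conj_mem_ball hz
    have h3 : 0 < (conj z).im := by rw [Complex.conj_im]; linarith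
    rw [← h1 _ hc h3, h2 z hz, Complex.conj_conj]
  · have hlim : Tendsto g (𝓝[UH] z) (𝓝 (G z)) := by
      have h4 : Tendsto G (𝓝[UH] z) (𝓝 (G z)) :=
        ((hG.continuousOn.continuousAt (isOpen_ball.mem_nhds hz)).tendsto).mono_left
          nhdsWithin_le_nhds
      apply h4.congr'
      filter_upwards [mem_nhdsWithin_of_mem_nhds (isOpen_ball.mem_nhds hz),
        self_mem_nhdsWithin] with w hw hw2
      exact h1 w hw hw2
    have := neBot_real h
    simp only [extMap, h, lt_irrefl, if_false]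
    exact hlim.limUnder_eq
  · rw [extMap_upper h, h1 z hz h]

namespace Hyd

variable {U : Set ℂ} {g : ℂ → ℂ} {c : ℝ}

/-- local reflection for a normalised map -/
theorem exists_local (h : Hyd U g c) {x : ℝ} {ε : ℝ} (hx : ball (x : ℂ) ε ∩ UH ⊆ U) :
    ∃ G : ℂ → ℂ, DifferentiableOn ℂ G (ball (x : ℂ) ε) ∧
      (∀ z ∈ ball (x : ℂ) ε, 0 < z.im → G z = g z) ∧
      (∀ z ∈ ball (x : ℂ) ε, G (conj z) = conj (G z)) := by
  obtain ⟨R, hR, hb⟩ := h.bdd
  apply reflect_bdd (M := max R (‖(x : ℂ)‖ + ε) + 1) (h.diff.mono hx)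
  · intro z hz
    refine (hb z (hx hz)).trans ?_
    have h1 := mem_ball.1 hz.1
    rw [dist_eq_norm] at h1
    have h2 : ‖z‖ ≤ ‖(x : ℂ)‖ + ε := by
      calc ‖z‖ = ‖(x : ℂ) + (z - x)‖ := by congr 1; ring
        _ ≤ ‖(x : ℂ)‖ + ‖z - x‖ := norm_add_le _ _
        _ ≤ _ := by linarith
    gcongr
  · intro z hz
    have h1 := h.im_le (hx hz)
    have h2 := mem_UH.1 (h.bij.mapsTo (hx hz))
    rw [abs_of_pos h2]
    exact h1

/-- The extension is holomorphic. -/
theorem ext_differentiableAt (h : Hyd U g c) {z : ℂ} (hz : z ∈ ext U) :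
    DifferentiableAt ℂ (extMap g) z := by
  rcases hz with hz | hz | ⟨hz, ε, hε, hz2⟩
  · apply (h.diff.differentiableAt (h.isOpen.mem_nhds hz)).congr_of_eventuallyEq
    filter_upwards [isOpen_UH.mem_nhds (h.sub hz)] with w hw
    exact extMap_upper hw
  · have h1 := (h.diff.differentiableAt (h.isOpen.mem_nhds hz)).hasDerivAt.conj_conj
    rw [Complex.conj_conj] at h1
    refine (h1.congr_of_eventuallyEq ?_).differentiableAt
    have h2 : z.im < 0 := by
      have := mem_UH.1 (h.sub hz)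
      rw [Complex.conj_im] at this
      linarith
    filter_upwards [(isOpen_lt Complex.continuous_im continuous_const).mem_nhds h2] with w hw
    exact extMap_lower hw
  · have e : z = ((z.re : ℝ) : ℂ) := Complex.ext (by simp) (by simp [hz])
    rw [e] at hz2 ⊢
    obtain ⟨G, hG, h1, h2⟩ := h.exists_local hz2
    apply (hG.differentiableAt (isOpen_ball.mem_nhds (mem_ball_self hε))).congr_of_eventuallyEq
    filter_upwards [isOpen_ball.mem_nhds (mem_ball_self hε)] with w hw
    exact extMap_eq_local hG h1 h2 hw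

/-- the extension is real exactly on the real line -/
theorem ext_im_real (h : Hyd U g c) {z : ℂ} (hz : z ∈ ext U) (hz0 : z.im = 0) :
    (extMap g z).im = 0 := by
  have e : z = ((z.re : ℝ) : ℂ) := Complex.ext (by simp) (by simp [hz0])
  rcases hz with hz | hz | ⟨_, ε, hε, hz2⟩
  · exact absurd (h.sub hz) (by rw [mem_UH, hz0]; exact lt_irrefl _)
  · exact absurd (h.sub hz) (by rw [mem_UH, Complex.conj_im, hz0]; simp)
  · rw [e] at hz2 ⊢
    obtain ⟨G, hG, h1, h2⟩ := h.exists_local hz2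
    rw [extMap_eq_local hG h1 h2 (mem_ball_self hε)]
    have h3 := h2 _ (mem_ball_self hε)
    rw [Complex.conj_ofReal] at h3
    exact Complex.conj_eq_iff_im.1 h3.symm

lemma ext_symm {z : ℂ} (hz : z ∈ ext U) : conj z ∈ ext U := by
  rcases hz with hz | hz | ⟨hz, ε, hε, hz2⟩
  · exact Or.inr (Or.inl (by rwa [Complex.conj_conj]))
  · exact Or.inl hz
  · refine Or.inr (Or.inr ⟨by rw [Complex.conj_im, hz, neg_zero], ε, hε, ?_⟩)
    have : conj z = z := Complex.conj_eq_iff_im.2 hz
    rwa [this]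

theorem extMap_conj (h : Hyd U g c) {z : ℂ} (hz : z ∈ ext U) :
    extMap g (conj z) = conj (extMap g z) := by
  rcases lt_trichotomy z.im 0 with h1 | h1 | h1
  · have h2 : 0 < (conj z).im := by rw [Complex.conj_im]; linarith
    rw [extMap_upper h2, extMap_lower h1, Complex.conj_conj]
  · have : conj z = z := Complex.conj_eq_iff_im.2 h1
    rw [this]
    exact (Complex.conj_eq_iff_im.2 (h.ext_im_real hz h1)).symm
  · have h2 : (conj z).im < 0 := by rw [Complex.conj_im]; linarith
    rw [extMap_lower h2, extMap_upper h1, Complex.conj_conj]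

lemma isOpen_ext (h : Hyd U g c) : IsOpen (ext U) := by
  rw [isOpen_iff_mem_nhds]
  rintro z (hz | hz | ⟨hz, ε, hε, hz2⟩)
  · filter_upwards [h.isOpen.mem_nhds hz] with w hw
    exact Or.inl hw
  · have h1 : ∀ᶠ w in 𝓝 z, conj w ∈ U :=
      (Complex.continuous_conj.tendsto z).eventually (h.isOpen.mem_nhds hz)
    filter_upwards [h1] with w hw
    exact Or.inr (Or.inl hw)
  · have e : z = ((z.re : ℝ) : ℂ) := Complex.ext (by simp) (by simp [hz])
    filter_upwards [isOpen_ball.mem_nhds (mem_ball_self (x := z) hε)] with w hw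
    rcases lt_trichotomy w.im 0 with h1 | h1 | h1
    · refine Or.inr (Or.inl (hz2 ⟨?_, by rw [mem_UH, Complex.conj_im]; linarith⟩))
      rw [e] at hw ⊢
      exact conj_mem_ball hw
    · refine Or.inr (Or.inr ⟨h1, ε - dist w z, by rw [mem_ball] at hw; linarith, ?_⟩)
      intro v hv
      apply hz2
      refine ⟨?_, hv.2⟩
      have := hv.1
      rw [mem_ball] at this ⊢
      calc dist v z ≤ dist v w + dist w z := dist_triangle _ _ _
        _ < ε := by linarith
    · exact Or.inl (hz2 ⟨hw, h1⟩)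

theorem ext_differentiableOn (h : Hyd U g c) : DifferentiableOn ℂ (extMap g) (ext U) :=
  fun _ hz => (h.ext_differentiableAt hz).differentiableWithinAt

lemma ext_im_pos (h : Hyd U g c) {z : ℂ} (hz : z ∈ ext U) (hz0 : 0 < z.im) :
    z ∈ U ∧ 0 < (extMap g z).im := by
  have hzU : z ∈ U := by
    rcases hz with hz | hz | ⟨hz, _⟩
    · exact hz
    · have := mem_UH.1 (h.sub hz)
      rw [Complex.conj_im] at this
      linarith
    · linarith
  refine ⟨hzU, ?_⟩
  rw [extMap_upper hz0]
  exact h.bij.mapsTo hzU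

lemma ext_im_neg (h : Hyd U g c) {z : ℂ} (hz : z ∈ ext U) (hz0 : z.im < 0) :
    conj z ∈ U ∧ (extMap g z).im < 0 := by
  have h1 := h.ext_im_pos (ext_symm hz) (by rw [Complex.conj_im]; linarith)
  refine ⟨h1.1, ?_⟩
  rw [h.extMap_conj hz, Complex.conj_im] at h1
  linarith [h1.2]

/-- the extension is injective -/
theorem ext_injOn (h : Hyd U g c) : InjOn (extMap g) (ext U) := by
  intro z hz w hw heq
  rcases lt_trichotomy z.im 0 with h1 | h1 | h1
  · have h2 := h.ext_im_neg hz h1
    rcases lt_trichotomy w.im 0 with h3 | h3 | h3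
    · have h4 := h.ext_im_neg hw h3
      rw [extMap_lower h1, extMap_lower h3] at heq
      have h5 := h.bij.injOn h2.1 h4.1 ((starRingEnd ℂ).injective heq)
      exact (starRingEnd ℂ).injective h5
    · exact absurd (h.ext_im_real hw h3) (by rw [← heq]; exact h2.2.ne)
    · exact absurd (h.ext_im_pos hw h3).2 (by rw [← heq]; exact not_lt.2 h2.2.le)
  · have h2 := h.ext_im_real hz h1
    rcases lt_trichotomy w.im 0 with h3 | h3 | h3
    · exact absurd (h.ext_im_neg hw h3).2 (by rw [← heq, h2]; exact lt_irrefl _)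
    · -- both real: open mapping
      by_contra hne
      have hd : 0 < dist z w := dist_pos.2 hne
      have hopen : ∀ v ∈ ext U, v.im = 0 → 𝓝 (extMap g v) ≤ map (extMap g) (𝓝 v) := by
        intro v hv hv0
        have han : AnalyticAt ℂ (extMap g) v :=
          h.ext_differentiableOn.analyticAt (h.isOpen_ext.mem_nhds hv)
        rcases han.eventually_constant_or_nhds_le_map_nhds with h5 | h5
        · exfalso
          have h6 : ∀ᶠ u in 𝓝[UH] v, (extMap g u).im = (extMap g v).im := by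
            filter_upwards [mem_nhdsWithin_of_mem_nhds h5] with u hu
            rw [hu]
          have := neBot_real hv0
          have h7 : ∀ᶠ u in 𝓝[UH] v, u ∈ ext U :=
            mem_nhdsWithin_of_mem_nhds (h.isOpen_ext.mem_nhds hv)
          have h8 : ∀ᶠ u in 𝓝[UH] v, u ∈ UH := self_mem_nhdsWithin
          obtain ⟨u, hu1, hu2, hu3⟩ := (h6.and (h7.and h8)).exists
          rw [h.ext_im_real hv hv0] at hu1
          exact absurd (h.ext_im_pos hu2 hu3).2 (by rw [hu1]; exact lt_irrefl _)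
        · exact h5
      have k1 := hopen z hz h1 (image_mem_map ((h.isOpen_ext.inter
        (isOpen_ball (x := z) (ε := dist z w / 2))).mem_nhds ⟨hz, mem_ball_self (by linarith)⟩))
      have k2 := hopen w hw h3 (image_mem_map ((h.isOpen_ext.inter
        (isOpen_ball (x := w) (ε := dist z w / 2))).mem_nhds ⟨hw, mem_ball_self (by linarith)⟩))
      rw [← heq] at k2
      have := neBot_real h2
      have k3 : ∀ᶠ u in 𝓝[UH] (extMap g z), u ∈ extMap g '' (ext U ∩ ball z (dist z w / 2)) ∩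
          extMap g '' (ext U ∩ ball w (dist z w / 2)) :=
        mem_nhdsWithin_of_mem_nhds (inter_mem k1 k2)
      have k4 : ∀ᶠ u in 𝓝[UH] (extMap g z), u ∈ UH := self_mem_nhdsWithin
      obtain ⟨u, ⟨hu1, hu2⟩, hu3⟩ := (k3.and k4).exists
      obtain ⟨a, ⟨ha1, ha2⟩, ha3⟩ := hu1
      obtain ⟨b, ⟨hb1, hb2⟩, hb3⟩ := hu2
      have pos : ∀ v ∈ ext U, extMap g v = u → 0 < v.im := by
        intro v hv hvu
        by_contra hcon
        push Not at hcon
        rcases hcon.lt_or_eq with h5 | h5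
        · have := (h.ext_im_neg hv h5).2
          rw [hvu] at this
          exact absurd (mem_UH.1 hu3) (not_lt.2 this.le)
        · have := h.ext_im_real hv h5
          rw [hvu] at this
          exact absurd (mem_UH.1 hu3) (by rw [this]; exact lt_irrefl _)
      have pa := pos a ha1 ha3
      have pb := pos b hb1 hb3
      have hab : a = b := by
        apply h.bij.injOn (h.ext_im_pos ha1 pa).1 (h.ext_im_pos hb1 pb).1
        rw [← extMap_upper (g := g) pa, ← extMap_upper (g := g) pb, ha3, hb3]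
      rw [mem_ball] at ha2 hb2
      rw [← hab] at hb2
      have := dist_triangle z a w
      rw [dist_comm z a] at this
      linarith
    · exact absurd (h.ext_im_pos hw h3).2 (by rw [← heq, h2]; exact lt_irrefl _)
  · have h2 := h.ext_im_pos hz h1
    rcases lt_trichotomy w.im 0 with h3 | h3 | h3
    · exact absurd (h.ext_im_neg hw h3).2 (by rw [← heq]; exact not_lt.2 h2.2.le)
    · exact absurd (h.ext_im_real hw h3) (by rw [← heq]; exact h2.2.ne')
    · have h4 := h.ext_im_pos hw h3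
      rw [extMap_upper h1, extMap_upper h3] at heq
      exact h.bij.injOn h2.1 h4.1 heq

end Hyd

end Pool.Agent.H83.Lo
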