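import Pool.Agent.H83.Lo.Refl

set_option autoImplicit false

/-!
# The small hull estimate

If `U` contains `{Im z > 0, |z - x| > r}` then `|g z - z - c/(z-x)| ≤ 6 c r / |z-x|^2` for
`|z-x| > 2 r`.
-/

namespace Pool.Agent.H83.Lo

open Complex Metric Set Filter Topology
open scoped ComplexConjugate

/-- Functions with nonnegative real part on the unit circle (typically real functions). -/
theorem typically_real {φ : ℂ → ℂ} {ρ a : ℝ} (hρ : 1 < ρ) (hφ : DifferentiableOn ℂ φ (ball 0 ρ))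
    (h0 : φ 0 = 0) (ha : 0 ≤ a) (hd : deriv φ 0 = a)
    (hs : ∀ s : ℂ, ‖s‖ = 1 → 0 ≤ s.im * (φ s).im) {s : ℂ} (hs2 : ‖s‖ ≤ 1 / 2) :
    ‖φ s - a * s‖ ≤ 6 * a * ‖s‖ ^ 2 := by
  set q : ℂ → ℂ := fun s => (1 - s ^ 2) * dslope φ 0 s with hq
  have hm0 : (0 : ℂ) ∈ ball (0 : ℂ) ρ := by
    rw [mem_ball_zero_iff, norm_zero]; linarith
  have hds : DifferentiableOn ℂ (dslope φ 0) (ball 0 ρ) :=
    (Complex.differentiableOn_dslope (isOpen_ball.mem_nhds hm0)).2 hφ
  have hqd : DifferentiableOn ℂ q (ball 0 ρ) := by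
    apply DifferentiableOn.mul _ hds
    exact (differentiableOn_const _).sub (differentiableOn_id.pow 2)
  have hq0 : q 0 = a := by simp [hq, hd]
  -- on the unit circle the real part is nonnegative
  have hcirc : ∀ s : ℂ, ‖s‖ = 1 → 0 ≤ (q s).re := by
    intro s hs1
    have hs0 : s ≠ 0 := by
      intro h
      rw [h, norm_zero] at hs1
      exact zero_ne_one hs1
    have e1 : q s = (conj s - s) * φ s := by
      simp only [hq]
      rw [dslope_of_ne _ hs0, slope_def_field, h0, sub_zero, sub_zero]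
      have h2 : s * conj s = 1 := by
        rw [Complex.mul_conj, Complex.normSq_eq_norm_sq, hs1]
        simp
      field_simp
      linear_combination (-(φ s)) * h2
    have e2 : (q s).re = 2 * (s.im * (φ s).im) := by
      rw [e1, Complex.mul_re, Complex.sub_re, Complex.sub_im, Complex.conj_re, Complex.conj_im]
      ring
    rw [e2]
    have := hs s hs1
    linarith
  -- inside the unit disc
  have hin : ∀ s ∈ ball (0 : ℂ) 1, 0 ≤ (q s).re := by
    intro s hs1
    have hsub : closedBall (0 : ℂ) 1 ⊆ ball 0 ρ := closedBall_subset_ball hρ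
    have hE : DiffContOnCl ℂ (fun s => Complex.exp (-q s)) (ball 0 1) := by
      apply DifferentiableOn.diffContOnCl
      rw [closure_ball _ one_ne_zero]
      exact ((hqd.mono hsub).neg).cexp
    have h1 := Complex.norm_le_of_forall_mem_frontier_norm_le (C := 1) isBounded_ball hE (by
      intro z hz
      rw [frontier_ball _ one_ne_zero, mem_sphere_zero_iff_norm] at hz
      rw [Complex.norm_exp, Complex.neg_re]
      have := hcirc z hz
      rw [Real.exp_le_one_iff]
      linarith) (subset_closure hs1)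
    rw [Complex.norm_exp, Complex.neg_re, Real.exp_le_one_iff] at h1
    linarith
  have hs1 : s ∈ ball (0 : ℂ) 1 := by rw [mem_ball_zero_iff]; linarith
  -- Borel-Caratheodory
  have hBC : ‖(a : ℂ) - q s‖ ≤ 2 * a * ‖s‖ / (1 - ‖s‖) := by
    have hden : 0 < 1 - ‖s‖ := by linarith
    have key : ∀ δ : ℝ, 0 < δ → ‖(a : ℂ) - q s‖ ≤ 2 * (a + δ) * ‖s‖ / (1 - ‖s‖) := by
      intro δ hδ
      apply Complex.borelCaratheodory_zero (M := a + δ) (R := 1) (f := fun s => (a : ℂ) - q s)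
        (by linarith) ((differentiableOn_const _).sub (hqd.mono (ball_subset_ball hρ.le)))
        _ one_pos hs1 (by simp [hq0])
      intro z hz
      have := hin z hz
      show ((a : ℂ) - q z).re ≤ a + δ
      rw [Complex.sub_re, Complex.ofReal_re]
      linarith
    have l2 : Tendsto (fun δ : ℝ => 2 * (a + δ) * ‖s‖ / (1 - ‖s‖)) (𝓝[>] 0)
        (𝓝 (2 * a * ‖s‖ / (1 - ‖s‖))) := by
      have : Continuous (fun δ : ℝ => 2 * (a + δ) * ‖s‖ / (1 - ‖s‖)) := by fun_prop
      have h2 := this.tendsto 0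
      simp only [add_zero] at h2
      exact h2.mono_left nhdsWithin_le_nhds
    apply ge_of_tendsto l2
    filter_upwards [self_mem_nhdsWithin] with δ hδ
    exact key δ hδ
  rcases eq_or_ne s 0 with hs0 | hs0
  · rw [hs0, h0]; simp
  have hsn : 0 < ‖s‖ := norm_pos_iff.2 hs0
  have hden : (1 : ℂ) - s ^ 2 ≠ 0 := by
    intro h
    have h1 : s ^ 2 = 1 := by linear_combination -h
    have h2 : ‖s‖ ^ 2 = 1 := by rw [← norm_pow, h1, norm_one]
    nlinarith
  have e3 : φ s - a * s = s * ((q s - a) + a * s ^ 2) / (1 - s ^ 2) := by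
    simp only [hq]
    rw [dslope_of_ne _ hs0, slope_def_field, h0, sub_zero, sub_zero]
    field_simp
    ring
  have hden2 : 3 / 4 ≤ ‖(1 : ℂ) - s ^ 2‖ := by
    have h1 : ‖(1 : ℂ)‖ - ‖s ^ 2‖ ≤ ‖(1 : ℂ) - s ^ 2‖ := norm_sub_norm_le _ _
    rw [norm_one, norm_pow] at h1
    nlinarith
  have h4 : ‖(a : ℂ) - q s‖ ≤ 4 * a * ‖s‖ := by
    refine hBC.trans ?_
    rw [div_le_iff₀ (by linarith)]
    nlinarith [mul_nonneg ha hsn.le]
  rw [e3, norm_div, norm_mul, div_le_iff₀ (by linarith)]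
  have h5 : ‖(q s - a) + a * s ^ 2‖ ≤ 4 * a * ‖s‖ + a * ‖s‖ ^ 2 := by
    refine (norm_add_le _ _).trans ?_
    rw [norm_sub_rev, norm_mul, norm_pow, Complex.norm_real, Real.norm_eq_abs, abs_of_nonneg ha]
    gcongr
  calc ‖s‖ * ‖(q s - a) + a * s ^ 2‖ ≤ ‖s‖ * (4 * a * ‖s‖ + a * ‖s‖ ^ 2) := by gcongr
    _ = a * ‖s‖ ^ 2 * (4 + ‖s‖) := by ring
    _ ≤ a * ‖s‖ ^ 2 * (6 * (3 / 4)) := by
        gcongr
        linarith
    _ ≤ a * ‖s‖ ^ 2 * (6 * ‖(1 : ℂ) - s ^ 2‖) := by gcongr
    _ = 6 * a * ‖s‖ ^ 2 * ‖(1 : ℂ) - s ^ 2‖ := by ring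

namespace Hyd

variable {U : Set ℂ} {g : ℂ → ℂ} {c : ℝ}

/-- the exterior of the disc belongs to the extended domain -/
lemma ext_of_ext {x r : ℝ} (hU : ∀ z : ℂ, r < ‖z - x‖ → z ∈ UH → z ∈ U) {z : ℂ}
    (hz : r < ‖z - x‖) : z ∈ ext U := by
  rcases lt_trichotomy z.im 0 with h | h | h
  · refine Or.inr (Or.inl (hU _ ?_ (by rw [mem_UH, Complex.conj_im]; linarith)))
    have : conj z - x = conj (z - x) := by rw [map_sub, Complex.conj_ofReal]
    rwa [this, RCLike.norm_conj]
  · refine Or.inr (Or.inr ⟨h, ‖z - x‖ - r, by linarith, ?_⟩)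
    intro w hw
    apply hU w _ hw.2
    have h1 := hw.1
    rw [mem_ball, dist_eq_norm] at h1
    have h2 : ‖z - x‖ ≤ ‖w - x‖ + ‖w - z‖ := by
      calc ‖z - x‖ = ‖(w - x) - (w - z)‖ := by congr 1; ring
        _ ≤ _ := _root_.norm_sub_le _ _
    linarith
  · exact Or.inl (hU z hz h)

/-- The extension is close to the identity near infinity. -/
lemma ext_near (h : Hyd U g c) {δ : ℝ} (hδ : 0 < δ) :
    ∃ R : ℝ, 0 < R ∧ ∀ z : ℂ, R < ‖z‖ → z ∈ ext U ∧ ‖extMap g z - z‖ ≤ δ := by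
  have h1 : ∀ᶠ z in atUH, z ∈ U ∧ ‖g z - z‖ < δ := by
    filter_upwards [h.mem_far, (tendsto_zero_iff_norm_tendsto_zero.1 h.tendsto_sub).eventually_lt
      (tendsto_const_nhds (x := δ)) hδ] with z h2 h3
    exact ⟨h2, h3⟩
  obtain ⟨R, hR⟩ := eventually_atUH.1 h1
  have hext : ∀ z : ℂ, R < ‖z‖ → z ∈ ext U := by
    intro z hz
    apply ext_of_ext (x := 0) (r := R) (U := U)
    · intro w hw hw2
      rw [Complex.ofReal_zero, sub_zero] at hw
      exact (hR w hw hw2).1
    · rwa [Complex.ofReal_zero, sub_zero]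
  refine ⟨max R 0 + 1, by positivity, fun z hz => ?_⟩
  have hzR : R < ‖z‖ := by
    have := le_max_left R 0
    linarith
  refine ⟨hext z hzR, ?_⟩
  rcases lt_trichotomy z.im 0 with h2 | h2 | h2
  · rw [extMap_lower h2]
    have h3 : (conj z) ∈ UH := by rw [mem_UH, Complex.conj_im]; linarith
    have h4 := (hR (conj z) (by rwa [RCLike.norm_conj]) h3).2
    have e : conj (g (conj z)) - z = conj (g (conj z) - conj z) := by
      rw [map_sub, Complex.conj_conj]
    rw [e, RCLike.norm_conj]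
    exact h4.le
  · -- real points: by continuity
    have hne := neBot_real h2
    have h3 : Tendsto (fun w => ‖extMap g w - w‖) (𝓝[UH] z) (𝓝 ‖extMap g z - z‖) := by
      have hc : ContinuousAt (fun w => ‖extMap g w - w‖) z :=
        ((h.ext_differentiableAt (hext z hzR)).continuousAt.sub continuousAt_id).norm
      exact hc.tendsto.mono_left nhdsWithin_le_nhds
    apply le_of_tendsto h3
    have h4 : ∀ᶠ w in 𝓝[UH] z, R < ‖w‖ :=
      mem_nhdsWithin_of_mem_nhds ((isOpen_lt continuous_const continuous_norm).mem_nhds hzR)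
    have h5 : ∀ᶠ w in 𝓝[UH] z, w ∈ UH := self_mem_nhdsWithin
    filter_upwards [h4, h5] with w hw1 hw2
    rw [extMap_upper (mem_UH.1 hw2)]
    exact (hR w hw1 hw2).2.le
  · rw [extMap_upper h2]
    exact (hR z hzR h2).2.le

/-- the imaginary part of `extMap g z - z` has the opposite sign of `Im z` -/
lemma ext_sub_im (h : Hyd U g c) {z : ℂ} (hz : z ∈ ext U) :
    z.im * (extMap g z - z).im ≤ 0 := by
  rcases lt_trichotomy z.im 0 with h1 | h1 | h1
  · have h2 := h.ext_im_neg hz h1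
    have h3 := h.im_le h2.1
    rw [extMap_lower h1, Complex.sub_im, Complex.conj_im]
    rw [Complex.conj_im] at h3
    nlinarith
  · rw [h1, zero_mul]
  · have h2 := h.ext_im_pos hz h1
    have h3 := h.im_le h2.1
    rw [extMap_upper h1, Complex.sub_im]
    nlinarith

/-- The small hull estimate, core version. -/
theorem small_core (h : Hyd U g c) {x r r' : ℝ} (hr : 0 ≤ r) (hrr : r < r')
    (hU : ∀ z : ℂ, r < ‖z - x‖ → z ∈ UH → z ∈ U) {z : ℂ} (hz : 2 * r' ≤ ‖z - x‖) :
    ‖extMap g z - z - c / (z - x)‖ ≤ 6 * c * r' / ‖z - x‖ ^ 2 := by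
  have hr' : 0 < r' := by linarith
  have hc := h.nonneg
  -- choose `ρ > 1` with `r' / ρ > r`
  obtain ⟨ρ, hρ1, hρ2⟩ : ∃ ρ : ℝ, 1 < ρ ∧ r * ρ < r' := by
    rcases eq_or_lt_of_le hr with h0 | h0
    · exact ⟨2, by norm_num, by rw [← h0]; linarith⟩
    · have h1 : 1 < r' / r := by rwa [lt_div_iff₀ h0, one_mul]
      obtain ⟨ρ, h2, h3⟩ := exists_between h1
      refine ⟨ρ, h2, ?_⟩
      rw [lt_div_iff₀ h0] at h3
      linarith
  set Z : ℂ → ℂ := fun s => x + r' / s with hZ
  set φ : ℂ → ℂ := fun s => if s = 0 then 0 else extMap g (Z s) - Z s with hφ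
  have hr'c : (r' : ℂ) ≠ 0 := by exact_mod_cast hr'.ne'
  have hZx : ∀ s : ℂ, ‖Z s - x‖ = r' / ‖s‖ := by
    intro s
    simp only [hZ]
    rw [add_sub_cancel_left, norm_div, Complex.norm_real, Real.norm_eq_abs, abs_of_pos hr']
  have hZext : ∀ s : ℂ, s ≠ 0 → s ∈ ball (0 : ℂ) ρ → Z s ∈ ext U := by
    intro s hs0 hs
    apply ext_of_ext hU
    rw [hZx]
    have hsn : 0 < ‖s‖ := norm_pos_iff.2 hs0
    rw [lt_div_iff₀ hsn]
    rw [mem_ball_zero_iff] at hs
    calc r * ‖s‖ ≤ r * ρ := by gcongr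
      _ < r' := hρ2
  have hφd' : ∀ s : ℂ, s ≠ 0 → s ∈ ball (0 : ℂ) ρ → DifferentiableAt ℂ φ s := by
    intro s hs0 hs
    have hZd : DifferentiableAt ℂ Z s :=
      (differentiableAt_const _).add ((differentiableAt_const _).div differentiableAt_id hs0)
    have h1 : DifferentiableAt ℂ (fun s => extMap g (Z s) - Z s) s :=
      ((h.ext_differentiableAt (hZext s hs0 hs)).comp s hZd).sub hZd
    apply h1.congr_of_eventuallyEq
    filter_upwards [isOpen_ne.mem_nhds hs0] with w hw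
    have : w ≠ 0 := hw
    simp [hφ, this]
  have hφ0 : φ 0 = 0 := by simp [hφ]
  have hφc : ContinuousAt φ 0 := by
    rw [Metric.continuousAt_iff]
    intro ε hε
    obtain ⟨R, hR, hn⟩ := h.ext_near (δ := ε / 2) (by positivity)
    refine ⟨r' / (R + |x| + 1), by positivity, fun {s} hs => ?_⟩
    rw [hφ0, dist_zero_right]
    rw [dist_zero_right] at hs
    by_cases hs0 : s = 0
    · simp [hφ, hs0, hε]
    · have hsn : 0 < ‖s‖ := norm_pos_iff.2 hs0
      simp only [hφ, hs0, if_false]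
      have h1 : R < ‖Z s‖ := by
        have h2 : R + |x| + 1 < r' / ‖s‖ := by
          rw [lt_div_iff₀ hsn]
          rw [lt_div_iff₀ (by positivity)] at hs
          linarith
        have h3 : ‖Z s - x‖ ≤ ‖Z s‖ + ‖(x : ℂ)‖ := _root_.norm_sub_le _ _
        rw [hZx, Complex.norm_real, Real.norm_eq_abs] at h3
        linarith
      have := (hn _ h1).2
      linarith
  have hφd : DifferentiableOn ℂ φ (ball 0 ρ) := by
    have hm0 : (0 : ℂ) ∈ ball (0 : ℂ) ρ := by rw [mem_ball_zero_iff, norm_zero]; linarith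
    apply (differentiableOn_compl_singleton_and_continuousAt_iff (isOpen_ball.mem_nhds hm0)).1
    refine ⟨?_, hφc⟩
    intro s hs
    exact (hφd' s hs.2 hs.1).differentiableWithinAt
  have hφ' : deriv φ 0 = ((c / r' : ℝ) : ℂ) := by
    have hm0 : (0 : ℂ) ∈ ball (0 : ℂ) ρ := by rw [mem_ball_zero_iff, norm_zero]; linarith
    have h1 : HasDerivAt φ (deriv φ 0) 0 :=
      (hφd.differentiableAt (isOpen_ball.mem_nhds hm0)).hasDerivAt
    have h2 := hasDerivAt_iff_tendsto_slope.1 h1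
    -- along `s = r' / (i y)`
    have h3 : Tendsto (fun y : ℝ => (r' : ℂ) / (y * I)) atTop (𝓝[≠] 0) := by
      rw [tendsto_nhdsWithin_iff]
      constructor
      · have h4 := (tendsto_inv_atUH.comp tendsto_iy).const_mul (r' : ℂ)
        rw [mul_zero] at h4
        exact h4
      · filter_upwards [eventually_gt_atTop 0] with y hy
        have hy0 : (y : ℂ) ≠ 0 := by exact_mod_cast hy.ne'
        simp only [mem_compl_iff, mem_singleton_iff]
        exact div_ne_zero hr'c (mul_ne_zero hy0 Complex.I_ne_zero)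
    have h5 := h2.comp h3
    -- the limit of `(1/r') * (z - x) * (g z - z)` with `z = x + i y`
    have h6 := ((h.translate x).lim.comp tendsto_iy).const_mul ((r' : ℂ)⁻¹)
    have e : ((c / r' : ℝ) : ℂ) = (r' : ℂ)⁻¹ * c := by push_cast; ring
    rw [e]
    apply tendsto_nhds_unique h5
    apply h6.congr'
    filter_upwards [eventually_gt_atTop 0] with y hy
    have hy0 : (y : ℂ) ≠ 0 := by exact_mod_cast hy.ne'
    have hyI : (y * I : ℂ) ≠ 0 := mul_ne_zero hy0 Complex.I_ne_zero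
    have hs0 : (r' : ℂ) / (y * I) ≠ 0 := div_ne_zero hr'c hyI
    simp only [Function.comp]
    rw [slope_def_field, hφ0, sub_zero, sub_zero]
    simp only [hφ, hs0, if_false]
    have e1 : Z ((r' : ℂ) / (y * I)) = y * I + x := by
      simp only [hZ]
      field_simp
      ring
    rw [e1, extMap_upper (by simpa using hy)]
    field_simp
    ring
  -- signs
  have hsign : ∀ s : ℂ, ‖s‖ = 1 → 0 ≤ s.im * (φ s).im := by
    intro s hs1
    have hs0 : s ≠ 0 := by
      intro h
      rw [h, norm_zero] at hs1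
      exact zero_ne_one hs1
    simp only [hφ, hs0, if_false]
    have h1 := h.ext_sub_im (hZext s hs0 (by rw [mem_ball_zero_iff, hs1]; exact hρ1))
    have h2 : (Z s).im = -(r' * s.im) := by
      simp only [hZ]
      rw [Complex.add_im, Complex.ofReal_im, zero_add, Complex.div_im]
      simp only [Complex.ofReal_im, Complex.ofReal_re, zero_mul, zero_div, zero_sub,
        Complex.normSq_eq_norm_sq, hs1, one_pow, div_one]
    rw [h2] at h1
    have h3 : 0 ≤ r' * (s.im * (extMap g (Z s) - Z s).im) := by nlinarith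
    exact nonneg_of_mul_nonneg_right h3 hr'
  -- conclusion
  have hzx : 0 < ‖z - x‖ := by linarith
  have hzx0 : z - (x : ℂ) ≠ 0 := norm_pos_iff.1 hzx
  set s : ℂ := r' / (z - x) with hs
  have hs0 : s ≠ 0 := div_ne_zero hr'c hzx0
  have hsn : ‖s‖ = r' / ‖z - x‖ := by
    rw [hs, norm_div, Complex.norm_real, Real.norm_eq_abs, abs_of_pos hr']
  have hs2 : ‖s‖ ≤ 1 / 2 := by
    rw [hsn, div_le_div_iff₀ hzx (by norm_num)]
    linarith
  have hfin := typically_real hρ1 hφd hφ0 (a := c / r') (by positivity) hφ' hsign hs2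
  have e1 : Z s = z := by
    simp only [hZ, hs]
    field_simp
    ring
  have e2 : φ s = extMap g z - z := by
    simp only [hφ, hs0, if_false, e1]
  rw [e2, hsn] at hfin
  have e3 : ((c / r' : ℝ) : ℂ) * s = c / (z - x) := by
    rw [hs]
    push_cast
    field_simp
  rw [e3] at hfin
  refine hfin.trans (le_of_eq ?_)
  field_simp

/-- **The small hull estimate.** -/
theorem small (h : Hyd U g c) {x r : ℝ} (hr : 0 ≤ r)
    (hU : ∀ z : ℂ, r < ‖z - x‖ → z ∈ UH → z ∈ U) {z : ℂ} (hz : 2 * r < ‖z - x‖) :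
    ‖extMap g z - z - c / (z - x)‖ ≤ 6 * c * r / ‖z - x‖ ^ 2 := by
  have l2 : Tendsto (fun r' : ℝ => 6 * c * r' / ‖z - x‖ ^ 2) (𝓝[>] r)
      (𝓝 (6 * c * r / ‖z - x‖ ^ 2)) := by
    have : Continuous (fun r' : ℝ => 6 * c * r' / ‖z - x‖ ^ 2) := by fun_prop
    exact (this.tendsto r).mono_left nhdsWithin_le_nhds
  apply ge_of_tendsto l2
  have h1 : r < ‖z - x‖ / 2 := by linarith
  filter_upwards [Ioo_mem_nhdsGT h1] with r' hr'
  exact h.small_core hr hr'.1 hU (by linarith [hr'.2])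

/-- The small hull estimate for points of the upper half plane. -/
theorem small_upper (h : Hyd U g c) {x r : ℝ} (hr : 0 ≤ r)
    (hU : ∀ z : ℂ, r < ‖z - x‖ → z ∈ UH → z ∈ U) {z : ℂ} (hz : 2 * r < ‖z - x‖) (hz2 : z ∈ UH) :
    ‖g z - z - c / (z - x)‖ ≤ 6 * c * r / ‖z - x‖ ^ 2 := by
  have := h.small hr hU hz
  rwa [extMap_upper (mem_UH.1 hz2)] at this

end Hyd

end Pool.Agent.H83.Lo
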